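import Pool.Agent.Lib.MP_62a5ad_mp.PN.Spec

/-!
# MP_62a5ad_mp, PN: the complement of the zero set of an analytic function is dense
-/

set_option autoImplicit false

namespace Pool.Agent.MP62a5ad.PN

/-- The complement of the zero set of an analytic function is open and dense. -/
theorem tAn : S_An := by
  intro E _ _ P hP hx
  obtain ⟨x0, hx0⟩ := hx
  have hc : Continuous P := continuousOn_univ.1 hP.continuousOn
  refine ⟨isOpen_ne_fun hc continuous_const, ?_⟩
  rw [dense_iff_inter_open]
  intro O hO hOne
  by_contra hcon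
  rw [Set.not_nonempty_iff_eq_empty] at hcon
  obtain ⟨z, hz⟩ := hOne
  have hev : P =ᶠ[nhds z] 0 := by
    filter_upwards [hO.mem_nhds hz] with w hw
    by_contra hne
    have h1 : w ∈ O ∩ {x | P x ≠ 0} := ⟨hw, hne⟩
    rw [hcon] at h1
    exact h1
  have h2 := hP.eqOn_zero_of_preconnected_of_eventuallyEq_zero isPreconnected_univ
    (Set.mem_univ z) hev
  exact hx0 (h2 (Set.mem_univ x0))

end Pool.Agent.MP62a5ad.PN
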