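import Pool.Agent.Lib.MP_62a5ad_mp.PN.Spec

/-! # MP_62a5ad_mp, PN: the algebra of the matrices which commute with `M` -/

set_option autoImplicit false

namespace Pool.Agent.MP62a5ad.PN

open Matrix

namespace BrgAux

theorem mono0 (z : E6) : mono z *ᵥ e0 = ![0, 1, 0, 0] := by
  ext i
  fin_cases i <;> simp [mono, e0, Matrix.mulVec, dotProduct, Fin.sum_univ_four]

theorem mono1 (z : E6) : mono z *ᵥ ![0, 1, 0, 0] = ![0, 0, 1, 0] := by
  ext i
  fin_cases i <;> simp [mono, Matrix.mulVec, dotProduct, Fin.sum_univ_four]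

theorem mono2 (z : E6) : mono z *ᵥ ![0, 0, 1, 0] = ![0, 0, 0, 1] := by
  ext i
  fin_cases i <;> simp [mono, Matrix.mulVec, dotProduct, Fin.sum_univ_four]

/-- The matrix `v 0 + v 1 M + v 2 M² + v 3 M³`. -/
def gm (z : E6) (v : V4) : M4 :=
  v 0 • (1 : M4) + v 1 • mono z + v 2 • (mono z * mono z) + v 3 • (mono z * (mono z * mono z))

theorem gm_e0 (z : E6) (v : V4) : gm z v *ᵥ e0 = v := by
  unfold gm
  rw [Matrix.add_mulVec, Matrix.add_mulVec, Matrix.add_mulVec, Matrix.smul_mulVec,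
    Matrix.smul_mulVec, Matrix.smul_mulVec, Matrix.smul_mulVec, Matrix.one_mulVec,
    ← Matrix.mulVec_mulVec, ← Matrix.mulVec_mulVec, ← Matrix.mulVec_mulVec, mono0, mono1, mono2]
  ext i
  fin_cases i <;> simp [e0]

theorem gm_com (z : E6) (v : V4) : gm z v * mono z = mono z * gm z v := by
  unfold gm
  simp only [add_mul, mul_add, smul_mul_assoc, mul_smul_comm, one_mul, mul_one, mul_assoc]

theorem zero_of (z : E6) (g : M4) (hg : g * mono z = mono z * g) (h0 : g *ᵥ e0 = 0) : g = 0 := by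
  have h1 : g *ᵥ ![0, 1, 0, 0] = 0 := by
    rw [← mono0 z, Matrix.mulVec_mulVec, hg, ← Matrix.mulVec_mulVec, h0, Matrix.mulVec_zero]
  have h2 : g *ᵥ ![0, 0, 1, 0] = 0 := by
    rw [← mono1 z, Matrix.mulVec_mulVec, hg, ← Matrix.mulVec_mulVec, h1, Matrix.mulVec_zero]
  have h3 : g *ᵥ ![0, 0, 0, 1] = 0 := by
    rw [← mono2 z, Matrix.mulVec_mulVec, hg, ← Matrix.mulVec_mulVec, h2, Matrix.mulVec_zero]
  ext i j
  have k0 := congrFun h0 i
  have k1 := congrFun h1 i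
  have k2 := congrFun h2 i
  have k3 := congrFun h3 i
  simp [e0, Matrix.mulVec, dotProduct, Fin.sum_univ_four] at k0 k1 k2 k3
  fin_cases j
  · exact k0
  · exact k1
  · exact k2
  · exact k3

end BrgAux

open BrgAux

theorem tBrg (hFam : S_Fam) (hDt : S_Dt) : S_Brg := by
  intro t ht z hz
  obtain ⟨hz2, hK⟩ := hz
  obtain ⟨-, hcom, -⟩ := hFam
  obtain ⟨-, -, -, -, hrel⟩ := hDt t ht z ⟨hz2, hK⟩
  have htc := ht.com z hz2
  let S : Subalgebra ℝ M4 := Subalgebra.centralizer ℝ {mono z}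
  have hmem : ∀ g : M4, g ∈ S ↔ g * mono z = mono z * g := by
    intro g
    rw [Subalgebra.mem_centralizer_iff]
    simp only [Set.mem_singleton_iff, forall_eq]
    exact eq_comm
  letI : CommRing S := { (inferInstance : Ring S) with
    mul_comm := fun a a' => Subtype.ext (hcom z a.1 a'.1 ((hmem _).1 a.2) ((hmem _).1 a'.2)) }
  let ι : S →ₐ[ℝ] M4 := S.val
  have hιinj : Function.Injective ι := Subtype.val_injective
  have hιcom : ∀ a, ι a * mono z = mono z * ι a := fun a => (hmem _).1 a.2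
  have hιsur : ∀ g : M4, g * mono z = mono z * g → ∃ a, ι a = g :=
    fun g hg => ⟨⟨g, (hmem g).2 hg⟩, rfl⟩
  have hinj0 : ∀ a : S, ι a *ᵥ e0 = 0 → a = 0 := fun a h =>
    hιinj (by rw [zero_of z (ι a) (hιcom a) h, map_zero])
  have hsur0 : ∀ v : V4, ∃ a, ι a *ᵥ e0 = v := fun v => by
    obtain ⟨a, ha⟩ := hιsur (gm z v) (gm_com z v)
    exact ⟨a, by rw [ha, gm_e0]⟩
  -- the linear isomorphism `a ↦ ι a e0`
  let φ₀ : S →ₗ[ℝ] V4 :=
    { toFun := fun a => ι a *ᵥ e0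
      map_add' := fun a a' => by rw [map_add, Matrix.add_mulVec]
      map_smul' := fun c a => by rw [map_smul, Matrix.smul_mulVec, RingHom.id_apply] }
  have hφ₀ : ∀ a, φ₀ a = ι a *ᵥ e0 := fun a => rfl
  let φ : S ≃ₗ[ℝ] V4 := LinearEquiv.ofBijective φ₀
    ⟨(injective_iff_map_eq_zero φ₀).2 hinj0, hsur0⟩
  have hφ : ∀ a, φ a = ι a *ᵥ e0 := fun a => rfl
  have hKu : IsUnit (Kt t z).det := hK.isUnit
  let ψ : V4 ≃ₗ[ℝ] V4 := 
    LinearEquiv.ofLinear (Matrix.toLin' (Kt t z)⁻¹) (Matrix.toLin' (Kt t z))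
      (by rw [← Matrix.toLin'_mul, Matrix.nonsing_inv_mul _ hKu, Matrix.toLin'_one])
      (by rw [← Matrix.toLin'_mul, Matrix.mul_nonsing_inv _ hKu, Matrix.toLin'_one])
  have hψ : ∀ v, ψ v = (Kt t z)⁻¹ *ᵥ v := fun v => rfl
  let b : Module.Basis (Fin 4) ℝ S := Module.Basis.ofEquivFun (φ.trans ψ)
  have hb : ∀ a i, b.repr a i = ((Kt t z)⁻¹ *ᵥ (ι a *ᵥ e0)) i := by
    intro a i
    rw [← Module.Basis.equivFun_apply, Module.Basis.equivFun_ofEquivFun]
    rfl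
  obtain ⟨τ, hτ⟩ := hιsur (t z) htc
  have hpow : ∀ i : Fin 4, ι (τ ^ (i : ℕ)) *ᵥ e0 = Kt t z *ᵥ Pi.single i 1 := by
    intro i
    rw [map_pow, hτ]
    ext k
    rw [Matrix.mulVec_single_one]
    rfl
  refine ⟨S, inferInstance, inferInstance, ι, b, τ, ⟨?_, ?_⟩, hτ, hιinj, hιcom, hιsur, ?_, ?_, hb,
    hsur0, ?_, ?_⟩
  · intro i
    apply b.repr.injective
    ext k
    rw [Module.Basis.repr_self, Finsupp.single_apply, hb, hpow, Matrix.mulVec_mulVec,
      Matrix.nonsing_inv_mul _ hKu, Matrix.one_mulVec, Pi.single_apply]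
    simp [eq_comm]
  · apply hιinj
    rw [map_zero, ← hrel]
    simp only [map_add, map_smul, map_pow, hτ, map_one]
  · intro a
    rw [Algebra.norm_apply]
    have h1 : Matrix.toLin' (ι a) = (φ : S →ₗ[ℝ] V4) ∘ₗ (Algebra.lmul ℝ S a) ∘ₗ
        (φ.symm : V4 →ₗ[ℝ] S) := by
      apply LinearMap.ext
      intro v
      obtain ⟨a', ha'⟩ := hsur0 v
      have h2 : φ.symm v = a' := by
        rw [LinearEquiv.symm_apply_eq, hφ, ha']
      simp only [LinearMap.coe_comp, Function.comp_apply, LinearEquiv.coe_coe, h2, hφ]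
      rw [Matrix.toLin'_apply, ← ha', Matrix.mulVec_mulVec, ← map_mul]
      rfl
    rw [← LinearMap.det_toLin', h1, LinearMap.det_conj]
  · intro a
    exact hb a 3
  · intro a a' h
    exact φ.injective h
  · intro a ha
    have hu : IsUnit (ι a).det := ha.isUnit
    have hc : (ι a)⁻¹ * mono z = mono z * (ι a)⁻¹ := by
      calc (ι a)⁻¹ * mono z = (ι a)⁻¹ * (mono z * ι a) * (ι a)⁻¹ := by
            rw [mul_assoc, mul_assoc, Matrix.mul_nonsing_inv _ hu, mul_one]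
        _ = (ι a)⁻¹ * (ι a * mono z) * (ι a)⁻¹ := by rw [hιcom]
        _ = mono z * (ι a)⁻¹ := by
            rw [← mul_assoc, Matrix.nonsing_inv_mul _ hu, one_mul]
    obtain ⟨a', ha'⟩ := hιsur _ hc
    refine ⟨a', hιinj ?_, ha'⟩
    rw [map_mul, ha', Matrix.mul_nonsing_inv _ hu, map_one]

end Pool.Agent.MP62a5ad.PN
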