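import Pool.Agent.Lib.MP_62a5ad_mp.PN.Spec

/-!
# MP_62a5ad_mp, PN/Cas: the offsets of `T_{I,I}`, `I = (a, b)`
-/

set_option autoImplicit false

namespace Pool.Agent.MP62a5ad.PN

namespace CasAux

theorem swap23 (x y z : V4) : ({x, y, z} : Set V4) = {x, z, y} := by
  ext w
  simp only [Set.mem_insert_iff, Set.mem_singleton_iff]
  tauto

theorem rot (x y z : V4) : ({x, y, z} : Set V4) = {y, z, x} := by
  ext w
  simp only [Set.mem_insert_iff, Set.mem_singleton_iff]
  tauto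

/-- `a` even. -/
theorem plane1 (a b e : ℕ) (he : a = e + e) (v : ℤ → V4) (j : ℤ) :
    plane a b v j = Tri e ((a : ℤ) + b) v j := by
  unfold plane Tri
  rw [show j + (a : ℤ) + b = j + ((a : ℤ) + b) by omega, show j + (a : ℤ) = j + 2 * (e : ℤ) by omega]

/-- `a` and `b` odd. -/
theorem plane2 (a b e : ℕ) (he : a + b = e + e) (v : ℤ → V4) (j : ℤ) :
    plane a b v j = Tri e (a : ℤ) v j := by
  unfold plane Tri
  rw [show j + (a : ℤ) + b = j + 2 * (e : ℤ) by omega, swap23]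

/-- `a` odd, `b` even. -/
theorem plane3 (a b e : ℕ) (he : b = e + e) (v : ℤ → V4) (j : ℤ) :
    plane a b v j = Tri e (-(a : ℤ)) v (j + a) := by
  unfold plane Tri
  rw [show j + (a : ℤ) + b = j + (a : ℤ) + 2 * (e : ℤ) by omega,
    show j + (a : ℤ) + -(a : ℤ) = j by omega, rot]

end CasAux

open CasAux in
theorem tCas : S_Cas := by
  intro a b ha hb hab hev
  rcases Nat.even_or_odd a with hea | hoa
  · have hob : Odd b := by
      rcases Nat.even_or_odd b with h | h
      · exact absurd ⟨hea, h⟩ hev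
      · exact h
    obtain ⟨e, he⟩ := hea
    obtain ⟨f, hf⟩ := hob
    refine ⟨e, (a : ℤ) + b, 0, by omega, ⟨(e : ℤ) + f, by omega⟩, by omega, ?_⟩
    intro v w h k
    obtain ⟨h1, h2, h3⟩ := h k
    have hk : k + 2 * (0 : ℤ) = k := by omega
    simp only [hk]
    refine ⟨by rw [plane1 a b e he]; exact h1, h2, ?_⟩
    rw [plane1 a b e he, plane1 a b e he, plane1 a b e he, ← h3,
      show k + (a : ℤ) + b = k + ((a : ℤ) + b) by omega, show k + (a : ℤ) = k + 2 * (e : ℤ) by omega]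
  · obtain ⟨g, hg⟩ := hoa
    rcases Nat.even_or_odd b with heb | hob
    · obtain ⟨e, he⟩ := heb
      refine ⟨e, -(a : ℤ), a, by omega, ⟨-(g : ℤ) - 1, by omega⟩, by omega, ?_⟩
      intro v w h k
      obtain ⟨h1, -, -⟩ := h (k + a)
      obtain ⟨-, h2, h3⟩ := h (k + 2 * (a : ℤ))
      refine ⟨by rw [plane3 a b e he]; exact h1, h2, ?_⟩
      rw [plane3 a b e he, plane3 a b e he, plane3 a b e he, ← h3,
        show k + (a : ℤ) + b + a = k + 2 * (a : ℤ) + 2 * (e : ℤ) by omega,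
        show k + (a : ℤ) + a = k + 2 * (a : ℤ) by omega,
        show k + 2 * (a : ℤ) + -(a : ℤ) = k + a by omega]
      rw [inf_comm (Tri e (-(a : ℤ)) v (k + (a : ℤ))), inf_assoc, inf_comm (Tri e (-(a : ℤ)) v (k + (a : ℤ))),
        ← inf_assoc]
    · obtain ⟨f, hf⟩ := hob
      refine ⟨g + f + 1, (a : ℤ), 0, by omega, ⟨(g : ℤ), by omega⟩, by omega, ?_⟩
      intro v w h k
      have he : a + b = (g + f + 1) + (g + f + 1) := by omega
      obtain ⟨h1, h2, h3⟩ := h k
      have hk : k + 2 * (0 : ℤ) = k := by omega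
      simp only [hk]
      refine ⟨by rw [plane2 a b _ he]; exact h1, h2, ?_⟩
      rw [plane2 a b _ he, plane2 a b _ he, plane2 a b _ he, ← h3,
        show k + (a : ℤ) + b = k + 2 * ((g + f + 1 : ℕ) : ℤ) by omega]
      rw [inf_assoc, inf_comm (Tri (g + f + 1) (a : ℤ) v (k + (a : ℤ))), ← inf_assoc]

end Pool.Agent.MP62a5ad.PN
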