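import Pool.Agent.Lib.MP_62a5ad_mp.PN.Spec

/-!
# MP_62a5ad_mp, PN: normal form of a twisted polygon
-/

set_option autoImplicit false

namespace Pool.Agent.MP62a5ad.PN

open Matrix

namespace ChAAux

/-- The companion matrix. -/
def cm (a : V4) : M4 := !![0, 0, 0, a 0; 1, 0, 0, a 1; 0, 1, 0, a 2; 0, 0, 1, a 3]

/-- The diagonal matrix `1, r, r², r³`. -/
def dg (r : ℝ) : M4 := Matrix.diagonal ![1, r, r ^ 2, r ^ 3]

/-- The polygon with the monodromy `M'` and the vertices `p`, `q`. -/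
noncomputable def pol (M' : M4) (p q : V4) (k : ℤ) : V4 :=
  M' ^ (k / 2) *ᵥ (if k % 2 = 0 then p else q)

lemma pol_step (M' : M4) (hM : IsUnit M'.det) (p q : V4) (k : ℤ) :
    pol M' p q (k + 2) = M' *ᵥ pol M' p q k := by
  unfold pol
  have h1 : (k + 2) / 2 = 1 + k / 2 := by omega
  have h2 : (k + 2) % 2 = k % 2 := by omega
  rw [h1, h2, Matrix.mulVec_mulVec, Matrix.zpow_one_add hM]

lemma pol_zero (M' : M4) (p q : V4) : pol M' p q 0 = p := by
  unfold pol
  simp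

lemma pol_one (M' : M4) (p q : V4) : pol M' p q 1 = q := by
  unfold pol
  have h1 : (1 : ℤ) / 2 = 0 := by norm_num
  have h2 : ¬ (1 : ℤ) % 2 = 0 := by norm_num
  rw [h1, if_neg h2]
  simp

/-- Induction for twisted polygons. -/
lemma ind (P : ℤ → Prop) (h0 : P 0) (h1 : P 1) (h : ∀ k, P k ↔ P (k + 2)) : ∀ k, P k := by
  have key : ∀ j : ℤ, P (2 * j) ∧ P (2 * j + 1) := by
    intro j
    induction j using Int.induction_on with
    | zero => exact ⟨by simpa using h0, by simpa using h1⟩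
    | succ i ih =>
      refine ⟨?_, ?_⟩
      · have := (h _).1 ih.1
        have e : (2 : ℤ) * (↑i + 1) = 2 * ↑i + 2 := by ring
        rw [e]; exact this
      · have := (h _).1 ih.2
        have e : (2 : ℤ) * (↑i + 1) + 1 = 2 * ↑i + 1 + 2 := by ring
        rw [e]; exact this
    | pred i ih =>
      refine ⟨?_, ?_⟩
      · have e : (2 : ℤ) * (-↑i - 1) + 2 = 2 * -↑i := by ring
        exact (h _).2 (by rw [e]; exact ih.1)
      · have e : (2 : ℤ) * (-↑i - 1) + 1 + 2 = 2 * -↑i + 1 := by ring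
        exact (h _).2 (by rw [e]; exact ih.2)
  intro k
  rcases Int.emod_two_eq_zero_or_one k with hk | hk
  · have e : k = 2 * (k / 2) := by omega
    rw [e]; exact (key _).1
  · have e : k = 2 * (k / 2) + 1 := by omega
    rw [e]; exact (key _).2

lemma mul_kry (x : Pt) (hK : IsUnit (kry x).det) :
    (Matrix.of x.2.2 : M4) * kry x = kry x * cm (ac x) := by
  have hcol : ∀ (j : Fin 4) , ((Matrix.of x.2.2 : M4) * kry x).col j =
      (Matrix.of x.2.2 : M4) ^ ((j : ℕ) + 1) *ᵥ x.1 := by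
    intro j
    have hk : (kry x).col j = (Matrix.of x.2.2 : M4) ^ (j : ℕ) *ᵥ x.1 := by
      funext i; rfl
    have : ((Matrix.of x.2.2 : M4) * kry x).col j = (Matrix.of x.2.2 : M4) *ᵥ (kry x).col j := by
      funext i
      rfl
    rw [this, hk, Matrix.mulVec_mulVec, pow_succ']
  have hlast : kry x *ᵥ ac x = (Matrix.of x.2.2 : M4) ^ 4 *ᵥ x.1 := by
    unfold ac
    rw [Matrix.mulVec_mulVec, Matrix.mul_nonsing_inv _ hK, Matrix.one_mulVec]
  ext i j
  have h := congrFun (hcol j) i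
  have hl := congrFun hlast i
  have h' : ((Matrix.of x.2.2 : M4) * kry x) i j =
      ((Matrix.of x.2.2 : M4) ^ ((j : ℕ) + 1) *ᵥ x.1) i := h
  rw [h']
  rw [Matrix.mul_apply]
  fin_cases j
  · simp [cm, kry, Fin.sum_univ_succ]
  · simp [cm, kry, Fin.sum_univ_succ]
  · simp [cm, kry, Fin.sum_univ_succ]
  · simp only [Matrix.mulVec, dotProduct] at hl
    simp only [cm, Matrix.mulVec, dotProduct]
    simp [Fin.sum_univ_succ] at hl ⊢
    linarith

lemma det_cm (a : V4) : (cm a).det = -a 0 := by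
  simp [cm, Matrix.det_succ_row_zero, Fin.sum_univ_succ, Fin.succAbove]
  ring

lemma det_dg (r : ℝ) (hr : r ≠ 0) : (dg r).det ≠ 0 := by
  unfold dg
  rw [Matrix.det_diagonal, Fin.prod_univ_four]
  simp [hr]

lemma dg_cm (a : V4) (y : E6) (ha : a 3 ≠ 0) (h0 : y 0 = -(a 2) / (a 3) ^ 2)
    (h1 : y 1 = a 1 / (a 3) ^ 3) (h2 : y 2 = -(a 0) / (a 3) ^ 4) :
    dg (a 3) * cm a = a 3 • (mono y * dg (a 3)) := by
  ext i j
  simp only [dg, cm, mono, h0, h1, h2]
  rw [Matrix.diagonal_mul, Matrix.smul_apply, Matrix.mul_diagonal]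
  fin_cases i <;> fin_cases j <;> simp <;> first | done | (field_simp; done) | (field_simp; simp)

end ChAAux

open ChAAux in
/-- Every polygon in `OO` has the coordinates `kap x`. -/
theorem tChA (hFam : S_Fam) : S_ChA := by
  intro x hx v hv
  obtain ⟨hK, ha, hξ, hM⟩ := hx
  obtain ⟨⟨-, hstep⟩, hv0, hv1⟩ := hv
  have hKu : IsUnit (kry x).det := isUnit_iff_ne_zero.2 hK
  set M : M4 := Matrix.of x.2.2 with hMdef
  have hMK : M * kry x = kry x * cm (ac x) := mul_kry x hKu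
  have ha0 : ac x 0 ≠ 0 := by
    intro h
    have h1 : (M * kry x).det = (kry x * cm (ac x)).det := by rw [hMK]
    rw [Matrix.det_mul, Matrix.det_mul, det_cm, h] at h1
    simp only [neg_zero, mul_zero, mul_eq_zero] at h1
    rcases h1 with h1 | h1
    · exact hM h1
    · exact hK h1
  have hdet : (mono (kap x)).det ≠ 0 := by
    rw [hFam.1]
    have : kap x 2 = -(ac x 0) / (ac x 3) ^ 4 := rfl
    rw [this]
    exact div_ne_zero (neg_ne_zero.2 ha0) (pow_ne_zero _ ha)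
  have hu : IsUnit (mono (kap x)).det := isUnit_iff_ne_zero.2 hdet
  have hinj : ∀ p q : V4, mono (kap x) *ᵥ p = mono (kap x) *ᵥ q → p = q := by
    intro p q h
    have h1 := congrArg (fun w => (mono (kap x))⁻¹ *ᵥ w) h
    simpa [Matrix.mulVec_mulVec, Matrix.nonsing_inv_mul _ hu] using h1
  set g : M4 := dg (ac x 3) * (kry x)⁻¹ with hg
  have hgdet : g.det ≠ 0 := by
    rw [hg, Matrix.det_mul]
    refine mul_ne_zero (det_dg _ ha) ?_
    rw [Matrix.det_nonsing_inv]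
    rw [Ring.inverse_eq_inv']
    exact inv_ne_zero hK
  have hgM : g * M = ac x 3 • (mono (kap x) * g) := by
    have h1 : (kry x)⁻¹ * M = cm (ac x) * (kry x)⁻¹ := by
      have h2 : (kry x)⁻¹ * (M * kry x) * (kry x)⁻¹ = (kry x)⁻¹ * (kry x * cm (ac x)) * (kry x)⁻¹ := by
        rw [hMK]
      rw [← Matrix.mul_assoc, Matrix.mul_assoc _ (kry x) _, Matrix.mul_nonsing_inv _ hKu,
        Matrix.mul_one, ← Matrix.mul_assoc, Matrix.nonsing_inv_mul _ hKu, Matrix.one_mul] at h2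
      exact h2
    rw [hg, Matrix.mul_assoc, h1, ← Matrix.mul_assoc,
      dg_cm (ac x) (kap x) ha rfl rfl rfl, Matrix.smul_mul, Matrix.mul_assoc]
  have hk0 : (kry x).col 0 = v 0 := by
    rw [hv0]
    funext i
    show ((Matrix.of x.2.2 : M4) ^ ((0 : Fin 4) : ℕ) *ᵥ x.1) i = x.1 i
    simp
  have hgv0 : g *ᵥ v 0 = e0 := by
    rw [← hk0]
    have h1 : (kry x)⁻¹ *ᵥ (kry x).col 0 = ![1, 0, 0, 0] := by
      have h2 : (kry x).col 0 = kry x *ᵥ ![1, 0, 0, 0] := by
        funext i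
        simp [Matrix.mulVec, dotProduct, Fin.sum_univ_succ]
      rw [h2, Matrix.mulVec_mulVec, Matrix.nonsing_inv_mul _ hKu, Matrix.one_mulVec]
    rw [hg, ← Matrix.mulVec_mulVec, h1]
    funext i
    rw [dg, Matrix.mulVec_diagonal]
    fin_cases i <;> simp [e0]
  have hgv1 : g *ᵥ v 1 = xc x 0 • x0 (kap x) := by
    have h1 : (kry x)⁻¹ *ᵥ v 1 = xc x := by rw [hv1]; rfl
    rw [hg, ← Matrix.mulVec_mulVec, h1]
    have k3 : kap x 3 = xc x 1 * ac x 3 / xc x 0 := rfl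
    have k4 : kap x 4 = xc x 2 * (ac x 3) ^ 2 / xc x 0 := rfl
    have k5 : kap x 5 = xc x 3 * (ac x 3) ^ 3 / xc x 0 := rfl
    funext i
    rw [dg, Matrix.mulVec_diagonal, Pi.smul_apply]
    unfold x0
    rw [k3, k4, k5]
    fin_cases i <;> simp <;> try field_simp
  refine ⟨pol (mono (kap x)) e0 (x0 (kap x)), ⟨⟨hdet, fun k => pol_step _ hu _ _ _⟩, pol_zero _ _ _,
    pol_one _ _ _⟩, g, hgdet, ⟨ac x 3, ha, hgM⟩, ?_⟩
  refine ind _ ?_ ?_ ?_
  · refine ⟨1, one_ne_zero, ?_⟩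
    rw [pol_zero, hgv0, one_smul]
  · refine ⟨xc x 0, hξ, ?_⟩
    rw [pol_one, hgv1]
  · intro k
    have hs : g *ᵥ v (k + 2) = ac x 3 • (mono (kap x) *ᵥ (g *ᵥ v k)) := by
      rw [hstep k, Matrix.mulVec_mulVec, hgM, Matrix.smul_mulVec, Matrix.mulVec_mulVec]
    rw [pol_step _ hu]
    constructor
    · rintro ⟨c, hc, h⟩
      refine ⟨ac x 3 * c, mul_ne_zero ha hc, ?_⟩
      rw [hs, h, Matrix.mulVec_smul, smul_smul]
    · rintro ⟨c, hc, h⟩
      refine ⟨(ac x 3)⁻¹ * c, mul_ne_zero (inv_ne_zero ha) hc, ?_⟩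
      apply hinj
      rw [hs] at h
      rw [Matrix.mulVec_smul, ← smul_smul, ← h, smul_smul, inv_mul_cancel₀ ha, one_smul]

end Pool.Agent.MP62a5ad.PN
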