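import Pool.Agent.Lib.MP_62a5ad_mp.PN.Spec

/-!
# MP_62a5ad_mp PN, module ChB: the coordinates are invariant
-/

set_option autoImplicit false

namespace Pool.Agent.MP62a5ad.PN

open Matrix

namespace ChBAux

theorem pw (M M' g : M4) (c : ℝ) (h : g * M = c • (M' * g)) (i : ℕ) :
    g * M ^ i = c ^ i • (M' ^ i * g) := by
  induction i with
  | zero => simp
  | succ i ih =>
    rw [pow_succ, ← mul_assoc, ih, smul_mul_assoc, mul_assoc, h, mul_smul_comm, smul_smul,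
      ← mul_assoc, ← pow_succ, ← pow_succ]

theorem coef (K K' D g : M4) (w w' : V4) (d : ℝ) (hK : K.det ≠ 0) (hK' : K'.det ≠ 0)
    (h : g * K = K' * D) (hw : g *ᵥ w = d • w') :
    d • (K'⁻¹ *ᵥ w') = D *ᵥ (K⁻¹ *ᵥ w) := by
  have h1 : K * K⁻¹ = 1 := Matrix.mul_nonsing_inv _ (isUnit_iff_ne_zero.2 hK)
  have h2 : K'⁻¹ * K' = 1 := Matrix.nonsing_inv_mul _ (isUnit_iff_ne_zero.2 hK')
  have h3 : g *ᵥ w = (g * K) *ᵥ (K⁻¹ *ᵥ w) := by
    rw [Matrix.mulVec_mulVec, mul_assoc, h1, mul_one]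
  rw [← Matrix.mulVec_smul, ← hw, h3, h, Matrix.mulVec_mulVec, ← mul_assoc, h2, one_mul]

theorem kryD (x x' : Pt) (g : M4) (c c0 : ℝ)
    (h : g * (Matrix.of x.2.2 : M4) = c • ((Matrix.of x'.2.2 : M4) * g))
    (h0 : g *ᵥ x.1 = c0 • x'.1) :
    g * kry x = kry x' * Matrix.diagonal (fun i : Fin 4 => c0 * c ^ (i : ℕ)) := by
  ext i j
  have h1 : (g * kry x) i j = (g *ᵥ ((Matrix.of x.2.2 : M4) ^ (j : ℕ) *ᵥ x.1)) i := rfl
  rw [h1, Matrix.mulVec_mulVec, pw _ _ _ _ h, Matrix.smul_mulVec, ← Matrix.mulVec_mulVec, h0,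
    Matrix.mulVec_smul, Matrix.mul_diagonal]
  have h2 : kry x' i j = ((Matrix.of x'.2.2 : M4) ^ (j : ℕ) *ᵥ x'.1) i := rfl
  rw [h2]
  simp only [Pi.smul_apply, smul_eq_mul]
  ring

theorem inv (x x' : Pt) (g : M4) (c c0 c1 : ℝ) (hc : c ≠ 0) (hc0 : c0 ≠ 0) (hc1 : c1 ≠ 0)
    (hx : x ∈ OO) (hx' : x' ∈ OO)
    (h : g * (Matrix.of x.2.2 : M4) = c • ((Matrix.of x'.2.2 : M4) * g))
    (h0 : g *ᵥ x.1 = c0 • x'.1) (h1 : g *ᵥ x.2.1 = c1 • x'.2.1) : kap x = kap x' := by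
  have hD := kryD x x' g c c0 h h0
  have hX := coef _ _ _ _ _ _ _ hx.1 hx'.1 hD h1
  have hA := coef _ _ _ _ ((Matrix.of x.2.2 : M4) ^ 4 *ᵥ x.1)
    ((Matrix.of x'.2.2 : M4) ^ 4 *ᵥ x'.1) (c ^ 4 * c0) hx.1 hx'.1 hD (by
      rw [Matrix.mulVec_mulVec, pw _ _ _ _ h, Matrix.smul_mulVec, ← Matrix.mulVec_mulVec, h0,
        Matrix.mulVec_smul, smul_smul])
  have hX' : ∀ i : Fin 4, c1 * xc x' i = c0 * c ^ (i : ℕ) * xc x i := by
    intro i
    have := congrFun hX i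
    rw [Matrix.mulVec_diagonal] at this
    exact this
  have hA' : ∀ i : Fin 4, c ^ 4 * c0 * ac x' i = c0 * c ^ (i : ℕ) * ac x i := by
    intro i
    have := congrFun hA i
    rw [Matrix.mulVec_diagonal] at this
    exact this
  obtain ⟨-, ha, hb, -⟩ := hx
  obtain ⟨-, ha', hb', -⟩ := hx'
  have a0 := hA' 0
  have a1 := hA' 1
  have a2 := hA' 2
  have a3 := hA' 3
  have x0 := hX' 0
  have x1 := hX' 1
  have x2 := hX' 2
  have x3 := hX' 3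
  simp only [Fin.val_zero, Fin.val_one, Fin.val_two, pow_zero, pow_one, mul_one] at a0 a1 a2 x0 x1 x2
  have e3 : ((3 : Fin 4) : ℕ) = 3 := rfl
  rw [e3] at a3 x3
  have b0 : ac x 0 = c ^ 4 * ac x' 0 := mul_left_cancel₀ hc0 (by linear_combination -a0)
  have b1 : ac x 1 = c ^ 3 * ac x' 1 :=
    mul_left_cancel₀ (mul_ne_zero hc0 hc) (by linear_combination -a1)
  have b2 : ac x 2 = c ^ 2 * ac x' 2 :=
    mul_left_cancel₀ (mul_ne_zero hc0 (pow_ne_zero 2 hc)) (by linear_combination -a2)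
  have b3 : ac x 3 = c * ac x' 3 :=
    mul_left_cancel₀ (mul_ne_zero hc0 (pow_ne_zero 3 hc)) (by linear_combination -a3)
  have y0 : xc x 0 = c1 / c0 * xc x' 0 := by
    rw [div_mul_eq_mul_div, eq_div_iff hc0]; linear_combination -x0
  have y1 : xc x 1 = c1 / c0 * xc x' 1 / c := by
    rw [div_mul_eq_mul_div, div_div, eq_div_iff (mul_ne_zero hc0 hc)]; linear_combination -x1
  have y2 : xc x 2 = c1 / c0 * xc x' 2 / c ^ 2 := by
    rw [div_mul_eq_mul_div, div_div, eq_div_iff (mul_ne_zero hc0 (pow_ne_zero 2 hc))]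
    linear_combination -x2
  have y3 : xc x 3 = c1 / c0 * xc x' 3 / c ^ 3 := by
    rw [div_mul_eq_mul_div, div_div, eq_div_iff (mul_ne_zero hc0 (pow_ne_zero 3 hc))]
    linear_combination -x3
  unfold kap
  rw [b0, b1, b2, b3, y0, y1, y2, y3]
  have k0 : -(c ^ 2 * ac x' 2) / (c * ac x' 3) ^ 2 = -(ac x' 2) / (ac x' 3) ^ 2 := by
    field_simp
  have k1 : c ^ 3 * ac x' 1 / (c * ac x' 3) ^ 3 = ac x' 1 / (ac x' 3) ^ 3 := by
    field_simp
  have k2 : -(c ^ 4 * ac x' 0) / (c * ac x' 3) ^ 4 = -(ac x' 0) / (ac x' 3) ^ 4 := by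
    field_simp
  have k3 : c1 / c0 * xc x' 1 / c * (c * ac x' 3) / (c1 / c0 * xc x' 0) =
      xc x' 1 * ac x' 3 / xc x' 0 := by
    field_simp
  have k4 : c1 / c0 * xc x' 2 / c ^ 2 * (c * ac x' 3) ^ 2 / (c1 / c0 * xc x' 0) =
      xc x' 2 * ac x' 3 ^ 2 / xc x' 0 := by
    field_simp
  have k5 : c1 / c0 * xc x' 3 / c ^ 3 * (c * ac x' 3) ^ 3 / (c1 / c0 * xc x' 0) =
      xc x' 3 * ac x' 3 ^ 3 / xc x' 0 := by
    field_simp
  rw [k0, k1, k2, k3, k4, k5]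

/-! ### the normal form -/

theorem m0 (y : E6) : mono y *ᵥ e0 = ![0, 1, 0, 0] := by
  funext i; fin_cases i <;> simp [mono, e0, Matrix.mulVec, dotProduct, Fin.sum_univ_four]

theorem m1 (y : E6) : mono y *ᵥ ![0, 1, 0, 0] = ![0, 0, 1, 0] := by
  funext i; fin_cases i <;> simp [mono, Matrix.mulVec, dotProduct, Fin.sum_univ_four]

theorem m2 (y : E6) : mono y *ᵥ ![0, 0, 1, 0] = ![0, 0, 0, 1] := by
  funext i; fin_cases i <;> simp [mono, Matrix.mulVec, dotProduct, Fin.sum_univ_four]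

theorem m3 (y : E6) : mono y *ᵥ ![0, 0, 0, 1] = ![-y 2, y 1, -y 0, 1] := by
  funext i; fin_cases i <;> simp [mono, Matrix.mulVec, dotProduct, Fin.sum_univ_four]

theorem p1 (y : E6) : (mono y) ^ 1 *ᵥ e0 = ![0, 1, 0, 0] := by rw [pow_one, m0]

theorem p2 (y : E6) : (mono y) ^ 2 *ᵥ e0 = ![0, 0, 1, 0] := by
  rw [pow_succ', ← Matrix.mulVec_mulVec, p1, m1]

theorem p3 (y : E6) : (mono y) ^ 3 *ᵥ e0 = ![0, 0, 0, 1] := by
  rw [pow_succ', ← Matrix.mulVec_mulVec, p2, m2]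

theorem p4 (y : E6) : (mono y) ^ 4 *ᵥ e0 = ![-y 2, y 1, -y 0, 1] := by
  rw [pow_succ', ← Matrix.mulVec_mulVec, p3, m3]

/-- the normal form -/
abbrev nf (y : E6) : Pt := (e0, x0 y, fun i j => mono y i j)

theorem kry_nf (y : E6) : kry (nf y) = 1 := by
  ext i j
  have h : kry (nf y) i j = ((mono y) ^ (j : ℕ) *ᵥ e0) i := rfl
  rw [h]
  fin_cases j
  · change ((mono y) ^ 0 *ᵥ e0) i = _
    rw [pow_zero, Matrix.one_mulVec]
    fin_cases i <;> simp [e0]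
  · change ((mono y) ^ 1 *ᵥ e0) i = _
    rw [p1]
    fin_cases i <;> simp
  · change ((mono y) ^ 2 *ᵥ e0) i = _
    rw [p2]
    fin_cases i <;> simp
  · change ((mono y) ^ 3 *ᵥ e0) i = _
    rw [p3]
    fin_cases i <;> simp

theorem ac_nf (y : E6) : ac (nf y) = ![-y 2, y 1, -y 0, 1] := by
  unfold ac
  rw [kry_nf, inv_one, Matrix.one_mulVec]
  exact p4 y

theorem xc_nf (y : E6) : xc (nf y) = x0 y := by
  unfold xc
  rw [kry_nf, inv_one, Matrix.one_mulVec]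

theorem det_mono (y : E6) : (mono y).det = y 2 := by
  simp [mono, Matrix.det_succ_row_zero, Fin.sum_univ_succ, Fin.succAbove]
  ring

end ChBAux

theorem tChB (_hFam : S_Fam) : S_ChB := by
  refine ⟨?_, ?_⟩
  · rintro x hx x' hx' v v' ⟨-, hv0, hv1⟩ ⟨-, hv0', hv1'⟩ ⟨g, -, ⟨c, hc, hgM⟩, hk⟩
    obtain ⟨c0, hc0, h0⟩ := hk 0
    obtain ⟨c1, hc1, h1⟩ := hk 1
    rw [hv0, hv0'] at h0
    rw [hv1, hv1'] at h1
    exact ChBAux.inv x x' g c c0 c1 hc hc0 hc1 hx hx' hgM h0 h1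
  · intro y hy
    refine ⟨⟨?_, ?_, ?_, ?_⟩, ?_⟩
    · rw [ChBAux.kry_nf, Matrix.det_one]; exact one_ne_zero
    · rw [ChBAux.ac_nf]; simp
    · rw [ChBAux.xc_nf]; simp [x0]
    · change (mono y).det ≠ 0
      rw [ChBAux.det_mono]; exact hy
    · change kap (ChBAux.nf y) = y
      unfold kap
      rw [ChBAux.ac_nf, ChBAux.xc_nf]
      funext i
      fin_cases i <;> simp [x0]

end Pool.Agent.MP62a5ad.PN
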