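import Pool.Agent.Lib.MP_62a5ad_mp.PN.Spec

/-!
# MP_62a5ad_mp, PN/ChC: the chart of `P_{3,2}` is open, dense and smooth
-/

set_option autoImplicit false

namespace Pool.Agent.MP62a5ad.PN

open Matrix
open scoped ContDiff

namespace ChCAux

/-- The entries of `M`. -/
theorem anM (U : Set Pt) : AM U fun x : Pt => (Matrix.of x.2.2 : M4) := by
  intro i j
  exact ((ContinuousLinearMap.proj (R := ℝ) (φ := fun _ : Fin 4 => ℝ) j).comp
    ((ContinuousLinearMap.proj (R := ℝ) (φ := fun _ : Fin 4 => Fin 4 → ℝ) i).comp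
      ((ContinuousLinearMap.snd ℝ V4 (Fin 4 → Fin 4 → ℝ)).comp
        (ContinuousLinearMap.snd ℝ V4 (V4 × (Fin 4 → Fin 4 → ℝ)))))).analyticOnNhd U

theorem anV0 (U : Set Pt) : AV U fun x : Pt => x.1 := by
  intro i
  exact ((ContinuousLinearMap.proj (R := ℝ) (φ := fun _ : Fin 4 => ℝ) i).comp
    (ContinuousLinearMap.fst ℝ V4 (V4 × (Fin 4 → Fin 4 → ℝ)))).analyticOnNhd U

theorem anV1 (U : Set Pt) : AV U fun x : Pt => x.2.1 := by
  intro i
  exact ((ContinuousLinearMap.proj (R := ℝ) (φ := fun _ : Fin 4 => ℝ) i).comp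
    ((ContinuousLinearMap.fst ℝ V4 (Fin 4 → Fin 4 → ℝ)).comp
      (ContinuousLinearMap.snd ℝ V4 (V4 × (Fin 4 → Fin 4 → ℝ))))).analyticOnNhd U

theorem anKry (hMA : S_MA) (U : Set Pt) : AM U kry := by
  intro i j
  exact (hMA Pt U).mulVec _ _ ((hMA Pt U).pow (j : ℕ) _ (anM U)) (anV0 U) i

/-- The numerators. -/
noncomputable def P2 (x : Pt) : V4 :=
  (kry x).adjugate *ᵥ ((Matrix.of x.2.2 : M4) ^ 4 *ᵥ x.1)

noncomputable def P3 (x : Pt) : V4 := (kry x).adjugate *ᵥ x.2.1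

theorem anP2 (hMA : S_MA) (U : Set Pt) : AV U P2 :=
  (hMA Pt U).mulVec _ _ ((hMA Pt U).adj _ (anKry hMA U))
    ((hMA Pt U).mulVec _ _ ((hMA Pt U).pow 4 _ (anM U)) (anV0 U))

theorem anP3 (hMA : S_MA) (U : Set Pt) : AV U P3 :=
  (hMA Pt U).mulVec _ _ ((hMA Pt U).adj _ (anKry hMA U)) (anV1 U)

theorem inv_kry (x : Pt) : (kry x)⁻¹ = ((kry x).det)⁻¹ • (kry x).adjugate := by
  rw [Matrix.inv_def, Ring.inverse_eq_inv']

theorem ac_eq (x : Pt) (i : Fin 4) : ac x i = ((kry x).det)⁻¹ * P2 x i := by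
  unfold ac P2
  rw [inv_kry, Matrix.smul_mulVec]
  rfl

theorem xc_eq (x : Pt) (i : Fin 4) : xc x i = ((kry x).det)⁻¹ * P3 x i := by
  unfold xc P3
  rw [inv_kry, Matrix.smul_mulVec]
  rfl

theorem OO_eq : OO = {x | (kry x).det ≠ 0} ∩ ({x | P2 x 3 ≠ 0} ∩
    ({x | P3 x 0 ≠ 0} ∩ {x : Pt | (Matrix.of x.2.2 : M4).det ≠ 0})) := by
  ext x
  constructor
  · rintro ⟨h1, h2, h3, h4⟩
    rw [ac_eq] at h2
    rw [xc_eq] at h3
    exact ⟨h1, right_ne_zero_of_mul h2, right_ne_zero_of_mul h3, h4⟩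
  · rintro ⟨h1, h2, h3, h4⟩
    refine ⟨h1, ?_, ?_, h4⟩
    · rw [ac_eq]
      exact mul_ne_zero (inv_ne_zero h1) h2
    · rw [xc_eq]
      exact mul_ne_zero (inv_ne_zero h1) h3

theorem an_ac (hMA : S_MA) : AV OO ac := by
  intro i
  have h1 : AnalyticOnNhd ℝ (fun x => (kry x).det) OO := (hMA Pt OO).det _ (anKry hMA OO)
  have h2 : AnalyticOnNhd ℝ (fun x => P2 x i / (kry x).det) OO :=
    (anP2 hMA OO i).div h1 fun x hx => hx.1
  have e : (fun x => ac x i) = fun x => P2 x i / (kry x).det := by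
    funext x
    rw [ac_eq, div_eq_inv_mul]
  rw [e]
  exact h2

theorem an_xc (hMA : S_MA) : AV OO xc := by
  intro i
  have h1 : AnalyticOnNhd ℝ (fun x => (kry x).det) OO := (hMA Pt OO).det _ (anKry hMA OO)
  have h2 : AnalyticOnNhd ℝ (fun x => P3 x i / (kry x).det) OO :=
    (anP3 hMA OO i).div h1 fun x hx => hx.1
  have e : (fun x => xc x i) = fun x => P3 x i / (kry x).det := by
    funext x
    rw [xc_eq, div_eq_inv_mul]
  rw [e]
  exact h2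

end ChCAux

open ChCAux in
theorem tChC (hAn : S_An) (hMA : S_MA) (hB : S_ChB) : S_ChC := by
  obtain ⟨hO, -⟩ := hB.2 ![0, 0, 1, 0, 0, 0] (by simp)
  rw [OO_eq] at hO
  obtain ⟨g1, g2, g3, g4⟩ := hO
  obtain ⟨o1, d1⟩ := hAn Pt (fun x => (kry x).det) ((hMA Pt Set.univ).det _ (anKry hMA _)) ⟨_, g1⟩
  obtain ⟨o2, d2⟩ := hAn Pt (fun x => P2 x 3) (anP2 hMA _ 3) ⟨_, g2⟩
  obtain ⟨o3, d3⟩ := hAn Pt (fun x => P3 x 0) (anP3 hMA _ 0) ⟨_, g3⟩
  obtain ⟨o4, d4⟩ := hAn Pt (fun x : Pt => (Matrix.of x.2.2 : M4).det)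
    ((hMA Pt Set.univ).det _ (anM _)) ⟨_, g4⟩
  refine ⟨?_, ?_, ?_⟩
  · rw [OO_eq]
    exact o1.inter (o2.inter (o3.inter o4))
  · rw [OO_eq]
    exact d1.inter_of_isOpen_left (d2.inter_of_isOpen_left (d3.inter_of_isOpen_left d4 o3) o2) o1
  · have ha := an_ac hMA
    have hx := an_xc hMA
    have ha3 : ∀ x ∈ OO, ac x 3 ≠ 0 := fun x hx => hx.2.1
    have hx0 : ∀ x ∈ OO, xc x 0 ≠ 0 := fun x hx => hx.2.2.1
    have hpow : ∀ n : ℕ, AnalyticOnNhd ℝ (fun x => (ac x 3) ^ n) OO := fun n => (ha 3).pow n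
    rw [contDiffOn_pi]
    intro i
    refine AnalyticOnNhd.contDiffOn_of_completeSpace ?_
    fin_cases i
    · exact ((ha 2).neg).div (hpow 2) fun x hx => pow_ne_zero _ (ha3 x hx)
    · exact (ha 1).div (hpow 3) fun x hx => pow_ne_zero _ (ha3 x hx)
    · exact ((ha 0).neg).div (hpow 4) fun x hx => pow_ne_zero _ (ha3 x hx)
    · exact ((hx 1).mul (ha 3)).div (hx 0) hx0
    · exact ((hx 2).mul (hpow 2)).div (hx 0) hx0
    · exact ((hx 3).mul (hpow 3)).div (hx 0) hx0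

end Pool.Agent.MP62a5ad.PN
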