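import Pool.Agent.Lib.MP_62a5ad_mp.PN.Spec

/-!
# MP_62a5ad_mp, PN: the complementary minor identity
-/

set_option autoImplicit false

namespace Pool.Agent.MP62a5ad.PN

open Matrix
open scoped ContDiff

namespace CmpAux

variable {A : Type} [CommRing A] [Algebra ℝ A] {t : A} {b : Module.Basis (Fin 4) ℝ A} {p : V4}

theorem repr_comb (b : Module.Basis (Fin 4) ℝ A) (c : Fin 4 → ℝ) (i : Fin 4) :
    b.repr (∑ j, c j • b j) i = c i := by
  rw [b.repr_sum_self]

theorem mul_t (h : Fr t b p) (y : A) (i : Fin 4) :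
    b.repr (t * y) i = ![-(p 0 * b.repr y 3), b.repr y 0 - p 1 * b.repr y 3,
      b.repr y 1 - p 2 * b.repr y 3, b.repr y 2 - p 3 * b.repr y 3] i := by
  have hy : y = ∑ i, b.repr y i • b i := (b.sum_repr y).symm
  have h1 : t * y = ∑ j, (![-(p 0 * b.repr y 3), b.repr y 0 - p 1 * b.repr y 3,
      b.repr y 1 - p 2 * b.repr y 3, b.repr y 2 - p 3 * b.repr y 3] j) • b j := by
    have h2 : t * y = t * ∑ i, b.repr y i • b i := by rw [← hy]
    rw [h2]
    simp only [Fin.sum_univ_four, h.pow]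
    have hr := h.rel
    simp only [Algebra.smul_def] at hr ⊢
    simp only [Matrix.cons_val, map_sub, map_neg, map_mul, Fin.val_zero, Fin.val_one,
      Fin.val_two, pow_zero, pow_one]
    have h3 : ((3 : Fin 4) : ℕ) = 3 := rfl
    rw [h3]
    linear_combination algebraMap ℝ A (b.repr y 3) * hr
  rw [h1, repr_comb]

theorem el_t (h : Fr t b p) (y : A) : el b (t * y) = b.repr y 2 - p 3 * b.repr y 3 := by
  unfold el
  rw [mul_t h]
  rfl

theorem el_t2 (h : Fr t b p) (y : A) : el b (t ^ 2 * y) =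
    b.repr y 1 - p 2 * b.repr y 3 - p 3 * (b.repr y 2 - p 3 * b.repr y 3) := by
  have h1 : t ^ 2 * y = t * (t * y) := by ring
  rw [h1, el_t h, mul_t h, mul_t h]
  rfl

theorem repr_one (h : Fr t b p) (i : Fin 4) : b.repr 1 i = ![1, 0, 0, 0] i := by
  have h1 : (1 : A) = b 0 := by rw [h.pow]; simp
  rw [h1, b.repr_self]
  fin_cases i <;> simp

theorem repr_t (h : Fr t b p) (i : Fin 4) : b.repr t i = ![0, 1, 0, 0] i := by
  have h1 : t = b 1 := by rw [h.pow]; simp
  have h2 : b.repr t = b.repr (b 1) := by rw [← h1]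
  rw [h2, b.repr_self]
  fin_cases i <;> simp

theorem H0_eq (h : Fr t b p) (y : A) :
    H0 t b y = -(b.repr y 2 * b.repr (t * y) 3 - b.repr y 3 * b.repr (t * y) 2) := by
  unfold H0
  rw [el_t h, el_t2 h, mul_t h, mul_t h]
  simp only [el, Matrix.cons_val]
  ring

theorem det1 (h : Fr t b p) (y : A) : b.det ![1, t, y, t * y] = -H0 t b y := by
  rw [H0_eq h, Module.Basis.det_apply, Matrix.det_succ_row_zero]
  simp [Fin.sum_univ_succ, Module.Basis.toMatrix_apply, Matrix.det_fin_three, repr_one h, repr_t h,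
    Fin.succAbove, Matrix.submatrix_apply]
  try ring

theorem det2 (h : Fr t b p) (x : A) : b.det ![x, t * x, 1, t] = -H0 t b x := by
  rw [H0_eq h, Module.Basis.det_apply, Matrix.det_succ_row_zero]
  simp [Fin.sum_univ_succ, Module.Basis.toMatrix_apply, Matrix.det_fin_three, repr_one h, repr_t h,
    Fin.succAbove, Matrix.submatrix_apply]
  try ring

end CmpAux

theorem tCmp : S_Cmp := by
  intro A _ _ t b p h x y hxy
  have h1 := CmpAux.det1 h y
  have h2 := CmpAux.det2 h x
  have h3 : b.det ((Algebra.lmul ℝ A x) ∘ ![1, t, y, t * y]) =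
      LinearMap.det (Algebra.lmul ℝ A x) * b.det ![1, t, y, t * y] :=
    Module.Basis.det_comp b (Algebra.lmul ℝ A x) ![1, t, y, t * y]
  have h4 : ((Algebra.lmul ℝ A x) ∘ ![1, t, y, t * y]) = ![x, t * x, 1, t] := by
    funext i
    fin_cases i
    · simp
    · simp [mul_comm]
    · simpa using hxy
    · show x * (t * y) = t
      calc x * (t * y) = t * (x * y) := by ring
        _ = t := by rw [hxy, mul_one]
  rw [h4, h1, h2] at h3
  rw [Algebra.norm_apply]
  have h5 : LinearMap.det (Algebra.lmul ℝ A x) = LinearMap.det (LinearMap.mul ℝ A x) := rfl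
  linarith

end Pool.Agent.MP62a5ad.PN
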