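import Pool.Agent.Lib.MP_62a5ad_mp.PN.Spec

/-!
# MP_62a5ad_mp, PN: the integrable system in the coordinates `z`
-/

set_option autoImplicit false

namespace Pool.Agent.MP62a5ad.PN

open Matrix
open scoped ContDiff

namespace CoreAux

theorem br_EE (g : E6 → ℝ) (F H : E6 → ℝ) (y : E6) :
    br (fun z => g z • EE) F H y = g y * (pd F 3 y * pd H 4 y - pd F 4 y * pd H 3 y) := by
  simp only [br, EE, Matrix.smul_apply, Matrix.of_apply, smul_eq_mul, Fin.sum_univ_six]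
  simp only [Fin.isValue, Fin.reduceEq, and_self, and_false, and_true, if_false, if_true,
    mul_zero, zero_mul, add_zero, zero_add, mul_one, mul_neg, neg_mul]
  ring

/-- `6 × 2`. -/
def PA : Matrix (Fin 6) (Fin 2) ℝ := fun i j => if i = 3 ∧ j = 0 then 1 else if i = 4 ∧ j = 1 then 1 else 0

/-- `2 × 6`. -/
def PB : Matrix (Fin 2) (Fin 6) ℝ := fun i j => if i = 0 ∧ j = 4 then 1 else if i = 1 ∧ j = 3 then -1 else 0

theorem EE_eq : EE = PA * PB := by
  ext i j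
  fin_cases i <;> fin_cases j <;>
    simp [EE, PA, PB, Matrix.mul_apply]

theorem rank_EE (c : ℝ) (hc : c ≠ 0) : (c • EE).rank = 2 := by
  apply le_antisymm
  · have h : c • EE = (c • PA) * PB := by rw [EE_eq, Matrix.smul_mul]
    rw [h]
    refine (Matrix.rank_mul_le_left _ _).trans ?_
    exact (Matrix.rank_le_card_width _).trans (by simp)
  · have h : (PAᵀ * (c • EE)) * (c⁻¹ • PBᵀ) = 1 := by
      rw [EE_eq]
      ext i j
      fin_cases i <;> fin_cases j <;>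
        simp [PA, PB, Matrix.mul_apply, Fin.sum_univ_two, hc]
    have h2 : (1 : Matrix (Fin 2) (Fin 2) ℝ).rank = 2 := by simp
    rw [← h2, ← h]
    exact (Matrix.rank_mul_le_left _ _).trans (Matrix.rank_mul_le_right _ _)

theorem contDiffAt_of_comp {f : E6 → E6} {U : Set E6}
    (h : ∀ i, AnalyticOnNhd ℝ (fun z => f z i) U) {z : E6} (hz : z ∈ U) : ContDiffAt ℝ ∞ f z := by
  rw [contDiffAt_pi]
  intro i
  exact (h i z hz).contDiffAt

theorem open_ne {U : Set E6} (hU : IsOpen U) {g : E6 → ℝ} (hg : ContinuousOn g U) :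
    IsOpen {z | z ∈ U ∧ g z ≠ 0} :=
  hg.isOpen_inter_preimage hU isOpen_ne

theorem pd_coord (i : Fin 6) (j : Fin 6) (y : E6) :
    pd (fun z => z i) j y = if i = j then 1 else 0 := by
  unfold pd
  have h : fderiv ℝ (fun z : E6 => z i) y = ContinuousLinearMap.proj i :=
    (ContinuousLinearMap.proj i : E6 →L[ℝ] ℝ).hasFDerivAt.fderiv
  rw [h]
  simp only [ContinuousLinearMap.proj_apply, Pi.single_apply]

/-- The five integrals. -/
noncomputable def FF (C : E6 → ℝ) : Fin (4 + 1) → E6 → ℝ :=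
  ![fun z => z 0, fun z => z 1, fun z => z 2, fun z => z 5, C]

theorem FF_inv (C : E6 → ℝ) (z z' : E6) (h0 : z' 0 = z 0) (h1 : z' 1 = z 1) (h2 : z' 2 = z 2)
    (h5 : z' 5 = z 5) (hC : C z' = C z) (i : Fin (4 + 1)) : FF C i z' = FF C i z := by
  fin_cases i
  · exact h0
  · exact h1
  · exact h2
  · exact h5
  · exact hC

theorem FF_smooth (C : E6 → ℝ) (V : Set E6) (hC : ContDiffOn ℝ ∞ C V) (i : Fin (4 + 1)) :
    ContDiffOn ℝ ∞ (FF C i) V := by
  fin_cases i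
  · exact (contDiff_apply ℝ ℝ (0 : Fin 6)).contDiffOn
  · exact (contDiff_apply ℝ ℝ (1 : Fin 6)).contDiffOn
  · exact (contDiff_apply ℝ ℝ (2 : Fin 6)).contDiffOn
  · exact (contDiff_apply ℝ ℝ (5 : Fin 6)).contDiffOn
  · exact hC

theorem pd_FF (C : E6 → ℝ) (z : E6) (k : Fin 6) :
    pd (FF C 0) k z = (if (0 : Fin 6) = k then 1 else 0) ∧
    pd (FF C 1) k z = (if (1 : Fin 6) = k then 1 else 0) ∧
    pd (FF C 2) k z = (if (2 : Fin 6) = k then 1 else 0) ∧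
    pd (FF C 3) k z = (if (5 : Fin 6) = k then 1 else 0) ∧
    pd (FF C 4) k z = pd C k z :=
  ⟨pd_coord 0 k z, pd_coord 1 k z, pd_coord 2 k z, pd_coord 5 k z, rfl⟩

theorem pd_FF' (C : E6 → ℝ) (z : E6) (i : Fin (4 + 1)) (hi : i ≠ 4) :
    pd (FF C i) 3 z = 0 ∧ pd (FF C i) 4 z = 0 := by
  fin_cases i
  · exact ⟨(pd_coord 0 3 z).trans (by simp), (pd_coord 0 4 z).trans (by simp)⟩
  · exact ⟨(pd_coord 1 3 z).trans (by simp), (pd_coord 1 4 z).trans (by simp)⟩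
  · exact ⟨(pd_coord 2 3 z).trans (by simp), (pd_coord 2 4 z).trans (by simp)⟩
  · exact ⟨(pd_coord 5 3 z).trans (by simp), (pd_coord 5 4 z).trans (by simp)⟩
  · exact absurd rfl hi

theorem FF_indep (C : E6 → ℝ) (z : E6) (hC : pd C 3 z ≠ 0) :
    LinearIndependent ℝ fun i => fderiv ℝ (FF C i) z := by
  rw [Fintype.linearIndependent_iff]
  intro g hg
  have key : ∀ k : Fin 6, ∑ i, g i * pd (FF C i) k z = 0 := by
    intro k
    have h := congrArg (fun L : E6 →L[ℝ] ℝ => L (Pi.single k 1)) hg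
    simp only [ContinuousLinearMap.sum_apply, ContinuousLinearMap.smul_apply, smul_eq_mul,
      ContinuousLinearMap.zero_apply] at h
    exact h
  have key' : ∀ k : Fin 6, g 0 * (if (0 : Fin 6) = k then 1 else 0) +
      g 1 * (if (1 : Fin 6) = k then 1 else 0) + g 2 * (if (2 : Fin 6) = k then 1 else 0) +
      g 3 * (if (5 : Fin 6) = k then 1 else 0) + g 4 * pd C k z = 0 := by
    intro k
    have h := key k
    rw [Fin.sum_univ_five] at h
    obtain ⟨p0, p1, p2, p3, p4⟩ := pd_FF C z k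
    rw [← p0, ← p1, ← p2, ← p3, ← p4]
    exact h
  have h3 := key' 3
  simp only [Fin.isValue, Fin.reduceEq, if_false, mul_zero, add_zero, zero_add] at h3
  have hg4 : g 4 = 0 := (mul_eq_zero.mp h3).resolve_right hC
  have h0 := key' 0
  have h1 := key' 1
  have h2 := key' 2
  have h5 := key' 5
  simp only [Fin.isValue, Fin.reduceEq, if_false, if_true, mul_zero, add_zero, zero_add, mul_one,
    hg4, zero_mul] at h0 h1 h2 h5
  intro i
  fin_cases i
  · exact h0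
  · exact h1
  · exact h2
  · exact h5
  · exact hg4

theorem FF_invol (g C : E6 → ℝ) (z : E6) (i j : Fin (4 + 1)) :
    br (fun z => g z • EE) (FF C i) (FF C j) z = 0 := by
  rw [br_EE]
  by_cases hi : i = 4
  · by_cases hj : j = 4
    · rw [hi, hj]
      ring
    · rw [(pd_FF' C z j hj).1, (pd_FF' C z j hj).2]
      ring
  · rw [(pd_FF' C z i hi).1, (pd_FF' C z i hi).2]
    ring

theorem FF_casimir (c : ℝ) (C : E6 → ℝ) (z : E6) (i : Fin (4 + 1)) (hi : (i : ℕ) < 4)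
    (k : Fin 6) : ∑ j, (c • EE) k j * pd (FF C i) j z = 0 := by
  have hE : ∀ k j : Fin 6, j ≠ 3 → j ≠ 4 → EE k j = 0 := by
    intro k j h3 h4
    simp [EE, h3, h4]
  have hi4 : i ≠ 4 := by
    rintro rfl
    exact absurd hi (by decide)
  apply Finset.sum_eq_zero
  intro j _
  by_cases h3 : j = 3
  · rw [h3, (pd_FF' C z i hi4).1, mul_zero]
  · by_cases h4 : j = 4
    · rw [h4, (pd_FF' C z i hi4).2, mul_zero]
    · rw [Matrix.smul_apply, hE k j h3 h4, smul_zero, zero_mul]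

end CoreAux

open CoreAux

theorem tCore (hJac : S_Jac) (hFam : S_Fam) (hDt : S_Dt) (hSm : S_Sm) (hTG : S_TG) (hDM : S_DM)
    (hDN : S_DN) (hdC : S_dC) (hDU : S_DU) (hUTd : S_UTd) : S_Core := by
  intro t Y ht hY hDI
  have hrho : MFam (rho Y) := hFam.2.2.2.1 Y hY
  obtain ⟨-, -, -, -, hfam⟩ := hFam
  have hrho' : MFam (dual t (rho Y)) := (hfam t (rho Y) ht hrho).1
  have hDD : Dense (DD t) := hDI.mono fun z hz => hz.1
  obtain ⟨hoD, -, hoQ, hmq, hGG, hoC, hC1, hoM, hmu, hoR, hRm, -, -, hoU2, -⟩ :=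
    hSm t (rho Y) Y ht hrho hY
  obtain ⟨-, -, -, -, -, -, -, hoM', hmu', -⟩ := hSm t (dual t (rho Y)) Y ht hrho' hY
  set QD : Set E6 := {z | z ∈ DD t ∧ (Qm t z).det ≠ 0} with hQD
  have hcn : ∀ j, ContinuousOn (fun z => mq t (rho Y) z j) QD := fun j => (hmq j).continuousOn
  have hc3 : ContinuousOn (fun z : E6 => z 3) QD := (continuous_apply 3).continuousOn
  have hchs : ∀ i, ContinuousOn (fun z => hs (mq t (rho Y) z) (z 3) i) QD := by
    intro i
    unfold hs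
    exact (((hcn _).sub (hc3.mul (hcn _))).mul ((hcn _).sub (hc3.mul (hcn _)))).sub
      (((hcn _).sub (hc3.mul (hcn _))).pow 2)
  have hchk : ∀ i, ContinuousOn (fun z => hk (mq t (rho Y) z) i) QD := by
    intro i
    unfold hk
    exact ((hcn _).mul (hcn _)).sub ((hcn _).pow 2)
  have hckk : ∀ i, ContinuousOn (fun z => kk (mq t (rho Y) z) i) QD := by
    intro i
    unfold kk
    exact ((hcn _).mul (hcn _)).sub ((hcn _).mul (hcn _))
  have hcnm : ContinuousOn (fun z => nm (mq t (rho Y) z) (z 3)) QD := by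
    unfold nm
    exact (((hc3.pow 2).mul (((hckk _).mul (hchk _)).sub ((hchk _).mul (hckk _)))).add
      ((continuousOn_const.mul hc3).mul (((hchk _).mul (hchk _)).sub ((hchk _).pow 2)))).add
      (((hchk _).mul (hckk _)).sub ((hckk _).mul (hchk _)))
  have hoh : IsOpen {z | (z ∈ DD t ∧ (Qm t z).det ≠ 0) ∧ hs (mq t (rho Y) z) (z 3) 0 ≠ 0 ∧
      hs (mq t (rho Y) z) (z 3) 1 ≠ 0} := by
    have h1 := open_ne hoQ (hchs 0)
    have h2 := open_ne hoQ (hchs 1)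
    have e : {z | (z ∈ DD t ∧ (Qm t z).det ≠ 0) ∧ hs (mq t (rho Y) z) (z 3) 0 ≠ 0 ∧
        hs (mq t (rho Y) z) (z 3) 1 ≠ 0} =
        {z | z ∈ QD ∧ hs (mq t (rho Y) z) (z 3) 0 ≠ 0} ∩
        {z | z ∈ QD ∧ hs (mq t (rho Y) z) (z 3) 1 ≠ 0} :=
      Set.ext fun z => ⟨fun h => ⟨⟨h.1, h.2.1⟩, ⟨h.1, h.2.2⟩⟩, fun h => ⟨h.1.1, h.1.2, h.2.2⟩⟩
    rw [e]
    exact h1.inter h2
  have hon : IsOpen {z | (z ∈ DD t ∧ (Qm t z).det ≠ 0) ∧ nm (mq t (rho Y) z) (z 3) ≠ 0} :=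
    open_ne hoQ hcnm
  obtain ⟨hdM, hdh⟩ := hDM t (rho Y) ht hrho hDD
  have hdn := hDN t Y ht hY hDI
  obtain ⟨-, hdU2⟩ := hDU t Y ht hY hDD
  -- the set `W`
  let W : Set E6 := ((U2 t Y ∩ UM t (rho Y)) ∩ {z | (z ∈ DD t ∧ (Qm t z).det ≠ 0) ∧
    hs (mq t (rho Y) z) (z 3) 0 ≠ 0 ∧ hs (mq t (rho Y) z) (z 3) 1 ≠ 0}) ∩
    {z | (z ∈ DD t ∧ (Qm t z).det ≠ 0) ∧ nm (mq t (rho Y) z) (z 3) ≠ 0}
  have hoW : IsOpen W := ((hoU2.inter hoM).inter hoh).inter hon
  have hdW : Dense W :=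
    ((hdU2.inter_of_isOpen_left hdM hoU2).inter_of_isOpen_left hdh (hoU2.inter hoM)).inter_of_isOpen_left
      hdn ((hoU2.inter hoM).inter hoh)
  obtain ⟨hoT, hdT⟩ := hUTd t Y ht hY hDD (U2 t Y) hoU2 hdU2
  let V : Set E6 := W ∩ {z | z ∈ UT t Y ∧ TH t Y z ∈ U2 t Y}
  have hoV : IsOpen V := hoW.inter hoT
  have hdV : Dense V := hdW.inter_of_isOpen_left hdT hoW
  have hVQ : V ⊆ QD := fun z hz => hz.1.2.1
  have hVUT : V ⊆ UT t Y := fun z hz => hz.2.1
  have hTHs : ∀ z ∈ UT t Y, ContDiffAt ℝ ∞ (TH t Y) z := by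
    intro z hz
    obtain ⟨h1, h2, h3, h4⟩ := hz
    have e1 := contDiffAt_of_comp hmu h1
    have e2 := contDiffAt_of_comp hRm h2
    have e3 := contDiffAt_of_comp hmu' h3
    have e4 := contDiffAt_of_comp hRm h4
    have e21 := ContDiffAt.comp z e2 e1
    have e321 := ContDiffAt.comp z (g := mu t (dual t (rho Y))) e3 e21
    exact ContDiffAt.comp z (g := Rm t) e4 e321
  have hs0 : ∀ z ∈ V, hs (mq t (rho Y) z) (z 3) 0 ≠ 0 := fun z hz => hz.1.1.2.2.1
  have hs1 : ∀ z ∈ V, hs (mq t (rho Y) z) (z 3) 1 ≠ 0 := fun z hz => hz.1.1.2.2.2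
  have hnm : ∀ z ∈ V, nm (mq t (rho Y) z) (z 3) ≠ 0 := fun z hz => hz.1.2.2
  have hGs : ContDiffOn ℝ ∞ (GG t (rho Y)) V := fun z hz =>
    ((hGG z (hVQ hz)).contDiffAt).contDiffWithinAt
  have hCs : ContDiffOn ℝ ∞ (C1 t (rho Y)) V := fun z hz =>
    ((hC1 z ⟨hVQ hz, hs1 z hz⟩).contDiffAt).contDiffWithinAt
  have hT := fun z (hz : z ∈ V) => hTG t Y ht hY z (hVUT hz) (hs0 z hz) (hs1 z hz)
  have hpC : ∀ z ∈ V, pd (C1 t (rho Y)) 3 z ≠ 0 := by
    intro z hz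
    rw [hdC t (rho Y) ht hrho z (hVQ hz).1 (hVQ hz).2 (hs1 z hz)]
    have hp0 := (hDt t ht z (hVQ hz).1).2.1
    exact div_ne_zero (mul_ne_zero hp0 (hnm z hz)) (pow_ne_zero 2 (hs1 z hz))
  refine ⟨V, fun z => GG t (rho Y) z • EE, FF (C1 t (rho Y)), fun z hz => hz.1.1.1.1, hVUT, fun z hz => hz.2.2, ?_⟩
  refine
    { isOpen := hoV
      dense := hdV
      smooth := fun z hz => (hTHs z (hVUT hz)).contDiffWithinAt
      dense' := ?_
      poisson := hJac V (GG t (rho Y)) hoV hGs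
      rank := ?_
      inv := fun z hz _ => (hT z hz).1
      smoothF := fun i => FF_smooth _ V hCs i
      invF := ?_
      indep := fun z hz => FF_indep _ z (hpC z hz)
      invol := fun i j z _ => FF_invol _ _ z i j
      casimir := fun i hi z _ k => FF_casimir _ _ z i hi k }
  · obtain ⟨-, hd⟩ := hUTd t Y ht hY hDD V hoV hdV
    refine (hdV.inter_of_isOpen_left hd hoV).mono ?_
    intro z hz
    exact ⟨hz.1, hz.2.2⟩
  · intro z hz
    apply rank_EE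
    exact mul_ne_zero (hVQ hz).2 (hs1 z hz)
  · intro i z hz _
    obtain ⟨-, hC, h0, h1, h2, h5⟩ := hT z hz
    exact FF_inv (C1 t (rho Y)) z (TH t Y z) h0 h1 h2 h5 hC i

end Pool.Agent.MP62a5ad.PN
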