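import Pool.Agent.Lib.MP_62a5ad_mp.PN.Spec

/-!
# MP_62a5ad_mp, PN: preimages of dense open sets under homeomorphisms of open sets
-/

set_option autoImplicit false

namespace Pool.Agent.MP62a5ad.PN

/-- **DC.** -/
theorem tDC : S_DC := by
  intro S S' V F G hS hS' hF hG hFS hGS hGF hFG hdS hV hdV
  refine ⟨hF.isOpen_inter_preimage hS hV, ?_⟩
  rw [dense_iff_inter_open]
  intro O hO hOne
  obtain ⟨z0, hz0O, hz0S⟩ := hdS.inter_open_nonempty O hO hOne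
  have hW : IsOpen (S' ∩ G ⁻¹' (S ∩ O)) := hG.isOpen_inter_preimage hS' (hS.inter hO)
  have hWne : (S' ∩ G ⁻¹' (S ∩ O)).Nonempty := by
    refine ⟨F z0, hFS hz0S, ?_⟩
    show G (F z0) ∈ S ∩ O
    rw [hGF z0 hz0S]
    exact ⟨hz0S, hz0O⟩
  obtain ⟨w, hwW, hwV⟩ := hdV.inter_open_nonempty _ hW hWne
  refine ⟨G w, hwW.2.2, hwW.2.1, ?_⟩
  show F (G w) ∈ V
  rw [hFG w hwW.1]
  exact hwV

end Pool.Agent.MP62a5ad.PN
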