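import Pool.Agent.Lib.MP_62a5ad_mp.PN.Spec

/-!
# MP_62a5ad_mp, PN: density for `μ_θ`
-/

set_option autoImplicit false

namespace Pool.Agent.MP62a5ad.PN

open Matrix
open scoped ContDiff

namespace DMAux

/-- the matrix `Q(t)` on a fibre -/
def Qx (T : M4) (x : Fin 3 → ℝ) : M4 := T ^ 2 + x 1 • T + x 2 • (1 : M4)

/-- the moments, multiplied by the determinant -/
noncomputable def Nx (T Θ K : M4) (x : Fin 3 → ℝ) (j : ℕ) : ℝ :=
  (K⁻¹ *ᵥ ((T ^ j * (T⁻¹ * Θ * (Qx T x).adjugate)) *ᵥ e0)) 3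

theorem an_co (i : Fin 3) : AnalyticOnNhd ℝ (fun x : Fin 3 → ℝ => x i) Set.univ :=
  (ContinuousLinearMap.proj (R := ℝ) (φ := fun _ : Fin 3 => ℝ) i).analyticOnNhd _

theorem an_Q (h : MAc (Set.univ : Set (Fin 3 → ℝ))) (T : M4) : AM Set.univ (Qx T) :=
  h.add _ _ (h.add _ _ (h.const _) (h.smul _ _ (an_co 1) (h.const _)))
    (h.smul _ _ (an_co 2) (h.const _))

theorem an_D (h : MAc (Set.univ : Set (Fin 3 → ℝ))) (T : M4) :
    AnalyticOnNhd ℝ (fun x => (Qx T x).det) Set.univ := h.det _ (an_Q h T)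

theorem an_N (h : MAc (Set.univ : Set (Fin 3 → ℝ))) (T Θ K : M4) (j : ℕ) :
    AnalyticOnNhd ℝ (fun x => Nx T Θ K x j) Set.univ := by
  have h1 : AV (Set.univ : Set (Fin 3 → ℝ)) fun _ => e0 := fun i => analyticOnNhd_const
  have h2 : AM (Set.univ : Set (Fin 3 → ℝ)) fun x =>
      T ^ j * (T⁻¹ * Θ * (Qx T x).adjugate) :=
    h.mul _ _ (h.const _) (h.mul _ _ (h.const _) (h.adj _ (an_Q h T)))
  exact h.mulVec _ _ (h.const _) (h.mulVec _ _ h2 h1) 3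

theorem an_hs (h : MAc (Set.univ : Set (Fin 3 → ℝ))) (T Θ K : M4) (i : ℕ) :
    AnalyticOnNhd ℝ (fun x => hs (Nx T Θ K x) (x 0) i) Set.univ := by
  unfold hs
  have h1 : ∀ j, AnalyticOnNhd ℝ
      (fun x => Nx T Θ K x (j + 1) - x 0 * Nx T Θ K x j) Set.univ := fun j =>
    (an_N h T Θ K (j + 1)).sub ((an_co 0).mul (an_N h T Θ K j))
  exact ((h1 i).mul (h1 (i + 2))).sub ((h1 (i + 1)).pow 2)

theorem an_hk (h : MAc (Set.univ : Set (Fin 3 → ℝ))) (T Θ K : M4) (i : ℕ) :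
    AnalyticOnNhd ℝ (fun x => hk (Nx T Θ K x) i) Set.univ := by
  unfold hk
  exact ((an_N h T Θ K i).mul (an_N h T Θ K (i + 2))).sub ((an_N h T Θ K (i + 1)).pow 2)

theorem fb_eq (m : E6) (x : Fin 3 → ℝ) : fb m x 0 = m 0 ∧ fb m x 1 = m 1 ∧ fb m x 2 = m 2 ∧
    fb m x 3 = x 0 ∧ fb m x 4 = x 1 ∧ fb m x 5 = x 2 := ⟨rfl, rfl, rfl, rfl, rfl, rfl⟩

section

variable {t θ : E6 → M4} (ht : MFam t) (hθ : MFam θ) (m : E6) (x : Fin 3 → ℝ)

theorem t_fb (ht : MFam t) (m : E6) (x : Fin 3 → ℝ) : t (fb m x) = t m :=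
  ht.dep _ _ rfl rfl rfl

theorem Kt_fb (ht : MFam t) (m : E6) (x : Fin 3 → ℝ) : Kt t (fb m x) = Kt t m := by
  unfold Kt
  rw [t_fb ht]

theorem Qm_fb (ht : MFam t) (m : E6) (x : Fin 3 → ℝ) : Qm t (fb m x) = Qx (t m) x := by
  unfold Qm Qx
  rw [t_fb ht]
  rfl

theorem DD_fb (ht : MFam t) {m : E6} (hm : m ∈ DD t) (x : Fin 3 → ℝ) : fb m x ∈ DD t := by
  refine ⟨hm.1, ?_⟩
  rw [Kt_fb ht]
  exact hm.2

theorem mq_fb (ht : MFam t) (hθ : MFam θ) (m : E6) (x : Fin 3 → ℝ)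
    (hD : (Qx (t m) x).det ≠ 0) (j : ℕ) :
    Nx (t m) (θ m) (Kt t m) x j = (Qx (t m) x).det * mq t θ (fb m x) j := by
  unfold mq ell Nx
  rw [Kt_fb ht, t_fb ht, t_fb hθ, Qm_fb ht]
  have h1 : (Qx (t m) x).adjugate = (Qx (t m) x).det • (Qx (t m) x)⁻¹ := by
    rw [Matrix.inv_def, Ring.inverse_eq_inv', smul_smul, mul_inv_cancel₀ hD, one_smul]
  rw [h1, Matrix.mul_smul, Matrix.mul_smul, Matrix.smul_mulVec, Matrix.mulVec_smul]
  rfl

end

/-- algebra: with the factor -/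
theorem hk_mul (D : ℝ) (n N : ℕ → ℝ) (h : ∀ j, N j = D * n j) (i : ℕ) :
    hk N i = D ^ 2 * hk n i := by
  unfold hk
  rw [h, h, h]
  ring

theorem hs_mul (D : ℝ) (n N : ℕ → ℝ) (h : ∀ j, N j = D * n j) (s : ℝ) (i : ℕ) :
    hs N s i = D ^ 2 * hs n s i := by
  unfold hs
  simp only [h]
  ring

/-- a good point -/
theorem good (hDt : S_Dt) (hBrg : S_Brg) (hHa : S_Ha) {t θ : E6 → M4} (ht : MFam t)
    (hθ : MFam θ) {m : E6} (hm : m ∈ DD t) : ∃ u C : ℝ, ∀ s : ℝ,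
    (Qx (t m) ![s, u, C]).det ≠ 0 ∧ hk (mq t θ (fb m ![s, u, C])) 1 ≠ 0 := by
  obtain ⟨A, _, _, ι, b, τ, hFr, hτ, hinj, -, hsurj, -, hel, -, -, -, hinv⟩ := hBrg t ht m hm
  obtain ⟨ϑ, hϑ⟩ := hsurj (θ m) (hθ.com m hm.1)
  obtain ⟨ϑi, hϑi, -⟩ := hinv ϑ (by rw [hϑ]; exact hθ.ndet m hm.1)
  obtain ⟨u, C, q, hq, hH⟩ := hHa A τ b (pc t m) hFr ϑ ϑi hϑi
  refine ⟨u, C, fun s => ?_⟩
  have hQ : ι (qe τ u C) = Qx (t m) ![s, u, C] := by
    unfold qe Qx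
    rw [map_add, map_add, map_pow, map_smul, map_smul, map_one, hτ]
    rfl
  have h1 : Qx (t m) ![s, u, C] * ι q = 1 := by
    rw [← hQ, ← map_mul, hq, map_one]
  have hdet : (Qx (t m) ![s, u, C]).det ≠ 0 := by
    intro h0
    have h2 := congrArg Matrix.det h1
    rw [Matrix.det_mul, h0, zero_mul, Matrix.det_one] at h2
    exact zero_ne_one h2
  have hqi : (Qx (t m) ![s, u, C])⁻¹ = ι q := Matrix.inv_eq_right_inv h1
  have htd : IsUnit (t m).det := by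
    rw [isUnit_iff_ne_zero, (hDt t ht m hm).1]
    exact (hDt t ht m hm).2.1
  have key : ∀ j : ℕ, mq t θ (fb m ![s, u, C]) (j + 1) = el b (τ ^ j * (ϑ * q)) := by
    intro j
    rw [hel, map_mul, map_mul, map_pow, hτ, hϑ]
    unfold mq ell
    rw [Kt_fb ht, t_fb ht, t_fb hθ, Qm_fb ht, hqi, pow_succ]
    have e : t m ^ j * t m * ((t m)⁻¹ * θ m * ι q) = t m ^ j * (θ m * ι q) := by
      rw [mul_assoc (t m ^ j), mul_assoc (t m)⁻¹, Matrix.mul_nonsing_inv_cancel_left _ _ htd]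
    rw [e]
  refine ⟨hdet, ?_⟩
  unfold hk
  rw [key 0, key 1, key 2, pow_zero, one_mul, pow_one]
  exact hH

end DMAux

open DMAux in
theorem tDM (hFib : S_Fib) (hAn : S_An) (hMA : S_MA) (hDt : S_Dt) (hBrg : S_Brg) (hHa : S_Ha) :
    S_DM := by
  intro t θ ht hθ hDD
  have hA : MAc (Set.univ : Set (Fin 3 → ℝ)) := hMA _ _
  have key : ∀ m ∈ DD t,
      (Dense {x : Fin 3 → ℝ | (Qx (t m) x).det ≠ 0 ∧ hk (Nx (t m) (θ m) (Kt t m) x) 1 ≠ 0 ∧
        Nx (t m) (θ m) (Kt t m) x 2 - x 0 * Nx (t m) (θ m) (Kt t m) x 1 ≠ 0}) ∧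
      Dense {x : Fin 3 → ℝ | (Qx (t m) x).det ≠ 0 ∧
        hs (Nx (t m) (θ m) (Kt t m) x) (x 0) 0 ≠ 0 ∧
        hs (Nx (t m) (θ m) (Kt t m) x) (x 0) 1 ≠ 0} := by
    intro m hm
    obtain ⟨u, C, hgood⟩ := good hDt hBrg hHa ht hθ hm
    have hN : ∀ s : ℝ, ∀ j, Nx (t m) (θ m) (Kt t m) ![s, u, C] j =
        (Qx (t m) ![s, u, C]).det * mq t θ (fb m ![s, u, C]) j := fun s j =>
      mq_fb ht hθ m _ (hgood s).1 j
    have hhk : ∀ s : ℝ, hk (Nx (t m) (θ m) (Kt t m) ![s, u, C]) 1 ≠ 0 := fun s => by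
      rw [hk_mul _ _ _ (hN s)]
      exact mul_ne_zero (pow_ne_zero 2 (hgood s).1) (hgood s).2
    -- the moments do not depend on `s`
    have hind : ∀ s : ℝ, Nx (t m) (θ m) (Kt t m) ![s, u, C] =
        Nx (t m) (θ m) (Kt t m) ![0, u, C] := fun s => rfl
    generalize hn : Nx (t m) (θ m) (Kt t m) ![0, u, C] = n at hind
    have hk1 : hk n 1 ≠ 0 := by
      rw [← hn]
      exact hhk 0
    have a1 := hAn _ _ (an_D hA (t m)) ⟨_, (hgood 0).1⟩
    have a2 := hAn _ _ (an_hk hA (t m) (θ m) (Kt t m) 1) ⟨_, hhk 0⟩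
    have a3 := hAn _ _ (((an_N hA (t m) (θ m) (Kt t m) 2).sub
      ((an_co 0).mul (an_N hA (t m) (θ m) (Kt t m) 1)))) (by
        by_contra hcon
        push Not at hcon
        have c0 := hcon ![0, u, C]
        have c1 := hcon ![1, u, C]
        simp only [Pi.sub_apply, Pi.mul_apply, hind] at c0 c1
        have d0 : n 2 - 0 * n 1 = 0 := c0
        have d1 : n 2 - 1 * n 1 = 0 := c1
        apply hk1
        unfold hk
        have e2 : n 2 = 0 := by linarith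
        have e1 : n 1 = 0 := by linarith
        rw [e1, show n (1 + 1) = n 2 from rfl, e2]
        ring)
    have a4 := hAn _ _ (an_hs hA (t m) (θ m) (Kt t m) 0) ⟨![0, u, C], by
      rw [hind]
      have e : hs n ((![0, u, C] : Fin 3 → ℝ) 0) 0 = hk n 1 := by
        show hs n 0 0 = hk n 1
        unfold hs hk
        ring
      rw [e]
      exact hk1⟩
    have a5 := hAn _ _ (an_hs hA (t m) (θ m) (Kt t m) 1) (by
        by_contra hcon
        push Not at hcon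
        have c0 := hcon ![0, u, C]
        have c1 := hcon ![1, u, C]
        have c2 := hcon ![-1, u, C]
        rw [hind] at c0 c1 c2
        have d0 : hs n 0 1 = 0 := c0
        have d1 : hs n 1 1 = 0 := c1
        have d2 : hs n (-1) 1 = 0 := c2
        apply hk1
        have e : hs n 1 1 + hs n (-1) 1 - 2 * hs n 0 1 = 2 * hk n 1 := by
          unfold hs hk
          ring
        linarith)
    constructor
    · exact a1.2.inter_of_isOpen_left (a2.2.inter_of_isOpen_left a3.2 a2.1) a1.1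
    · exact a1.2.inter_of_isOpen_left (a4.2.inter_of_isOpen_left a5.2 a4.1) a1.1
  constructor
  · refine hFib _ _ hDD fun m hm => (key m hm).1.mono fun x hx => ?_
    obtain ⟨h1, h2, h3⟩ := hx
    have hN := mq_fb ht hθ m x h1
    rw [hk_mul _ _ _ hN] at h2
    refine ⟨DD_fb ht hm x, ?_, right_ne_zero_of_mul h2, ?_⟩
    · rw [Qm_fb ht]
      exact h1
    · have h4 : (Qx (t m) x).det * (mq t θ (fb m x) 2 - fb m x 3 * mq t θ (fb m x) 1) ≠ 0 := by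
        rw [hN, hN] at h3
        intro h5
        apply h3
        rw [← h5, (fb_eq m x).2.2.2.1]
        ring
      exact right_ne_zero_of_mul h4
  · refine hFib _ _ hDD fun m hm => (key m hm).2.mono fun x hx => ?_
    obtain ⟨h1, h2, h3⟩ := hx
    have hN := mq_fb ht hθ m x h1
    rw [hs_mul _ _ _ hN] at h2 h3
    refine ⟨⟨DD_fb ht hm x, ?_⟩, ?_, ?_⟩
    · rw [Qm_fb ht]
      exact h1
    · rw [(fb_eq m x).2.2.2.1]
      exact right_ne_zero_of_mul h2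
    · rw [(fb_eq m x).2.2.2.1]
      exact right_ne_zero_of_mul h3

end Pool.Agent.MP62a5ad.PN
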