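import Pool.Agent.Lib.MP_62a5ad_mp.PN.Spec

set_option autoImplicit false

namespace Pool.Agent.MP62a5ad.PN

open Matrix
open scoped ContDiff

namespace DNAux

/-- `Q(t)` on a fibre. -/
noncomputable def Qx (T : M4) (x : Fin 3 → ℝ) : M4 := T ^ 2 + x 1 • T + x 2 • (1 : M4)

/-- The moments on a fibre. -/
noncomputable def nx (T Θ K : M4) (x : Fin 3 → ℝ) (j : ℕ) : ℝ :=
  (K⁻¹ *ᵥ ((T ^ j * (T⁻¹ * Θ * (Qx T x)⁻¹)) *ᵥ e0)) 3

/-- The moments on a fibre, multiplied by the determinant. -/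
noncomputable def Nx (T Θ K : M4) (x : Fin 3 → ℝ) (j : ℕ) : ℝ :=
  (K⁻¹ *ᵥ ((T ^ j * (T⁻¹ * Θ * (Qx T x).adjugate)) *ᵥ e0)) 3

theorem Kt_fb {t : E6 → M4} (ht : MFam t) (m : E6) (x : Fin 3 → ℝ) :
    Kt t (fb m x) = Kt t m := by
  have h : t (fb m x) = t m := ht.dep _ _ rfl rfl rfl
  simp only [Kt, h]

theorem DD_fb {t : E6 → M4} (ht : MFam t) (m : E6) (hm : m ∈ DD t) (x : Fin 3 → ℝ) :
    fb m x ∈ DD t := by
  refine ⟨hm.1, ?_⟩
  rw [Kt_fb ht]
  exact hm.2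

theorem Qm_fb {t : E6 → M4} (ht : MFam t) (m : E6) (x : Fin 3 → ℝ) :
    Qm t (fb m x) = Qx (t m) x := by
  have h : t (fb m x) = t m := ht.dep _ _ rfl rfl rfl
  simp only [Qm, h]
  rfl

theorem mq_fb {t θ : E6 → M4} (ht : MFam t) (hθ : MFam θ) (m : E6) (x : Fin 3 → ℝ) :
    mq t θ (fb m x) = nx (t m) (θ m) (Kt t m) x := by
  have h : t (fb m x) = t m := ht.dep _ _ rfl rfl rfl
  have h' : θ (fb m x) = θ m := hθ.dep _ _ rfl rfl rfl
  funext j
  simp only [mq, ell, Kt_fb ht, Qm_fb ht, h, h']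
  rfl

theorem adj_eq_smul (Q : M4) (h : Q.det ≠ 0) : Q.adjugate = Q.det • Q⁻¹ := by
  rw [Matrix.inv_def, Ring.inverse_eq_inv', smul_smul, mul_inv_cancel₀ h, one_smul]

theorem Nx_eq (T Θ K : M4) (x : Fin 3 → ℝ) (h : (Qx T x).det ≠ 0) (j : ℕ) :
    Nx T Θ K x j = (Qx T x).det * nx T Θ K x j := by
  unfold Nx nx
  rw [adj_eq_smul _ h, Matrix.mul_smul, Matrix.mul_smul, Matrix.smul_mulVec, Matrix.mulVec_smul,
    Pi.smul_apply, smul_eq_mul]

theorem nm_scale (n : ℕ → ℝ) (d s : ℝ) : nm (fun j => d * n j) s = d ^ 4 * nm n s := by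
  simp only [nm, kk, hk]
  ring

theorem an_nm {E : Type} [NormedAddCommGroup E] [NormedSpace ℝ E] (n : E → ℕ → ℝ) (s : E → ℝ)
    (hn : ∀ j, AnalyticOnNhd ℝ (fun x => n x j) Set.univ) (hs : AnalyticOnNhd ℝ s Set.univ) :
    AnalyticOnNhd ℝ (fun x => nm (n x) (s x)) Set.univ := by
  intro y hy
  have h1 : ∀ j, AnalyticAt ℝ (fun x => n x j) y := fun j => hn j y hy
  have h2 : AnalyticAt ℝ s y := hs y hy
  simp only [nm, kk, hk]
  fun_prop

theorem an_coord (i : Fin 3) : AnalyticOnNhd ℝ (fun x : Fin 3 → ℝ => x i) Set.univ :=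
  (ContinuousLinearMap.proj (R := ℝ) (φ := fun _ : Fin 3 => ℝ) i).analyticOnNhd _

theorem an_Qx (hMA : S_MA) (T : M4) : AM (Set.univ : Set (Fin 3 → ℝ)) fun x => Qx T x := by
  have H := hMA (Fin 3 → ℝ) Set.univ
  exact H.add _ _ (H.add _ _ (H.const (T ^ 2)) (H.smul _ _ (an_coord 1) (H.const T)))
    (H.smul _ _ (an_coord 2) (H.const 1))

theorem an_Nx (hMA : S_MA) (T Θ K : M4) (j : ℕ) :
    AnalyticOnNhd ℝ (fun x => Nx T Θ K x j) Set.univ := by
  have H := hMA (Fin 3 → ℝ) Set.univ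
  have h1 : AM (Set.univ : Set (Fin 3 → ℝ)) fun x => T ^ j * (T⁻¹ * Θ * (Qx T x).adjugate) :=
    H.mul _ _ (H.const _) (H.mul _ _ (H.const _) (H.adj _ (an_Qx hMA T)))
  have h2 : AV (Set.univ : Set (Fin 3 → ℝ)) fun _ => e0 := fun i => analyticOnNhd_const
  exact H.mulVec _ _ (H.const K⁻¹) (H.mulVec _ _ h1 h2) 3

theorem quad (a b c : ℝ) (hb : b ≠ 0) : ∃ s : ℝ, s ^ 2 * a + 2 * s * b + c ≠ 0 := by
  by_contra h
  push Not at h
  have h0 := h 0
  have h1 := h 1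
  have h2 := h (-1)
  apply hb
  linarith

theorem nx_s (T Θ K : M4) (x x' : Fin 3 → ℝ) (h1 : x 1 = x' 1) (h2 : x 2 = x' 2) :
    nx T Θ K x = nx T Θ K x' := by
  funext j
  unfold nx Qx
  rw [h1, h2]

end DNAux

open DNAux

theorem tDN (hFib : S_Fib) (hAn : S_An) (hMA : S_MA) (hFam : S_Fam) (hBrg : S_Brg)
    (hHb : S_Hb) : S_DN := by
  intro t Y ht hY hD
  have hρ : MFam (rho Y) := hFam.2.2.2.1 Y hY
  refine hFib _ _ hD ?_
  intro m hm
  obtain ⟨hm1, hm2⟩ := hm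
  -- the analytic function
  let P : (Fin 3 → ℝ) → ℝ := fun x =>
    (Qx (t m) x).det * nm (Nx (t m) (rho Y m) (Kt t m) x) (x 0)
  have hP : AnalyticOnNhd ℝ P Set.univ :=
    ((hMA (Fin 3 → ℝ) Set.univ).det _ (an_Qx hMA (t m))).mul
      (an_nm _ _ (an_Nx hMA (t m) (rho Y m) (Kt t m)) (an_coord 0))
  have key : ∃ x, P x ≠ 0 := by
    obtain ⟨A, iA, iB, ι, b, τ, h1, h2, h3, h4, h5, h6, h7, h8, h9, h10, h11⟩ := hBrg t ht m hm1
    obtain ⟨θ, hθ⟩ := h5 (rho Y m) (hρ.com m hm1.1)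
    have hθd : (ι θ).det ≠ 0 := by
      rw [hθ]
      exact hρ.ndet m hm1.1
    have hτd : (ι τ).det ≠ 0 := by
      rw [h2]
      exact ht.ndet m hm1.1
    obtain ⟨θi, hθi, -⟩ := h11 θ hθd
    obtain ⟨ti, hti, hti'⟩ := h11 τ hτd
    have hlin : LinearIndependent ℝ ![θ, τ] := by
      let L : A →ₗ[ℝ] V4 :=
        { toFun := fun a => ι a *ᵥ e0
          map_add' := by
            intro a a'
            rw [map_add, Matrix.add_mulVec]
          map_smul' := by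
            intro c a
            rw [map_smul, Matrix.smul_mulVec]
            rfl }
      refine LinearIndependent.of_comp L ?_
      have e : L ∘ ![θ, τ] = ![rho Y m *ᵥ e0, t m *ᵥ e0] := by
        funext i
        fin_cases i
        · change ι θ *ᵥ e0 = rho Y m *ᵥ e0
          rw [hθ]
        · change ι τ *ᵥ e0 = t m *ᵥ e0
          rw [h2]
      rw [e]
      exact hm2
    obtain ⟨u, C, q, hq, hH⟩ := hHb A τ b (pc t m) h1 θ θi ti hθi hti hlin
    have hQ : ∀ s : ℝ, Qx (t m) ![s, u, C] = ι (qe τ u C) := by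
      intro s
      simp only [Qx, qe, map_add, map_smul, map_pow, map_one, h2]
      rfl
    have hQq : ∀ s : ℝ, Qx (t m) ![s, u, C] * ι q = 1 := by
      intro s
      rw [hQ, ← map_mul, hq, map_one]
    have hQd : ∀ s : ℝ, (Qx (t m) ![s, u, C]).det ≠ 0 := by
      intro s h0
      have e := congrArg Matrix.det (hQq s)
      rw [Matrix.det_mul, h0, zero_mul, Matrix.det_one] at e
      exact zero_ne_one e
    have hn : ∀ (s : ℝ) (j : ℕ),
        nx (t m) (rho Y m) (Kt t m) ![s, u, C] j = el b (τ ^ j * (ti * θ * q)) := by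
      intro s j
      rw [h7]
      simp only [ell, nx, map_mul, map_pow, h2, hθ, hti', Matrix.inv_eq_right_inv (hQq s)]
    have hτti : ∀ z : A, τ * (ti * z) = z := by
      intro z
      rw [← mul_assoc, hti, one_mul]
    let n : ℕ → ℝ := fun j => el b (τ ^ j * (ti * θ * q))
    have k0 : hk n 0 = H0 τ b (ti * (θ * q)) := by
      simp only [hk, H0, n]
      ring_nf
    have k1 : hk n 1 = H0 τ b (θ * q) := by
      have e1 : τ ^ 1 * (ti * θ * q) = θ * q := by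
        rw [pow_one, mul_assoc ti, hτti]
      have e2 : τ ^ (1 + 1) * (ti * θ * q) = τ * (θ * q) := by
        rw [pow_succ', pow_one, mul_assoc τ, mul_assoc ti, hτti]
      have e3 : τ ^ (1 + 2) * (ti * θ * q) = τ ^ 2 * (θ * q) := by
        have : τ ^ (1 + 2) = τ ^ 2 * τ := by ring
        rw [this, mul_assoc, mul_assoc ti, hτti]
      simp only [hk, H0, n]
      rw [e1, e2, e3]
    have k2 : hk n 2 = H0 τ b (τ * (θ * q)) := by
      have e1 : τ ^ 2 * (ti * θ * q) = τ * (θ * q) := by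
        rw [pow_two, mul_assoc τ, mul_assoc ti, hτti]
      have e2 : τ ^ (2 + 1) * (ti * θ * q) = τ * (τ * (θ * q)) := by
        have : τ ^ (2 + 1) = τ * τ * τ := by ring
        rw [this, mul_assoc (τ * τ), mul_assoc ti, hτti, mul_assoc]
      have e3 : τ ^ (2 + 2) * (ti * θ * q) = τ ^ 2 * (τ * (θ * q)) := by
        have : τ ^ (2 + 2) = τ ^ 2 * τ * τ := by ring
        rw [this, mul_assoc (τ ^ 2 * τ), mul_assoc ti, hτti, mul_assoc]
      simp only [hk, H0, n]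
      rw [e1, e2, e3]
    rw [← k0, ← k1, ← k2] at hH
    obtain ⟨s, hs⟩ := quad (kk n 0 * hk n 1 - hk n 0 * kk n 1) _
      (hk n 1 * kk n 1 - kk n 0 * hk n 2) hH
    have hs' : nm n s ≠ 0 := hs
    refine ⟨![s, u, C], mul_ne_zero (hQd s) ?_⟩
    have hN : Nx (t m) (rho Y m) (Kt t m) ![s, u, C] =
        fun j => (Qx (t m) ![s, u, C]).det * n j := by
      funext j
      rw [Nx_eq _ _ _ _ (hQd s), hn s j]
    rw [hN, nm_scale]
    exact mul_ne_zero (pow_ne_zero 4 (hQd s)) hs'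
  refine (hAn _ P hP key).2.mono ?_
  intro x hx
  have hx1 : (Qx (t m) x).det ≠ 0 := left_ne_zero_of_mul hx
  have hx2 : nm (Nx (t m) (rho Y m) (Kt t m) x) (x 0) ≠ 0 := right_ne_zero_of_mul hx
  have hN : Nx (t m) (rho Y m) (Kt t m) x =
      fun j => (Qx (t m) x).det * nx (t m) (rho Y m) (Kt t m) x j := by
    funext j
    rw [Nx_eq _ _ _ _ hx1]
  rw [hN, nm_scale] at hx2
  refine ⟨⟨DD_fb ht m hm1 x, ?_⟩, ?_⟩
  · rw [Qm_fb ht]
    exact hx1
  · rw [mq_fb ht hρ]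
    exact right_ne_zero_of_mul hx2

end Pool.Agent.MP62a5ad.PN
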