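import Pool.Agent.Lib.MP_62a5ad_mp.PN.Spec

/-!
# Density of the domain of `R`
-/

set_option autoImplicit false

namespace Pool.Agent.MP62a5ad.PN

open Matrix
open scoped ContDiff

namespace DRAux

theorem an_coord (i : Fin 3) (x : Fin 3 → ℝ) : AnalyticAt ℝ (fun x : Fin 3 → ℝ => x i) x :=
  (ContinuousLinearMap.proj (R := ℝ) (φ := fun _ : Fin 3 => ℝ) i).analyticAt x

section

variable {E : Type} [NormedAddCommGroup E] [NormedSpace ℝ E] {f g h : E → ℝ} {x : E}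

theorem gen_A1 (p : V4) (hf : AnalyticAt ℝ f x) (hg : AnalyticAt ℝ g x) :
    AnalyticAt ℝ (fun x => A1 p (f x) (g x)) x := by
  unfold A1
  fun_prop

theorem gen_A0 (p : V4) (hf : AnalyticAt ℝ f x) (hg : AnalyticAt ℝ g x) :
    AnalyticAt ℝ (fun x => A0 p (f x) (g x)) x := by
  unfold A0
  fun_prop

theorem gen_dR (p : V4) (hf : AnalyticAt ℝ f x) (hg : AnalyticAt ℝ g x)
    (hh : AnalyticAt ℝ h x) : AnalyticAt ℝ (fun x => dR p (f x) (g x) (h x)) x := by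
  have h1 := gen_A1 p hg hh
  have h2 := gen_A0 p hg hh
  unfold dR
  fun_prop

theorem gen_N (p : V4) (hf : AnalyticAt ℝ f x) (hg : AnalyticAt ℝ g x)
    (hh : AnalyticAt ℝ h x) :
    AnalyticAt ℝ (fun x => h x * A1 p (g x) (h x) - A0 p (g x) (h x) * (f x + g x)) x := by
  have h1 := gen_A1 p hg hh
  have h2 := gen_A0 p hg hh
  fun_prop

theorem gen_qv (hf : AnalyticAt ℝ f x) (hg : AnalyticAt ℝ g x)
    (hh : AnalyticAt ℝ h x) : AnalyticAt ℝ (fun x => qv (f x) (g x) (h x)) x := by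
  unfold qv
  fun_prop

theorem gen_pv (p : V4) (hf : AnalyticAt ℝ f x) : AnalyticAt ℝ (fun x => pv p (f x)) x := by
  unfold pv
  fun_prop

end

theorem an_dR (p : V4) (x : Fin 3 → ℝ) :
    AnalyticAt ℝ (fun x : Fin 3 → ℝ => dR p (x 0) (x 1) (x 2)) x :=
  gen_dR p (an_coord 0 x) (an_coord 1 x) (an_coord 2 x)

/-- The numerator of `sR`. -/
def Nn (p : V4) (x : Fin 3 → ℝ) : ℝ :=
  x 2 * A1 p (x 1) (x 2) - A0 p (x 1) (x 2) * (x 0 + x 1)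

theorem an_Nn (p : V4) (x : Fin 3 → ℝ) : AnalyticAt ℝ (fun x : Fin 3 → ℝ => Nn p x) x :=
  gen_N p (an_coord 0 x) (an_coord 1 x) (an_coord 2 x)

/-- The homogeneous form of `p`. -/
def hp (p : V4) (N D : ℝ) : ℝ :=
  N ^ 4 + p 3 * N ^ 3 * D + p 2 * N ^ 2 * D ^ 2 + p 1 * N * D ^ 3 + p 0 * D ^ 4

theorem hp_div (p : V4) (N D : ℝ) (hD : D ≠ 0) : hp p N D = D ^ 4 * pv p (N / D) := by
  unfold hp pv
  field_simp

theorem hp_mul (p : V4) (y D : ℝ) : hp p (y * D) D = D ^ 4 * pv p y := by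
  unfold hp pv
  ring

theorem pol1 (p : V4) : ∃ C : ℝ, 0 < C ∧ A1 p 0 C ≠ 0 := by
  refine ⟨|p 2| + |p 0| + 1, by positivity, ?_⟩
  unfold A1
  have h1 := neg_abs_le (p 0)
  have h2 := le_abs_self (p 2)
  have h3 := abs_nonneg (p 0)
  have h4 := abs_nonneg (p 2)
  set C := |p 2| + |p 0| + 1 with hC
  have h5 : 1 ≤ C := by linarith
  have h6 : |p 0| + 1 ≤ C - p 2 := by linarith
  have h7 : |p 0| + 1 ≤ C * (C - p 2) := by nlinarith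
  have h8 : C * (0 ^ 2 - p 3 * 0 + p 2 - C) - p 0 < 0 := by nlinarith
  exact h8.ne

theorem pt_ex (hAn : S_An) (p : V4) (hp0 : p 0 ≠ 0) : ∃ x : Fin 3 → ℝ,
    dR p (x 0) (x 1) (x 2) ≠ 0 ∧ hp p (Nn p x) (dR p (x 0) (x 1) (x 2)) ≠ 0 := by
  obtain ⟨C, hC, hA⟩ := pol1 p
  obtain ⟨o1, d1⟩ := hAn ℝ (fun x => pv p x) (fun x _ => by unfold pv; fun_prop)
    ⟨0, by simpa [pv] using hp0⟩
  obtain ⟨o2, d2⟩ := hAn ℝ (fun x => A1 p 0 C * x + A0 p 0 C) (fun x _ => by fun_prop)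
    ⟨(1 - A0 p 0 C) / A1 p 0 C, by
      rw [mul_div_cancel₀ _ hA]
      ring_nf
      norm_num⟩
  obtain ⟨y, hy1, hy2⟩ := (d1.inter_of_isOpen_left d2 o1).nonempty
  have hy1' : pv p y ≠ 0 := hy1
  have hy2' : A1 p 0 C * y + A0 p 0 C ≠ 0 := hy2
  have hpos : 0 < C * A1 p 0 C ^ 2 + A0 p 0 C ^ 2 := by positivity
  set s : ℝ := (C * A1 p 0 C - A0 p 0 C * y) / (A1 p 0 C * y + A0 p 0 C) with hs
  have e1 : dR p s 0 C = (C * A1 p 0 C ^ 2 + A0 p 0 C ^ 2) / (A1 p 0 C * y + A0 p 0 C) := by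
    unfold dR
    rw [hs]
    field_simp
    ring
  have e2 : Nn p ![s, 0, C] = y * dR p s 0 C := by
    have : Nn p ![s, 0, C] = C * A1 p 0 C - A0 p 0 C * (s + 0) := rfl
    rw [this, e1, hs]
    field_simp
    ring
  have e3 : dR p s 0 C ≠ 0 := by
    rw [e1]
    exact div_ne_zero hpos.ne' hy2'
  refine ⟨![s, 0, C], e3, ?_⟩
  change hp p (Nn p ![s, 0, C]) (dR p s 0 C) ≠ 0
  rw [e2, hp_mul]
  exact mul_ne_zero (pow_ne_zero 4 e3) hy1'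

end DRAux

open DRAux in
theorem tDR (hFib : S_Fib) (hAn : S_An) (hDt : S_Dt) (_hRA : S_RA) : S_DR := by
  intro t ht hD
  refine hFib (UR t) (DD t) hD fun m hm => ?_
  have hp0 : pc t m 0 ≠ 0 := (hDt t ht m hm).2.1
  set p := pc t m with hpdef
  obtain ⟨x5, hx3, hx5⟩ := pt_ex hAn p hp0
  obtain ⟨o1, d1⟩ := hAn (Fin 3 → ℝ) (fun x => x 2) (fun x _ => an_coord 2 x)
    ⟨![0, 0, 1], by simp⟩
  obtain ⟨o2, d2⟩ := hAn (Fin 3 → ℝ) (fun x => qv (x 1) (x 2) (x 0)) (fun x _ =>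
    gen_qv (an_coord 1 x) (an_coord 2 x) (an_coord 0 x)) ⟨![0, 0, 1], by simp [qv]⟩
  obtain ⟨o3, d3⟩ := hAn (Fin 3 → ℝ) (fun x => dR p (x 0) (x 1) (x 2)) (fun x _ => an_dR p x)
    ⟨x5, hx3⟩
  obtain ⟨o4, d4⟩ := hAn (Fin 3 → ℝ) (fun x => pv p (x 0)) (fun x _ =>
    gen_pv p (an_coord 0 x)) ⟨![0, 0, 1], by simpa [pv] using hp0⟩
  obtain ⟨o5, d5⟩ := hAn (Fin 3 → ℝ) (fun x => hp p (Nn p x) (dR p (x 0) (x 1) (x 2)))
    (fun x _ => by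
      have h0 := an_Nn p x
      have h1 := an_dR p x
      unfold hp
      fun_prop) ⟨x5, hx5⟩
  have hd := (((d1.inter_of_isOpen_left d2 o1).inter_of_isOpen_right d3 o3).inter_of_isOpen_right
    d4 o4).inter_of_isOpen_right d5 o5
  refine hd.mono ?_
  rintro x ⟨⟨⟨⟨h1, h2⟩, h3⟩, h4⟩, h5⟩
  have ht' : t (fb m x) = t m := ht.dep _ _ rfl rfl rfl
  have hK : Kt t (fb m x) = Kt t m := by unfold Kt; rw [ht']
  have hpc : pc t (fb m x) = p := by unfold pc; rw [hK, ht']; rfl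
  have hDD : fb m x ∈ DD t := by
    refine ⟨hm.1, ?_⟩
    rw [hK]
    exact hm.2
  have h3' : dR p (x 0) (x 1) (x 2) ≠ 0 := h3
  refine ⟨hDD, h1, h2, ?_, ?_, ?_⟩
  · rw [hpc]
    exact h3
  · rw [hpc]
    exact h4
  · rw [hpc]
    intro h
    have h6 : hp p (Nn p x) (dR p (x 0) (x 1) (x 2)) ≠ 0 := h5
    rw [hp_div p _ _ h3'] at h6
    exact (mul_ne_zero_iff.1 h6).2 h

end Pool.Agent.MP62a5ad.PN
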