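import Pool.Agent.Lib.MP_62a5ad_mp.PN.Spec

set_option autoImplicit false

namespace Pool.Agent.MP62a5ad.PN

open Matrix
open scoped ContDiff

namespace DenAux

/-- The test point. -/
noncomputable def zt : E6 := ![35 / 100, 50 / 1000, 24 / 10000, 0, 0, 0]

theorem an_mono : AM (Set.univ : Set E6) mono := by
  have hpi : ∀ i : Fin 6, AnalyticOnNhd ℝ (fun z : E6 => z i) Set.univ := fun i =>
    (ContinuousLinearMap.proj (R := ℝ) (φ := fun _ : Fin 6 => ℝ) i).analyticOnNhd _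
  intro i j
  unfold mono
  fin_cases i <;> fin_cases j <;>
    first
    | exact analyticOnNhd_const
    | exact hpi 1
    | exact (hpi 2).neg
    | exact (hpi 0).neg

theorem an_P (hMA : S_MA) (e : ℕ) :
    AnalyticOnNhd ℝ (fun z : E6 => (Kt (Mz e) z).det) Set.univ := by
  have hM := hMA E6 Set.univ
  refine hM.det _ ?_
  intro i j
  have h1 : AM (Set.univ : Set E6) fun z => (Mz e z) ^ (j : ℕ) := by
    refine hM.pow _ _ ?_
    have h2 := hM.pow e _ an_mono
    refine fun i j => ?_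
    have h3 := h2 i j
    unfold Mz
    simpa only [zpow_natCast] using h3
  exact hM.mulVec _ (fun _ => e0) h1 (fun _ => analyticOnNhd_const) i

/-- The root. -/
noncomputable def rt (i : Fin 4) : ℝ := ((i : ℕ) + 1) / 10

theorem rt_pos (i : Fin 4) : 0 < rt i := by
  unfold rt
  positivity

theorem rt_inj {e : ℕ} (he : 0 < e) : Function.Injective fun i => rt i ^ e := by
  intro i j hij
  have h1 : rt i = rt j := (pow_left_inj₀ (rt_pos i).le (rt_pos j).le he.ne').1 hij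
  unfold rt at h1
  have h2 : ((i : ℕ) : ℝ) = ((j : ℕ) : ℝ) := by linarith
  exact Fin.ext (by exact_mod_cast h2)

/-- The matrix with the rows `r_i`. -/
noncomputable def VV : M4 := Matrix.of fun i j => rt i ^ (j : ℕ)

theorem VV_mono : VV * mono zt = Matrix.diagonal rt * VV := by
  ext i j
  rw [Matrix.diagonal_mul]
  fin_cases i <;> fin_cases j <;>
    simp [VV, mono, zt, rt, Matrix.mul_apply, Fin.sum_univ_succ] <;> norm_num

theorem VV_pow (n : ℕ) : VV * (mono zt) ^ n = (Matrix.diagonal rt) ^ n * VV := by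
  induction n with
  | zero => simp
  | succ n ih => rw [pow_succ, ← Matrix.mul_assoc, ih, Matrix.mul_assoc, VV_mono, ← Matrix.mul_assoc,
      ← pow_succ]

theorem VV_e0 (i : Fin 4) : (VV *ᵥ e0) i = 1 := by
  simp [VV, e0, Matrix.mulVec, dotProduct, Fin.sum_univ_succ]

theorem VV_Kt (e : ℕ) : VV * Kt (Mz e) zt = Matrix.vandermonde fun i => rt i ^ e := by
  ext i j
  have h1 : (VV * Kt (Mz e) zt) i j = (VV *ᵥ ((Mz e zt) ^ (j : ℕ) *ᵥ e0)) i := rfl
  rw [h1, Matrix.mulVec_mulVec]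
  unfold Mz
  rw [zpow_natCast, ← pow_mul, VV_pow, ← Matrix.mulVec_mulVec, Matrix.diagonal_pow,
    Matrix.mulVec_diagonal, VV_e0, Matrix.vandermonde_apply]
  simp [pow_mul]

theorem det_ne {e : ℕ} (he : 0 < e) : (Kt (Mz e) zt).det ≠ 0 := by
  have h1 : (VV * Kt (Mz e) zt).det ≠ 0 := by
    rw [VV_Kt]
    exact Matrix.det_vandermonde_ne_zero_iff.2 (rt_inj he)
  rw [Matrix.det_mul] at h1
  exact right_ne_zero_of_mul h1

theorem z2 : IsOpen {z : E6 | z 2 ≠ 0} := isOpen_ne_fun (continuous_apply 2) continuous_const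

theorem od (hAn : S_An) (hMA : S_MA) {e : ℕ} (he : 0 < e) :
    IsOpen (DD (Mz e)) ∧ Dense (DD (Mz e)) := by
  have h1 := hAn E6 (fun z => (Kt (Mz e) z).det) (an_P hMA e) ⟨zt, det_ne he⟩
  have h2 := hAn E6 (fun z => z 2)
    ((ContinuousLinearMap.proj (R := ℝ) (φ := fun _ : Fin 6 => ℝ) 2).analyticOnNhd _)
    ⟨zt, by simp [zt]⟩
  exact ⟨h2.1.inter h1.1, h2.2.inter_of_isOpen_left h1.2 h2.1⟩

end DenAux

open DenAux in
theorem tDen (hAn : S_An) (hMA : S_MA) (hFam : S_Fam) : S_Den := by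
  refine ⟨fun e he => (od hAn hMA he).2, ?_⟩
  intro e c he hc hce
  set n : ℕ := (e - c : ℤ).natAbs with hn
  have hn0 : 0 < n := Int.natAbs_pos.2 (sub_ne_zero.2 (Ne.symm hce))
  obtain ⟨o1, d1⟩ := od hAn hMA he
  obtain ⟨o2, d2⟩ := od hAn hMA hn0
  refine (d1.inter_of_isOpen_left d2 o1).mono ?_
  rintro z ⟨h1, h2⟩
  refine ⟨h1, ?_⟩
  have hz2 : z 2 ≠ 0 := h1.1
  have hdet : (mono z).det ≠ 0 := by rw [hFam.1 z]; exact hz2
  have hu : IsUnit (mono z).det := isUnit_iff_ne_zero.2 hdet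
  -- `rho = M ^ c`
  have hρ : rho (Mz ((c - 1) / 2)) z = (mono z) ^ c := by
    unfold rho Mz
    obtain ⟨k, rfl⟩ := hc
    have e1 : (2 * k + 1 - 1) / 2 = k := by omega
    rw [e1, ← zpow_natCast, ← Matrix.zpow_mul _ hu, ← Matrix.zpow_one_add hu]
    congr 1
    push_cast
    ring
  have ht : Mz e z = (mono z) ^ (e : ℤ) := rfl
  rw [hρ, ht]
  -- the columns of `Kt`
  have hK : LinearIndependent ℝ ![e0, (mono z) ^ n *ᵥ e0] := by
    have h3 : LinearIndependent ℝ (Kt (Mz n) z)ᵀ := by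
      exact Matrix.linearIndependent_cols_iff_isUnit.2
        ((Matrix.isUnit_iff_isUnit_det _).2 (isUnit_iff_ne_zero.2 h2.2))
    have h4 := h3.comp ![0, 1] (by decide)
    have h5 : (Kt (Mz n) z)ᵀ ∘ ![0, 1] = ![e0, (mono z) ^ n *ᵥ e0] := by
      funext j
      fin_cases j
      · funext i
        show (Mz n z ^ (0 : ℕ) *ᵥ e0) i = e0 i
        rw [pow_zero, Matrix.one_mulVec]
      · funext i
        show (Mz n z ^ (1 : ℕ) *ᵥ e0) i = ((mono z) ^ n *ᵥ e0) i
        rw [pow_one]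
        unfold Mz
        rw [zpow_natCast]
    rwa [h5] at h4
  have hinj : ∀ (k : ℤ) (v : V4), (mono z) ^ k *ᵥ v = 0 → v = 0 := by
    intro k v hv
    have h3 := congrArg (fun w => (mono z) ^ (-k) *ᵥ w) hv
    simp only [Matrix.mulVec_mulVec, Matrix.mulVec_zero] at h3
    rwa [Matrix.zpow_neg_mul_zpow_self k hu, Matrix.one_mulVec] at h3
  rw [LinearIndependent.pair_iff] at hK ⊢
  intro a b hab
  rcases le_total c (e : ℤ) with hle | hle
  · have he' : (e : ℤ) = c + (n : ℤ) := by omega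
    rw [he', Matrix.zpow_add hu, ← Matrix.mulVec_mulVec, zpow_natCast, ← Matrix.mulVec_smul,
      ← Matrix.mulVec_smul, ← Matrix.mulVec_add] at hab
    exact hK a b (hinj _ _ hab)
  · have he' : c = (e : ℤ) + (n : ℤ) := by omega
    have h3 : (mono z) ^ (e : ℤ) *ᵥ (a • ((mono z) ^ n *ᵥ e0) + b • e0) = 0 := by
      rw [Matrix.mulVec_add, Matrix.mulVec_smul, Matrix.mulVec_smul, ← hab, he',
        Matrix.zpow_add hu, ← Matrix.mulVec_mulVec, zpow_natCast, zpow_natCast]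
    have h4 := hK b a (by rw [← hinj _ _ h3, add_comm])
    exact ⟨h4.2, h4.1⟩

end Pool.Agent.MP62a5ad.PN
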