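import Pool.Agent.Lib.MP_62a5ad_mp.PN.Spec

set_option autoImplicit false

namespace Pool.Agent.MP62a5ad.PN

open Matrix
open scoped ContDiff

namespace DtAux

theorem m0 (z : E6) : mono z *ᵥ ![1, 0, 0, 0] = ![0, 1, 0, 0] := by
  unfold mono
  ext i
  fin_cases i <;> simp [Matrix.mulVec, dotProduct, Fin.sum_univ_succ]

theorem m1 (z : E6) : mono z *ᵥ ![0, 1, 0, 0] = ![0, 0, 1, 0] := by
  unfold mono
  ext i
  fin_cases i <;> simp [Matrix.mulVec, dotProduct, Fin.sum_univ_succ]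

theorem m2 (z : E6) : mono z *ᵥ ![0, 0, 1, 0] = ![0, 0, 0, 1] := by
  unfold mono
  ext i
  fin_cases i <;> simp [Matrix.mulVec, dotProduct, Fin.sum_univ_succ]

theorem p0 (z : E6) : (mono z) ^ 0 *ᵥ e0 = ![1, 0, 0, 0] := by
  rw [pow_zero, Matrix.one_mulVec]
  rfl

theorem p1 (z : E6) : (mono z) ^ 1 *ᵥ e0 = ![0, 1, 0, 0] := by
  rw [pow_one]
  exact m0 z

theorem p2 (z : E6) : (mono z) ^ 2 *ᵥ e0 = ![0, 0, 1, 0] := by
  rw [pow_succ', ← Matrix.mulVec_mulVec, p1, m1]

theorem p3 (z : E6) : (mono z) ^ 3 *ᵥ e0 = ![0, 0, 0, 1] := by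
  rw [pow_succ', ← Matrix.mulVec_mulVec, p2, m2]

/-- A matrix which commutes with `M` and kills `e0` is zero. -/
theorem kill (z : E6) (D : M4) (hD : Commute D (mono z)) (h0 : D *ᵥ e0 = 0) : D = 0 := by
  have hj : ∀ j : ℕ, D *ᵥ ((mono z) ^ j *ᵥ e0) = 0 := by
    intro j
    rw [Matrix.mulVec_mulVec, (hD.pow_right j).eq, ← Matrix.mulVec_mulVec, h0, Matrix.mulVec_zero]
  have h0' := hj 0
  have h1' := hj 1
  have h2' := hj 2
  have h3' := hj 3
  rw [p0] at h0'
  rw [p1] at h1'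
  rw [p2] at h2'
  rw [p3] at h3'
  ext i j
  have c0 := congrFun h0' i
  have c1 := congrFun h1' i
  have c2 := congrFun h2' i
  have c3 := congrFun h3' i
  simp [Matrix.mulVec, dotProduct, Fin.sum_univ_succ] at c0 c1 c2 c3
  fin_cases j
  · exact c0
  · exact c1
  · exact c2
  · exact c3

/-- The companion matrix. -/
def cm (p : V4) : M4 := !![0, 0, 0, -p 0; 1, 0, 0, -p 1; 0, 1, 0, -p 2; 0, 0, 1, -p 3]

theorem cm_x (p : V4) (x : ℝ) : (cm p - x • (1 : M4)).det = pv p x := by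
  have h : cm p - x • (1 : M4) =
      !![-x, 0, 0, -p 0; 1, -x, 0, -p 1; 0, 1, -x, -p 2; 0, 0, 1, -p 3 - x] := by
    ext i j
    fin_cases i <;> fin_cases j <;> simp [cm]
  rw [h]
  unfold pv
  simp [Matrix.det_succ_row_zero, Fin.sum_univ_succ, Fin.succAbove]
  ring

theorem cm_q (p : V4) (u C : ℝ) : ((cm p) ^ 2 + u • cm p + C • (1 : M4)).det = nQ p u C := by
  have h : (cm p) ^ 2 + u • cm p + C • (1 : M4) =
      !![C, 0, -p 0, p 3 * p 0 - u * p 0;
        u, C, -p 1, -p 0 + p 3 * p 1 - u * p 1;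
        1, u, C - p 2, -p 1 + p 3 * p 2 - u * p 2;
        0, 1, u - p 3, C - p 2 + p 3 ^ 2 - u * p 3] := by
    rw [pow_two]
    ext i j
    fin_cases i <;> fin_cases j <;>
      simp [cm, Matrix.mul_apply, Fin.sum_univ_succ] <;> ring
  rw [h]
  unfold nQ A1
  simp [Matrix.det_succ_row_zero, Fin.sum_univ_succ, Fin.succAbove]
  ring

end DtAux

open DtAux in
theorem tDt : S_Dt := by
  intro t ht z hz
  obtain ⟨hz2, hK⟩ := hz
  have hKu : IsUnit (Kt t z).det := isUnit_iff_ne_zero.2 hK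
  have hKp : Kt t z *ᵥ pc t z = -((t z) ^ 4 *ᵥ e0) := by
    unfold pc
    rw [Matrix.mulVec_neg, Matrix.mulVec_mulVec, Matrix.mul_nonsing_inv _ hKu, Matrix.one_mulVec]
  have hcol : ∀ (i : Fin 4) (j : Fin 4), (t z * Kt t z) i j = ((t z) ^ ((j : ℕ) + 1) *ᵥ e0) i := by
    intro i j
    rw [pow_succ', ← Matrix.mulVec_mulVec, Matrix.mul_apply]
    rfl
  have h4 : ∀ i, ((t z) ^ 4 *ᵥ e0) i = -(Kt t z i 0 * pc t z 0 + Kt t z i 1 * pc t z 1 +
      Kt t z i 2 * pc t z 2 + Kt t z i 3 * pc t z 3) := by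
    intro i
    have h := congrFun hKp i
    rw [Pi.neg_apply] at h
    have h' : (Kt t z *ᵥ pc t z) i = Kt t z i 0 * pc t z 0 + Kt t z i 1 * pc t z 1 +
      Kt t z i 2 * pc t z 2 + Kt t z i 3 * pc t z 3 := by
      simp [Matrix.mulVec, dotProduct, Fin.sum_univ_succ]
      ring
    rw [← h', h, neg_neg]
  have htK : t z * Kt t z = Kt t z * cm (pc t z) := by
    ext i j
    rw [hcol]
    fin_cases j
    · simp [cm, Matrix.mul_apply, Fin.sum_univ_succ, Kt]
    · simp [cm, Matrix.mul_apply, Fin.sum_univ_succ, Kt]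
    · simp [cm, Matrix.mul_apply, Fin.sum_univ_succ, Kt]
    · have := h4 i
      simp [cm, Matrix.mul_apply, Fin.sum_univ_succ] at this ⊢
      rw [this]
      ring
  have hdet : ∀ A B : M4, A * Kt t z = Kt t z * B → A.det = B.det := by
    intro A B h
    have h' := congrArg Matrix.det h
    rw [Matrix.det_mul, Matrix.det_mul, mul_comm] at h'
    exact mul_left_cancel₀ hK h'
  have hx : ∀ x : ℝ, (t z - x • (1 : M4)).det = pv (pc t z) x := by
    intro x
    rw [← cm_x]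
    apply hdet
    rw [sub_mul, mul_sub, htK, smul_mul_assoc, mul_smul_comm, one_mul, mul_one]
  have h0 : (t z).det = pc t z 0 := by
    have h := hx 0
    rw [zero_smul, sub_zero] at h
    rw [h]
    simp [pv]
  refine ⟨h0, ?_, hx, ?_, ?_⟩
  · rw [← h0]
    exact ht.ndet z hz2
  · intro u C
    rw [← cm_q]
    apply hdet
    rw [add_mul, add_mul, mul_add, mul_add, smul_mul_assoc, smul_mul_assoc, one_mul,
      mul_smul_comm, mul_smul_comm, mul_one, htK, pow_two, pow_two, mul_assoc, htK, ← mul_assoc,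
      htK, mul_assoc]
  · apply kill z
    · have hc : Commute (t z) (mono z) := ht.com z hz2
      have hp : ∀ (c : ℝ) (n : ℕ), Commute (c • (t z) ^ n) (mono z) := fun c n =>
        (hc.pow_left n).smul_left c
      exact ((((hc.pow_left 4).add_left (hp _ _)).add_left (hp _ _)).add_left
        (hc.smul_left _)).add_left ((Commute.one_left _).smul_left _)
    · rw [Matrix.add_mulVec, Matrix.add_mulVec, Matrix.add_mulVec, Matrix.add_mulVec,
        Matrix.smul_mulVec, Matrix.smul_mulVec, Matrix.smul_mulVec, Matrix.smul_mulVec,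
        Matrix.one_mulVec]
      ext i
      have h := h4 i
      have e0' : Kt t z i 0 = e0 i := by simp [Kt]
      have e1' : Kt t z i 1 = (t z *ᵥ e0) i := by simp [Kt]
      have e2' : Kt t z i 2 = ((t z) ^ 2 *ᵥ e0) i := by simp [Kt]
      have e3' : Kt t z i 3 = ((t z) ^ 3 *ᵥ e0) i := by simp [Kt]
      rw [e0', e1', e2', e3'] at h
      simp only [Pi.add_apply, Pi.smul_apply, smul_eq_mul, Pi.zero_apply]
      rw [h]
      ring

end Pool.Agent.MP62a5ad.PN
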