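import Pool.Agent.Lib.MP_62a5ad_mp.PN.Spec

/-!
# MP_62a5ad_mp, PN: density by fibres
-/

set_option autoImplicit false

namespace Pool.Agent.MP62a5ad.PN

open Set

namespace FibAux

theorem cont1 (x : Fin 3 → ℝ) : Continuous (fun m : E6 => fb m x) := by
  unfold fb
  refine continuous_pi fun i => ?_
  fin_cases i <;> simp <;> fun_prop

theorem cont2 (m : E6) : Continuous (fun x : Fin 3 → ℝ => fb m x) := by
  unfold fb
  refine continuous_pi fun i => ?_
  fin_cases i <;> simp <;> fun_prop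

theorem self (z : E6) : fb z ![z 3, z 4, z 5] = z := by
  unfold fb
  funext i
  fin_cases i <;> simp

end FibAux

theorem tFib : S_Fib := by
  intro V D hD hV
  rw [dense_iff_inter_open]
  intro O hO hne
  obtain ⟨z, hz⟩ := hne
  have h1 : IsOpen {m : E6 | fb m ![z 3, z 4, z 5] ∈ O} := hO.preimage (FibAux.cont1 _)
  have h2 : z ∈ {m : E6 | fb m ![z 3, z 4, z 5] ∈ O} := by
    change fb z ![z 3, z 4, z 5] ∈ O
    rw [FibAux.self]
    exact hz
  obtain ⟨m, hm, hmD⟩ := dense_iff_inter_open.1 hD _ h1 ⟨z, h2⟩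
  have h3 : IsOpen {x : Fin 3 → ℝ | fb m x ∈ O} := hO.preimage (FibAux.cont2 m)
  obtain ⟨x, hx, hxV⟩ := dense_iff_inter_open.1 (hV m hmD) _ h3 ⟨_, hm⟩
  exact ⟨fb m x, hx, hxV⟩

end Pool.Agent.MP62a5ad.PN
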