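import Pool.Agent.Lib.MP_62a5ad_mp.PN.Spec

/-!
# MP_62a5ad_mp, PN: the main theorem from the parts
-/

set_option autoImplicit false

namespace Pool.Agent.MP62a5ad.PN

open Matrix
open scoped ContDiff

namespace FinAux

theorem smooth_of_comp {f : E6 → E6} {U : Set E6}
    (h : ∀ i, AnalyticOnNhd ℝ (fun z => f z i) U) : ContDiffOn ℝ ∞ f U := by
  intro z hz
  apply ContDiffAt.contDiffWithinAt
  rw [contDiffAt_pi]
  intro i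
  exact (h i z hz).contDiffAt

theorem step (a b : ℕ) (U1 U2 V UT : Set E6) (Ψ Φ T : E6 → E6) (π' : E6 → M6)
    (F : Fin (4 + 1) → E6 → ℝ)
    (hVU2 : V ⊆ U2) (hVUT : V ⊆ UT) (hTU2 : ∀ z ∈ V, T z ∈ U2)
    (hi1 : ∀ y ∈ U1, Φ (Ψ y) = y)
    (hLI : LI 4 1 {y | y ∈ U1 ∧ Ψ y ∈ V} (Φ ∘ T ∘ Ψ) π' fun i => F i ∘ Ψ)
    (hM : ∀ z, z ∈ UT → z ∈ U2 → T z ∈ U2 → Maps a b (Φ z) (Φ (T z))) : Liouville a b 4 1 := by
  refine ⟨rfl, _, _, π', _, hLI, ?_⟩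
  intro y hy
  have h := hM (Ψ y) (hVUT hy.2) (hVU2 hy.2) (hTU2 _ hy.2)
  rw [hi1 y hy.1] at h
  exact h

end FinAux

open FinAux

theorem tFin (hTrf : S_Trf) (hFam : S_Fam) (hSm : S_Sm) (hPP : S_PP) (hDU : S_DU) (hDen : S_Den)
    (hCore : S_Core) (hCas : S_Cas) (hMap : S_Map) : S_Fin := by
  intro a b ha hb hab hev
  obtain ⟨e, c, sh, he, hc, hce, hIm⟩ := hCas a b ha hb hab hev
  have ht : MFam (Mz e) := hFam.2.2.1 (e : ℤ)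
  have hY : MFam (Mz ((c - 1) / 2)) := hFam.2.2.1 _
  have hDI := hDen.2 e c he hc hce
  have hM := hMap a b e c sh hc hIm
  revert ht hY hDI hM
  generalize Mz ((c - 1) / 2) = Y
  generalize Mz (e : ℤ) = t
  intro ht hY hDI hM
  have hDD : Dense (DD t) := hDI.mono fun z hz => hz.1
  obtain ⟨V, π, F, hVU2, hVUT, hTU2, hLI⟩ := hCore t Y ht hY hDI
  obtain ⟨-, -, -, -, -, -, -, -, -, -, -, hoU1, hPsi, hoU2, hPhi⟩ := hSm t t Y ht ht hY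
  obtain ⟨hm1, hm2, hi1, hi2⟩ := hPP t Y ht hY
  obtain ⟨hdU1, -⟩ := hDU t Y ht hY hDD
  obtain ⟨π', hLI'⟩ := hTrf 4 1 (U1 t Y) (U2 t Y) V (Psi t Y) (Phi t Y) (TH t Y) π F hoU1 hoU2 hdU1
    (smooth_of_comp hPsi) (smooth_of_comp hPhi) hm1 hm2 hi1 hi2 hVU2 hTU2 hLI
  exact step a b (U1 t Y) (U2 t Y) V (UT t Y) (Psi t Y) (Phi t Y) (TH t Y) π' F hVU2 hVUT hTU2 hi1
    hLI' hM

end Pool.Agent.MP62a5ad.PN
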