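import Pool.Agent.Lib.MP_62a5ad_mp.PN.Spec

/-!
# MP_62a5ad_mp, PN: `GG` and `C1` under `R`
-/

set_option autoImplicit false

namespace Pool.Agent.MP62a5ad.PN

open Matrix

namespace GRAux

theorem alg (p0 α C Zs' Zs Qs D dt ps h0 h1 : ℝ) (hα : α ≠ 0) (hC : C ≠ 0) (hQs : Qs ≠ 0)
    (hdt : dt ≠ 0) (hps : ps ≠ 0) (h1' : h1 ≠ 0) (hrel : Qs * Zs = ps) :
    (α ^ 2 * (p0 / C) * Zs' * Zs) * (p0 * (D / (α ^ 2 * dt * ps)) * h0) =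
      (p0 * (p0 * h0 / h1) / (C * dt)) * (Zs' / Qs) * (D * h1) := by
  subst hrel
  have hZs : Zs ≠ 0 := right_ne_zero_of_mul hps
  field_simp

end GRAux

theorem tGR (hDt : S_Dt) (hRA : S_RA) (hRI : S_RI) (hRG : S_RG) : S_GR := by
  intro t θ ht hθ z hz h0 h1
  obtain ⟨hzD, hC, hQs, hd, hps, hps'⟩ := hz
  have hz' : z ∈ UR t := ⟨hzD, hC, hQs, hd, hps, hps'⟩
  obtain ⟨hα, hrel⟩ := hRA.1 (pc t z) (z 3) (z 4) (z 5) hC hQs hd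
  obtain ⟨hsym, -, -, hx, -, -⟩ := hRA.2 _ _ _ _ _ _ _ _ hrel
  obtain ⟨-, -, -, -, hn', -⟩ := hRA.2 _ _ _ _ _ _ _ _ hsym
  obtain ⟨hR1, -, hQd, hpc⟩ := hRI t ht z hz'
  obtain ⟨g1, g0⟩ := hRG t θ ht hθ z hz'
  obtain ⟨-, hp0, -, -, -⟩ := hDt t ht z hzD
  obtain ⟨-, -, -, hdet', -⟩ := hDt t ht (Rm t z) hR1.1
  have hθd : (θ z).det ≠ 0 := hθ.ndet z hzD.1
  set α := aR (pc t z) (z 3) (z 4) (z 5) with hαd
  set ν := (Qm t z).det / (α ^ 2 * (θ z).det * pv (pc t z) (z 3)) with hν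
  have hν0 : ν ≠ 0 := by
    rw [hν]
    exact div_ne_zero hQd (mul_ne_zero (mul_ne_zero (pow_ne_zero 2 hα) hθd) hps)
  have e3 : Rm t z 3 = sR (pc t z) (z 3) (z 4) (z 5) := rfl
  have e4 : Rm t z 4 = uR (pc t z) (z 3) (z 4) (z 5) := rfl
  have e5 : Rm t z 5 = cR (pc t z) (z 5) := rfl
  refine ⟨?_, ?_, ?_, ?_⟩
  · rw [g0]
    exact mul_ne_zero hν0 h1
  · rw [g1]
    exact mul_ne_zero (mul_ne_zero hp0 hν0) h0
  · unfold C1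
    rw [g0, g1, hpc]
    field_simp
  · have hD' : (Qm t (Rm t z)).det = α ^ 2 * (pc t z 0 / z 5) *
        qv (Rm t z 4) (Rm t z 5) (Rm t z 3) * qv (Rm t z 4) (Rm t z 5) (z 3) := by
      have h2 := hdet' (Rm t z 4) (Rm t z 5)
      rw [hpc, e4, e5, hn'] at h2
      unfold Qm
      rw [e4, e5, h2, e3]
      rfl
    have hZ := hx (z 3)
    have hZ' : qv (z 4) (z 5) (z 3) * qv (Rm t z 4) (Rm t z 5) (z 3) = pv (pc t z) (z 3) := by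
      rw [e4, e5, hZ]
      ring
    unfold GG
    rw [hD', g1]
    unfold C1
    exact GRAux.alg _ _ _ _ _ _ _ _ _ _ _ hα hC hQs hθd hps h1 hZ'

end Pool.Agent.MP62a5ad.PN
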