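import Pool.Agent.Lib.MP_62a5ad_mp.PN.Spec

/-!
# MP_62a5ad_mp, PN, Ha: a nondegenerate `Q` for every `θ`
-/

set_option autoImplicit false

namespace Pool.Agent.MP62a5ad.PN

namespace HaAux

section

variable {A : Type} [CommRing A] [Algebra ℝ A]

lemma el_add (b : Module.Basis (Fin 4) ℝ A) (x y : A) : el b (x + y) = el b x + el b y := by
  simp [el]

lemma el_sub (b : Module.Basis (Fin 4) ℝ A) (x y : A) : el b (x - y) = el b x - el b y := by
  simp [el]

lemma el_smul (b : Module.Basis (Fin 4) ℝ A) (c : ℝ) (x : A) : el b (c • x) = c * el b x := by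
  simp [el]

/-- the linear factor -/
lemma lin1 (b : Module.Basis (Fin 4) ℝ A) (t g : A) (c : ℝ) (j : ℕ) :
    el b (t ^ j * ((t - c • 1) * g)) = el b (t ^ (j + 1) * g) - c * el b (t ^ j * g) := by
  have : t ^ j * ((t - c • 1) * g) = t ^ (j + 1) * g - c • (t ^ j * g) := by
    simp only [Algebra.smul_def, mul_one]
    ring
  rw [this, el_sub, el_smul]

/-- the quadratic factor -/
lemma lin2 (b : Module.Basis (Fin 4) ℝ A) (t g : A) (x y : ℝ) (j : ℕ) :
    el b (t ^ j * (qe t (-(x + y)) (x * y) * g)) =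
      el b (t ^ (j + 2) * g) - (x + y) * el b (t ^ (j + 1) * g) + x * y * el b (t ^ j * g) := by
  have : t ^ j * (qe t (-(x + y)) (x * y) * g) =
      t ^ (j + 2) * g - (x + y) • (t ^ (j + 1) * g) + (x * y) • (t ^ j * g) := by
    unfold qe
    simp only [Algebra.smul_def, mul_one, map_neg]
    ring
  rw [this, el_add, el_sub, el_smul, el_smul]

lemma qe_eq (t : A) (x y : ℝ) :
    qe t (-(x + y)) (x * y) = (t - x • 1) * (t - y • 1) := by
  unfold qe
  simp only [Algebra.smul_def, mul_one, map_neg, map_add, map_mul]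
  ring

end

lemma quad (B a b c : ℝ) (h : ∀ y : ℝ, B < y → a * y ^ 2 + b * y + c = 0) :
    a = 0 ∧ b = 0 ∧ c = 0 := by
  have h1 := h (B + 1) (by linarith)
  have h2 := h (B + 2) (by linarith)
  have h3 := h (B + 3) (by linarith)
  have ha : a = 0 := by nlinarith
  subst ha
  have hb : b = 0 := by linarith
  subst hb
  exact ⟨rfl, rfl, by linarith⟩

lemma pv_ne (p : V4) (x : ℝ) (hx : 1 + |p 0| + |p 1| + |p 2| + |p 3| < x) : pv p x ≠ 0 := by
  have a0 := abs_nonneg (p 0)
  have a1 := abs_nonneg (p 1)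
  have a2 := abs_nonneg (p 2)
  have a3 := abs_nonneg (p 3)
  have b0 := neg_abs_le (p 0)
  have b1 := neg_abs_le (p 1)
  have b2 := neg_abs_le (p 2)
  have b3 := neg_abs_le (p 3)
  have x1 : 1 ≤ x := by linarith
  have x2 : x ^ 2 ≤ x ^ 3 := pow_le_pow_right₀ x1 (by norm_num)
  have x3 : x ≤ x ^ 3 := by
    have := pow_le_pow_right₀ x1 (by norm_num : 1 ≤ 3)
    simpa using this
  have x4 : 1 ≤ x ^ 3 := one_le_pow₀ x1
  have x5 : 0 < x ^ 3 := by linarith
  have c3 : -|p 3| * x ^ 3 ≤ p 3 * x ^ 3 := mul_le_mul_of_nonneg_right b3 x5.le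
  have c2 : -|p 2| * x ^ 3 ≤ p 2 * x ^ 2 := by
    have := mul_le_mul_of_nonneg_right b2 (by positivity : 0 ≤ x ^ 2)
    have := mul_le_mul_of_nonneg_left x2 a2
    linarith
  have c1 : -|p 1| * x ^ 3 ≤ p 1 * x := by
    have := mul_le_mul_of_nonneg_right b1 (by linarith : 0 ≤ x)
    have := mul_le_mul_of_nonneg_left x3 a1
    linarith
  have c0 : -|p 0| * x ^ 3 ≤ p 0 := by
    have := mul_le_mul_of_nonneg_left x4 a0
    linarith
  have : 0 < pv p x := by
    have h1 : (1 + |p 0| + |p 1| + |p 2| + |p 3|) * x ^ 3 < x * x ^ 3 :=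
      mul_lt_mul_of_pos_right hx x5
    unfold pv
    have h2 : x ^ 4 = x * x ^ 3 := by ring
    rw [h2]
    linarith
  exact this.ne'

end HaAux

open HaAux in
theorem tHa (hLin : S_Lin) (hCmp : S_Cmp) : S_Ha := by
  intro A _ _ t b p hF θ θi hθ
  obtain ⟨⟨l1, -, -, l3⟩, lz, -, -, -, ls, -, -, hnt⟩ := hLin A t b p hF
  by_contra hcon
  push Not at hcon
  set B : ℝ := 1 + |p 0| + |p 1| + |p 2| + |p 3| with hB
  set r : ℕ → ℝ := fun j => el b (t ^ j * θi) with hr
  -- the moments vanish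
  have key : ∀ x y : ℝ, B < x → B < y →
      (r 2 - (x + y) * r 1 + x * y * r 0) * (r 4 - (x + y) * r 3 + x * y * r 2) -
        (r 3 - (x + y) * r 2 + x * y * r 1) ^ 2 = 0 := by
    intro x y hx hy
    obtain ⟨σ, hσ, -⟩ := ls x (pv_ne p x hx)
    obtain ⟨σ', hσ', -⟩ := ls y (pv_ne p y hy)
    have hq : qe t (-(x + y)) (x * y) * (σ * σ') = 1 := by
      rw [qe_eq]
      calc (t - x • (1 : A)) * (t - y • 1) * (σ * σ') =
          ((t - x • 1) * σ) * ((t - y • 1) * σ') := by ring
        _ = 1 := by rw [hσ, hσ', one_mul]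
    have h0 := hcon _ _ _ hq
    have hX : (θ * (σ * σ')) * (qe t (-(x + y)) (x * y) * θi) = 1 := by
      calc (θ * (σ * σ')) * (qe t (-(x + y)) (x * y) * θi) =
          (θ * θi) * (qe t (-(x + y)) (x * y) * (σ * σ')) := by ring
        _ = 1 := by rw [hθ, hq, one_mul]
    have hN : Algebra.norm ℝ (θ * (σ * σ')) ≠ 0 := by
      intro hz
      have h1 : Algebra.norm ℝ ((θ * (σ * σ')) * (qe t (-(x + y)) (x * y) * θi)) = 1 := by
        rw [hX, map_one]
      rw [map_mul, hz, zero_mul] at h1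
      exact zero_ne_one h1
    have h2 := hCmp A t b p hF _ _ hX
    rw [h0] at h2
    have h3 : H0 t b (qe t (-(x + y)) (x * y) * θi) = 0 := by
      rcases mul_eq_zero.1 h2.symm with h | h
      · exact absurd h hN
      · exact h
    unfold H0 at h3
    have e0 := lin2 b t θi x y 0
    have e1 := lin2 b t θi x y 1
    have e2 := lin2 b t θi x y 2
    rw [pow_zero, one_mul] at e0
    rw [pow_one] at e1
    rw [e0, e1, e2] at h3
    simp only [hr]
    simpa using h3
  have step1 : ∀ x : ℝ, B < x →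
      (r 1 - x * r 0) * (r 3 - x * r 2) - (r 2 - x * r 1) ^ 2 = 0 ∧
      (r 1 - x * r 0) * (r 4 - x * r 3) - (r 2 - x * r 1) * (r 3 - x * r 2) = 0 ∧
      (r 2 - x * r 1) * (r 4 - x * r 3) - (r 3 - x * r 2) ^ 2 = 0 := by
    intro x hx
    obtain ⟨h1, h2, h3⟩ := quad B
      ((r 1 - x * r 0) * (r 3 - x * r 2) - (r 2 - x * r 1) ^ 2)
      (-((r 1 - x * r 0) * (r 4 - x * r 3) - (r 2 - x * r 1) * (r 3 - x * r 2)))
      ((r 2 - x * r 1) * (r 4 - x * r 3) - (r 3 - x * r 2) ^ 2) (fun y hy => by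
        have := key x y hx hy
        linear_combination this)
    exact ⟨h1, neg_eq_zero.1 h2, h3⟩
  obtain ⟨f1, f2, f3⟩ := quad B (r 0 * r 2 - r 1 ^ 2) (-(r 0 * r 3 - r 1 * r 2))
    (r 1 * r 3 - r 2 ^ 2) (fun x hx => by linear_combination (step1 x hx).1)
  obtain ⟨-, f4, f5⟩ := quad B (r 0 * r 3 - r 1 * r 2) (-(r 0 * r 4 - r 2 ^ 2))
    (r 1 * r 4 - r 2 * r 3) (fun x hx => by linear_combination (step1 x hx).2.1)
  obtain ⟨-, -, f6⟩ := quad B (r 1 * r 3 - r 2 ^ 2) (-(r 1 * r 4 - r 2 * r 3))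
    (r 2 * r 4 - r 3 ^ 2) (fun x hx => by linear_combination (step1 x hx).2.2)
  by_cases hr0 : r 0 = 0
  · have g1 : r 1 = 0 := by
      rw [hr0] at f1
      have : r 1 ^ 2 = 0 := by linarith
      exact pow_eq_zero_iff (two_ne_zero) |>.1 this
    have g2 : r 2 = 0 := by
      rw [hr0] at f4
      have : r 2 ^ 2 = 0 := by linarith
      exact pow_eq_zero_iff (two_ne_zero) |>.1 this
    have g3 : r 3 = 0 := by
      rw [g2] at f6
      have : r 3 ^ 2 = 0 := by linarith
      exact pow_eq_zero_iff (two_ne_zero) |>.1 this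
    have hz : θi = 0 := by
      apply lz
      intro j hj
      interval_cases j
      · exact hr0
      · exact g1
      · exact g2
      · exact g3
    rw [hz, mul_zero] at hθ
    exact zero_ne_one hθ
  · set c : ℝ := r 1 / r 0 with hc
    have g1 : r 1 - c * r 0 = 0 := by
      rw [hc]; field_simp; ring
    have g2 : r 2 - c * r 1 = 0 := by
      have : r 0 * (r 2 - c * r 1) = 0 := by linear_combination f1 + r 1 * g1
      exact (mul_eq_zero.1 this).resolve_left hr0
    have g3 : r 3 - c * r 2 = 0 := by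
      have : r 0 * (r 3 - c * r 2) = 0 := by linear_combination -f2 + r 2 * g1
      exact (mul_eq_zero.1 this).resolve_left hr0
    have g4 : r 4 - c * r 3 = 0 := by
      have : r 0 * (r 4 - c * r 3) = 0 := by linear_combination -f4 + r 3 * g1 - f3
      exact (mul_eq_zero.1 this).resolve_left hr0
    have hz : (t - c • 1) * θi = 0 := by
      apply lz
      intro j hj
      rw [lin1]
      interval_cases j
      · exact g1
      · exact g2
      · exact g3
      · exact g4
    have ht : t = c • 1 := by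
      have : (t - c • 1) * θi * θ = 0 := by rw [hz, zero_mul]
      rw [mul_assoc, mul_comm θi θ, hθ, mul_one] at this
      exact sub_eq_zero.1 this
    have h3 : t ^ 3 = (c ^ 3) • (1 : A) := by
      rw [ht, smul_pow, one_pow]
    rw [h3, el_smul, l1, mul_zero] at l3
    exact zero_ne_one l3

end Pool.Agent.MP62a5ad.PN
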