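import Pool.Agent.Lib.MP_62a5ad_mp.PN.Spec

/-!
# MP_62a5ad_mp, PN, module Hb (helper78)
-/

set_option autoImplicit false

namespace Pool.Agent.MP62a5ad.PN

open Matrix

namespace HbAux

variable {A : Type} [CommRing A] [Algebra ℝ A]

theorem el_add (b : Module.Basis (Fin 4) ℝ A) (x y : A) : el b (x + y) = el b x + el b y := by
  simp [el]

theorem el_sub (b : Module.Basis (Fin 4) ℝ A) (x y : A) : el b (x - y) = el b x - el b y := by
  simp [el]

theorem el_smul (b : Module.Basis (Fin 4) ℝ A) (c : ℝ) (x : A) : el b (c • x) = c * el b x := by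
  simp [el]

theorem el_zero (b : Module.Basis (Fin 4) ℝ A) : el b (0 : A) = 0 := by
  simp [el]

/-- a nonzero polynomial function of degree at most four has finitely many zeros -/
theorem fin4 (c0 c1 c2 c3 c4 : ℝ) (h : ¬ (c0 = 0 ∧ c1 = 0 ∧ c2 = 0 ∧ c3 = 0 ∧ c4 = 0)) :
    {x : ℝ | c4 * x ^ 4 + c3 * x ^ 3 + c2 * x ^ 2 + c1 * x + c0 = 0}.Finite := by
  obtain ⟨P, hP⟩ : ∃ P : Polynomial ℝ, P = Polynomial.C c4 * Polynomial.X ^ 4 +
      Polynomial.C c3 * Polynomial.X ^ 3 + Polynomial.C c2 * Polynomial.X ^ 2 +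
      Polynomial.C c1 * Polynomial.X + Polynomial.C c0 := ⟨_, rfl⟩
  have h0 : P ≠ 0 := by
    intro h0
    rw [hP] at h0
    have k0 := congrArg (fun q => Polynomial.coeff q 0) h0
    have k1 := congrArg (fun q => Polynomial.coeff q 1) h0
    have k2 := congrArg (fun q => Polynomial.coeff q 2) h0
    have k3 := congrArg (fun q => Polynomial.coeff q 3) h0
    have k4 := congrArg (fun q => Polynomial.coeff q 4) h0
    simp [Polynomial.coeff_X, Polynomial.coeff_X_pow, Polynomial.coeff_C] at k0 k1 k2 k3 k4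
    exact h ⟨k0, k1, k2, k3, k4⟩
  refine (Polynomial.finite_setOf_isRoot h0).subset ?_
  intro x hx
  have hx' : c4 * x ^ 4 + c3 * x ^ 3 + c2 * x ^ 2 + c1 * x + c0 = 0 := hx
  change Polynomial.IsRoot P x
  rw [Polynomial.IsRoot.def, hP]
  simp only [Polynomial.eval_add, Polynomial.eval_mul, Polynomial.eval_C, Polynomial.eval_pow,
    Polynomial.eval_X]
  exact hx'

/-- the value of `ℓ(g (t - x)⁻¹)` -/
theorem el_sig (b : Module.Basis (Fin 4) ℝ A) (t : A) (p : V4) (x : ℝ) (hx : pv p x ≠ 0) (σ g : A)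
    (hσ : σ = -(pv p x)⁻¹ • (t ^ 3 + (p 3 + x) • t ^ 2 + (p 2 + p 3 * x + x ^ 2) • t +
      (p 1 + p 2 * x + p 3 * x ^ 2 + x ^ 3) • 1)) :
    pv p x * el b (g * σ) = -(el b (t ^ 3 * g) + (p 3 + x) * el b (t ^ 2 * g) +
      (p 2 + p 3 * x + x ^ 2) * el b (t * g) +
      (p 1 + p 2 * x + p 3 * x ^ 2 + x ^ 3) * el b g) := by
  have e : g * σ = (-(pv p x)⁻¹) • (t ^ 3 * g + (p 3 + x) • (t ^ 2 * g) +
      (p 2 + p 3 * x + x ^ 2) • (t * g) + (p 1 + p 2 * x + p 3 * x ^ 2 + x ^ 3) • g) := by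
    rw [hσ]
    simp only [Algebra.smul_def]
    ring
  rw [e, el_smul, el_add, el_add, el_add, el_smul, el_smul, el_smul]
  field_simp

/-- the choice of `Q` -/
theorem exQ (hLin : S_Lin) (t : A) (b : Module.Basis (Fin 4) ℝ A) (p : V4) (hF : Fr t b p)
    (θ θi ti : A) (h1 : θ * θi = 1) (h2 : t * ti = 1) (hli : LinearIndependent ℝ ![θ, t]) :
    ∃ (u C : ℝ) (q : A), qe t u C * q = 1 ∧ el b (t * (qe t u C * θi)) ≠ 0 ∧
      el b (t * (θ * q)) ≠ 0 := by
  obtain ⟨-, L2, -, -, L5, L6, -, -, hnt⟩ := hLin A t b p hF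
  obtain ⟨r1, hr1⟩ : ∃ r, r = el b (t * θi) := ⟨_, rfl⟩
  obtain ⟨r2, hr2⟩ : ∃ r, r = el b (t ^ 2 * θi) := ⟨_, rfl⟩
  obtain ⟨r3, hr3⟩ : ∃ r, r = el b (t ^ 3 * θi) := ⟨_, rfl⟩
  have hr : ¬ (r1 = 0 ∧ r2 = 0 ∧ r3 = 0) := by
    rintro ⟨k1, k2, k3⟩
    obtain ⟨c, hc⟩ := L5 (t * θi) (by rw [← hr1, k1])
      (by rw [show t * (t * θi) = t ^ 2 * θi by ring, ← hr2, k2])
      (by rw [show t ^ 2 * (t * θi) = t ^ 3 * θi by ring, ← hr3, k3])
    have k4 : (-c) • θ + (1 : ℝ) • t = 0 := by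
      have : t = c • θ := by
        have k5 : t * θi * θ = (c • (1 : A)) * θ := by rw [hc]
        rw [mul_assoc, mul_comm θi θ, h1, mul_one, smul_mul_assoc, one_mul] at k5
        exact k5
      rw [one_smul, neg_smul, this]
      simp
    exact one_ne_zero ((LinearIndependent.pair_iff.1 hli _ _ k4).2)
  obtain ⟨a0, ha0⟩ : ∃ r, r = el b (t * θ) := ⟨_, rfl⟩
  obtain ⟨a1, ha1⟩ : ∃ r, r = el b (t * (t * θ)) := ⟨_, rfl⟩
  obtain ⟨a2, ha2⟩ : ∃ r, r = el b (t ^ 2 * (t * θ)) := ⟨_, rfl⟩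
  obtain ⟨a3, ha3⟩ : ∃ r, r = el b (t ^ 3 * (t * θ)) := ⟨_, rfl⟩
  have ha : ¬ (a0 = 0 ∧ a1 = 0 ∧ a2 = 0 ∧ a3 = 0) := by
    rintro ⟨k0, k1, k2, k3⟩
    have k4 : t * θ = 0 := by
      refine L2 _ fun j hj => ?_
      interval_cases j
      · rw [pow_zero, one_mul, ← ha0, k0]
      · rw [pow_one, ← ha1, k1]
      · rw [← ha2, k2]
      · rw [← ha3, k3]
    have k5 : (1 : A) = (t * θ) * (ti * θi) := by
      rw [show (t * θ) * (ti * θi) = (t * ti) * (θ * θi) by ring, h1, h2, one_mul]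
    rw [k4, zero_mul] at k5
    exact one_ne_zero k5
  -- the choice of `x`
  have fP : {x : ℝ | pv p x = 0}.Finite := by
    refine (fin4 (p 0) (p 1) (p 2) (p 3) 1 (fun h => one_ne_zero h.2.2.2.2)).subset ?_
    intro x hx
    have hx' : pv p x = 0 := hx
    unfold pv at hx'
    change 1 * x ^ 4 + p 3 * x ^ 3 + p 2 * x ^ 2 + p 1 * x + p 0 = 0
    rw [one_mul]
    exact hx'
  have fX : {x : ℝ | r3 - x * r2 = 0 ∧ r2 - x * r1 = 0}.Finite := by
    refine Set.Subsingleton.finite ?_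
    rintro x ⟨k1, k2⟩ x' ⟨k3, k4⟩
    by_contra hne
    have k5 : (x - x') * r1 = 0 := by linear_combination k4 - k2
    have k6 : r1 = 0 := (mul_eq_zero.1 k5).resolve_left (sub_ne_zero.2 hne)
    rw [k6, mul_zero, sub_zero] at k2
    rw [k2, mul_zero, sub_zero] at k1
    exact hr ⟨k6, k2, k1⟩
  obtain ⟨x, hx⟩ := ((fP.union fX).infinite_compl).nonempty
  rw [Set.mem_compl_iff, Set.mem_union, not_or] at hx
  obtain ⟨hxP, hxX⟩ := hx
  have hxP' : pv p x ≠ 0 := hxP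
  have hxX' : ¬ (r3 - x * r2 = 0 ∧ r2 - x * r1 = 0) := hxX
  obtain ⟨σ, hσ1, hσ2⟩ := L6 x hxP'
  obtain ⟨f, hf⟩ : ∃ f, f = el b (t * θ * σ) := ⟨_, rfl⟩
  -- the choice of `y`
  have fY1 : {y : ℝ | (r3 - x * r2) - y * (r2 - x * r1) = 0}.Finite := by
    refine Set.Subsingleton.finite ?_
    intro y k1 y' k2
    by_contra hne
    have k1' : (r3 - x * r2) - y * (r2 - x * r1) = 0 := k1
    have k2' : (r3 - x * r2) - y' * (r2 - x * r1) = 0 := k2
    have k5 : (y - y') * (r2 - x * r1) = 0 := by linear_combination k2' - k1'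
    have k6 : r2 - x * r1 = 0 := (mul_eq_zero.1 k5).resolve_left (sub_ne_zero.2 hne)
    rw [k6, mul_zero, sub_zero] at k1'
    exact hxX' ⟨k1', k6⟩
  have fY2 := fin4 (a3 + p 3 * a2 + p 2 * a1 + p 1 * a0 + f * p 0)
    (a2 + p 3 * a1 + p 2 * a0 + f * p 1) (a1 + p 3 * a0 + f * p 2) (a0 + f * p 3) f (by
      rintro ⟨k0, k1, k2, k3, k4⟩
      rw [k4] at k0 k1 k2 k3
      simp only [zero_mul, add_zero] at k0 k1 k2 k3
      rw [k3] at k2
      simp only [mul_zero, add_zero] at k2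
      rw [k3, k2] at k1
      simp only [mul_zero, add_zero] at k1
      rw [k3, k2, k1] at k0
      simp only [mul_zero, add_zero] at k0
      exact ha ⟨k3, k2, k1, k0⟩)
  obtain ⟨y, hy⟩ := (((fP.union fY1).union (fY2.union (Set.finite_singleton x))).infinite_compl).nonempty
  rw [Set.mem_compl_iff, Set.mem_union, Set.mem_union, Set.mem_union, not_or, not_or, not_or] at hy
  obtain ⟨⟨hyP, hyY1⟩, hyY2, hyx⟩ := hy
  have hyP' : pv p y ≠ 0 := hyP
  have hyY1' : (r3 - x * r2) - y * (r2 - x * r1) ≠ 0 := hyY1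
  have hyY2' : f * y ^ 4 + (a0 + f * p 3) * y ^ 3 + (a1 + p 3 * a0 + f * p 2) * y ^ 2 +
    (a2 + p 3 * a1 + p 2 * a0 + f * p 1) * y +
    (a3 + p 3 * a2 + p 2 * a1 + p 1 * a0 + f * p 0) ≠ 0 := hyY2
  have hyx' : y ≠ x := hyx
  obtain ⟨ς, hς1, hς2⟩ := L6 y hyP'
  have hqe : qe t (-(x + y)) (x * y) = (t - x • 1) * (t - y • 1) := by
    unfold qe
    simp only [Algebra.smul_def, map_neg, map_add, map_mul]
    ring
  refine ⟨-(x + y), x * y, σ * ς, ?_, ?_, ?_⟩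
  · rw [hqe, show (t - x • 1) * (t - y • 1) * (σ * ς) =
      ((t - x • 1) * σ) * ((t - y • 1) * ς) by ring, hσ1, hς1, one_mul]
  · have e : t * (qe t (-(x + y)) (x * y) * θi) = t ^ 3 * θi - (x + y) • (t ^ 2 * θi) +
        (x * y) • (t * θi) := by
      unfold qe
      simp only [Algebra.smul_def, map_neg, map_add, map_mul]
      ring
    rw [e, el_add, el_sub, el_smul, el_smul, ← hr1, ← hr2, ← hr3]
    intro h
    apply hyY1'
    linear_combination h
  · intro h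
    apply hyY2'
    have e1 : (x - y) • (σ * ς) = σ - ς := by
      have k1 : σ - ς = ((t - y • 1) * ς) * σ - ((t - x • 1) * σ) * ς := by
        rw [hσ1, hς1, one_mul, one_mul]
      rw [k1]
      simp only [Algebra.smul_def, map_sub]
      ring
    have e2 : (x - y) * el b (t * (θ * (σ * ς))) = f - el b (t * θ * ς) := by
      rw [← el_smul, hf, ← el_sub]
      congr 1
      rw [← mul_smul_comm, ← mul_smul_comm, e1]
      ring
    rw [h, mul_zero] at e2
    have e3 := el_sig b t p y hyP' ς (t * θ) hς2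
    rw [← ha0, ← ha1, ← ha2, ← ha3] at e3
    have e4 : el b (t * θ * ς) = f := by linarith
    rw [e4] at e3
    unfold pv at e3
    linear_combination e3

end HbAux

open HbAux in
theorem tHb (hLin : S_Lin) (hCmp : S_Cmp) : S_Hb := by
  intro A _ _ t b p hF θ θi ti h1 h2 hli
  obtain ⟨u, C, q, hq, hd1, htX⟩ := exQ hLin t b p hF θ θi ti h1 h2 hli
  obtain ⟨⟨L1a, L1b, L1c, L1d⟩, L2, -, -, L5, -, -, -, hnt⟩ := hLin A t b p hF
  refine ⟨u, C, q, hq, ?_⟩
  obtain ⟨Q, hQ⟩ : ∃ Q, Q = qe t u C := ⟨_, rfl⟩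
  rw [← hQ] at hq hd1
  obtain ⟨X, hX⟩ : ∃ X, X = θ * q := ⟨_, rfl⟩
  obtain ⟨Y, hY⟩ : ∃ Y, Y = Q * θi := ⟨_, rfl⟩
  rw [← hX] at htX ⊢
  rw [← hY] at hd1
  have hXY : X * Y = 1 := by
    rw [hX, hY, show θ * q * (Q * θi) = (θ * θi) * (Q * q) by ring, h1, hq, one_mul]
  have c1 := hCmp A t b p hF X Y hXY
  have c2 := hCmp A t b p hF (ti * X) (t * Y) (by
    rw [show ti * X * (t * Y) = (t * ti) * (X * Y) by ring, h2, hXY, one_mul])
  have c3 := hCmp A t b p hF (t * X) (ti * Y) (by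
    rw [show t * X * (ti * Y) = (t * ti) * (X * Y) by ring, h2, hXY, one_mul])
  have hN1 : Algebra.norm ℝ X * Algebra.norm ℝ Y = 1 := by
    rw [← map_mul, hXY, map_one]
  have hN2 : Algebra.norm ℝ t * Algebra.norm ℝ ti = 1 := by
    rw [← map_mul, h2, map_one]
  have hNX : Algebra.norm ℝ X ≠ 0 := left_ne_zero_of_mul_eq_one hN1
  obtain ⟨dm, hdm⟩ : ∃ d, d = el b (ti * Y) := ⟨_, rfl⟩
  obtain ⟨d0, hd0⟩ : ∃ d, d = el b Y := ⟨_, rfl⟩
  obtain ⟨d1, hd1'⟩ : ∃ d, d = el b (t * Y) := ⟨_, rfl⟩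
  obtain ⟨d2, hd2⟩ : ∃ d, d = el b (t ^ 2 * Y) := ⟨_, rfl⟩
  obtain ⟨d3, hd3⟩ : ∃ d, d = el b (t ^ 3 * Y) := ⟨_, rfl⟩
  rw [← hd1'] at hd1
  have v1 : H0 t b Y = d0 * d2 - d1 ^ 2 := by
    unfold H0
    rw [← hd0, ← hd1', ← hd2]
  have v2 : H0 t b (t * Y) = d1 * d3 - d2 ^ 2 := by
    unfold H0
    rw [show t ^ 2 * (t * Y) = t ^ 3 * Y by ring, show t * (t * Y) = t ^ 2 * Y by ring, ← hd1',
      ← hd3, ← hd2]
  have v3 : H0 t b (ti * Y) = dm * d1 - d0 ^ 2 := by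
    unfold H0
    rw [show t ^ 2 * (ti * Y) = t * (t * ti) * Y by ring, show t * (ti * Y) = t * ti * Y by ring,
      h2, mul_one, one_mul, ← hdm, ← hd1', ← hd0]
  rw [c1, c2, c3, v1, v2, v3, map_mul, map_mul]
  -- the determinant is not zero
  have hΔ : dm * (d1 * d3 - d2 ^ 2) - d0 * (d0 * d3 - d1 * d2) + d1 * (d0 * d2 - d1 ^ 2) ≠ 0 := by
    intro hΔ
    have hdet : (!![dm, d0, d1; d0, d1, d2; d1, d2, d3] : Matrix (Fin 3) (Fin 3) ℝ).det = 0 := by
      rw [Matrix.det_fin_three]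
      simp only [Matrix.of_apply, Matrix.cons_val', Matrix.cons_val_zero, Matrix.cons_val_one,
        Matrix.cons_val, Matrix.cons_val_fin_one]
      linear_combination hΔ
    obtain ⟨c, hc, hMc⟩ := Matrix.exists_mulVec_eq_zero_iff.2 hdet
    have m0 := congrFun hMc 0
    have m1 := congrFun hMc 1
    have m2 := congrFun hMc 2
    simp [Matrix.mulVec, dotProduct, Fin.sum_univ_three] at m0 m1 m2
    obtain ⟨w, hw⟩ : ∃ w : A, w = c 0 • 1 + c 1 • t + c 2 • t ^ 2 := ⟨_, rfl⟩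
    have w0 : el b (ti * Y * w) = 0 := by
      have e : ti * Y * w = c 0 • (ti * Y) + c 1 • ((t * ti) * Y) +
          c 2 • ((t * ti) * (t * Y)) := by
        rw [hw]
        simp only [Algebra.smul_def]
        ring
      rw [e, h2, one_mul, one_mul, el_add, el_add, el_smul, el_smul, el_smul, ← hdm, ← hd0, ← hd1']
      linear_combination m0
    have w1 : el b (t * (ti * Y * w)) = 0 := by
      have e : t * (ti * Y * w) = c 0 • ((t * ti) * Y) + c 1 • ((t * ti) * (t * Y)) +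
          c 2 • ((t * ti) * (t ^ 2 * Y)) := by
        rw [hw]
        simp only [Algebra.smul_def]
        ring
      rw [e, h2, one_mul, one_mul, one_mul, el_add, el_add, el_smul, el_smul, el_smul, ← hd2,
        ← hd0, ← hd1']
      linear_combination m1
    have w2 : el b (t ^ 2 * (ti * Y * w)) = 0 := by
      have e : t ^ 2 * (ti * Y * w) = c 0 • ((t * ti) * (t * Y)) + c 1 • ((t * ti) * (t ^ 2 * Y)) +
          c 2 • ((t * ti) * (t ^ 3 * Y)) := by
        rw [hw]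
        simp only [Algebra.smul_def]
        ring
      rw [e, h2, one_mul, one_mul, one_mul, el_add, el_add, el_smul, el_smul, el_smul, ← hd2,
        ← hd3, ← hd1']
      linear_combination m2
    obtain ⟨c', hc'⟩ := L5 _ w0 w1 w2
    have hw2 : w = c' • (t * X) := by
      have k1 : (t * X) * (ti * Y * w) = (t * X) * (c' • 1) := by rw [hc']
      rw [show (t * X) * (ti * Y * w) = (t * ti) * (X * Y) * w by ring, h2, hXY, one_mul, one_mul,
        mul_smul_comm, mul_one] at k1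
      exact k1
    have hlw : el b w = 0 := by
      rw [hw, el_add, el_add, el_smul, el_smul, el_smul, L1a, L1b, L1c]
      ring
    rw [hw2, el_smul] at hlw
    have hc0 : c' = 0 := (mul_eq_zero.1 hlw).resolve_right htX
    rw [hc0, zero_smul] at hw2
    rw [hw2] at hw
    -- `w = 0` gives `c = 0`
    have z2 : c 2 = 0 := by
      have k : el b (t * 0) = el b (t * (c 0 • 1 + c 1 • t + c 2 • t ^ 2)) :=
        congrArg (fun g => el b (t * g)) hw
      have e : t * (c 0 • 1 + c 1 • t + c 2 • t ^ 2) = c 0 • t + c 1 • t ^ 2 + c 2 • t ^ 3 := by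
        simp only [Algebra.smul_def]
        ring
      rw [e, mul_zero, el_zero, el_add, el_add, el_smul, el_smul, el_smul, L1b, L1c, L1d] at k
      linarith
    have z1 : c 1 = 0 := by
      have k : el b (t ^ 2 * 0) = el b (t ^ 2 * (c 0 • 1 + c 1 • t + c 2 • t ^ 2)) :=
        congrArg (fun g => el b (t ^ 2 * g)) hw
      have e : t ^ 2 * (c 0 • 1 + c 1 • t + c 2 • t ^ 2) = c 0 • t ^ 2 + c 1 • t ^ 3 +
          c 2 • t ^ 4 := by
        simp only [Algebra.smul_def]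
        ring
      rw [e, mul_zero, el_zero, el_add, el_add, el_smul, el_smul, el_smul, L1c, L1d, z2] at k
      linarith
    have z0 : c 0 = 0 := by
      have k : el b (t ^ 3 * 0) = el b (t ^ 3 * (c 0 • 1 + c 1 • t + c 2 • t ^ 2)) :=
        congrArg (fun g => el b (t ^ 3 * g)) hw
      have e : t ^ 3 * (c 0 • 1 + c 1 • t + c 2 • t ^ 2) = c 0 • t ^ 3 + c 1 • t ^ 4 +
          c 2 • t ^ 5 := by
        simp only [Algebra.smul_def]
        ring
      rw [e, mul_zero, el_zero, el_add, el_add, el_smul, el_smul, el_smul, L1d, z2, z1] at k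
      linarith
    apply hc
    funext i
    fin_cases i
    · exact z0
    · exact z1
    · exact z2
  have hfin : Algebra.norm ℝ ti * Algebra.norm ℝ X * (d1 * d3 - d2 ^ 2) *
      (Algebra.norm ℝ t * Algebra.norm ℝ X * (dm * d1 - d0 ^ 2)) -
      (Algebra.norm ℝ X * (d0 * d2 - d1 ^ 2)) ^ 2 = (Algebra.norm ℝ X) ^ 2 * d1 *
      (dm * (d1 * d3 - d2 ^ 2) - d0 * (d0 * d3 - d1 * d2) + d1 * (d0 * d2 - d1 ^ 2)) := by
    linear_combination (Algebra.norm ℝ X) ^ 2 * (d1 * d3 - d2 ^ 2) * (dm * d1 - d0 ^ 2) * hN2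
  rw [hfin]
  exact mul_ne_zero (mul_ne_zero (pow_ne_zero 2 hNX) hd1) hΔ

end Pool.Agent.MP62a5ad.PN
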