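import Pool.Agent.Lib.MP_62a5ad_mp.PN.Spec

/-!
# MP_62a5ad_mp: the incidences in the algebra (`tInc`)
-/

set_option autoImplicit false

namespace Pool.Agent.MP62a5ad.PN

namespace IncAux

variable {A : Type} [CommRing A] [Algebra ℝ A]

theorem el_add (b : Module.Basis (Fin 4) ℝ A) (x y : A) : el b (x + y) = el b x + el b y := by
  simp [el]

theorem el_sub (b : Module.Basis (Fin 4) ℝ A) (x y : A) : el b (x - y) = el b x - el b y := by
  simp [el]

theorem el_smul (b : Module.Basis (Fin 4) ℝ A) (c : ℝ) (x : A) : el b (c • x) = c * el b x := by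
  simp [el]

theorem span_mem (b : Module.Basis (Fin 4) ℝ A) (t X : A) (s : ℝ) (h1 : el b 1 = 0)
    (h2 : el b t = 0) (h3 : el b (t ^ 2) = 0)
    (h4 : ∀ g, el b g = 0 → el b (t * g) = 0 → ∃ c₀ c₁ : ℝ, g = c₀ • 1 + c₁ • t)
    (hX : el b X ≠ 0) (hX' : el b ((t - s • 1) * X) = 0) (g : A) :
    g ∈ Submodule.span ℝ {1, t, X} ↔ el b ((t - s • 1) * g) = 0 := by
  constructor
  · intro hg
    rw [Submodule.mem_span_insert] at hg
    obtain ⟨c0, z, hz, rfl⟩ := hg
    rw [Submodule.mem_span_pair] at hz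
    obtain ⟨c1, c2, rfl⟩ := hz
    have e : (t - s • 1) * (c0 • (1 : A) + (c1 • t + c2 • X)) =
        c0 • t - (c0 * s) • 1 + (c1 • t ^ 2 - (c1 * s) • t) + c2 • ((t - s • 1) * X) := by
      simp only [Algebra.smul_def, map_mul]
      ring
    rw [e, el_add, el_add, el_sub, el_sub]
    simp only [el_smul]
    rw [h1, h2, h3, hX']
    ring
  · intro hg
    have e1 : el b (g - (el b g / el b X) • X) = 0 := by
      rw [el_sub, el_smul, div_mul_cancel₀ _ hX, sub_self]
    have e2 : el b (t * (g - (el b g / el b X) • X)) = 0 := by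
      have e3 : t * (g - (el b g / el b X) • X) = (t - s • 1) * g -
          (el b g / el b X) • ((t - s • 1) * X) + s • (g - (el b g / el b X) • X) := by
        simp only [Algebra.smul_def]
        ring
      rw [e3, el_add, el_sub, el_smul, el_smul, e1, hg, hX']
      ring
    obtain ⟨c0, c1, h⟩ := h4 _ e1 e2
    have e4 : g = c0 • 1 + (c1 • t + (el b g / el b X) • X) := by
      rw [← add_assoc, ← h]
      simp
    rw [e4, Submodule.mem_span_insert]
    exact ⟨c0, _, Submodule.mem_span_pair.2 ⟨c1, _, rfl⟩, rfl⟩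

theorem linInd (b : Module.Basis (Fin 4) ℝ A) (t X : A) (hb : ∀ i, b i = t ^ (i : ℕ))
    (h1 : el b 1 = 0) (h2 : el b t = 0) (hX : el b X ≠ 0) :
    LinearIndependent ℝ ![1, t, X] := by
  rw [Fintype.linearIndependent_iff]
  intro c hc
  rw [Fin.sum_univ_three] at hc
  simp only [Matrix.cons_val_zero, Matrix.cons_val_one, Matrix.cons_val] at hc
  have e1 := congrArg (el b) hc
  rw [el_add, el_add, el_smul, el_smul, el_smul, h1, h2] at e1
  have e2 : el b (0 : A) = 0 := by simp [el]
  rw [e2, mul_zero, mul_zero, add_zero, zero_add] at e1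
  have c2 : c 2 = 0 := by
    rcases mul_eq_zero.1 e1 with h | h
    · exact h
    · exact absurd h hX
  rw [c2, zero_smul, add_zero] at hc
  have hli := Fintype.linearIndependent_iff.1 b.linearIndependent ![c 0, c 1, 0, 0] (by
    rw [Fin.sum_univ_four]
    simp only [hb, Matrix.cons_val_zero, Matrix.cons_val_one, Matrix.cons_val]
    simpa using hc)
  intro i
  fin_cases i
  · exact hli 0
  · exact hli 1
  · exact c2

theorem core (b : Module.Basis (Fin 4) ℝ A) (t ti σ Y : A) (s s' : ℝ) (h1 : el b 1 = 0)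
    (h2 : el b t = 0) (h3 : el b (t ^ 2) = 0)
    (h4 : ∀ g, el b g = 0 → el b (t * g) = 0 → ∃ c₀ c₁ : ℝ, g = c₀ • 1 + c₁ • t)
    (ht : t * ti = 1) (hσ : (t - s • 1) * σ = 1) (hY : el b Y ≠ 0)
    (hY' : el b ((t - s' • 1) * Y) = 0) (g : A) :
    (el b ((t - s • 1) * g) = 0 ∧ el b ((t - s • 1) * (ti * g)) = 0 ∧
      el b (Y * ((t - s • 1) * (ti * g))) = 0) ↔ ∃ c : ℝ, g = c • (t * (t - s' • 1) * σ) := by
  have hY2 : el b (t * Y) = s' * el b Y := by
    have e : (t - s' • 1) * Y = t * Y - s' • Y := by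
      simp only [Algebra.smul_def]
      ring
    rw [e, el_sub, el_smul] at hY'
    linarith
  constructor
  · rintro ⟨g1, g2, g3⟩
    have e1 : t * ((t - s • 1) * (ti * g)) = (t - s • 1) * g := by
      linear_combination ((t - s • 1) * g) * ht
    obtain ⟨c0, c1, h⟩ := h4 _ g2 (by rw [e1]; exact g1)
    rw [h] at g3
    have e2 : Y * (c0 • 1 + c1 • t) = c0 • Y + c1 • (t * Y) := by
      simp only [Algebra.smul_def]
      ring
    rw [e2, el_add, el_smul, el_smul, hY2] at g3
    have e3 : (c0 + c1 * s') * el b Y = 0 := by linarith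
    have e4 : c0 = -(c1 * s') := by
      rcases mul_eq_zero.1 e3 with h | h
      · linarith
      · exact absurd h hY
    refine ⟨c1, ?_⟩
    have e5 : g = t * σ * ((t - s • 1) * (ti * g)) := by
      linear_combination (-(t * ti * g)) * hσ - g * ht
    rw [e5, h, e4]
    simp only [Algebra.smul_def, map_neg, map_mul]
    ring
  · rintro ⟨c, rfl⟩
    have e1 : (t - s • 1) * (c • (t * (t - s' • 1) * σ)) = c • t ^ 2 - (c * s') • t := by
      simp only [Algebra.smul_def, map_mul, mul_one] at hσ ⊢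
      linear_combination (algebraMap ℝ A c * t * (t - algebraMap ℝ A s')) * hσ
    have e2 : (t - s • 1) * (ti * (c • (t * (t - s' • 1) * σ))) = c • t - (c * s') • 1 := by
      simp only [Algebra.smul_def, map_mul, mul_one] at hσ ⊢
      linear_combination (algebraMap ℝ A c * t * ti * (t - algebraMap ℝ A s')) * hσ +
        (algebraMap ℝ A c * (t - algebraMap ℝ A s')) * ht
    refine ⟨?_, ?_, ?_⟩
    · rw [e1, el_sub, el_smul, el_smul, h3, h2]
      ring
    · rw [e2, el_sub, el_smul, el_smul, h2, h1]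
      ring
    · rw [e2]
      have e3 : Y * (c • t - (c * s') • 1) = c • (t * Y) - (c * s') • Y := by
        simp only [Algebra.smul_def, map_mul]
        ring
      rw [e3, el_sub, el_smul, el_smul, hY2]
      ring

end IncAux

open IncAux in
/-- The incidences in `A`. -/
theorem tInc (hLin : S_Lin) : S_Inc := by
  intro A _ _ t b p hF s0 u C s1 s0' u' C' s1' α q zi σ0 σ1 ti ρ ρi hq hzi hσ0 hσ1 ht hρ hα hrel
    hX0 hX1 hX1' hY0 hY1 hY1'
  obtain ⟨⟨h1, h2, h3, -⟩, -, -, h4, -⟩ := hLin A t b p hF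
  have hqe : ∀ u C : ℝ, el b (qe t u C) = 0 := by
    intro u C
    rw [qe, el_add, el_add, el_smul, el_smul, h1, h2, h3]
    ring
  have hX0' : el b ((t - s0 • 1) * (qe t u C * σ0)) = 0 := by
    have e : (t - s0 • 1) * (qe t u C * σ0) = qe t u C := by
      linear_combination (qe t u C) * hσ0
    rw [e, hqe]
  have m0 := span_mem b t _ s0 h1 h2 h3 h4 hX0 hX0'
  have m1 := span_mem b t _ s1 h1 h2 h3 h4 hX1 hX1'
  refine ⟨linInd b t _ hF.pow h1 h2 hX0, linInd b t _ hF.pow h1 h2 hX1, fun g => ?_,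
    fun g => ?_⟩
  · rw [m0, m0, m1]
    have hY0' : el b ((t - s0' • 1) * (t * (t - s1 • 1) * q)) = 0 := by
      have e : (t - s0' • 1) * (t * (t - s1 • 1) * q) = α⁻¹ • qe t u' C' := by
        have e1 : α • ((t - s0' • 1) * (t * (t - s1 • 1) * q)) = qe t u' C' := by
          simp only [Algebra.smul_def, mul_one] at hrel ⊢
          linear_combination (-q) * hrel + (qe t u' C') * hq
        rw [← e1, smul_smul, inv_mul_cancel₀ hα, one_smul]
      rw [e, el_smul, hqe, mul_zero]
    have key := core b t ti σ0 _ s0 s0' h1 h2 h3 h4 ht hσ0 hY0 hY0' g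
    have e2 : (t - s1 • 1) * ((t - s0 • 1) * q * g) =
        (t * (t - s1 • 1) * q) * ((t - s0 • 1) * (ti * g)) := by
      linear_combination (-((t - s1 • 1) * ((t - s0 • 1) * q * g))) * ht
    rw [e2]
    exact key
  · rw [m1, m1, m0]
    have key := core b t ti σ1 _ s1 s1' h1 h2 h3 h4 ht hσ1 hY1 hY1' g
    have e2 : (t - s0 • 1) * (ρi * σ0 * qe t u C * g) =
        α • ((t ^ 2 * ρi * (t - s0' • 1) * zi) * ((t - s1 • 1) * (ti * g))) := by
      simp only [Algebra.smul_def, mul_one] at hrel hσ0 ⊢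
      linear_combination (ρi * qe t u C * g) * hσ0 -
        (ρi * qe t u C * g) * hzi + (ρi * zi * g) * hrel -
        (algebraMap ℝ A α * t * ρi * (t - algebraMap ℝ A s0') * zi *
          (t - algebraMap ℝ A s1) * g) * ht
    rw [e2, el_smul]
    have e3 : α * el b ((t ^ 2 * ρi * (t - s0' • 1) * zi) * ((t - s1 • 1) * (ti * g))) = 0 ↔
        el b ((t ^ 2 * ρi * (t - s0' • 1) * zi) * ((t - s1 • 1) * (ti * g))) = 0 := by
      rw [mul_eq_zero, or_iff_right hα]
    rw [e3]
    exact key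

end Pool.Agent.MP62a5ad.PN
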