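import Pool.Agent.Lib.MP_62a5ad_mp.PN.Spec

/-!
# MP_62a5ad_mp PN, module JC: the chain rule for Jacobi matrices
-/

set_option autoImplicit false

namespace Pool.Agent.MP62a5ad.PN

namespace JCAux

/-- the chain rule for a real valued function -/
theorem scalar (F : E6 → ℝ) (g : E6 → E6) (z : E6) (j : Fin 6) (hF : DifferentiableAt ℝ F (g z))
    (hg : DifferentiableAt ℝ g z) : pd (F ∘ g) j z = ∑ k, pd F k (g z) * Jm g z k j := by
  have h1 : fderiv ℝ (F ∘ g) z = (fderiv ℝ F (g z)).comp (fderiv ℝ g z) := fderiv_comp z hF hg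
  have h2 : ∀ k, Jm g z k j = (fderiv ℝ g z (Pi.single j 1)) k := by
    intro k
    change fderiv ℝ (fun x => g x k) z (Pi.single j 1) = _
    rw [fderiv_apply hg]
    rfl
  have h3 : fderiv ℝ g z (Pi.single j 1) = ∑ k, Jm g z k j • (Pi.single k 1 : E6) := by
    conv_lhs => rw [pi_eq_sum_univ' (fderiv ℝ g z (Pi.single j 1))]
    refine Finset.sum_congr rfl fun k _ => ?_
    rw [h2]
  unfold pd
  rw [h1, ContinuousLinearMap.comp_apply, h3, map_sum]
  refine Finset.sum_congr rfl fun k _ => ?_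
  rw [map_smul, smul_eq_mul, mul_comm]

end JCAux

theorem tJC : S_JC := by
  refine ⟨fun f g z hf hg => ?_, JCAux.scalar⟩
  ext i j
  rw [Matrix.mul_apply]
  exact JCAux.scalar (fun x => f x i) g z j (differentiableAt_pi.1 hf i) hg

end Pool.Agent.MP62a5ad.PN
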