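import Pool.Agent.Lib.MP_62a5ad_mp.PN.Spec

/-!
# MP_62a5ad_mp, PN: bivectors `G ∂_3 ∧ ∂_4` are Poisson
-/

set_option autoImplicit false

namespace Pool.Agent.MP62a5ad.PN

open Matrix
open scoped ContDiff

namespace JacAux

/-- the bracket -/
lemma br_EE (G F H : E6 → ℝ) (y : E6) : br (fun z => G z • EE) F H y =
    G y * (pd F 3 y * pd H 4 y - pd F 4 y * pd H 3 y) := by
  change ∑ i : Fin 6, ∑ j : Fin 6, (G y * EE i j) * (pd F i y * pd H j y) = _
  simp only [EE, Matrix.of_apply, Fin.sum_univ_six, Fin.isValue, Fin.reduceEq, false_and,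
    and_false, true_and, if_false, if_true, mul_zero, zero_mul, add_zero, zero_add, mul_one,
    mul_neg, neg_mul, and_self]
  ring

lemma hasFD {U : Set E6} (hU : IsOpen U) {F : E6 → ℝ} (hF : ContDiffOn ℝ ∞ F U) {y : E6}
    (hy : y ∈ U) : HasFDerivAt (fderiv ℝ F) (fderiv ℝ (fderiv ℝ F) y) y := by
  have h1 : ContDiffAt ℝ ∞ F y := hF.contDiffAt (hU.mem_nhds hy)
  have h2 : ContDiffAt ℝ 1 (fderiv ℝ F) y := h1.fderiv_right (m := 1) (by norm_cast)
  exact (h2.differentiableAt (by norm_num)).hasFDerivAt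

/-- the second derivatives -/
lemma hasFD_pd {U : Set E6} (hU : IsOpen U) {F : E6 → ℝ} (hF : ContDiffOn ℝ ∞ F U) {y : E6}
    (hy : y ∈ U) (i : Fin 6) : HasFDerivAt (fun x => pd F i x) (fderiv ℝ (fun x => pd F i x) y) y := by
  have h1 := hasFD hU hF hy
  have h2 : DifferentiableAt ℝ (fun x => (fderiv ℝ F x) (Pi.single i (1 : ℝ))) y :=
    h1.differentiableAt.clm_apply (differentiableAt_const _)
  exact h2.hasFDerivAt

lemma pd_pd {U : Set E6} (hU : IsOpen U) {F : E6 → ℝ} (hF : ContDiffOn ℝ ∞ F U) {y : E6}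
    (hy : y ∈ U) (i k : Fin 6) : pd (fun x => pd F i x) k y =
      (fderiv ℝ (fderiv ℝ F) y (Pi.single k 1)) (Pi.single i 1) := by
  have h1 := hasFD hU hF hy
  have h2 := (h1.clm_apply (hasFDerivAt_const (Pi.single i (1 : ℝ) : E6) y)).fderiv
  unfold pd
  rw [h2]
  simp

lemma sym {U : Set E6} (hU : IsOpen U) {F : E6 → ℝ} (hF : ContDiffOn ℝ ∞ F U) {y : E6}
    (hy : y ∈ U) (i k : Fin 6) : pd (fun x => pd F i x) k y = pd (fun x => pd F k x) i y := by
  rw [pd_pd hU hF hy, pd_pd hU hF hy]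
  have h1 : ContDiffAt ℝ ∞ F y := hF.contDiffAt (hU.mem_nhds hy)
  have h2 : IsSymmSndFDerivAt ℝ F y := h1.isSymmSndFDerivAt (by
    rw [minSmoothness_of_isRCLikeNormedField]
    norm_cast)
  exact h2 _ _

/-- the derivative of the bracket -/
lemma pd_br {U : Set E6} (hU : IsOpen U) {G F H : E6 → ℝ} (hG : ContDiffOn ℝ ∞ G U)
    (hF : ContDiffOn ℝ ∞ F U) (hH : ContDiffOn ℝ ∞ H U) {y : E6} (hy : y ∈ U) (k : Fin 6) :
    pd (br (fun z => G z • EE) F H) k y =
      pd G k y * (pd F 3 y * pd H 4 y - pd F 4 y * pd H 3 y) +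
      G y * (pd (fun x => pd F 3 x) k y * pd H 4 y + pd F 3 y * pd (fun x => pd H 4 x) k y -
        pd (fun x => pd F 4 x) k y * pd H 3 y - pd F 4 y * pd (fun x => pd H 3 x) k y) := by
  have e : br (fun z => G z • EE) F H =
      fun y => G y * (pd F 3 y * pd H 4 y - pd F 4 y * pd H 3 y) := by
    funext y
    exact br_EE G F H y
  have hGd : HasFDerivAt G (fderiv ℝ G y) y :=
    ((hG.contDiffAt (hU.mem_nhds hy)).differentiableAt (by norm_num)).hasFDerivAt
  have hm := hGd.mul (((hasFD_pd hU hF hy 3).mul (hasFD_pd hU hH hy 4)).sub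
    ((hasFD_pd hU hF hy 4).mul (hasFD_pd hU hH hy 3)))
  have e2 : (G * (((fun x => pd F 3 x) * fun x => pd H 4 x) -
      (fun x => pd F 4 x) * fun x => pd H 3 x)) = br (fun z => G z • EE) F H := by
    rw [e]
    rfl
  rw [e2] at hm
  have h1 := congrArg (fun L : E6 →L[ℝ] ℝ => L (Pi.single k 1)) hm.fderiv
  change pd (br (fun z => G z • EE) F H) k y = _ at h1
  rw [h1]
  simp only [ContinuousLinearMap.add_apply, ContinuousLinearMap.sub_apply,
    ContinuousLinearMap.smul_apply, smul_eq_mul, Pi.sub_apply, Pi.mul_apply]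
  change G y * (pd F 3 y * pd (fun x => pd H 4 x) k y + pd H 4 y * pd (fun x => pd F 3 x) k y -
    (pd F 4 y * pd (fun x => pd H 3 x) k y + pd H 3 y * pd (fun x => pd F 4 x) k y)) +
    (pd F 3 y * pd H 4 y - pd F 4 y * pd H 3 y) * pd G k y = _
  ring

end JacAux

open JacAux in
theorem tJac : S_Jac := by
  intro U G hU hG
  refine ⟨?_, ?_, ?_⟩
  · intro i j
    have h : (fun y => (G y • EE) i j) = fun y => G y * EE i j := by
      funext y
      rfl
    rw [h]
    exact hG.mul contDiffOn_const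
  · intro y _ i j
    change G y * EE j i = -(G y * EE i j)
    have h : EE j i = -EE i j := by
      fin_cases i <;> fin_cases j <;> simp [EE]
    rw [h]
    ring
  · intro F G' H hF hG' hH y hy
    have sF := sym hU hF hy 3 4
    have sG := sym hU hG' hy 3 4
    have sH := sym hU hH hy 3 4
    rw [br_EE, br_EE, br_EE, pd_br hU hG hG' hH hy, pd_br hU hG hG' hH hy, pd_br hU hG hH hF hy,
      pd_br hU hG hH hF hy, pd_br hU hG hF hG' hy, pd_br hU hG hF hG' hy, sF, sG, sH]
    ring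

end Pool.Agent.MP62a5ad.PN
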