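import Pool.Agent.Lib.MP_62a5ad_mp.PN.Spec

/-! # MP_62a5ad_mp, PN: linear algebra with the basis `1, t, t², t³` -/

set_option autoImplicit false

namespace Pool.Agent.MP62a5ad.PN

namespace LinAux

variable {A : Type} [CommRing A] [Algebra ℝ A] {t : A} {b : Module.Basis (Fin 4) ℝ A} {p : V4}

/-- The element with the given coefficients. -/
def cb (t : A) (c0 c1 c2 c3 : ℝ) : A := c0 • 1 + c1 • t + c2 • t ^ 2 + c3 • t ^ 3

theorem cb_eq (h : Fr t b p) (c0 c1 c2 c3 : ℝ) :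
    cb t c0 c1 c2 c3 = c0 • b 0 + c1 • b 1 + c2 • b 2 + c3 • b 3 := by
  rw [h.pow 0, h.pow 1, h.pow 2, h.pow 3]
  simp [cb]

theorem el_cb (h : Fr t b p) (c0 c1 c2 c3 : ℝ) : el b (cb t c0 c1 c2 c3) = c3 := by
  rw [cb_eq h, el]
  simp [Module.Basis.repr_self, Finsupp.single_apply]

theorem exists_cb (h : Fr t b p) (g : A) : ∃ c0 c1 c2 c3 : ℝ, g = cb t c0 c1 c2 c3 := by
  refine ⟨b.repr g 0, b.repr g 1, b.repr g 2, b.repr g 3, ?_⟩
  rw [cb_eq h]
  conv_lhs => rw [← b.sum_repr g]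
  rw [Fin.sum_univ_four]

theorem mul_cb (h : Fr t b p) (c0 c1 c2 c3 : ℝ) :
    t * cb t c0 c1 c2 c3 = cb t (-(p 0 * c3)) (c0 - p 1 * c3) (c1 - p 2 * c3) (c2 - p 3 * c3) := by
  have hr := h.rel
  simp only [cb, Algebra.smul_def, map_neg, map_sub, map_mul, mul_one] at hr ⊢
  linear_combination (algebraMap ℝ A c3) * hr

theorem zero_cb : cb t 0 0 0 0 = 0 := by simp [cb]

end LinAux

open LinAux

theorem tLin : S_Lin := by
  intro A _ _ t b p h
  have hr := h.rel
  have e1 : el b 1 = 0 := by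
    have := el_cb h 1 0 0 0
    simpa [cb] using this
  have et : el b t = 0 := by
    have := el_cb h 0 1 0 0
    simpa [cb] using this
  have e2 : el b (t ^ 2) = 0 := by
    have := el_cb h 0 0 1 0
    simpa [cb] using this
  have e3 : el b (t ^ 3) = 1 := by
    have := el_cb h 0 0 0 1
    simpa [cb] using this
  have hadd : ∀ x y : A, el b (x + y) = el b x + el b y := fun x y => by simp [el]
  have hsm : ∀ (c : ℝ) (x : A), el b (c • x) = c * el b x := fun c x => by simp [el]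
  -- the product with the complementary factor
  have hP : ∀ x : ℝ, (t - x • 1) * (t ^ 3 + (p 3 + x) • t ^ 2 + (p 2 + p 3 * x + x ^ 2) • t +
      (p 1 + p 2 * x + p 3 * x ^ 2 + x ^ 3) • 1) = -(pv p x) • (1 : A) := by
    intro x
    simp only [pv, Algebra.smul_def, map_add, map_mul, map_pow, map_neg, mul_one] at hr ⊢
    linear_combination hr
  have h7 : ∀ (x : ℝ) (σ : A), (t - x • 1) * σ = 1 → pv p x * el b σ = -1 := by
    intro x σ hσ
    have k1 : (pv p x) • σ = -(t ^ 3 + (p 3 + x) • t ^ 2 + (p 2 + p 3 * x + x ^ 2) • t +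
      (p 1 + p 2 * x + p 3 * x ^ 2 + x ^ 3) • 1) := by
      have hPx := hP x
      set P := t ^ 3 + (p 3 + x) • t ^ 2 + (p 2 + p 3 * x + x ^ 2) • t +
        (p 1 + p 2 * x + p 3 * x ^ 2 + x ^ 3) • (1 : A) with hPd
      simp only [Algebra.smul_def, map_neg, mul_one] at hPx hσ ⊢
      linear_combination σ * hPx - P * hσ
    have k2 := congrArg (el b) k1
    rw [hsm] at k2
    rw [k2]
    have k3 : el b (-(t ^ 3 + (p 3 + x) • t ^ 2 + (p 2 + p 3 * x + x ^ 2) • t +
      (p 1 + p 2 * x + p 3 * x ^ 2 + x ^ 3) • (1 : A))) = -(el b (t ^ 3) + (p 3 + x) * el b (t ^ 2) +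
        (p 2 + p 3 * x + x ^ 2) * el b t + (p 1 + p 2 * x + p 3 * x ^ 2 + x ^ 3) * el b 1) := by
      rw [← hsm, ← hsm, ← hsm, ← hadd, ← hadd, ← hadd]
      simp [el]
    rw [k3, e1, et, e2, e3]
    ring
  refine ⟨⟨e1, et, e2, e3⟩, ?_, ?_, ?_, ?_, ?_, h7, ?_, ?_⟩
  · intro g hg
    obtain ⟨c0, c1, c2, c3, rfl⟩ := exists_cb h g
    have g0 := hg 0 (by norm_num)
    have g1 := hg 1 (by norm_num)
    have g2 := hg 2 (by norm_num)
    have g3 := hg 3 (by norm_num)
    rw [pow_zero, one_mul, el_cb h] at g0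
    subst g0
    rw [pow_one, mul_cb h, el_cb h] at g1
    have g1' : c2 = 0 := by linarith
    subst g1'
    rw [pow_two, mul_assoc, mul_cb h, mul_cb h, el_cb h] at g2
    have g2' : c1 = 0 := by linarith
    subst g2'
    rw [pow_succ, pow_two, mul_assoc, mul_assoc, mul_cb h, mul_cb h, mul_cb h, el_cb h] at g3
    have g3' : c0 = 0 := by linarith
    subst g3'
    exact zero_cb
  · intro g hg
    obtain ⟨c0, c1, c2, c3, rfl⟩ := exists_cb h g
    rw [el_cb h] at hg
    subst hg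
    exact ⟨c0, c1, c2, by simp [cb]⟩
  · intro g hg hg1
    obtain ⟨c0, c1, c2, c3, rfl⟩ := exists_cb h g
    rw [el_cb h] at hg
    subst hg
    rw [mul_cb h, el_cb h] at hg1
    have g1' : c2 = 0 := by linarith
    subst g1'
    exact ⟨c0, c1, by simp [cb]⟩
  · intro g hg hg1 hg2
    obtain ⟨c0, c1, c2, c3, rfl⟩ := exists_cb h g
    rw [el_cb h] at hg
    subst hg
    rw [mul_cb h, el_cb h] at hg1
    have g1' : c2 = 0 := by linarith
    subst g1'
    rw [pow_two, mul_assoc, mul_cb h, mul_cb h, el_cb h] at hg2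
    have g2' : c1 = 0 := by linarith
    subst g2'
    exact ⟨c0, by simp [cb]⟩
  · intro x hx
    refine ⟨_, ?_, rfl⟩
    have hPx := hP x
    set P := t ^ 3 + (p 3 + x) • t ^ 2 + (p 2 + p 3 * x + x ^ 2) • t +
      (p 1 + p 2 * x + p 3 * x ^ 2 + x ^ 3) • (1 : A) with hPd
    rw [neg_smul, mul_neg, mul_smul_comm, hPx, neg_smul, smul_neg, neg_neg, smul_smul,
      inv_mul_cancel₀ hx, one_smul]
  · intro x u C σ hσ
    have k1 : qe t u C * σ = t + (x + u) • 1 + (qv u C x) • σ := by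
      simp only [qe, qv, Algebra.smul_def, map_add, map_mul, map_pow, mul_one] at hσ ⊢
      linear_combination (t + algebraMap ℝ A x + algebraMap ℝ A u) * hσ
    rw [k1, hadd, hadd, hsm, hsm, et, e1]
    have := h7 x σ hσ
    linear_combination (qv u C x) * this
  · refine ⟨t ^ 3, 0, fun h0 => ?_⟩
    rw [h0] at e3
    simp [el] at e3

end Pool.Agent.MP62a5ad.PN
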