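import Pool.Agent.Lib.MP_62a5ad_mp.PN.Spec

/-!
# MP_62a5ad_mp: closure properties of analytic matrix functions
-/

set_option autoImplicit false

namespace Pool.Agent.MP62a5ad.PN

open Matrix
open scoped ContDiff

namespace MAAux

variable {E : Type} [NormedAddCommGroup E] [NormedSpace ℝ E] {U : Set E}

theorem sum {ι : Type} (s : Finset ι) {f : ι → E → ℝ} (h : ∀ i ∈ s, AnalyticOnNhd ℝ (f i) U) :
    AnalyticOnNhd ℝ (fun z => ∑ i ∈ s, f i z) U := by
  have h1 := Finset.analyticOnNhd_sum s h
  have h2 : (∑ i ∈ s, f i) = fun z => ∑ i ∈ s, f i z := by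
    funext z
    rw [Finset.sum_apply]
  rwa [h2] at h1

theorem add {f g : E → ℝ} (hf : AnalyticOnNhd ℝ f U) (hg : AnalyticOnNhd ℝ g U) :
    AnalyticOnNhd ℝ (fun z => f z + g z) U := hf.add hg

theorem mul {f g : E → ℝ} (hf : AnalyticOnNhd ℝ f U) (hg : AnalyticOnNhd ℝ g U) :
    AnalyticOnNhd ℝ (fun z => f z * g z) U := hf.mul hg

theorem mmul {A B : E → M4} (hA : AM U A) (hB : AM U B) : AM U fun z => A z * B z := by
  intro i j
  simp only [Matrix.mul_apply]
  exact sum _ fun k _ => mul (hA i k) (hB k j)

theorem const (B : M4) : AM U fun _ : E => B := fun _ _ => analyticOnNhd_const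

theorem det {A : E → M4} (hA : AM U A) : AnalyticOnNhd ℝ (fun z => (A z).det) U := by
  simp only [Matrix.det_apply']
  exact sum _ fun σ _ => mul analyticOnNhd_const
    (Finset.analyticOnNhd_fun_prod _ fun i _ => hA (σ i) i)

theorem adj {A : E → M4} (hA : AM U A) : AM U fun z => (A z).adjugate := by
  intro i j
  simp only [Matrix.adjugate_apply]
  refine det fun k l => ?_
  by_cases hk : k = j
  · subst hk
    simp only [Matrix.updateRow_self]
    exact analyticOnNhd_const
  · simp only [Matrix.updateRow_ne hk]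
    exact hA k l

end MAAux

open MAAux

theorem tMA : S_MA := by
  intro E _ _ U
  refine ⟨const, fun A B hA hB i j => add (hA i j) (hB i j), fun A B hA hB => mmul hA hB,
    fun c A hc hA i j => mul hc (hA i j), ?_, fun A hA => det hA, fun A hA => adj hA, ?_, ?_⟩
  · intro n A hA
    induction n with
    | zero =>
      simp only [pow_zero]
      exact const _
    | succ n ih =>
      simp only [pow_succ]
      exact mmul ih hA
  · intro A hA h0 i j
    simp only [Matrix.inv_def, Ring.inverse_eq_inv', Matrix.smul_apply, smul_eq_mul]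
    exact mul ((det hA).inv h0) (adj hA i j)
  · intro A v hA hv i
    simp only [Matrix.mulVec, dotProduct]
    exact sum _ fun k _ => mul (hA i k) (hv k)

end Pool.Agent.MP62a5ad.PN
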