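import Pool.Agent.Lib.MP_62a5ad_mp.PN.Spec

/-!
# MP_62a5ad_mp, PN/MJ: the Jacobi matrix of the involutions
-/

set_option autoImplicit false

namespace Pool.Agent.MP62a5ad.PN

open Matrix
open scoped ContDiff

namespace MJAux

lemma prod_EE (J : M6) (i j : Fin 6) : (J * EE * Jᵀ) i j = J i 3 * J j 4 - J i 4 * J j 3 := by
  have h1 : ∀ l : Fin 6, (J * EE) i l = if l = 4 then J i 3 else if l = 3 then - J i 4 else 0 := by
    intro l
    rw [Matrix.mul_apply, Fin.sum_univ_six]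
    fin_cases l <;> simp [EE]
  rw [Matrix.mul_apply, Fin.sum_univ_six]
  simp only [h1, Matrix.transpose_apply]
  simp
  ring

lemma coord (i j : Fin 6) (z : E6) : pd (fun x => x i) j z = if i = j then 1 else 0 := by
  unfold pd
  have h : fderiv ℝ (fun x : E6 => x i) z = ContinuousLinearMap.proj i :=
    (ContinuousLinearMap.proj (R := ℝ) (φ := fun _ : Fin 6 => ℝ) i).fderiv
  rw [h, ContinuousLinearMap.proj_apply, Pi.single_apply]

lemma row (t θ : E6 → M4) (z : E6) (i j : Fin 6) (hi : i ≠ 3) :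
    Jm (mu t θ) z i j = if i = j then 1 else 0 := by
  have h : (fun x => mu t θ x i) = fun x => x i := by
    funext x
    fin_cases i
    · rfl
    · rfl
    · rfl
    · exact absurd rfl hi
    · rfl
    · rfl
  show pd (fun x => mu t θ x i) j z = _
  rw [h, coord]

lemma mq_dep {t θ : E6 → M4} (ht : MFam t) (hθ : MFam θ) (z z' : E6) (h0 : z' 0 = z 0)
    (h1 : z' 1 = z 1) (h2 : z' 2 = z 2) (h4 : z' 4 = z 4) (h5 : z' 5 = z 5) :
    mq t θ z' = mq t θ z := by
  funext j
  have e1 := ht.dep z' z h0 h1 h2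
  have e2 := hθ.dep z' z h0 h1 h2
  unfold mq ell Qm Kt
  rw [e1, e2, h4, h5]

lemma j33 (hSm : S_Sm) {t θ : E6 → M4} (ht : MFam t) (hθ : MFam θ) {z : E6} (hz : z ∈ UM t θ) :
    Jm (mu t θ) z 3 3 = hk (mq t θ z) 1 / (mq t θ z 2 - z 3 * mq t θ z 1) ^ 2 := by
  obtain ⟨-, -, -, -, -, -, -, -, han, -⟩ := hSm t θ t ht hθ ht
  have hd : DifferentiableAt ℝ (fun x => mu t θ x 3) z := (han 3 z hz).differentiableAt
  have hne : mq t θ z 2 - z 3 * mq t θ z 1 ≠ 0 := hz.2.2.2
  show fderiv ℝ (fun x => mu t θ x 3) z (Pi.single 3 1) = _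
  rw [← hd.lineDeriv_eq_fderiv, lineDeriv]
  have hfun : (fun s : ℝ => mu t θ (z + s • (Pi.single 3 1 : E6)) 3) =
      fun s : ℝ => (mq t θ z 3 - (z 3 + s) * mq t θ z 2) / (mq t θ z 2 - (z 3 + s) * mq t θ z 1) := by
    funext s
    have hm : mq t θ (z + s • (Pi.single 3 1 : E6)) = mq t θ z := by
      apply mq_dep ht hθ <;> simp
    show sM (mq t θ (z + s • (Pi.single 3 1 : E6))) ((z + s • (Pi.single 3 1 : E6)) 3) = _
    rw [hm]
    unfold sM
    simp
  rw [hfun]
  have h1 : HasDerivAt (fun s : ℝ => mq t θ z 3 - (z 3 + s) * mq t θ z 2) (-mq t θ z 2) 0 := by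
    have := (((hasDerivAt_id (0 : ℝ)).const_add (z 3)).mul_const (mq t θ z 2)).const_sub (mq t θ z 3)
    simpa using this
  have h2 : HasDerivAt (fun s : ℝ => mq t θ z 2 - (z 3 + s) * mq t θ z 1) (-mq t θ z 1) 0 := by
    have := (((hasDerivAt_id (0 : ℝ)).const_add (z 3)).mul_const (mq t θ z 1)).const_sub (mq t θ z 2)
    simpa using this
  have hne' : mq t θ z 2 - (z 3 + 0) * mq t θ z 1 ≠ 0 := by rwa [add_zero]
  refine (HasDerivAt.deriv (h1.fun_div h2 hne')).trans ?_
  rw [add_zero]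
  congr 1
  unfold hk
  ring

end MJAux

open MJAux

theorem tMJ (hSm : S_Sm) : S_MJ := by
  intro t θ ht hθ z hz
  have h33 := j33 hSm ht hθ hz
  ext i j
  rw [prod_EE, Matrix.smul_apply, smul_eq_mul]
  by_cases hi : i = 3
  · by_cases hj : j = 3
    · subst hi hj
      simp [EE]
      ring
    · subst hi
      rw [row t θ z j 4 hj, row t θ z j 3 hj, if_neg hj, h33]
      by_cases hj4 : j = 4
      · subst hj4
        simp [EE]
      · simp [EE, hj4]
  · rw [row t θ z i 3 hi, row t θ z i 4 hi, if_neg hi]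
    by_cases hj : j = 3
    · subst hj
      rw [h33]
      by_cases hi4 : i = 4
      · subst hi4
        simp [EE]
      · simp [EE, hi4, hi]
    · rw [row t θ z j 3 hj, if_neg hj]
      simp [EE, hi, hj]

end Pool.Agent.MP62a5ad.PN
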