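import Pool.Agent.Lib.MP_62a5ad_mp.PN.Spec

/-!
# MP_62a5ad_mp, PN: the map in the coordinates is `T_{I,I}`
-/

set_option autoImplicit false

namespace Pool.Agent.MP62a5ad.PN

open Matrix

namespace MapAux

/-- the polygon with the monodromy `M` and the first two vertices `a0`, `a1` -/
noncomputable def poly (M : M4) (a0 a1 : V4) (k : ℤ) : V4 :=
  M ^ (k / 2) *ᵥ (if Even k then a0 else a1)

theorem poly_add (M : M4) (hM : IsUnit M.det) (a0 a1 : V4) (k j : ℤ) :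
    poly M a0 a1 (k + 2 * j) = M ^ j *ᵥ poly M a0 a1 k := by
  unfold poly
  have h1 : (k + 2 * j) / 2 = j + k / 2 := by omega
  have h2 : Even (k + 2 * j) ↔ Even k := by
    rw [Int.even_add]
    simp
  rw [h1, Matrix.zpow_add hM, Matrix.mulVec_mulVec]
  simp only [h2]

theorem poly_zero (M : M4) (a0 a1 : V4) : poly M a0 a1 0 = a0 := by
  unfold poly
  simp

theorem poly_one (M : M4) (a0 a1 : V4) : poly M a0 a1 1 = a1 := by
  unfold poly
  simp

theorem poly_tw (M : M4) (hM : M.det ≠ 0) (a0 a1 : V4) : Tw M (poly M a0 a1) := by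
  refine ⟨hM, fun k => ?_⟩
  have h := poly_add M (isUnit_iff_ne_zero.mpr hM) a0 a1 k 1
  rw [mul_one, zpow_one] at h
  exact h

theorem mono_eq (z z' : E6) (h0 : z 0 = z' 0) (h1 : z 1 = z' 1) (h2 : z 2 = z' 2) :
    mono z = mono z' := by
  unfold mono
  rw [h0, h1, h2]

theorem x0_Phi (t Y : E6 → M4) (z : E6) (h : xv t Y z 0 ≠ 0) :
    x0 (Phi t Y z) = (xv t Y z 0)⁻¹ • xv t Y z := by
  funext i
  fin_cases i
  · simp [x0, h]
  · simp [x0, Phi, div_eq_inv_mul]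
  · simp [x0, Phi, div_eq_inv_mul]
  · simp [x0, Phi, div_eq_inv_mul]

end MapAux

open MapAux in
/-- **Map** -/
theorem tMap (hFam : S_Fam) (hGeo : S_Geo) (_hPP : S_PP) : S_Map := by
  intro a b e c sh hc himg z hUT hU2 hU2'
  obtain ⟨t, ht⟩ : ∃ t : E6 → M4, t = Mz e := ⟨_, rfl⟩
  obtain ⟨Y, hY⟩ : ∃ Y : E6 → M4, Y = Mz ((c - 1) / 2) := ⟨_, rfl⟩
  rw [← ht, ← hY] at hUT hU2 hU2' ⊢
  have mt : MFam t := by rw [ht]; exact hFam.2.2.1 _
  have mY : MFam Y := by rw [hY]; exact hFam.2.2.1 _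
  have hz2 : z 2 ≠ 0 := hU2.1.1
  have hxz : xv t Y z 0 ≠ 0 := hU2.2.2.2
  have hxz' : xv t Y (TH t Y z) 0 ≠ 0 := hU2'.2.2.2
  have hdet : (mono z).det ≠ 0 := by
    rw [hFam.1]
    exact hz2
  have hM : IsUnit (mono z).det := isUnit_iff_ne_zero.mpr hdet
  have m1 : mono (Phi t Y z) = mono z := mono_eq _ _ rfl rfl rfl
  have m2 : mono (Phi t Y (TH t Y z)) = mono z := mono_eq _ _ rfl rfl rfl
  obtain ⟨M, hMz⟩ : ∃ M : M4, M = mono z := ⟨_, rfl⟩
  obtain ⟨v, hv⟩ : ∃ v : ℤ → V4, v = poly M e0 (x0 (Phi t Y z)) := ⟨_, rfl⟩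
  obtain ⟨v', hv'⟩ : ∃ v' : ℤ → V4, v' = poly M e0 (x0 (Phi t Y (TH t Y z))) := ⟨_, rfl⟩
  rw [← hMz] at hdet hM m1 m2
  have hadd : ∀ k j : ℤ, v (k + 2 * j) = M ^ j *ᵥ v k := by
    intro k j
    rw [hv]
    exact poly_add M hM _ _ k j
  have htw : Tw (mono z) v := by
    rw [hv, ← hMz]
    exact poly_tw M hdet _ _
  have hv0 : v 0 = e0 := by
    rw [hv]
    exact poly_zero _ _ _
  have hv1 : v 1 = (xv t Y z 0)⁻¹ • xv t Y z := by
    rw [hv, poly_one]
    exact x0_Phi t Y z hxz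
  have h2e : ∀ k, v (k + 2 * e) = t z *ᵥ v k := by
    intro k
    rw [hadd, ht, hMz]
    rfl
  have h2c : ∀ k, v (k + (c - 1)) = Y z *ᵥ v k := by
    intro k
    have h1 : c - 1 = 2 * ((c - 1) / 2) := by
      obtain ⟨n, hn⟩ := hc
      omega
    rw [h1, hadd, hY, hMz]
    rfl
  obtain ⟨g0, g1, d0, -, c0, c1, htri, κ, hκ, hgx⟩ := hGeo t Y mt mY z hUT hU2 e c v
    (xv t Y z 0)⁻¹ hc (inv_ne_zero hxz) htw hv0 hv1 h2e h2c
  rw [← hMz] at c0 c1
  have hg0 : IsUnit g0.det := isUnit_iff_ne_zero.mpr d0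
  have c0' : Commute g0⁻¹ M := by
    have h := Matrix.Commute.zpow_left (A := g0) (B := M) c0 (-1)
    rw [Matrix.zpow_neg_one] at h
    exact h
  have cs : Commute (M ^ (-sh)) M := Matrix.Commute.zpow_self M (-sh)
  refine ⟨v, _, v', ⟨?_, hv0, ?_⟩, ⟨?_, ?_, ?_⟩, himg v _ htri, ?_⟩
  · rw [m1, hMz]
    exact htw
  · rw [hv, poly_one]
  · rw [m2, hv']
    exact poly_tw M hdet _ _
  · rw [hv']
    exact poly_zero _ _ _
  · rw [hv', poly_one]
  · rw [m1, m2]
    refine ⟨M ^ (-sh) * g0⁻¹, ?_, ⟨1, one_ne_zero, ?_⟩, ?_⟩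
    · rw [Matrix.det_mul]
      refine mul_ne_zero ?_ ?_
      · exact (hM.det_zpow (-sh)).ne_zero
      · exact (Matrix.isUnit_nonsing_inv_det g0 hg0).ne_zero
    · rw [one_smul]
      exact (Commute.mul_left cs c0').eq
    · intro k
      have hpar : Even (k + 2 * sh) ↔ Even k := by
        rw [Int.even_add]
        simp
      by_cases hk : Even k
      · refine ⟨1, one_ne_zero, ?_⟩
        have e1 : v' k = v k := by
          rw [hv', hv]
          unfold poly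
          rw [if_pos hk, if_pos hk]
        rw [one_smul, e1]
        simp only [hpar, hk, if_true]
        have e2 : M ^ (-sh) * (g0⁻¹ * (g0 * M ^ sh)) = 1 := by
          rw [← Matrix.mul_assoc g0⁻¹, Matrix.nonsing_inv_mul g0 hg0,
            Matrix.one_mul, Matrix.zpow_neg_mul_zpow_self sh hM]
        rw [hadd]
        simp only [Matrix.mulVec_mulVec, Matrix.mul_assoc]
        rw [e2, Matrix.one_mulVec]
      · refine ⟨κ * xv t Y (TH t Y z) 0, mul_ne_zero hκ hxz', ?_⟩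
        simp only [hpar, hk, if_false]
        rw [hadd]
        have e3 : v k = M ^ (k / 2) *ᵥ v 1 := by
          rw [hv, poly_one]
          unfold poly
          rw [if_neg hk]
        have e4 : v' k = M ^ (k / 2) *ᵥ x0 (Phi t Y (TH t Y z)) := by
          rw [hv']
          unfold poly
          rw [if_neg hk]
        have c1' : Commute g1 M := c1
        have k1 : g1 * M ^ sh = M ^ sh * g1 := (Matrix.Commute.zpow_right c1' sh).eq
        have k2 : g0⁻¹ * M ^ sh = M ^ sh * g0⁻¹ := (Matrix.Commute.zpow_right c0' sh).eq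
        have k3 : g1 * M ^ (k / 2) = M ^ (k / 2) * g1 := (Matrix.Commute.zpow_right c1' (k / 2)).eq
        have k4 : g0⁻¹ * M ^ (k / 2) = M ^ (k / 2) * g0⁻¹ :=
          (Matrix.Commute.zpow_right c0' (k / 2)).eq
        have e5 : M ^ (-sh) * (g0⁻¹ * (g1 * (M ^ sh * M ^ (k / 2)))) =
            M ^ (k / 2) * (g0⁻¹ * g1) := by
          calc M ^ (-sh) * (g0⁻¹ * (g1 * (M ^ sh * M ^ (k / 2))))
              = M ^ (-sh) * (g0⁻¹ * ((g1 * M ^ sh) * M ^ (k / 2))) := by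
                simp only [Matrix.mul_assoc]
            _ = M ^ (-sh) * ((g0⁻¹ * M ^ sh) * (g1 * M ^ (k / 2))) := by
                rw [k1]
                simp only [Matrix.mul_assoc]
            _ = (M ^ (-sh) * M ^ sh) * (g0⁻¹ * (g1 * M ^ (k / 2))) := by
                rw [k2]
                simp only [Matrix.mul_assoc]
            _ = g0⁻¹ * M ^ (k / 2) * g1 := by
                rw [Matrix.zpow_neg_mul_zpow_self sh hM, Matrix.one_mul, k3, Matrix.mul_assoc]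
            _ = M ^ (k / 2) * (g0⁻¹ * g1) := by
                rw [k4, Matrix.mul_assoc]
        have e6 : (M ^ (-sh) * g0⁻¹) *ᵥ (g1 *ᵥ (M ^ sh *ᵥ (M ^ (k / 2) *ᵥ v 1))) =
            M ^ (k / 2) *ᵥ (g0⁻¹ *ᵥ (g1 *ᵥ v 1)) := by
          simp only [Matrix.mulVec_mulVec, Matrix.mul_assoc]
          rw [e5]
        rw [e3, e6, e4, x0_Phi t Y _ hxz', hgx, Matrix.mulVec_smul, Matrix.mulVec_smul,
          Matrix.mulVec_smul, Matrix.mulVec_mulVec (xv t Y (TH t Y z)) g0⁻¹ g0,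
          Matrix.nonsing_inv_mul g0 hg0, Matrix.one_mulVec, smul_smul, mul_assoc,
          mul_inv_cancel₀ hxz', mul_one]

end Pool.Agent.MP62a5ad.PN
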