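import Pool.Agent.Lib.MP_62a5ad_mp.PN.Spec

/-!
# MP_62a5ad_mp, PN, module Mu: the involutions `μ_θ`
-/

set_option autoImplicit false

namespace Pool.Agent.MP62a5ad.PN

open Matrix

namespace MuAux

theorem Kt_eq {t : E6 → M4} (ht : MFam t) {z z' : E6} (h0 : z 0 = z' 0) (h1 : z 1 = z' 1)
    (h2 : z 2 = z' 2) : Kt t z = Kt t z' := by
  unfold Kt
  rw [ht.dep z z' h0 h1 h2]

theorem pc_eq {t : E6 → M4} (ht : MFam t) {z z' : E6} (h0 : z 0 = z' 0) (h1 : z 1 = z' 1)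
    (h2 : z 2 = z' 2) : pc t z = pc t z' := by
  unfold pc
  rw [Kt_eq ht h0 h1 h2, ht.dep z z' h0 h1 h2]

theorem ell_eq {t : E6 → M4} (ht : MFam t) {z z' : E6} (h0 : z 0 = z' 0) (h1 : z 1 = z' 1)
    (h2 : z 2 = z' 2) (g : M4) : ell t z g = ell t z' g := by
  unfold ell
  rw [Kt_eq ht h0 h1 h2]

theorem Qm_eq {t : E6 → M4} (ht : MFam t) {z z' : E6} (h0 : z 0 = z' 0) (h1 : z 1 = z' 1)
    (h2 : z 2 = z' 2) (h4 : z 4 = z' 4) (h5 : z 5 = z' 5) : Qm t z = Qm t z' := by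
  unfold Qm
  rw [ht.dep z z' h0 h1 h2, h4, h5]

theorem mq_eq {t θ : E6 → M4} (ht : MFam t) (hθ : MFam θ) {z z' : E6} (h0 : z 0 = z' 0)
    (h1 : z 1 = z' 1) (h2 : z 2 = z' 2) (h4 : z 4 = z' 4) (h5 : z 5 = z' 5) :
    mq t θ z = mq t θ z' := by
  funext j
  unfold mq
  rw [ell_eq ht h0 h1 h2, Qm_eq ht h0 h1 h2 h4 h5, ht.dep z z' h0 h1 h2, hθ.dep z z' h0 h1 h2]

/-- the identity for `n 2 - s₁ n 1` -/
theorem den (n1 n2 n3 s : ℝ) (hd : n2 - s * n1 ≠ 0) :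
    n2 - (n3 - s * n2) / (n2 - s * n1) * n1 = -((n1 * n3 - n2 ^ 2) / (n2 - s * n1)) := by
  field_simp
  ring

theorem num (n1 n2 n3 s : ℝ) (hd : n2 - s * n1 ≠ 0) :
    n3 - (n3 - s * n2) / (n2 - s * n1) * n2 = s * -((n1 * n3 - n2 ^ 2) / (n2 - s * n1)) := by
  field_simp
  ring

theorem hs0 (n0 n1 n2 n3 s : ℝ) (hd : n2 - s * n1 ≠ 0) :
    (n1 - (n3 - s * n2) / (n2 - s * n1) * n0) * (n3 - (n3 - s * n2) / (n2 - s * n1) * n2)
      - (n2 - (n3 - s * n2) / (n2 - s * n1) * n1) ^ 2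
    = -((n1 * n3 - n2 ^ 2) / (n2 - s * n1) ^ 2) *
      ((n1 - s * n0) * (n3 - s * n2) - (n2 - s * n1) ^ 2) := by
  obtain ⟨d, hd'⟩ : ∃ d, n2 = d + s * n1 := ⟨n2 - s * n1, by ring⟩
  have hd2 : n2 - s * n1 = d := by rw [hd']; ring
  rw [hd2] at hd ⊢
  rw [hd']
  field_simp
  ring

theorem hs1 (n1 n2 n3 n4 s : ℝ) (hd : n2 - s * n1 ≠ 0) :
    (n2 - (n3 - s * n2) / (n2 - s * n1) * n1) * (n4 - (n3 - s * n2) / (n2 - s * n1) * n3)
      - (n3 - (n3 - s * n2) / (n2 - s * n1) * n2) ^ 2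
    = -((n1 * n3 - n2 ^ 2) / (n2 - s * n1) ^ 2) *
      ((n2 - s * n1) * (n4 - s * n3) - (n3 - s * n2) ^ 2) := by
  field_simp
  ring

end MuAux

open MuAux in
theorem tMu : S_Mu := by
  intro t θ ht hθ z hz
  obtain ⟨hD, hQ, hk1, hd⟩ := hz
  have hmq : mq t θ (mu t θ z) = mq t θ z := mq_eq ht hθ rfl rfl rfl rfl rfl
  have hpc : pc t (mu t θ z) = pc t z := pc_eq ht rfl rfl rfl
  have hQm : Qm t (mu t θ z) = Qm t z := Qm_eq ht rfl rfl rfl rfl rfl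
  have hKt : Kt t (mu t θ z) = Kt t z := Kt_eq ht rfl rfl rfl
  have h3 : mu t θ z 3 = sM (mq t θ z) (z 3) := rfl
  set n := mq t θ z with hn
  set s := z 3 with hsz
  have hk1' : hk n 1 = n 1 * n 3 - n 2 ^ 2 := rfl
  have hden : n 2 - sM n s * n 1 = -(hk n 1 / (n 2 - s * n 1)) := by
    unfold sM
    rw [den _ _ _ _ hd, hk1']
  have hnum : n 3 - sM n s * n 2 = s * -(hk n 1 / (n 2 - s * n 1)) := by
    unfold sM
    rw [num _ _ _ _ hd, hk1']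
  have hne : -(hk n 1 / (n 2 - s * n 1)) ≠ 0 := neg_ne_zero.mpr (div_ne_zero hk1 hd)
  have hsM : sM n (sM n s) = s := by
    have e : sM n (sM n s) = (n 3 - sM n s * n 2) / (n 2 - sM n s * n 1) := rfl
    rw [e, hden, hnum]
    exact mul_div_cancel_right₀ s hne
  have hhs : ∀ i : ℕ, i < 2 → hs n (sM n s) i = -(hk n 1 / (n 2 - s * n 1) ^ 2) * hs n s i := by
    intro i hi
    have hi' : i = 0 ∨ i = 1 := by omega
    rcases hi' with rfl | rfl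
    · exact hs0 (n 0) (n 1) (n 2) (n 3) s hd
    · exact hs1 (n 1) (n 2) (n 3) (n 4) s hd
  refine ⟨⟨⟨hD.1, ?_⟩, ?_, ?_, ?_⟩, ?_, hmq, hpc, ?_, ?_, ?_⟩
  · rw [hKt]
    exact hD.2
  · rw [hQm]
    exact hQ
  · rw [hmq]
    exact hk1
  · rw [hmq, h3, hden]
    exact hne
  · have e : mu t θ (mu t θ z) = ![mu t θ z 0, mu t θ z 1, mu t θ z 2,
      sM (mq t θ (mu t θ z)) (mu t θ z 3), mu t θ z 4, mu t θ z 5] := rfl
    rw [e, hmq, h3, hsM]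
    funext i
    fin_cases i <;> rfl
  · intro i hi
    rw [h3]
    exact hhs i hi
  · have e : GG t θ (mu t θ z) = (Qm t (mu t θ z)).det * hs (mq t θ (mu t θ z)) (mu t θ z 3) 1 := rfl
    have e2 : GG t θ z = (Qm t z).det * hs n s 1 := rfl
    rw [e, e2, hmq, hQm, h3, hhs 1 (by norm_num)]
    ring
  · intro _
    have e : C1 t θ (mu t θ z) = pc t (mu t θ z) 0 * hs (mq t θ (mu t θ z)) (mu t θ z 3) 0 /
      hs (mq t θ (mu t θ z)) (mu t θ z 3) 1 := rfl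
    have e2 : C1 t θ z = pc t z 0 * hs n s 0 / hs n s 1 := rfl
    rw [e, e2, hpc, hmq, h3, hhs 1 (by norm_num), hhs 0 (by norm_num)]
    have hk0 : -(hk n 1 / (n 2 - s * n 1) ^ 2) ≠ 0 :=
      neg_ne_zero.mpr (div_ne_zero hk1 (pow_ne_zero 2 hd))
    rw [mul_left_comm, mul_div_mul_left _ _ hk0]

end Pool.Agent.MP62a5ad.PN
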