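import Pool.Agent.Lib.MP_62a5ad_mp.PN.Spec

set_option autoImplicit false

namespace Pool.Agent.MP62a5ad.PN

open Matrix

namespace PPAux

theorem mono_eq {z z' : E6} (h0 : z 0 = z' 0) (h1 : z 1 = z' 1) (h2 : z 2 = z' 2) :
    mono z = mono z' := by
  simp only [mono, h0, h1, h2]

theorem Kt_eq {t : E6 → M4} {z z' : E6} (h : t z = t z') : Kt t z = Kt t z' := by
  simp only [Kt, h]

theorem ell_eq {t : E6 → M4} {z z' : E6} (h : t z = t z') (g : M4) : ell t z g = ell t z' g := by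
  simp only [ell, Kt_eq h]

theorem mono_e0 (z : E6) : (mono z *ᵥ e0 : V4) = ![0, 1, 0, 0] := by
  funext i
  fin_cases i <;> simp [mono, e0, Matrix.mulVec, dotProduct, Fin.sum_univ_four]

theorem mono_e1 (z : E6) : (mono z *ᵥ ![0, 1, 0, 0] : V4) = ![0, 0, 1, 0] := by
  funext i
  fin_cases i <;> simp [mono, Matrix.mulVec, dotProduct, Fin.sum_univ_four]

theorem mono_e2 (z : E6) : (mono z *ᵥ ![0, 0, 1, 0] : V4) = ![0, 0, 0, 1] := by
  funext i
  fin_cases i <;> simp [mono, Matrix.mulVec, dotProduct, Fin.sum_univ_four]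

/-- `N e0` -/
theorem N_e0 (z : E6) (a b c : ℝ) :
    ((1 + a • mono z + b • (mono z) ^ 2 + c • (mono z) ^ 3 : M4) *ᵥ e0 : V4) = ![1, a, b, c] := by
  have h1 := mono_e0 z
  have h2 : ((mono z) ^ 2 *ᵥ e0 : V4) = ![0, 0, 1, 0] := by
    rw [pow_two, ← Matrix.mulVec_mulVec, h1, mono_e1]
  have h3 : ((mono z) ^ 3 *ᵥ e0 : V4) = ![0, 0, 0, 1] := by
    rw [pow_succ', ← Matrix.mulVec_mulVec, h2, mono_e2]
  rw [Matrix.add_mulVec, Matrix.add_mulVec, Matrix.add_mulVec, Matrix.smul_mulVec,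
    Matrix.smul_mulVec, Matrix.smul_mulVec, h1, h2, h3, Matrix.one_mulVec]
  funext i
  fin_cases i <;> simp [e0]

theorem N_comm (z : E6) (a b c : ℝ) :
    (1 + a • mono z + b • (mono z) ^ 2 + c • (mono z) ^ 3 : M4) * mono z =
      mono z * (1 + a • mono z + b • (mono z) ^ 2 + c • (mono z) ^ 3) := by
  simp only [add_mul, mul_add, one_mul, mul_one, smul_mul_assoc, mul_smul_comm, ← pow_succ,
    ← pow_succ']

/-- coordinates of a quadratic polynomial -/
theorem Kt_quad (t : E6 → M4) (z : E6) (hK : (Kt t z).det ≠ 0) (a b c : ℝ) :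
    ((Kt t z)⁻¹ *ᵥ ((a • (1 : M4) + b • t z + c • (t z) ^ 2) *ᵥ e0) : V4) = ![a, b, c, 0] := by
  have hu : IsUnit (Kt t z).det := isUnit_iff_ne_zero.mpr hK
  have h1 : ((a • (1 : M4) + b • t z + c • (t z) ^ 2) *ᵥ e0 : V4) = Kt t z *ᵥ ![a, b, c, 0] := by
    rw [Matrix.add_mulVec, Matrix.add_mulVec, Matrix.smul_mulVec, Matrix.smul_mulVec,
      Matrix.smul_mulVec]
    funext i
    have h2 : (Kt t z *ᵥ ![a, b, c, 0] : V4) i = ∑ j : Fin 4, Kt t z i j * (![a, b, c, 0] : V4) j :=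
      rfl
    rw [h2, Fin.sum_univ_four]
    simp [Kt]
    ring
  rw [h1, Matrix.mulVec_mulVec, Matrix.nonsing_inv_mul _ hu, Matrix.one_mulVec]

theorem ext6 {f g : E6} (h0 : f 0 = g 0) (h1 : f 1 = g 1) (h2 : f 2 = g 2) (h3 : f 3 = g 3)
    (h4 : f 4 = g 4) (h5 : f 5 = g 5) : f = g := by
  funext i
  fin_cases i <;> assumption

theorem ext4 {f g : V4} (h0 : f 0 = g 0) (h1 : f 1 = g 1) (h2 : f 2 = g 2) (h3 : f 3 = g 3) :
    f = g := by
  funext i
  fin_cases i <;> assumption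

theorem v4_0 (a b c d : ℝ) : (![a, b, c, d] : V4) 0 = a := rfl
theorem v4_1 (a b c d : ℝ) : (![a, b, c, d] : V4) 1 = b := rfl
theorem v4_2 (a b c d : ℝ) : (![a, b, c, d] : V4) 2 = c := rfl
theorem v4_3 (a b c d : ℝ) : (![a, b, c, d] : V4) 3 = d := rfl
theorem v6_0 (a b c d e f : ℝ) : (![a, b, c, d, e, f] : E6) 0 = a := rfl
theorem v6_1 (a b c d e f : ℝ) : (![a, b, c, d, e, f] : E6) 1 = b := rfl
theorem v6_2 (a b c d e f : ℝ) : (![a, b, c, d, e, f] : E6) 2 = c := rfl
theorem v6_3 (a b c d e f : ℝ) : (![a, b, c, d, e, f] : E6) 3 = d := rfl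
theorem v6_4 (a b c d e f : ℝ) : (![a, b, c, d, e, f] : E6) 4 = e := rfl
theorem v6_5 (a b c d e f : ℝ) : (![a, b, c, d, e, f] : E6) 5 = f := rfl

theorem Phi0 (t Y : E6 → M4) (z : E6) : Phi t Y z 0 = z 0 := by rw [Phi, v6_0]
theorem Phi1 (t Y : E6 → M4) (z : E6) : Phi t Y z 1 = z 1 := by rw [Phi, v6_1]
theorem Phi2 (t Y : E6 → M4) (z : E6) : Phi t Y z 2 = z 2 := by rw [Phi, v6_2]
theorem Phi3 (t Y : E6 → M4) (z : E6) : Phi t Y z 3 = xv t Y z 1 / xv t Y z 0 := by rw [Phi, v6_3]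
theorem Phi4 (t Y : E6 → M4) (z : E6) : Phi t Y z 4 = xv t Y z 2 / xv t Y z 0 := by rw [Phi, v6_4]
theorem Phi5 (t Y : E6 → M4) (z : E6) : Phi t Y z 5 = xv t Y z 3 / xv t Y z 0 := by rw [Phi, v6_5]
theorem Psi0 (t Y : E6 → M4) (z : E6) : Psi t Y z 0 = z 0 := by rw [Psi, v6_0]
theorem Psi1 (t Y : E6 → M4) (z : E6) : Psi t Y z 1 = z 1 := by rw [Psi, v6_1]
theorem Psi2 (t Y : E6 → M4) (z : E6) : Psi t Y z 2 = z 2 := by rw [Psi, v6_2]
theorem Psi3 (t Y : E6 → M4) (z : E6) : Psi t Y z 3 = sP t Y z := by rw [Psi, v6_3]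
theorem Psi4 (t Y : E6 → M4) (z : E6) : Psi t Y z 4 = cf t Y z 1 / cf t Y z 2 := by rw [Psi, v6_4]
theorem Psi5 (t Y : E6 → M4) (z : E6) : Psi t Y z 5 = cf t Y z 0 / cf t Y z 2 := by rw [Psi, v6_5]

end PPAux

open PPAux

theorem tPP (hFam : S_Fam) (hDt : S_Dt) (hLin : S_Lin) (hBrg : S_Brg) : S_PP := by
  intro t Y ht hY
  obtain ⟨-, hcomm, -, -, -⟩ := hFam
  -- part I
  have key1 : ∀ z ∈ U2 t Y, Phi t Y z ∈ U1 t Y ∧ Psi t Y (Phi t Y z) = z := by
    intro z hz
    obtain ⟨hD, hdet, hq, hxi⟩ := hz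
    obtain ⟨A, i1, i2, ι, b, τ, hFr, hτ, hinj, hιc, hιs, -, hel, hrepr, -, hinj0, -⟩ :=
      hBrg t ht z hD
    obtain ⟨hz2, hK⟩ := hD
    set y := Phi t Y z with hy
    have y0 : y 0 = z 0 := Phi0 t Y z
    have y1 : y 1 = z 1 := Phi1 t Y z
    have y2 : y 2 = z 2 := Phi2 t Y z
    have y3 : y 3 = xv t Y z 1 / xv t Y z 0 := Phi3 t Y z
    have y4 : y 4 = xv t Y z 2 / xv t Y z 0 := Phi4 t Y z
    have y5 : y 5 = xv t Y z 3 / xv t Y z 0 := Phi5 t Y z
    have hty : t y = t z := ht.dep y z y0 y1 y2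
    have hYy : Y y = Y z := hY.dep y z y0 y1 y2
    have hMy : mono y = mono z := mono_eq y0 y1 y2
    have hKy : Kt t y = Kt t z := Kt_eq hty
    have htc := ht.com z hz2
    have hYc := hY.com z hz2
    have hYd : IsUnit (Y z).det := isUnit_iff_ne_zero.mpr (hY.ndet z hz2)
    have hsd : IsUnit (t z - z 3 • (1 : M4)).det := isUnit_iff_ne_zero.mpr hdet
    -- commutation
    have hQc : Commute (Qm t z) (mono z) := by
      have h1 : Commute (t z) (mono z) := htc
      exact (((h1.pow_left 2).add_left (h1.smul_left _)).add_left ((Commute.one_left _).smul_left _))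
    have hsc : Commute (t z - z 3 • (1 : M4)) (mono z) := by
      have h1 : Commute (t z) (mono z) := htc
      exact h1.sub_left ((Commute.one_left _).smul_left _)
    have hinvc : ∀ g : M4, IsUnit g.det → Commute g (mono z) → Commute g⁻¹ (mono z) := by
      intro g hg hc
      have h1 : g⁻¹ * (g * mono z) * g⁻¹ = g⁻¹ * (mono z * g) * g⁻¹ := by rw [hc.eq]
      rw [← Matrix.mul_assoc, Matrix.nonsing_inv_mul _ hg, Matrix.one_mul, ← Matrix.mul_assoc,
        Matrix.mul_assoc (g⁻¹ * mono z), Matrix.mul_nonsing_inv _ hg, Matrix.mul_one] at h1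
      exact h1.symm
    have hX0c : Commute (X0 t z) (mono z) := hQc.mul_left (hinvc _ hsd hsc)
    have hYi : Commute (Y z)⁻¹ (mono z) := hinvc _ hYd hYc
    set ξ := xv t Y z 0 with hξ
    -- X = N
    have hXN : ξ⁻¹ • ((Y z)⁻¹ * X0 t z) =
        1 + y 3 • mono z + y 4 • (mono z) ^ 2 + y 5 • (mono z) ^ 3 := by
      obtain ⟨a, ha⟩ := hιs (ξ⁻¹ • ((Y z)⁻¹ * X0 t z)) ((hYi.mul_left hX0c).smul_left _).eq
      obtain ⟨a', ha'⟩ := hιs _ (N_comm z (y 3) (y 4) (y 5))
      have h1 : a = a' := by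
        apply hinj0
        rw [ha, ha', N_e0, Matrix.smul_mulVec]
        have h2 : (((Y z)⁻¹ * X0 t z) *ᵥ e0 : V4) = xv t Y z := rfl
        rw [h2]
        rw [y3, y4, y5]
        apply ext4
        · rw [Pi.smul_apply, smul_eq_mul, v4_0]
          exact inv_mul_cancel₀ hxi
        · rw [Pi.smul_apply, smul_eq_mul, v4_1]
          exact inv_mul_eq_div _ _
        · rw [Pi.smul_apply, smul_eq_mul, v4_2]
          exact inv_mul_eq_div _ _
        · rw [Pi.smul_apply, smul_eq_mul, v4_3]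
          exact inv_mul_eq_div _ _
      rw [← ha, ← ha', h1]
    have hW : W0 Y y = ξ⁻¹ • X0 t z := by
      simp only [W0]
      rw [hYy, hMy, ← hXN, mul_smul_comm, ← Matrix.mul_assoc, Matrix.mul_nonsing_inv _ hYd,
        Matrix.one_mul]
    -- the inverse in A
    have hX1 : (t z - z 3 • (1 : M4)) * X0 t z = Qm t z := by
      have h1 : Commute (t z - z 3 • (1 : M4)) (Qm t z) := by
        have h2 : Commute (t z) (Qm t z) :=
          (((Commute.refl (t z)).pow_right 2).add_right ((Commute.refl _).smul_right _)).add_right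
            ((Commute.one_right _).smul_right _)
        exact h2.sub_left ((Commute.one_left _).smul_left _)
      rw [X0, ← Matrix.mul_assoc, h1.eq, Matrix.mul_assoc, Matrix.mul_nonsing_inv _ hsd,
        Matrix.mul_one]
    have hιQ : ι (qe τ (z 4) (z 5)) = Qm t z := by
      simp only [qe, map_add, map_smul, map_pow, map_one, hτ, Qm]
    obtain ⟨σ, hσ⟩ := hιs (t z - z 3 • (1 : M4))⁻¹ (hinvc _ hsd hsc).eq
    have hσ1 : (τ - z 3 • (1 : A)) * σ = 1 := by
      apply hinj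
      rw [map_mul, map_sub, map_smul, map_one, hτ, hσ, Matrix.mul_nonsing_inv _ hsd]
    obtain ⟨⟨l0, l1, l2, l3⟩, -, -, -, -, -, -, l8, -⟩ := hLin A τ b (pc t z) hFr
    have l8' := l8 (z 3) (z 4) (z 5) σ hσ1
    have hιX : ι (qe τ (z 4) (z 5) * σ) = X0 t z := by
      rw [map_mul, hιQ, hσ, X0]
    rw [hel, hιX] at l8'
    have hlX : ell t z (X0 t z) ≠ 0 := by
      intro h
      rw [h, mul_zero] at l8'
      exact hq (by linarith)
    have lsmul : ∀ (c : ℝ) (g : M4), ell t z (c • g) = c * ell t z g := by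
      intro c g
      simp only [ell, Matrix.smul_mulVec, Matrix.mulVec_smul, Pi.smul_apply, smul_eq_mul]
    have ladd : ∀ (g g' : M4), ell t z (g + g') = ell t z g + ell t z g' := by
      intro g g'
      simp only [ell, Matrix.add_mulVec, Matrix.mulVec_add, Pi.add_apply]
    have hKQ := Kt_quad t z hK (z 5) (z 4) 1
    have hQm : z 5 • (1 : M4) + z 4 • t z + (1 : ℝ) • (t z) ^ 2 = Qm t z := by
      rw [Qm, one_smul]; abel
    rw [hQm] at hKQ
    have hlQ : ell t z (Qm t z) = 0 := by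
      rw [ell, hKQ, v4_3]
    have hlt : ell t z (t z * X0 t z) = z 3 * ell t z (X0 t z) := by
      have h1 : t z * X0 t z = z 3 • X0 t z + Qm t z := by
        rw [← hX1, Matrix.sub_mul, smul_mul_assoc, Matrix.one_mul]; abel
      rw [h1, ladd, lsmul, hlQ, add_zero]
    have hξi : ξ⁻¹ ≠ 0 := inv_ne_zero hxi
    have hsP : sP t Y y = z 3 := by
      rw [sP, hW, hty, ell_eq hty, ell_eq hty, mul_smul_comm, lsmul, lsmul, hlt]
      field_simp
    have hcf : cf t Y y = ξ⁻¹ • ![z 5, z 4, 1, 0] := by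
      rw [cf, hsP, hW, hty, hKy, mul_smul_comm, hX1, Matrix.smul_mulVec, Matrix.mulVec_smul, hKQ]
    have hc0 : cf t Y y 0 = ξ⁻¹ * z 5 := by rw [hcf, Pi.smul_apply, smul_eq_mul, v4_0]
    have hc1 : cf t Y y 1 = ξ⁻¹ * z 4 := by rw [hcf, Pi.smul_apply, smul_eq_mul, v4_1]
    have hc2 : cf t Y y 2 = ξ⁻¹ := by rw [hcf, Pi.smul_apply, smul_eq_mul, v4_2, mul_one]
    refine ⟨⟨⟨by rw [y2]; exact hz2, by rw [hKy]; exact hK⟩, ?_, ?_, ?_⟩, ?_⟩
    · rw [hW, ell_eq hty, lsmul]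
      exact mul_ne_zero hξi hlX
    · rw [hc2]; exact hξi
    · rw [hsP, hty]; exact hdet
    · apply ext6
      · rw [Psi0]; exact y0
      · rw [Psi1]; exact y1
      · rw [Psi2]; exact y2
      · rw [Psi3]; exact hsP
      · rw [Psi4, hc1, hc2]
        exact mul_div_cancel_left₀ _ hξi
      · rw [Psi5, hc0, hc2]
        exact mul_div_cancel_left₀ _ hξi
  -- part II
  have key2 : ∀ y ∈ U1 t Y, Psi t Y y ∈ U2 t Y ∧ Phi t Y (Psi t Y y) = y := by
    intro y hy
    obtain ⟨hD, hl, hc2, hdet⟩ := hy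
    obtain ⟨A, i1, i2, ι, b, τ, hFr, hτ, hinj, hιc, hιs, -, hel, hrepr, -, hinj0, -⟩ :=
      hBrg t ht y hD
    have hdt := (hDt t ht y hD).2.2.1
    obtain ⟨hy2, hK⟩ := hD
    set z := Psi t Y y with hz
    have z0 : z 0 = y 0 := Psi0 t Y y
    have z1 : z 1 = y 1 := Psi1 t Y y
    have z2 : z 2 = y 2 := Psi2 t Y y
    have z3 : z 3 = sP t Y y := Psi3 t Y y
    have z4 : z 4 = cf t Y y 1 / cf t Y y 2 := Psi4 t Y y
    have z5 : z 5 = cf t Y y 0 / cf t Y y 2 := Psi5 t Y y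
    have htz : t z = t y := ht.dep z y z0 z1 z2
    have hYz : Y z = Y y := hY.dep z y z0 z1 z2
    have hKz : Kt t z = Kt t y := Kt_eq htz
    have htc := ht.com y hy2
    have hYc := hY.com y hy2
    have hYd : IsUnit (Y y).det := isUnit_iff_ne_zero.mpr (hY.ndet y hy2)
    set s := sP t Y y with hs
    have hsd : IsUnit (t y - s • (1 : M4)).det := isUnit_iff_ne_zero.mpr hdet
    have hWc : W0 Y y * mono y = mono y * W0 Y y := by
      have h1 : Commute (Y y) (mono y) := hYc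
      have h2 : Commute (1 + y 3 • mono y + y 4 • (mono y) ^ 2 + y 5 • (mono y) ^ 3 : M4)
          (mono y) := N_comm y _ _ _
      exact (h1.mul_left h2).eq
    obtain ⟨w, hw⟩ := hιs _ hWc
    have lsmul : ∀ (c : ℝ) (g : M4), ell t y (c • g) = c * ell t y g := by
      intro c g
      simp only [ell, Matrix.smul_mulVec, Matrix.mulVec_smul, Pi.smul_apply, smul_eq_mul]
    have lsub : ∀ (g g' : M4), ell t y (g - g') = ell t y g - ell t y g' := by
      intro g g'
      simp only [ell, Matrix.sub_mulVec, Matrix.mulVec_sub, Pi.sub_apply]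
    have hcf3 : cf t Y y 3 = 0 := by
      have h1 : cf t Y y 3 = ell t y ((t y - s • (1 : M4)) * W0 Y y) := by rw [cf, ell]
      rw [h1, Matrix.sub_mul, smul_mul_assoc, Matrix.one_mul, lsub, lsmul, hs, sP,
        div_mul_cancel₀ _ hl, sub_self]
    -- (t - s) W0 = cf 2 • Q
    have hV : (t y - s • (1 : M4)) * W0 Y y = cf t Y y 2 • Qm t z := by
      have h1 : ι ((τ - s • (1 : A)) * w) = (t y - s • (1 : M4)) * W0 Y y := by
        rw [map_mul, map_sub, map_smul, map_one, hτ, hw]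
      have h2 : ι (cf t Y y 2 • qe τ (z 4) (z 5)) = cf t Y y 2 • Qm t z := by
        simp only [qe, map_add, map_smul, map_pow, map_one, hτ, Qm, htz]
      rw [← h1, ← h2]
      congr 1
      apply b.ext_elem
      have h3 : ∀ i, b.repr ((τ - s • (1 : A)) * w) i = cf t Y y i := by
        intro i
        rw [hrepr, h1, cf]
      have h4 : ∀ i, b.repr (cf t Y y 2 • qe τ (z 4) (z 5)) i =
          (cf t Y y 2 • ![z 5, z 4, 1, 0] : V4) i := by
        intro i
        rw [hrepr, h2, Matrix.smul_mulVec, Matrix.mulVec_smul]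
        have hKQ := Kt_quad t y hK (z 5) (z 4) 1
        have hQm : z 5 • (1 : M4) + z 4 • t y + (1 : ℝ) • (t y) ^ 2 = Qm t z := by
          rw [Qm, one_smul, htz]; abel
        rw [hQm] at hKQ
        rw [hKQ]
      have h5 : cf t Y y = (cf t Y y 2 • ![z 5, z 4, 1, 0] : V4) := by
        rw [z4, z5]
        apply ext4
        · rw [Pi.smul_apply, smul_eq_mul, v4_0]
          exact (mul_div_cancel₀ _ hc2).symm
        · rw [Pi.smul_apply, smul_eq_mul, v4_1]
          exact (mul_div_cancel₀ _ hc2).symm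
        · rw [Pi.smul_apply, smul_eq_mul, v4_2]
          exact (mul_one _).symm
        · rw [Pi.smul_apply, smul_eq_mul, v4_3]
          exact hcf3.trans (mul_zero _).symm
      intro i
      rw [h3, h4, ← h5]
    have hX1 : (t y - s • (1 : M4)) * X0 t z = Qm t z := by
      have h1 : Commute (t z - z 3 • (1 : M4)) (Qm t z) := by
        have h2 : Commute (t z) (Qm t z) :=
          (((Commute.refl (t z)).pow_right 2).add_right ((Commute.refl _).smul_right _)).add_right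
            ((Commute.one_right _).smul_right _)
        exact h2.sub_left ((Commute.one_left _).smul_left _)
      have h2 : t z - z 3 • (1 : M4) = t y - s • (1 : M4) := by rw [htz, z3]
      rw [h2] at h1
      rw [X0, h2, ← Matrix.mul_assoc, h1.eq, Matrix.mul_assoc, Matrix.mul_nonsing_inv _ hsd,
        Matrix.mul_one]
    have hWX : W0 Y y = cf t Y y 2 • X0 t z := by
      have h1 : (t y - s • (1 : M4)) * W0 Y y = (t y - s • (1 : M4)) * (cf t Y y 2 • X0 t z) := by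
        rw [hV, mul_smul_comm, hX1]
      have h2 : (t y - s • (1 : M4))⁻¹ * ((t y - s • (1 : M4)) * W0 Y y) =
          (t y - s • (1 : M4))⁻¹ * ((t y - s • (1 : M4)) * (cf t Y y 2 • X0 t z)) := by rw [h1]
      rw [← Matrix.mul_assoc, ← Matrix.mul_assoc, Matrix.nonsing_inv_mul _ hsd, Matrix.one_mul,
        Matrix.one_mul] at h2
      exact h2
    have hX0 : X0 t z = (cf t Y y 2)⁻¹ • W0 Y y := by
      rw [hWX, smul_smul, inv_mul_cancel₀ hc2, one_smul]
    have hxv : xv t Y z = (cf t Y y 2)⁻¹ • ![1, y 3, y 4, y 5] := by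
      rw [xv, hX0, hYz, mul_smul_comm, Matrix.smul_mulVec, W0, ← Matrix.mul_assoc,
        Matrix.nonsing_inv_mul _ hYd, Matrix.one_mul, N_e0]
    have hx0 : xv t Y z 0 = (cf t Y y 2)⁻¹ := by
      rw [hxv, Pi.smul_apply, smul_eq_mul, v4_0, mul_one]
    have hx1 : xv t Y z 1 = (cf t Y y 2)⁻¹ * y 3 := by rw [hxv, Pi.smul_apply, smul_eq_mul, v4_1]
    have hx2 : xv t Y z 2 = (cf t Y y 2)⁻¹ * y 4 := by rw [hxv, Pi.smul_apply, smul_eq_mul, v4_2]
    have hx3 : xv t Y z 3 = (cf t Y y 2)⁻¹ * y 5 := by rw [hxv, Pi.smul_apply, smul_eq_mul, v4_3]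
    -- qv
    have hqv : qv (z 4) (z 5) (z 3) ≠ 0 := by
      have hps : pv (pc t y) s ≠ 0 := by
        rw [← hdt s]; exact hdet
      obtain ⟨-, -, -, -, -, l6, -, l8, -⟩ := hLin A τ b (pc t y) hFr
      obtain ⟨σ, hσ, -⟩ := l6 s hps
      have h1 := l8 s (z 4) (z 5) σ hσ
      have h2 : ι (cf t Y y 2 • (qe τ (z 4) (z 5) * σ)) = W0 Y y := by
        have h3 : cf t Y y 2 • (qe τ (z 4) (z 5) * σ) = w := by
          have h4 : (τ - s • (1 : A)) * w = cf t Y y 2 • qe τ (z 4) (z 5) := by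
            apply hinj
            rw [map_mul, map_sub, map_smul, map_one, hτ, hw, hV]
            simp only [qe, map_add, map_smul, map_pow, map_one, hτ, Qm, htz]
          calc cf t Y y 2 • (qe τ (z 4) (z 5) * σ) = (cf t Y y 2 • qe τ (z 4) (z 5)) * σ := by
                rw [smul_mul_assoc]
            _ = w * ((τ - s • (1 : A)) * σ) := by
                rw [← h4, mul_comm (τ - s • (1 : A)) w, mul_assoc]
            _ = w := by rw [hσ, mul_one]
        rw [h3, hw]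
      have h3 : cf t Y y 2 * el b (qe τ (z 4) (z 5) * σ) = ell t y (W0 Y y) := by
        rw [← h2, ← hel]
        simp [el]
      intro h0
      rw [z3] at h0
      rw [h0, neg_zero] at h1
      rcases mul_eq_zero.mp h1 with h4 | h4
      · exact hps h4
      · rw [h4, mul_zero] at h3
        exact hl h3.symm
    refine ⟨⟨⟨by rw [z2]; exact hy2, by rw [hKz]; exact hK⟩, ?_, hqv, ?_⟩, ?_⟩
    · rw [htz, z3]; exact hdet
    · rw [hx0]; exact inv_ne_zero hc2
    · have hci : (cf t Y y 2)⁻¹ ≠ 0 := inv_ne_zero hc2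
      apply ext6
      · rw [Phi0]; exact z0
      · rw [Phi1]; exact z1
      · rw [Phi2]; exact z2
      · rw [Phi3, hx1, hx0]
        exact mul_div_cancel_left₀ _ hci
      · rw [Phi4, hx2, hx0]
        exact mul_div_cancel_left₀ _ hci
      · rw [Phi5, hx3, hx0]
        exact mul_div_cancel_left₀ _ hci
  exact ⟨fun y hy => (key2 y hy).1, fun z hz => (key1 z hz).1, fun y hy => (key2 y hy).2,
    fun z hz => (key1 z hz).2⟩

end Pool.Agent.MP62a5ad.PN
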