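import Pool.Agent.Lib.MP_62a5ad_mp.PN.Spec

/-!
# MP_62a5ad_mp, PN/RA: polynomial identities for `R`
-/

set_option autoImplicit false

namespace Pool.Agent.MP62a5ad.PN

namespace RAAux

theorem part1 (p : V4) (s u C : ℝ) (hC : C ≠ 0) (hq : qv u C s ≠ 0) (hd : dR p s u C ≠ 0) :
    aR p s u C ≠ 0 ∧ Rel p s u C (sR p s u C) (uR p s u C) (cR p C) (aR p s u C) := by
  have hCq : C * qv u C s ≠ 0 := mul_ne_zero hC hq
  have ha : aR p s u C * (C * qv u C s) = dR p s u C := by
    unfold aR
    exact div_mul_cancel₀ _ hCq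
  have hb : aR p s u C * sR p s u C * (C * qv u C s) = C * A1 p u C - A0 p u C * (s + u) := by
    have h1 : sR p s u C * dR p s u C = C * A1 p u C - A0 p u C * (s + u) := by
      unfold sR
      exact div_mul_cancel₀ _ hd
    rw [← h1, ← ha]
    ring
  have hc : C * cR p C = p 0 := by
    unfold cR
    exact mul_div_cancel₀ _ hC
  have ha0 : aR p s u C ≠ 0 := by
    unfold aR
    exact div_ne_zero hd hCq
  refine ⟨ha0, ?_, ?_, ?_, hc⟩
  · unfold uR
    ring
  · generalize hα : aR p s u C = α at *
    generalize hβ : sR p s u C = s' at *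
    generalize hγ : cR p C = C' at *
    have hu : uR p s u C = α + p 3 - u := by
      unfold uR
      rw [hα]
    rw [hu]
    apply mul_left_cancel₀ hCq
    unfold dR at ha
    unfold qv at *
    unfold A1 A0 at *
    linear_combination (u + s) * ha + hb + (s ^ 2 + u * s + C) * hc
  · generalize hα : aR p s u C = α at *
    generalize hβ : sR p s u C = s' at *
    generalize hγ : cR p C = C' at *
    have hu : uR p s u C = α + p 3 - u := by
      unfold uR
      rw [hα]
    rw [hu]
    apply mul_left_cancel₀ hCq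
    unfold dR at ha
    unfold qv at *
    unfold A1 A0 at *
    linear_combination C * ha - s * hb + u * (s ^ 2 + u * s + C) * hc

end RAAux

open RAAux in
theorem tRA : S_RA := by
  refine ⟨part1, ?_⟩
  intro p s u C s' u' C' α hR
  obtain ⟨h1, h2, h3, h4⟩ := hR
  have e3 : p 3 = u + u' - α := by linear_combination -h1
  have e2 : p 2 = C + C' + u * u' + α * (s + s') := by linear_combination -h2
  have e1 : p 1 = u * C' + u' * C - α * s * s' := by linear_combination -h3
  have e0 : p 0 = C * C' := h4.symm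
  refine ⟨⟨?_, ?_, ?_, ?_⟩, ?_, ?_, ?_, ?_, ?_⟩
  · rw [e3]; ring
  · rw [e2]; ring
  · rw [e1]; ring
  · rw [e0]; ring
  · simp only [dR, A1, A0, qv, e0, e1, e2, e3]; ring
  · simp only [dR, A1, A0, e0, e1, e2, e3]; ring
  · intro x
    simp only [qv, pv, e0, e1, e2, e3]; ring
  · simp only [nQ, A1, qv, e0, e1, e2, e3]; ring
  · simp only [nQ, A1, A0, e0, e1, e2, e3]; ring

end Pool.Agent.MP62a5ad.PN
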