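import Pool.Agent.Lib.MP_62a5ad_mp.PN.Spec

/-!
# MP_62a5ad_mp, PN, module RI: the map `R` is an involution
-/

set_option autoImplicit false

namespace Pool.Agent.MP62a5ad.PN

open Matrix

namespace RIAux

theorem R0 (t : E6 → M4) (z : E6) : Rm t z 0 = z 0 := rfl
theorem R1 (t : E6 → M4) (z : E6) : Rm t z 1 = z 1 := rfl
theorem R2 (t : E6 → M4) (z : E6) : Rm t z 2 = z 2 := rfl
theorem R3 (t : E6 → M4) (z : E6) : Rm t z 3 = sR (pc t z) (z 3) (z 4) (z 5) := rfl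
theorem R4 (t : E6 → M4) (z : E6) : Rm t z 4 = uR (pc t z) (z 3) (z 4) (z 5) := rfl
theorem R5 (t : E6 → M4) (z : E6) : Rm t z 5 = cR (pc t z) (z 5) := rfl

/-- `Kt` depends on the first three coordinates -/
theorem Kt_eq {t : E6 → M4} (ht : MFam t) {z z' : E6} (h0 : z 0 = z' 0) (h1 : z 1 = z' 1)
    (h2 : z 2 = z' 2) : Kt t z = Kt t z' := by
  unfold Kt
  rw [ht.dep z z' h0 h1 h2]

theorem pc_eq {t : E6 → M4} (ht : MFam t) {z z' : E6} (h0 : z 0 = z' 0) (h1 : z 1 = z' 1)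
    (h2 : z 2 = z' 2) : pc t z = pc t z' := by
  unfold pc
  rw [Kt_eq ht h0 h1 h2, ht.dep z z' h0 h1 h2]

theorem DD_iff {t : E6 → M4} (ht : MFam t) {z z' : E6} (h0 : z 0 = z' 0) (h1 : z 1 = z' 1)
    (h2 : z 2 = z' 2) (h : z ∈ DD t) : z' ∈ DD t := by
  obtain ⟨a, b⟩ := h
  refine ⟨?_, ?_⟩
  · rw [← h2]
    exact a
  · rw [← Kt_eq ht h0 h1 h2]
    exact b

end RIAux

open RIAux in
theorem tRI (hRA : S_RA) (hDt : S_Dt) : S_RI := by
  intro t ht z hz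
  obtain ⟨hD, hC, hq, hd, hps, hps'⟩ := hz
  obtain ⟨-, hp0, -, hdet, -⟩ := hDt t ht z hD
  have hpc : pc t (Rm t z) = pc t z := pc_eq ht rfl rfl rfl
  have hDD : Rm t z ∈ DD t := DD_iff ht (z := z) (z' := Rm t z) rfl rfl rfl hD
  obtain ⟨hα, hrel⟩ := hRA.1 (pc t z) (z 3) (z 4) (z 5) hC hq hd
  obtain ⟨hrel', -, -, hx, hnq, -⟩ := hRA.2 _ _ _ _ _ _ _ _ hrel
  obtain ⟨-, hd1, hm1, -, -, -⟩ := hRA.2 _ _ _ _ _ _ _ _ hrel'
  set p := pc t z with hp
  set s := z 3 with hs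
  set u := z 4 with hu
  set C := z 5 with hCdef
  set s' := sR p s u C with hs'
  set u' := uR p s u C with hu'
  set C' := cR p C with hC'
  set α := aR p s u C with hαdef
  have hC'0 : C' ≠ 0 := div_ne_zero hp0 hC
  have h1 := hx s'
  have h2 : qv u C s' * qv u' C' s' = pv p s' := by
    rw [h1]
    ring
  have h3 : qv u C s' ≠ 0 ∧ qv u' C' s' ≠ 0 := by
    rw [← mul_ne_zero_iff, h2]
    exact hps'
  have hd' : dR p s' u' C' ≠ 0 := by
    rw [hd1]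
    exact mul_ne_zero (mul_ne_zero hα hC'0) h3.2
  have hsR : sR p s' u' C' = s := by
    unfold sR
    rw [div_eq_iff hd', hm1]
  have haR : aR p s' u' C' = α := by
    unfold aR
    rw [div_eq_iff (mul_ne_zero hC'0 h3.2), hd1]
    ring
  have huR : uR p s' u' C' = u := by
    have h4 := hrel.1
    unfold uR
    rw [haR]
    linarith
  have hcR : cR p C' = C := by
    have h4 := hrel.2.2.2
    unfold cR
    rw [div_eq_iff hC'0, ← h4]
  have e3 : Rm t z 3 = s' := rfl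
  have e4 : Rm t z 4 = u' := rfl
  have e5 : Rm t z 5 = C' := rfl
  refine ⟨⟨hDD, ?_, ?_, ?_, ?_, ?_⟩, ?_, ?_, hpc⟩
  · rw [e5]
    exact hC'0
  · rw [e3, e4, e5]
    exact h3.2
  · rw [hpc, e3, e4, e5]
    exact hd'
  · rw [hpc, e3]
    exact hps'
  · rw [hpc, e3, e4, e5, hsR]
    exact hps
  · funext i
    have e : Rm t (Rm t z) = ![Rm t z 0, Rm t z 1, Rm t z 2,
      sR (pc t (Rm t z)) (Rm t z 3) (Rm t z 4) (Rm t z 5),
      uR (pc t (Rm t z)) (Rm t z 3) (Rm t z 4) (Rm t z 5), cR (pc t (Rm t z)) (Rm t z 5)] := rfl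
    rw [e, hpc, e3, e4, e5, hsR, huR, hcR]
    fin_cases i <;> rfl
  · have h5 := hdet u C
    have h6 : Qm t z = (t z) ^ 2 + u • t z + C • (1 : M4) := rfl
    rw [h6, h5, hnq]
    exact mul_ne_zero (mul_ne_zero (mul_ne_zero (pow_ne_zero 2 hα) hC) hq) h3.1

end Pool.Agent.MP62a5ad.PN
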