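import Pool.Agent.Lib.MP_62a5ad_mp.PN.Spec

/-!
# MP_62a5ad_mp, PN, module RJ: the Jacobi matrix of `R`
-/

set_option autoImplicit false

namespace Pool.Agent.MP62a5ad.PN

open Matrix

namespace RJAux

theorem pc_eq {t : E6 → M4} (ht : MFam t) {z z' : E6} (h0 : z 0 = z' 0) (h1 : z 1 = z' 1)
    (h2 : z 2 = z' 2) : pc t z = pc t z' := by
  unfold pc Kt
  rw [ht.dep z z' h0 h1 h2]

/-- the algebraic identity behind the determinant -/
theorem alg (a b s u C p3 p0 : ℝ) (hC : C ≠ 0) (hq : s ^ 2 + u * s + C ≠ 0)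
    (hN : a * s + b ≠ 0) :
    ((-b * (a * s + b) - (C * a - b * (s + u)) * a) / (a * s + b) ^ 2) *
        (((C * (2 * u - p3) * s + (C * C - p0)) * (C * (s ^ 2 + u * s + C)) -
          (a * s + b) * (C * s)) / (C * (s ^ 2 + u * s + C)) ^ 2 - 1) -
      (((C * (C * (2 * u - p3)) - ((C * C - p0) * (s + u) + b)) * (a * s + b) -
          (C * a - b * (s + u)) * (C * (2 * u - p3) * s + (C * C - p0))) / (a * s + b) ^ 2) *
        ((a * (C * (s ^ 2 + u * s + C)) - (a * s + b) * (C * (2 * s + u))) /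
          (C * (s ^ 2 + u * s + C)) ^ 2) =
    (((C * a - b * (s + u)) / (a * s + b)) ^ 2 +
        ((a * s + b) / (C * (s ^ 2 + u * s + C)) + p3 - u) *
          ((C * a - b * (s + u)) / (a * s + b)) + p0 / C) / (s ^ 2 + u * s + C) := by
  obtain ⟨q, hq'⟩ : ∃ q, C = q - s ^ 2 - u * s := ⟨s ^ 2 + u * s + C, by ring⟩
  obtain ⟨N, hN'⟩ : ∃ N, b = N - a * s := ⟨a * s + b, by ring⟩
  have e1 : s ^ 2 + u * s + C = q := by rw [hq']; ring
  have e2 : a * s + b = N := by rw [hN']; ring
  rw [e1] at hq ⊢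
  rw [e2] at hN ⊢
  have h1 : C * a - b * (s + u) = a * q - N * (s + u) := by rw [hN', hq']; ring
  rw [h1]
  field_simp
  rw [hN', hq']
  ring

/-- the derivative of `s'` with respect to `s` -/
theorem dss (a b u C s : ℝ) (hN : a * s + b ≠ 0) :
    HasDerivAt (fun x : ℝ => (C * a - b * (x + u)) / (a * x + b))
      ((-b * (a * s + b) - (C * a - b * (s + u)) * a) / (a * s + b) ^ 2) s := by
  have h1 : HasDerivAt (fun x : ℝ => C * a - b * (x + u)) (-b) s := by
    have h := (((hasDerivAt_id s).add_const u).const_mul b).const_sub (C * a)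
    simpa using h
  have h2 : HasDerivAt (fun x : ℝ => a * x + b) a s := by
    have h := ((hasDerivAt_id s).const_mul a).add_const b
    simpa using h
  exact h1.div h2 hN

/-- the derivative of `u'` with respect to `s` -/
theorem dus (a b u C p3 s : ℝ) (hC : C ≠ 0) (hq : s ^ 2 + u * s + C ≠ 0) :
    HasDerivAt (fun x : ℝ => (a * x + b) / (C * (x ^ 2 + u * x + C)) + p3 - u)
      ((a * (C * (s ^ 2 + u * s + C)) - (a * s + b) * (C * (2 * s + u))) /
        (C * (s ^ 2 + u * s + C)) ^ 2) s := by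
  have h2 : HasDerivAt (fun x : ℝ => a * x + b) a s := by
    have h := ((hasDerivAt_id s).const_mul a).add_const b
    simpa using h
  have h3 : HasDerivAt (fun x : ℝ => C * (x ^ 2 + u * x + C)) (C * (2 * s + u)) s := by
    have h := (((hasDerivAt_pow 2 s).add ((hasDerivAt_id s).const_mul u)).add_const C).const_mul C
    simpa using h
  exact ((h2.div h3 (mul_ne_zero hC hq)).add_const p3).sub_const u

/-- the derivatives of the coefficients with respect to `u` -/
theorem dA1 (p : V4) (C u : ℝ) : HasDerivAt (fun x : ℝ => A1 p x C) (C * (2 * u - p 3)) u := by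
  have h := ((((hasDerivAt_pow 2 u).sub ((hasDerivAt_id u).const_mul (p 3))).add_const
    (p 2)).sub_const C).const_mul C |>.sub_const (p 0)
  simpa [A1] using h

theorem dA0 (p : V4) (C u : ℝ) : HasDerivAt (fun x : ℝ => A0 p x C) (C * C - p 0) u := by
  have h := (((((hasDerivAt_id u).sub_const (p 3)).mul_const C).add_const (p 1)).const_mul C).sub
    ((hasDerivAt_id u).const_mul (p 0))
  have h2 : HasDerivAt (fun x : ℝ => A0 p x C) (C * (1 * C) - p 0 * 1) u := h
  rw [one_mul, mul_one] at h2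
  exact h2

/-- the derivative of `dR` with respect to `u` -/
theorem ddR (p : V4) (s C u : ℝ) : HasDerivAt (fun x : ℝ => dR p s x C)
    (C * (2 * u - p 3) * s + (C * C - p 0)) u :=
  ((dA1 p C u).mul_const s).add (dA0 p C u)

/-- the derivative of `s'` with respect to `u` -/
theorem dsu (p : V4) (s C u : ℝ) (hN : dR p s u C ≠ 0) :
    HasDerivAt (fun x : ℝ => sR p s x C)
      (((C * (C * (2 * u - p 3)) - ((C * C - p 0) * (s + u) + A0 p u C)) * dR p s u C -
        (C * A1 p u C - A0 p u C * (s + u)) * (C * (2 * u - p 3) * s + (C * C - p 0))) /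
          dR p s u C ^ 2) u := by
  have h1 : HasDerivAt (fun x : ℝ => s + x) 1 u := by
    simpa using (hasDerivAt_id u).const_add s
  have h2 := ((dA1 p C u).const_mul C).sub ((dA0 p C u).mul h1)
  rw [mul_one] at h2
  exact h2.div (ddR p s C u) hN

/-- the derivative of `u'` with respect to `u` -/
theorem duu (p : V4) (s C u : ℝ) (hC : C ≠ 0) (hq : s ^ 2 + u * s + C ≠ 0) :
    HasDerivAt (fun x : ℝ => uR p s x C)
      (((C * (2 * u - p 3) * s + (C * C - p 0)) * (C * (s ^ 2 + u * s + C)) -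
        dR p s u C * (C * s)) / (C * (s ^ 2 + u * s + C)) ^ 2 - 1) u := by
  have h3 : HasDerivAt (fun x : ℝ => C * (s ^ 2 + x * s + C)) (C * s) u := by
    have h := ((((hasDerivAt_id u).mul_const s).const_add (s ^ 2)).add_const C).const_mul C
    simpa using h
  have h4 := (((ddR p s C u).div h3 (mul_ne_zero hC hq)).add_const (p 3)).sub (hasDerivAt_id u)
  exact h4

/-- the partial derivative as the derivative of a function of one variable -/
theorem pd_line {F : E6 → ℝ} {z : E6} (hF : DifferentiableAt ℝ F z) (i : Fin 6) {c : ℝ}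
    (h : HasDerivAt (fun x : ℝ => F (z + x • Pi.single i (1 : ℝ))) c 0) : pd F i z = c := by
  have h1 := hF.lineDeriv_eq_fderiv (v := Pi.single i (1 : ℝ))
  unfold pd
  rw [← h1]
  unfold lineDeriv
  exact h.deriv

/-- the product with `EE` -/
theorem mulEE (J : M6) (i j : Fin 6) : (J * EE * Jᵀ) i j = J i 3 * J j 4 - J i 4 * J j 3 := by
  simp only [Matrix.mul_apply, Matrix.transpose_apply, EE, Matrix.of_apply, Fin.sum_univ_six]
  simp
  ring

end RJAux

open RJAux in
theorem tRJ (hRA : S_RA) (hDt : S_Dt) (hSm : S_Sm) : S_RJ := by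
  intro t ht z hz
  have hdiff : ∀ i, DifferentiableAt ℝ (fun y => Rm t y i) z := by
    intro i
    obtain ⟨-, -, -, -, -, -, -, -, -, -, h, -⟩ := hSm t t t ht ht ht
    exact (h i z hz).differentiableAt
  obtain ⟨hD, hC, hq, hd, -, -⟩ := hz
  have hq' : (z 3) ^ 2 + z 4 * z 3 + z 5 ≠ 0 := hq
  have hd' : A1 (pc t z) (z 4) (z 5) * z 3 + A0 (pc t z) (z 4) (z 5) ≠ 0 := hd
  -- the lines
  have hl3 : ∀ x : ℝ, Rm t (z + x • Pi.single 3 (1 : ℝ)) = ![z 0, z 1, z 2,
      sR (pc t z) (z 3 + x) (z 4) (z 5), uR (pc t z) (z 3 + x) (z 4) (z 5),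
      cR (pc t z) (z 5)] := by
    intro x
    have e : pc t (z + x • Pi.single 3 (1 : ℝ)) = pc t z := by
      apply pc_eq ht <;> simp
    unfold Rm
    rw [e]
    simp
  have hl4 : ∀ x : ℝ, Rm t (z + x • Pi.single 4 (1 : ℝ)) = ![z 0, z 1, z 2,
      sR (pc t z) (z 3) (z 4 + x) (z 5), uR (pc t z) (z 3) (z 4 + x) (z 5),
      cR (pc t z) (z 5)] := by
    intro x
    have e : pc t (z + x • Pi.single 4 (1 : ℝ)) = pc t z := by
      apply pc_eq ht <;> simp
    unfold Rm
    rw [e]
    simp
  set p := pc t z with hp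
  set s := z 3 with hs
  set u := z 4 with hu
  set C := z 5 with hCdef
  set a := A1 p u C with ha
  set b := A0 p u C with hb
  -- the four derivatives
  have k33 : Jm (Rm t) z 3 3 = (-b * (a * s + b) - (C * a - b * (s + u)) * a) / (a * s + b) ^ 2 := by
    apply pd_line (hdiff 3)
    have h1 : (fun x : ℝ => Rm t (z + x • Pi.single 3 (1 : ℝ)) 3) =
        fun x : ℝ => (C * a - b * (s + x + u)) / (a * (s + x) + b) := by
      funext x
      rw [hl3]
      rfl
    rw [h1]
    have h2 := dss a b u C (s + 0) (by rw [add_zero]; exact hd')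
    have h3 := HasDerivAt.comp_const_add s 0 h2
    rw [add_zero] at h3
    exact h3
  have k43 : Jm (Rm t) z 4 3 = (a * (C * (s ^ 2 + u * s + C)) - (a * s + b) * (C * (2 * s + u))) /
      (C * (s ^ 2 + u * s + C)) ^ 2 := by
    apply pd_line (hdiff 4)
    have h1 : (fun x : ℝ => Rm t (z + x • Pi.single 3 (1 : ℝ)) 4) =
        fun x : ℝ => (a * (s + x) + b) / (C * ((s + x) ^ 2 + u * (s + x) + C)) + p 3 - u := by
      funext x
      rw [hl3]
      rfl
    rw [h1]
    have h2 := dus a b u C (p 3) (s + 0) hC (by rw [add_zero]; exact hq')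
    have h3 := HasDerivAt.comp_const_add s 0 h2
    rw [add_zero] at h3
    exact h3
  have k34 : Jm (Rm t) z 3 4 =
      ((C * (C * (2 * u - p 3)) - ((C * C - p 0) * (s + u) + b)) * (a * s + b) -
        (C * a - b * (s + u)) * (C * (2 * u - p 3) * s + (C * C - p 0))) / (a * s + b) ^ 2 := by
    apply pd_line (hdiff 3)
    have h1 : (fun x : ℝ => Rm t (z + x • Pi.single 4 (1 : ℝ)) 3) =
        fun x : ℝ => sR p s (u + x) C := by
      funext x
      rw [hl4]
      rfl
    rw [h1]
    have h2 := dsu p s C (u + 0) (by rw [add_zero]; exact hd)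
    have h3 := HasDerivAt.comp_const_add u 0 h2
    rw [add_zero] at h3
    exact h3
  have k44 : Jm (Rm t) z 4 4 =
      ((C * (2 * u - p 3) * s + (C * C - p 0)) * (C * (s ^ 2 + u * s + C)) -
        (a * s + b) * (C * s)) / (C * (s ^ 2 + u * s + C)) ^ 2 - 1 := by
    apply pd_line (hdiff 4)
    have h1 : (fun x : ℝ => Rm t (z + x • Pi.single 4 (1 : ℝ)) 4) =
        fun x : ℝ => uR p s (u + x) C := by
      funext x
      rw [hl4]
      rfl
    rw [h1]
    have h2 := duu p s C (u + 0) hC (by rw [add_zero]; exact hq')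
    have h3 := HasDerivAt.comp_const_add u 0 h2
    rw [add_zero] at h3
    exact h3
  -- the other rows
  have hz3 : ∀ i : Fin 6, i ≠ 3 → i ≠ 4 → Jm (Rm t) z i 3 = 0 := by
    intro i h3 h4
    apply pd_line (hdiff i)
    have h1 : (fun x : ℝ => Rm t (z + x • Pi.single 3 (1 : ℝ)) i) = fun _ : ℝ => Rm t z i := by
      funext x
      rw [hl3]
      fin_cases i
      · rfl
      · rfl
      · rfl
      · exact absurd rfl h3
      · exact absurd rfl h4
      · rfl
    rw [h1]
    exact hasDerivAt_const _ _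
  have hz4 : ∀ i : Fin 6, i ≠ 3 → i ≠ 4 → Jm (Rm t) z i 4 = 0 := by
    intro i h3 h4
    apply pd_line (hdiff i)
    have h1 : (fun x : ℝ => Rm t (z + x • Pi.single 4 (1 : ℝ)) i) = fun _ : ℝ => Rm t z i := by
      funext x
      rw [hl4]
      fin_cases i
      · rfl
      · rfl
      · rfl
      · exact absurd rfl h3
      · exact absurd rfl h4
      · rfl
    rw [h1]
    exact hasDerivAt_const _ _
  have hdet : Jm (Rm t) z 3 3 * Jm (Rm t) z 4 4 - Jm (Rm t) z 3 4 * Jm (Rm t) z 4 3 =
      qv (Rm t z 4) (Rm t z 5) (Rm t z 3) / qv u C s := by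
    rw [k33, k43, k34, k44]
    exact alg a b s u C (p 3) (p 0) hC hq' hd'
  have hdet' : Jm (Rm t) z 4 3 * Jm (Rm t) z 3 4 - Jm (Rm t) z 4 4 * Jm (Rm t) z 3 3 =
      -(qv (Rm t z 4) (Rm t z 5) (Rm t z 3) / qv u C s) := by
    rw [← hdet]
    ring
  set Q := qv (Rm t z 4) (Rm t z 5) (Rm t z 3) / qv u C s with hQ
  ext i j
  rw [mulEE, Matrix.smul_apply, smul_eq_mul]
  by_cases hi3 : i = 3
  · by_cases hj3 : j = 3
    · subst hi3 hj3
      have : EE 3 3 = 0 := by simp [EE]
      rw [this]
      ring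
    · by_cases hj4 : j = 4
      · subst hi3 hj4
        have : EE 3 4 = 1 := by simp [EE]
        rw [this, hdet, mul_one]
      · subst hi3
        have : EE 3 j = 0 := by simp [EE, hj4]
        rw [this, hz3 j hj3 hj4, hz4 j hj3 hj4]
        ring
  · by_cases hi4 : i = 4
    · by_cases hj3 : j = 3
      · subst hi4 hj3
        have : EE 4 3 = -1 := by simp [EE]
        rw [this, hdet']
        ring
      · by_cases hj4 : j = 4
        · subst hi4 hj4
          have : EE 4 4 = 0 := by simp [EE]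
          rw [this]
          ring
        · subst hi4
          have : EE 4 j = 0 := by simp [EE, hj3]
          rw [this, hz3 j hj3 hj4, hz4 j hj3 hj4]
          ring
    · have : EE i j = 0 := by simp [EE, hi3, hi4]
      rw [this, hz3 i hi3 hi4, hz4 i hi3 hi4]
      ring

end Pool.Agent.MP62a5ad.PN
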