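import Pool.Agent.Lib.MP_62a5ad_mp.PN.Spec

/-!
# MP_62a5ad_mp: analyticity of all functions
-/

set_option autoImplicit false

namespace Pool.Agent.MP62a5ad.PN

open Matrix
open scoped ContDiff

namespace SmAux

theorem coord (U : Set E6) (i : Fin 6) : AnalyticOnNhd ℝ (fun z : E6 => z i) U :=
  (ContinuousLinearMap.proj (R := ℝ) (φ := fun _ : Fin 6 => ℝ) i).analyticOnNhd U

theorem opn {U : Set E6} {f : E6 → ℝ} (hU : IsOpen U) (hf : AnalyticOnNhd ℝ f U) :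
    IsOpen {z | z ∈ U ∧ f z ≠ 0} :=
  hf.continuousOn.isOpen_inter_preimage hU (isOpen_compl_singleton (x := (0 : ℝ)))

theorem forall6 {P : Fin 6 → Prop} (h0 : P 0) (h1 : P 1) (h2 : P 2) (h3 : P 3) (h4 : P 4)
    (h5 : P 5) : ∀ i, P i := by
  intro i
  fin_cases i <;> assumption

section Comb

variable {U : Set E6} {f g : E6 → ℝ}

theorem add (hf : AnalyticOnNhd ℝ f U) (hg : AnalyticOnNhd ℝ g U) :
    AnalyticOnNhd ℝ (fun z => f z + g z) U := hf.add hg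

theorem sub (hf : AnalyticOnNhd ℝ f U) (hg : AnalyticOnNhd ℝ g U) :
    AnalyticOnNhd ℝ (fun z => f z - g z) U := hf.sub hg

theorem mul (hf : AnalyticOnNhd ℝ f U) (hg : AnalyticOnNhd ℝ g U) :
    AnalyticOnNhd ℝ (fun z => f z * g z) U := hf.mul hg

theorem pow (hf : AnalyticOnNhd ℝ f U) (n : ℕ) : AnalyticOnNhd ℝ (fun z => f z ^ n) U :=
  hf.pow n

theorem div (hf : AnalyticOnNhd ℝ f U) (hg : AnalyticOnNhd ℝ g U) (h0 : ∀ z ∈ U, g z ≠ 0) :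
    AnalyticOnNhd ℝ (fun z => f z / g z) U := hf.div hg h0

end Comb

theorem e0_an (U : Set E6) : AV U fun _ => e0 := fun _ => analyticOnNhd_const

theorem one_an (U : Set E6) : AM U fun _ => (1 : M4) := fun _ _ => analyticOnNhd_const

theorem coord_an (U : Set E6) (i : Fin 6) : AnalyticOnNhd ℝ (fun z : E6 => z i) U := coord U i

theorem mono_an (U : Set E6) : AM U mono := by
  intro i j
  fin_cases i <;> fin_cases j <;> simp [mono] <;>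
    first
    | exact analyticOnNhd_const
    | exact coord_an U _
    | exact (coord_an U _).neg

theorem am_mono {U V : Set E6} (h : U ⊆ V) {A : E6 → M4} (hA : AM V A) : AM U A :=
  fun i j => (hA i j).mono h

theorem av_mono {U V : Set E6} (h : U ⊆ V) {v : E6 → V4} (hv : AV V v) : AV U v :=
  fun i => (hv i).mono h

theorem am_sub {U : Set E6} {A B : E6 → M4} (hA : AM U A) (hB : AM U B) :
    AM U fun z => A z - B z := fun i j => sub (hA i j) (hB i j)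

theorem open2 : IsOpen {z : E6 | z 2 ≠ 0} := by
  have h := opn (U := Set.univ) (f := fun z : E6 => z 2) isOpen_univ (coord _ 2)
  simpa using h

theorem kt_an (hMA : S_MA) {t : E6 → M4} (ht : MFam t) : AM {z : E6 | z 2 ≠ 0} (Kt t) := by
  intro i j
  have h1 := (hMA E6 {z : E6 | z 2 ≠ 0}).pow (j : ℕ) t ht.an
  exact (hMA E6 {z : E6 | z 2 ≠ 0}).mulVec _ _ h1 (e0_an _) i

theorem dd_open (hMA : S_MA) {t : E6 → M4} (ht : MFam t) : IsOpen (DD t) :=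
  opn open2 ((hMA E6 _).det _ (kt_an hMA ht))

theorem dd_sub (t : E6 → M4) : DD t ⊆ {z : E6 | z 2 ≠ 0} := fun _ hz => hz.1

theorem kinv_an (hMA : S_MA) {t : E6 → M4} (ht : MFam t) {U : Set E6} (hU : U ⊆ DD t) :
    AM U fun z => (Kt t z)⁻¹ :=
  (hMA E6 U).inv _ (am_mono (hU.trans (dd_sub t)) (kt_an hMA ht)) fun _ hz => (hU hz).2

theorem t_an {t : E6 → M4} {s : E6 → M4} (hs : MFam s) {U : Set E6} (hU : U ⊆ DD t) : AM U s :=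
  am_mono (hU.trans (dd_sub t)) hs.an

theorem pc_an (hMA : S_MA) {t : E6 → M4} (ht : MFam t) {U : Set E6} (hU : U ⊆ DD t) :
    AV U (pc t) := by
  have h1 := (hMA E6 U).mulVec _ _ ((hMA E6 U).pow 4 t (t_an (t := t) ht hU)) (e0_an U)
  have h2 := (hMA E6 U).mulVec _ _ (kinv_an hMA ht hU) h1
  exact fun i => (h2 i).neg

theorem ell_an (hMA : S_MA) {t : E6 → M4} (ht : MFam t) {U : Set E6} (hU : U ⊆ DD t)
    {g : E6 → M4} (hg : AM U g) : AnalyticOnNhd ℝ (fun z => ell t z (g z)) U := by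
  have h1 := (hMA E6 U).mulVec _ _ hg (e0_an U)
  exact (hMA E6 U).mulVec _ _ (kinv_an hMA ht hU) h1 3

theorem qm_an (hMA : S_MA) {t : E6 → M4} (ht : MFam t) {U : Set E6} (hU : U ⊆ DD t) :
    AM U (Qm t) := by
  have ht' := t_an (t := t) ht hU
  exact (hMA E6 U).add _ _ ((hMA E6 U).add _ _ ((hMA E6 U).pow 2 t ht')
    ((hMA E6 U).smul _ _ (coord U 4) ht')) ((hMA E6 U).smul _ _ (coord U 5) (one_an U))

theorem mq_an (hMA : S_MA) {t θ : E6 → M4} (ht : MFam t) (hθ : MFam θ) {U : Set E6}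
    (hU : U ⊆ DD t) (hQ : ∀ z ∈ U, (Qm t z).det ≠ 0) (j : ℕ) :
    AnalyticOnNhd ℝ (fun z => mq t θ z j) U := by
  have ht' := t_an (t := t) ht hU
  have hθ' := t_an (t := t) hθ hU
  have h1 := (hMA E6 U).inv _ ht' fun z hz => ht.ndet z (hU hz).1
  have h2 := (hMA E6 U).inv _ (qm_an hMA ht hU) hQ
  exact ell_an hMA ht hU ((hMA E6 U).mul _ _ ((hMA E6 U).pow j t ht')
    ((hMA E6 U).mul _ _ ((hMA E6 U).mul _ _ h1 hθ') h2))

theorem hk_an {U : Set E6} {n : E6 → ℕ → ℝ} (hn : ∀ j, AnalyticOnNhd ℝ (fun z => n z j) U)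
    (i : ℕ) : AnalyticOnNhd ℝ (fun z => hk (n z) i) U :=
  sub (mul (hn i) (hn (i + 2))) (pow (hn (i + 1)) 2)

theorem hs_an {U : Set E6} {n : E6 → ℕ → ℝ} (hn : ∀ j, AnalyticOnNhd ℝ (fun z => n z j) U)
    {s : E6 → ℝ} (hs' : AnalyticOnNhd ℝ s U) (i : ℕ) :
    AnalyticOnNhd ℝ (fun z => hs (n z) (s z) i) U :=
  sub (mul (sub (hn (i + 1)) (mul hs' (hn i))) (sub (hn (i + 3)) (mul hs' (hn (i + 2)))))
    (pow (sub (hn (i + 2)) (mul hs' (hn (i + 1)))) 2)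

theorem qv_an {U : Set E6} {u C x : E6 → ℝ} (hu : AnalyticOnNhd ℝ u U)
    (hC : AnalyticOnNhd ℝ C U) (hx : AnalyticOnNhd ℝ x U) :
    AnalyticOnNhd ℝ (fun z => qv (u z) (C z) (x z)) U :=
  add (add (pow hx 2) (mul hu hx)) hC

theorem pv_an {U : Set E6} {p : E6 → V4} (hp : AV U p) {x : E6 → ℝ}
    (hx : AnalyticOnNhd ℝ x U) : AnalyticOnNhd ℝ (fun z => pv (p z) (x z)) U :=
  add (add (add (add (pow hx 4) (mul (hp 3) (pow hx 3))) (mul (hp 2) (pow hx 2)))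
    (mul (hp 1) hx)) (hp 0)

section R

variable {U : Set E6} {p : E6 → V4} (hp : AV U p)

include hp

theorem A1_an : AnalyticOnNhd ℝ (fun z : E6 => A1 (p z) (z 4) (z 5)) U :=
  sub (mul (coord U 5) (sub (add (sub (pow (coord U 4) 2) (mul (hp 3) (coord U 4))) (hp 2))
    (coord U 5))) (hp 0)

theorem A0_an : AnalyticOnNhd ℝ (fun z : E6 => A0 (p z) (z 4) (z 5)) U :=
  sub (mul (coord U 5) (add (mul (sub (coord U 4) (hp 3)) (coord U 5)) (hp 1)))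
    (mul (hp 0) (coord U 4))

theorem dR_an : AnalyticOnNhd ℝ (fun z : E6 => dR (p z) (z 3) (z 4) (z 5)) U :=
  add (mul (A1_an hp) (coord U 3)) (A0_an hp)

theorem sR_an (h0 : ∀ z ∈ U, dR (p z) (z 3) (z 4) (z 5) ≠ 0) :
    AnalyticOnNhd ℝ (fun z : E6 => sR (p z) (z 3) (z 4) (z 5)) U :=
  div (sub (mul (coord U 5) (A1_an hp)) (mul (A0_an hp) (add (coord U 3) (coord U 4))))
    (dR_an hp) h0

theorem uR_an (h5 : ∀ z ∈ U, z 5 ≠ 0) (hq : ∀ z ∈ U, qv (z 4) (z 5) (z 3) ≠ 0) :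
    AnalyticOnNhd ℝ (fun z : E6 => uR (p z) (z 3) (z 4) (z 5)) U :=
  sub (add (div (dR_an hp) (mul (coord U 5) (qv_an (coord U 4) (coord U 5) (coord U 3)))
    fun z hz => mul_ne_zero (h5 z hz) (hq z hz)) (hp 3)) (coord U 4)

theorem cR_an (h5 : ∀ z ∈ U, z 5 ≠ 0) : AnalyticOnNhd ℝ (fun z : E6 => cR (p z) (z 5)) U :=
  div (hp 0) (coord U 5) h5

end R

theorem xv_an (hMA : S_MA) {t Y : E6 → M4} (ht : MFam t) (hY : MFam Y) {U : Set E6}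
    (hU : U ⊆ DD t) (h0 : ∀ z ∈ U, (t z - z 3 • (1 : M4)).det ≠ 0) : AV U (xv t Y) := by
  have h1 := (hMA E6 U).inv _ (t_an (t := t) hY hU) fun z hz => hY.ndet z (hU hz).1
  have h2 : AM U fun z => t z - z 3 • (1 : M4) :=
    am_sub (t_an (t := t) ht hU) ((hMA E6 U).smul _ _ (coord U 3) (one_an U))
  have h3 := (hMA E6 U).mul _ _ (qm_an hMA ht hU) ((hMA E6 U).inv _ h2 h0)
  exact (hMA E6 U).mulVec _ _ ((hMA E6 U).mul _ _ h1 h3) (e0_an U)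

theorem W0_an (hMA : S_MA) {t Y : E6 → M4} (hY : MFam Y) {U : Set E6} (hU : U ⊆ DD t) :
    AM U (W0 Y) := by
  have hm := mono_an U
  exact (hMA E6 U).mul _ _ (t_an (t := t) hY hU) ((hMA E6 U).add _ _ ((hMA E6 U).add _ _
    ((hMA E6 U).add _ _ (one_an U) ((hMA E6 U).smul _ _ (coord U 3) hm))
    ((hMA E6 U).smul _ _ (coord U 4) ((hMA E6 U).pow 2 _ hm)))
    ((hMA E6 U).smul _ _ (coord U 5) ((hMA E6 U).pow 3 _ hm)))

theorem sP_an (hMA : S_MA) {t Y : E6 → M4} (ht : MFam t) (hY : MFam Y) {U : Set E6}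
    (hU : U ⊆ DD t) (h0 : ∀ z ∈ U, ell t z (W0 Y z) ≠ 0) : AnalyticOnNhd ℝ (sP t Y) U := by
  have hW := W0_an hMA hY hU
  exact div (ell_an hMA ht hU ((hMA E6 U).mul _ _ (t_an (t := t) ht hU) hW))
    (ell_an hMA ht hU hW) h0

theorem ts_an (hMA : S_MA) {t Y : E6 → M4} (ht : MFam t) (hY : MFam Y) {U : Set E6}
    (hU : U ⊆ DD t) (h0 : ∀ z ∈ U, ell t z (W0 Y z) ≠ 0) :
    AM U fun y => t y - sP t Y y • (1 : M4) :=
  am_sub (t_an (t := t) ht hU) ((hMA E6 U).smul _ _ (sP_an hMA ht hY hU h0) (one_an U))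

theorem cf_an (hMA : S_MA) {t Y : E6 → M4} (ht : MFam t) (hY : MFam Y) {U : Set E6}
    (hU : U ⊆ DD t) (h0 : ∀ z ∈ U, ell t z (W0 Y z) ≠ 0) : AV U (cf t Y) := by
  have h1 := (hMA E6 U).mul _ _ (ts_an hMA ht hY hU h0) (W0_an hMA hY hU)
  exact (hMA E6 U).mulVec _ _ (kinv_an hMA ht hU) ((hMA E6 U).mulVec _ _ h1 (e0_an U))

/-- The set `QD`. -/
def QD (t : E6 → M4) : Set E6 := {z | z ∈ DD t ∧ (Qm t z).det ≠ 0}

theorem QD_sub (t : E6 → M4) : QD t ⊆ DD t := fun _ hz => hz.1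

theorem QD_open (hMA : S_MA) {t : E6 → M4} (ht : MFam t) : IsOpen (QD t) :=
  opn (dd_open hMA ht) ((hMA E6 _).det _ (qm_an hMA ht subset_rfl))

theorem UM_part (hMA : S_MA) {t θ : E6 → M4} (ht : MFam t) (hθ : MFam θ) :
    IsOpen (UM t θ) ∧ ∀ i, AnalyticOnNhd ℝ (fun z => mu t θ z i) (UM t θ) := by
  have hm := mq_an hMA ht hθ (QD_sub t) fun z hz => hz.2
  have h1 := opn (QD_open hMA ht) (hk_an (n := mq t θ) hm 1)
  have h2 : AnalyticOnNhd ℝ (fun z => mq t θ z 2 - z 3 * mq t θ z 1)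
      {z | z ∈ QD t ∧ hk (mq t θ z) 1 ≠ 0} :=
    (sub (hm 2) (mul (coord _ 3) (hm 1))).mono fun _ hz => hz.1
  have h3 := opn h1 h2
  have hset : UM t θ = {z | z ∈ {z | z ∈ QD t ∧ hk (mq t θ z) 1 ≠ 0} ∧
      mq t θ z 2 - z 3 * mq t θ z 1 ≠ 0} := by
    ext z
    exact ⟨fun h => ⟨⟨⟨h.1, h.2.1⟩, h.2.2.1⟩, h.2.2.2⟩,
      fun h => ⟨h.1.1.1, h.1.1.2, h.1.2, h.2⟩⟩
  refine ⟨by rw [hset]; exact h3, ?_⟩
  have hsub : UM t θ ⊆ QD t := fun z h => ⟨h.1, h.2.1⟩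
  have hm' : ∀ j, AnalyticOnNhd ℝ (fun z => mq t θ z j) (UM t θ) := fun j => (hm j).mono hsub
  have hs3 : AnalyticOnNhd ℝ (fun z => sM (mq t θ z) (z 3)) (UM t θ) :=
    div (sub (hm' 3) (mul (coord _ 3) (hm' 2))) (sub (hm' 2) (mul (coord _ 3) (hm' 1)))
      fun z hz => hz.2.2.2
  exact forall6 (P := fun i => AnalyticOnNhd ℝ (fun z => mu t θ z i) (UM t θ))
    (coord _ 0) (coord _ 1) (coord _ 2) hs3 (coord _ 4) (coord _ 5)

theorem UR_part (hMA : S_MA) {t : E6 → M4} (ht : MFam t) :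
    IsOpen (UR t) ∧ ∀ i, AnalyticOnNhd ℝ (fun z => Rm t z i) (UR t) := by
  have hp := pc_an hMA ht (U := DD t) subset_rfl
  have o1 := opn (dd_open hMA ht) (coord (DD t) 5)
  have o2 := opn o1 (qv_an (coord _ 4) (coord _ 5) (coord _ 3))
  have hp2 := av_mono (V := DD t) (U := {z | z ∈ {z | z ∈ DD t ∧ z 5 ≠ 0} ∧
    qv (z 4) (z 5) (z 3) ≠ 0}) (fun z hz => hz.1.1) hp
  have o3 := opn o2 (dR_an hp2)
  have hp3 := av_mono (U := {z | z ∈ {z | z ∈ {z | z ∈ DD t ∧ z 5 ≠ 0} ∧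
    qv (z 4) (z 5) (z 3) ≠ 0} ∧ dR (pc t z) (z 3) (z 4) (z 5) ≠ 0}) (fun z hz => hz.1) hp2
  have o4 := opn o3 (pv_an hp3 (coord _ 3))
  have hp4 := av_mono (U := {z | z ∈ {z | z ∈ {z | z ∈ {z | z ∈ DD t ∧ z 5 ≠ 0} ∧
    qv (z 4) (z 5) (z 3) ≠ 0} ∧ dR (pc t z) (z 3) (z 4) (z 5) ≠ 0} ∧ pv (pc t z) (z 3) ≠ 0})
    (fun z hz => hz.1) hp3
  have o5 := opn o4 (pv_an hp4 (sR_an hp4 fun z hz => hz.1.2))
  have hset : UR t = {z | z ∈ {z | z ∈ {z | z ∈ {z | z ∈ {z | z ∈ DD t ∧ z 5 ≠ 0} ∧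
      qv (z 4) (z 5) (z 3) ≠ 0} ∧ dR (pc t z) (z 3) (z 4) (z 5) ≠ 0} ∧ pv (pc t z) (z 3) ≠ 0} ∧
      pv (pc t z) (sR (pc t z) (z 3) (z 4) (z 5)) ≠ 0} := by
    ext z
    exact ⟨fun h => ⟨⟨⟨⟨⟨h.1, h.2.1⟩, h.2.2.1⟩, h.2.2.2.1⟩, h.2.2.2.2.1⟩, h.2.2.2.2.2⟩,
      fun h => ⟨h.1.1.1.1.1, h.1.1.1.1.2, h.1.1.1.2, h.1.1.2, h.1.2, h.2⟩⟩
  refine ⟨by rw [hset]; exact o5, ?_⟩
  have hp' := av_mono (V := DD t) (U := UR t) (fun z hz => hz.1) hp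
  exact forall6 (P := fun i => AnalyticOnNhd ℝ (fun z => Rm t z i) (UR t))
    (coord _ 0) (coord _ 1) (coord _ 2) (sR_an hp' fun z hz => hz.2.2.2.1)
    (uR_an hp' (fun z hz => hz.2.1) fun z hz => hz.2.2.1) (cR_an hp' fun z hz => hz.2.1)

theorem U1_part (hMA : S_MA) {t Y : E6 → M4} (ht : MFam t) (hY : MFam Y) :
    IsOpen (U1 t Y) ∧ ∀ i, AnalyticOnNhd ℝ (fun z => Psi t Y z i) (U1 t Y) := by
  have o1 := opn (dd_open hMA ht) (ell_an hMA ht subset_rfl (W0_an hMA hY subset_rfl))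
  have s1 : {y | y ∈ DD t ∧ ell t y (W0 Y y) ≠ 0} ⊆ DD t := fun y h => h.1
  have o2 := opn o1 (cf_an hMA ht hY s1 (fun y h => h.2) 2)
  have s2 : {y | y ∈ {y | y ∈ DD t ∧ ell t y (W0 Y y) ≠ 0} ∧ cf t Y y 2 ≠ 0} ⊆ DD t :=
    fun y h => h.1.1
  have o3 := opn o2 ((hMA E6 _).det _ (ts_an hMA ht hY s2 fun y h => h.1.2))
  have hset : U1 t Y = {y | y ∈ {y | y ∈ {y | y ∈ DD t ∧ ell t y (W0 Y y) ≠ 0} ∧
      cf t Y y 2 ≠ 0} ∧ (t y - sP t Y y • (1 : M4)).det ≠ 0} := by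
    ext z
    exact ⟨fun h => ⟨⟨⟨h.1, h.2.1⟩, h.2.2.1⟩, h.2.2.2⟩,
      fun h => ⟨h.1.1.1, h.1.1.2, h.1.2, h.2⟩⟩
  refine ⟨by rw [hset]; exact o3, ?_⟩
  have s3 : U1 t Y ⊆ DD t := fun y h => h.1
  have hc := cf_an hMA ht hY s3 fun y h => h.2.1
  exact forall6 (P := fun i => AnalyticOnNhd ℝ (fun z => Psi t Y z i) (U1 t Y))
    (coord _ 0) (coord _ 1) (coord _ 2) (sP_an hMA ht hY s3 fun y h => h.2.1)
    (div (hc 1) (hc 2) fun y h => h.2.2.1) (div (hc 0) (hc 2) fun y h => h.2.2.1)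

theorem U2_part (hMA : S_MA) {t Y : E6 → M4} (ht : MFam t) (hY : MFam Y) :
    IsOpen (U2 t Y) ∧ ∀ i, AnalyticOnNhd ℝ (fun z => Phi t Y z i) (U2 t Y) := by
  have h1 : AM (DD t) fun z => t z - z 3 • (1 : M4) :=
    am_sub (t_an (t := t) ht subset_rfl) ((hMA E6 _).smul _ _ (coord _ 3) (one_an _))
  have o1 := opn (dd_open hMA ht) ((hMA E6 _).det _ h1)
  have o2 := opn o1 (qv_an (coord _ 4) (coord _ 5) (coord _ 3))
  have s2 : {z | z ∈ {z | z ∈ DD t ∧ (t z - z 3 • (1 : M4)).det ≠ 0} ∧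
      qv (z 4) (z 5) (z 3) ≠ 0} ⊆ DD t := fun y h => h.1.1
  have o3 := opn o2 (xv_an hMA ht hY s2 (fun z hz => hz.1.2) 0)
  have hset : U2 t Y = {z | z ∈ {z | z ∈ {z | z ∈ DD t ∧ (t z - z 3 • (1 : M4)).det ≠ 0} ∧
      qv (z 4) (z 5) (z 3) ≠ 0} ∧ xv t Y z 0 ≠ 0} := by
    ext z
    exact ⟨fun h => ⟨⟨⟨h.1, h.2.1⟩, h.2.2.1⟩, h.2.2.2⟩,
      fun h => ⟨h.1.1.1, h.1.1.2, h.1.2, h.2⟩⟩
  refine ⟨by rw [hset]; exact o3, ?_⟩
  have s3 : U2 t Y ⊆ DD t := fun y h => h.1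
  have hx := xv_an hMA ht hY s3 fun z hz => hz.2.1
  have h0 : ∀ z ∈ U2 t Y, xv t Y z 0 ≠ 0 := fun z hz => hz.2.2.2
  exact forall6 (P := fun i => AnalyticOnNhd ℝ (fun z => Phi t Y z i) (U2 t Y))
    (coord _ 0) (coord _ 1) (coord _ 2) (div (hx 1) (hx 0) h0) (div (hx 2) (hx 0) h0)
    (div (hx 3) (hx 0) h0)

end SmAux

open SmAux in
theorem tSm (hMA : S_MA) (_hFam : S_Fam) : S_Sm := by
  intro t θ Y ht hθ hY
  have hQo : IsOpen {z | z ∈ DD t ∧ (Qm t z).det ≠ 0} := QD_open hMA ht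
  have hQs : {z | z ∈ DD t ∧ (Qm t z).det ≠ 0} ⊆ DD t := QD_sub t
  have hm : ∀ j, AnalyticOnNhd ℝ (fun z => mq t θ z j) {z | z ∈ DD t ∧ (Qm t z).det ≠ 0} :=
    mq_an hMA ht hθ hQs fun z hz => hz.2
  have h1 := hs_an (n := mq t θ) hm (coord _ 3) 1
  have h0 := hs_an (n := mq t θ) hm (coord _ 3) 0
  have hp := pc_an hMA ht (U := {z | z ∈ DD t ∧ (Qm t z).det ≠ 0}) hQs
  have hs : {z | (z ∈ DD t ∧ (Qm t z).det ≠ 0) ∧ hs (mq t θ z) (z 3) 1 ≠ 0} ⊆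
      {z | z ∈ DD t ∧ (Qm t z).det ≠ 0} := fun z hz => hz.1
  refine ⟨dd_open hMA ht, pc_an hMA ht subset_rfl, hQo, hm,
    mul ((hMA E6 _).det _ (qm_an hMA ht hQs)) h1, opn hQo h1,
    div ((mul (hp 0) h0).mono hs) (h1.mono hs) fun z hz => hz.2,
    (UM_part hMA ht hθ).1, (UM_part hMA ht hθ).2, (UR_part hMA ht).1, (UR_part hMA ht).2,
    (U1_part hMA ht hY).1, (U1_part hMA ht hY).2, (U2_part hMA ht hY).1, (U2_part hMA ht hY).2⟩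

end Pool.Agent.MP62a5ad.PN
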