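import Pool.Agent.Lib.MP_62a5ad_mp.PN.Spec

/-!
# MP_62a5ad_mp, PN, module TG: the composite map preserves the bivector (helper78)
-/

set_option autoImplicit false

namespace Pool.Agent.MP62a5ad.PN

open Matrix
open scoped ContDiff

namespace TGAux

theorem comp {J J' : M6} {a a' : ℝ} (h : J * EE * Jᵀ = a • EE) (h' : J' * EE * J'ᵀ = a' • EE) :
    (J' * J) * EE * (J' * J)ᵀ = (a' * a) • EE := by
  rw [Matrix.transpose_mul, show J' * J * EE * (Jᵀ * J'ᵀ) = J' * (J * EE * Jᵀ) * J'ᵀ by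
    simp only [Matrix.mul_assoc], h, Matrix.mul_smul, Matrix.smul_mul, h', smul_smul, mul_comm]

theorem mq_congr (t θ θ' : E6 → M4) (z : E6) (h : θ z = θ' z) : mq t θ z = mq t θ' z := by
  funext j
  unfold mq
  rw [h]

theorem GG_congr (t θ θ' : E6 → M4) (z : E6) (h : θ z = θ' z) : GG t θ z = GG t θ' z := by
  unfold GG
  rw [mq_congr t θ θ' z h]

theorem C1_congr (t θ θ' : E6 → M4) (z : E6) (h : θ z = θ' z) : C1 t θ z = C1 t θ' z := by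
  unfold C1
  rw [mq_congr t θ θ' z h]

end TGAux

open TGAux in
theorem tTG (hJC : S_JC) (hFam : S_Fam) (hDt : S_Dt) (hSm : S_Sm) (hRI : S_RI) (hRJ : S_RJ)
    (hMu : S_Mu) (hMJ : S_MJ) (hGR : S_GR) : S_TG := by
  intro t Y ht hY z hz hs0 hs1
  obtain ⟨-, -, -, fam4, fam5⟩ := hFam
  have hρ := fam4 Y hY
  obtain ⟨ρ, eρ⟩ : ∃ ρ, ρ = rho Y := ⟨_, rfl⟩
  obtain ⟨ρ', eρ'⟩ : ∃ ρ', ρ' = dual t ρ := ⟨_, rfl⟩
  rw [← eρ] at hρ
  obtain ⟨hρ', hdd⟩ := fam5 t ρ ht hρ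
  rw [← eρ'] at hρ' hdd
  obtain ⟨u1, u2, u3, u4⟩ := hz
  rw [← eρ] at u1 u2 u3 u4
  rw [← eρ'] at u3 u4
  rw [← eρ] at hs0 hs1
  have eTH : TH t Y = Rm t ∘ (mu t ρ' ∘ (Rm t ∘ mu t ρ)) := by
    funext x
    rw [eρ', eρ]
    rfl
  obtain ⟨z1, e1⟩ : ∃ z1, z1 = mu t ρ z := ⟨_, rfl⟩
  obtain ⟨z2, e2⟩ : ∃ z2, z2 = Rm t z1 := ⟨_, rfl⟩
  obtain ⟨z3, e3⟩ : ∃ z3, z3 = mu t ρ' z2 := ⟨_, rfl⟩
  obtain ⟨z4, e4⟩ : ∃ z4, z4 = Rm t z3 := ⟨_, rfl⟩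
  have eTz : TH t Y z = z4 := by
    rw [eTH, e4, e3, e2, e1]
    rfl
  rw [← e1] at u2 u3 u4
  rw [← e2] at u3 u4
  rw [← e3] at u4
  -- the coordinates
  have c10 : z1 0 = z 0 := by rw [e1]; rfl
  have c11 : z1 1 = z 1 := by rw [e1]; rfl
  have c12 : z1 2 = z 2 := by rw [e1]; rfl
  have c15 : z1 5 = z 5 := by rw [e1]; rfl
  have c20 : z2 0 = z1 0 := by rw [e2]; rfl
  have c21 : z2 1 = z1 1 := by rw [e2]; rfl
  have c22 : z2 2 = z1 2 := by rw [e2]; rfl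
  have c25 : z2 5 = pc t z1 0 / z1 5 := by rw [e2]; rfl
  have c30 : z3 0 = z2 0 := by rw [e3]; rfl
  have c31 : z3 1 = z2 1 := by rw [e3]; rfl
  have c32 : z3 2 = z2 2 := by rw [e3]; rfl
  have c35 : z3 5 = z2 5 := by rw [e3]; rfl
  have c40 : z4 0 = z3 0 := by rw [e4]; rfl
  have c41 : z4 1 = z3 1 := by rw [e4]; rfl
  have c42 : z4 2 = z3 2 := by rw [e4]; rfl
  have c45 : z4 5 = pc t z3 0 / z3 5 := by rw [e4]; rfl
  have z2ne : z 2 ≠ 0 := u1.1.1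
  -- differentiability
  have sm1 := hSm t ρ Y ht hρ hY
  have sm2 := hSm t ρ' Y ht hρ' hY
  obtain ⟨-, -, -, -, -, -, -, -, dmu1, -, dR, -⟩ := sm1
  obtain ⟨-, -, -, -, -, -, -, -, dmu2, -⟩ := sm2
  have D1 : DifferentiableAt ℝ (mu t ρ) z :=
    differentiableAt_pi.2 fun i => (dmu1 i z u1).differentiableAt
  have D2 : DifferentiableAt ℝ (Rm t) z1 :=
    differentiableAt_pi.2 fun i => (dR i z1 u2).differentiableAt
  have D3 : DifferentiableAt ℝ (mu t ρ') z2 :=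
    differentiableAt_pi.2 fun i => (dmu2 i z2 u3).differentiableAt
  have D4 : DifferentiableAt ℝ (Rm t) z3 :=
    differentiableAt_pi.2 fun i => (dR i z3 u4).differentiableAt
  rw [e1] at D2
  have D12 : DifferentiableAt ℝ (Rm t ∘ mu t ρ) z := D2.comp z D1
  have v12 : (Rm t ∘ mu t ρ) z = z2 := by
    rw [e2, e1]
    rfl
  rw [← v12] at D3
  have D123 : DifferentiableAt ℝ (mu t ρ' ∘ (Rm t ∘ mu t ρ)) z := D3.comp z D12
  have v123 : (mu t ρ' ∘ (Rm t ∘ mu t ρ)) z = z3 := by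
    rw [e3, e2, e1]
    rfl
  rw [← v123] at D4
  have J12 := hJC.1 (Rm t) (mu t ρ) z D2 D1
  have J123 := hJC.1 (mu t ρ') (Rm t ∘ mu t ρ) z D3 D12
  have J1234 := hJC.1 (Rm t) (mu t ρ' ∘ (Rm t ∘ mu t ρ)) z D4 D123
  rw [← e1] at J12
  rw [v12, J12] at J123
  rw [v123, J123, ← eTH] at J1234
  -- the bivectors
  obtain ⟨a1, ea1⟩ : ∃ a, a = hk (mq t ρ z) 1 / (mq t ρ z 2 - z 3 * mq t ρ z 1) ^ 2 := ⟨_, rfl⟩
  obtain ⟨a2, ea2⟩ : ∃ a, a = qv (z2 4) (z2 5) (z2 3) / qv (z1 4) (z1 5) (z1 3) := ⟨_, rfl⟩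
  obtain ⟨a3, ea3⟩ : ∃ a, a = hk (mq t ρ' z2) 1 / (mq t ρ' z2 2 - z2 3 * mq t ρ' z2 1) ^ 2 :=
    ⟨_, rfl⟩
  obtain ⟨a4, ea4⟩ : ∃ a, a = qv (z4 4) (z4 5) (z4 3) / qv (z3 4) (z3 5) (z3 3) := ⟨_, rfl⟩
  have b1 := hMJ t ρ ht hρ z u1
  have b2 := hRJ t ht z1 u2
  have b3 := hMJ t ρ' ht hρ' z2 u3
  have b4 := hRJ t ht z3 u4
  rw [← ea1] at b1
  rw [← e2, ← ea2] at b2
  rw [← ea3] at b3
  rw [← e4, ← ea4] at b4
  have bJ := comp (comp (comp b1 b2) b3) b4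
  rw [← J1234] at bJ
  -- the functions
  obtain ⟨-, -, m3, m4, m5, m6, m7⟩ := hMu t ρ ht hρ z u1
  rw [← e1] at m3 m4 m5 m6 m7
  rw [← ea1] at m5 m6
  have a1ne : a1 ≠ 0 := by
    rw [ea1]
    exact div_ne_zero u1.2.2.1 (pow_ne_zero 2 u1.2.2.2)
  have h10 : hs (mq t ρ z1) (z1 3) 0 ≠ 0 := by
    rw [m3, m5 0 (by norm_num)]
    exact mul_ne_zero (neg_ne_zero.2 a1ne) hs0
  have h11 : hs (mq t ρ z1) (z1 3) 1 ≠ 0 := by
    rw [m3, m5 1 (by norm_num)]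
    exact mul_ne_zero (neg_ne_zero.2 a1ne) hs1
  obtain ⟨g1, g2, g3, g4⟩ := hGR t ρ ht hρ z1 u2 h10 h11
  rw [← eρ', ← e2] at g1 g2 g3 g4
  rw [← ea2] at g4
  obtain ⟨-, -, n3, n4, n5, n6, n7⟩ := hMu t ρ' ht hρ' z2 u3
  rw [← e3] at n3 n4 n5 n6 n7
  rw [← ea3] at n5 n6
  have a3ne : a3 ≠ 0 := by
    rw [ea3]
    exact div_ne_zero u3.2.2.1 (pow_ne_zero 2 u3.2.2.2)
  have h30 : hs (mq t ρ' z3) (z3 3) 0 ≠ 0 := by
    rw [n3, n5 0 (by norm_num)]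
    exact mul_ne_zero (neg_ne_zero.2 a3ne) g1
  have h31 : hs (mq t ρ' z3) (z3 3) 1 ≠ 0 := by
    rw [n3, n5 1 (by norm_num)]
    exact mul_ne_zero (neg_ne_zero.2 a3ne) g2
  obtain ⟨k1, k2, k3, k4⟩ := hGR t ρ' ht hρ' z3 u4 h30 h31
  rw [← e4] at k1 k2 k3 k4
  rw [← ea4] at k4
  have hd4 : dual t ρ' z4 = ρ z4 := hdd z4 (by rw [c42, c32, c22, c12]; exact z2ne)
  rw [GG_congr t (dual t ρ') ρ z4 hd4] at k4
  rw [C1_congr t (dual t ρ') ρ z4 hd4] at k3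
  rw [n7 g2] at k3 k4
  rw [n6, g4, m6] at k4
  rw [m7 hs1] at g3 k4
  -- the constants
  have p1 : pc t z1 = pc t z := m4
  have p2 : pc t z2 = pc t z1 := by
    rw [e2]
    exact (hRI t ht z1 u2).2.2.2
  have p3 : pc t z3 = pc t z2 := n4
  have dz := hDt t ht z u1.1
  have dz3 := hDt t ht z3 u4.1
  have p0ne : pc t z 0 ≠ 0 := dz.2.1
  have r1 : ρ z1 = ρ z := hρ.dep z1 z c10 c11 c12
  have r3 : ρ z3 = ρ z := hρ.dep z3 z (by rw [c30, c20, c10]) (by rw [c31, c21, c11])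
    (by rw [c32, c22, c12])
  have t3 : t z3 = t z := ht.dep z3 z (by rw [c30, c20, c10]) (by rw [c31, c21, c11])
    (by rw [c32, c22, c12])
  have Dne : (ρ z).det ≠ 0 := hρ.ndet z z2ne
  have D' : (ρ' z3).det = pc t z 0 ^ 2 / (ρ z).det := by
    rw [eρ']
    unfold dual
    rw [Matrix.det_mul, Matrix.det_pow, r3, t3, dz.1, Matrix.det_nonsing_inv,
      Ring.inverse_eq_inv']
    rfl
  have Cne : z 5 ≠ 0 := by
    rw [← c15]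
    exact u2.2.1
  rw [p3, p2, p1] at k3 k4
  rw [p1] at g3
  rw [D', c35, c25, p1, c15, r1] at k4
  have C1ne : C1 t ρ z ≠ 0 := by
    intro h
    rw [h, mul_zero] at g3
    exact p0ne g3.symm
  have C1ne' : C1 t ρ' z2 ≠ 0 := by
    intro h
    rw [h, zero_mul] at g3
    exact p0ne g3.symm
  have hC1 : C1 t ρ' z2 = pc t z 0 / C1 t ρ z := by
    rw [eq_div_iff C1ne]
    exact g3
  rw [eTz, ← eρ]
  refine ⟨?_, ?_, ?_, ?_, ?_, ?_⟩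
  · rw [Matrix.mul_smul, Matrix.smul_mul, bJ, smul_smul]
    congr 1
    rw [k4, hC1]
    field_simp
  · have h5 : C1 t ρ z4 * C1 t ρ' z2 = C1 t ρ z * C1 t ρ' z2 := by
      rw [k3, mul_comm (C1 t ρ z), g3]
    exact mul_right_cancel₀ C1ne' h5
  · rw [c40, c30, c20, c10]
  · rw [c41, c31, c21, c11]
  · rw [c42, c32, c22, c12]
  · rw [c45, c35, c25, p3, p2, p1, c15]
    field_simp

end Pool.Agent.MP62a5ad.PN
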