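import Pool.Agent.Lib.MP_62a5ad_mp.PN.Spec

/-!
# MP_62a5ad_mp, PN: change of coordinates for Liouville integrability
-/

set_option autoImplicit false

namespace Pool.Agent.MP62a5ad.PN

open Matrix
open scoped ContDiff

namespace TrfAux

/-- The gradient. -/
noncomputable def gr (F : E6 → ℝ) (y : E6) : Fin 6 → ℝ := fun i => pd F i y

theorem br_eq (π : E6 → M6) (F G : E6 → ℝ) (y : E6) :
    br π F G y = gr F y ⬝ᵥ (π y *ᵥ gr G y) := by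
  simp only [br, gr, dotProduct, mulVec, Finset.mul_sum]
  exact Finset.sum_congr rfl fun i _ => Finset.sum_congr rfl fun j _ => by ring

/-- The transformed bivector. -/
noncomputable def tr (Φ Ψ : E6 → E6) (π : E6 → M6) (y : E6) : M6 :=
  Jm Φ (Ψ y) * π (Ψ y) * (Jm Φ (Ψ y))ᵀ

theorem pd_congr {F G : E6 → ℝ} {y : E6} (h : F =ᶠ[nhds y] G) (i : Fin 6) : pd F i y = pd G i y := by
  simp only [pd, h.fderiv_eq]

theorem br_congr {π : E6 → M6} {F F' G G' : E6 → ℝ} {y : E6} (h : F =ᶠ[nhds y] F')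
    (h' : G =ᶠ[nhds y] G') : br π F G y = br π F' G' y := by
  simp only [br, pd_congr h, pd_congr h']

theorem jm_id {f : E6 → E6} {y : E6} (h : f =ᶠ[nhds y] id) : Jm f y = 1 := by
  ext i j
  have h1 : (fun x => f x i) =ᶠ[nhds y] fun x => x i := by
    filter_upwards [h] with x hx
    rw [hx, id]
  have h2 : HasFDerivAt (fun x : E6 => x i) (ContinuousLinearMap.proj (R := ℝ) i) y :=
    hasFDerivAt_apply i y
  rw [Jm, Matrix.of_apply, pd_congr h1, pd, h2.fderiv, ContinuousLinearMap.proj_apply,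
    Matrix.one_apply, Pi.single_apply]

theorem pd_smooth {U : Set E6} (hU : IsOpen U) {F : E6 → ℝ} (hF : ContDiffOn ℝ ∞ F U) (i : Fin 6) :
    ContDiffOn ℝ ∞ (pd F i) U := by
  have h1 : ContDiffOn ℝ ∞ (fderiv ℝ F) U := hF.fderiv_of_isOpen hU (by simp)
  exact h1.clm_apply contDiffOn_const

theorem jm_smooth {U : Set E6} (hU : IsOpen U) {f : E6 → E6} (hf : ContDiffOn ℝ ∞ f U)
    (i j : Fin 6) : ContDiffOn ℝ ∞ (fun y => Jm f y i j) U := by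
  have h1 : ContDiffOn ℝ ∞ (fun x => f x i) U := contDiffOn_pi.1 hf i
  exact pd_smooth hU h1 j

theorem br_smooth {U : Set E6} (hU : IsOpen U) {π : E6 → M6}
    (hπ : ∀ i j, ContDiffOn ℝ ∞ (fun y => π y i j) U) {F G : E6 → ℝ} (hF : ContDiffOn ℝ ∞ F U)
    (hG : ContDiffOn ℝ ∞ G U) : ContDiffOn ℝ ∞ (br π F G) U := by
  have h1 : ContDiffOn ℝ ∞ (fun y => ∑ i, ∑ j, π y i j * (pd F i y * pd G j y)) U :=
    ContDiffOn.sum fun i _ => ContDiffOn.sum fun j _ =>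
      (hπ i j).mul ((pd_smooth hU hF i).mul (pd_smooth hU hG j))
  exact h1

theorem dAt {n : ℕ} {U : Set E6} (hU : IsOpen U) {f : E6 → Fin n → ℝ} (hf : ContDiffOn ℝ ∞ f U)
    {y : E6} (hy : y ∈ U) : DifferentiableAt ℝ f y :=
  (hf.contDiffAt (hU.mem_nhds hy)).differentiableAt (by simp)

theorem dAt1 {U : Set E6} (hU : IsOpen U) {f : E6 → ℝ} (hf : ContDiffOn ℝ ∞ f U)
    {y : E6} (hy : y ∈ U) : DifferentiableAt ℝ f y :=
  (hf.contDiffAt (hU.mem_nhds hy)).differentiableAt (by simp)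

theorem gr_comp (hJC : S_JC) {F : E6 → ℝ} {g : E6 → E6} {z : E6}
    (hF : DifferentiableAt ℝ F (g z)) (hg : DifferentiableAt ℝ g z) :
    gr (F ∘ g) z = gr F (g z) ᵥ* Jm g z := by
  funext j
  rw [gr, hJC.2 F g z j hF hg]
  rfl

theorem br_comp (hJC : S_JC) {Φ Ψ : E6 → E6} {π : E6 → M6} {F G : E6 → ℝ} {y : E6}
    (hy : Φ (Ψ y) = y) (hF : DifferentiableAt ℝ F y) (hG : DifferentiableAt ℝ G y)
    (hΦ : DifferentiableAt ℝ Φ (Ψ y)) :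
    br (tr Φ Ψ π) F G y = br π (F ∘ Φ) (G ∘ Φ) (Ψ y) := by
  rw [br_eq, br_eq, gr_comp hJC (by rw [hy]; exact hF) hΦ, gr_comp hJC (by rw [hy]; exact hG) hΦ,
    hy, tr]
  rw [← Matrix.mulVec_transpose (Jm Φ (Ψ y)) (gr G y), ← Matrix.mulVec_mulVec,
    ← Matrix.mulVec_mulVec, Matrix.dotProduct_mulVec (gr F y) (Jm Φ (Ψ y))]

end TrfAux

open TrfAux

/-- Change of coordinates. -/
theorem tTrf (hJC : S_JC) (hDC : S_DC) : S_Trf := by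
  intro p q U1 U2 V Ψ Φ T π F hU1 hU2 hD1 hΨ hΦ hΨm hΦm h1 h2 hVU hT hL
  have hV := hL.isOpen
  -- open sets
  have hUo := hDC U1 U2 V Ψ Φ hU1 hU2 hΨ.continuousOn hΦ.continuousOn hΨm hΦm h1 h2 hD1 hV hL.dense
  have hV' : IsOpen {z | z ∈ V ∧ T z ∈ V} := hL.smooth.continuousOn.isOpen_inter_preimage hV hV
  have hUo' := hDC U1 U2 _ Ψ Φ hU1 hU2 hΨ.continuousOn hΦ.continuousOn hΨm hΦm h1 h2 hD1 hV'
    hL.dense'
  -- differentiability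
  have dΨ : ∀ y ∈ U1, DifferentiableAt ℝ Ψ y := fun y hy => dAt hU1 hΨ hy
  have dΦ : ∀ z ∈ U2, DifferentiableAt ℝ Φ z := fun z hz => dAt hU2 hΦ hz
  have dT : ∀ z ∈ V, DifferentiableAt ℝ T z := fun z hz => dAt hV hL.smooth hz
  -- inverse matrices
  have e2 : ∀ z ∈ U2, (Ψ ∘ Φ) =ᶠ[nhds z] id := by
    intro z hz
    filter_upwards [hU2.mem_nhds hz] with w hw
    exact h2 w hw
  have J1 : ∀ y ∈ U1, Jm Ψ y * Jm Φ (Ψ y) = 1 := by
    intro y hy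
    have h3 := hJC.1 Ψ Φ (Ψ y) (by rw [h1 y hy]; exact dΨ y hy) (dΦ _ (hΨm hy))
    rw [jm_id (e2 _ (hΨm hy)), h1 y hy] at h3
    exact h3.symm
  have J2 : ∀ y ∈ U1, Jm Φ (Ψ y) * Jm Ψ y = 1 := fun y hy => mul_eq_one_comm.1 (J1 y hy)
  -- the image point
  have hf : ∀ y ∈ U1, Ψ y ∈ V → Φ (T (Ψ y)) ∈ U1 ∧ Ψ (Φ (T (Ψ y))) = T (Ψ y) := fun y _ hy' =>
    ⟨hΦm (hT _ hy'), h2 _ (hT _ hy')⟩
  have hΦU : ∀ z ∈ V, Φ z ∈ {y | y ∈ U1 ∧ Ψ y ∈ V} := fun z hz =>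
    ⟨hΦm (hVU hz), by rw [h2 z (hVU hz)]; exact hz⟩
  have hπs : ∀ i j, ContDiffOn ℝ ∞ (fun y => tr Φ Ψ π y i j) {y | y ∈ U1 ∧ Ψ y ∈ V} := by
    intro i j
    have a1 : ∀ i j, ContDiffOn ℝ ∞ (fun y => Jm Φ (Ψ y) i j) {y | y ∈ U1 ∧ Ψ y ∈ V} := by
      intro i j
      exact (jm_smooth hU2 hΦ i j).comp (hΨ.mono fun y hy => hy.1) fun y hy => hΨm hy.1
    have a2 : ∀ i j, ContDiffOn ℝ ∞ (fun y => π (Ψ y) i j) {y | y ∈ U1 ∧ Ψ y ∈ V} := by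
      intro i j
      exact (hL.poisson.smooth i j).comp (hΨ.mono fun y hy => hy.1) fun y hy => hy.2
    have a3 : ∀ y, tr Φ Ψ π y i j =
        ∑ l, (∑ k, Jm Φ (Ψ y) i k * π (Ψ y) k l) * Jm Φ (Ψ y) j l := by
      intro y
      rw [tr, Matrix.mul_apply]
      exact Finset.sum_congr rfl fun l _ => by rw [Matrix.mul_apply, Matrix.transpose_apply]
    have a4 : ContDiffOn ℝ ∞ (fun y => ∑ l, (∑ k, Jm Φ (Ψ y) i k * π (Ψ y) k l) * Jm Φ (Ψ y) j l)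
        {y | y ∈ U1 ∧ Ψ y ∈ V} :=
      ContDiffOn.sum fun l _ => (ContDiffOn.sum fun k _ => (a1 i k).mul (a2 k l)).mul (a1 j l)
    exact a4.congr fun y _ => a3 y
  have hΦs : ContDiffOn ℝ ∞ Φ V := hΦ.mono hVU
  refine ⟨tr Φ Ψ π, ?_, ?_, ?_, ?_, ?_, ?_, ?_, ?_, ?_, ?_, ?_, ?_⟩
  · exact hUo.1
  · exact hUo.2
  · exact hΦ.comp (hL.smooth.comp (hΨ.mono fun y hy => hy.1) fun y hy => hy.2) fun y hy =>
      hT _ hy.2
  · have h3 : {y | y ∈ {y | y ∈ U1 ∧ Ψ y ∈ V} ∧ (Φ ∘ T ∘ Ψ) y ∈ {y | y ∈ U1 ∧ Ψ y ∈ V}} =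
        {y | y ∈ U1 ∧ Ψ y ∈ {z | z ∈ V ∧ T z ∈ V}} := by
      ext y
      constructor
      · rintro ⟨⟨a1, a2⟩, _, a4⟩
        refine ⟨a1, a2, ?_⟩
        have h5 := (hf y a1 a2).2
        change Ψ (Φ (T (Ψ y))) ∈ V at a4
        rw [h5] at a4
        exact a4
      · rintro ⟨a1, a2, a3⟩
        refine ⟨⟨a1, a2⟩, (hf y a1 a2).1, ?_⟩
        change Ψ (Φ (T (Ψ y))) ∈ V
        rw [(hf y a1 a2).2]
        exact a3
    rw [h3]
    exact hUo'.2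
  · -- Poisson
    refine ⟨hπs, ?_, ?_⟩
    · intro y hy i j
      have s1 : (π (Ψ y))ᵀ = -π (Ψ y) := by
        ext a b
        rw [Matrix.transpose_apply, Matrix.neg_apply]
        exact hL.poisson.skew _ hy.2 a b
      have s2 : (tr Φ Ψ π y)ᵀ = -tr Φ Ψ π y := by
        rw [tr, Matrix.transpose_mul, Matrix.transpose_mul, Matrix.transpose_transpose, s1,
          Matrix.neg_mul, Matrix.mul_neg, Matrix.mul_assoc]
      have s3 := congrFun (congrFun s2 i) j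
      rw [Matrix.transpose_apply, Matrix.neg_apply] at s3
      exact s3
    · intro A B C hA hB hC y hy
      have hcomp : ∀ G : E6 → ℝ, ContDiffOn ℝ ∞ G {y | y ∈ U1 ∧ Ψ y ∈ V} →
          ContDiffOn ℝ ∞ (G ∘ Φ) V := fun G hG => hG.comp hΦs fun z hz => hΦU z hz
      have key : ∀ A B C : E6 → ℝ, ContDiffOn ℝ ∞ A {y | y ∈ U1 ∧ Ψ y ∈ V} →
          ContDiffOn ℝ ∞ B {y | y ∈ U1 ∧ Ψ y ∈ V} → ContDiffOn ℝ ∞ C {y | y ∈ U1 ∧ Ψ y ∈ V} →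
          br (tr Φ Ψ π) A (br (tr Φ Ψ π) B C) y =
            br π (A ∘ Φ) (br π (B ∘ Φ) (C ∘ Φ)) (Ψ y) := by
        intro A B C hA hB hC
        rw [br_comp hJC (h1 y hy.1) (dAt1 hUo.1 hA hy)
          (dAt1 hUo.1 (br_smooth hUo.1 hπs hB hC) hy) (dΦ _ (hVU hy.2))]
        apply br_congr (Filter.EventuallyEq.refl _ _)
        filter_upwards [hV.mem_nhds hy.2] with z hz
        have hz' := hΦU z hz
        change br (tr Φ Ψ π) B C (Φ z) = _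
        rw [br_comp hJC (h1 _ hz'.1) (dAt1 hUo.1 hB hz') (dAt1 hUo.1 hC hz')
          (by rw [h2 z (hVU hz)]; exact dΦ z (hVU hz)), h2 z (hVU hz)]
      rw [key A B C hA hB hC, key B C A hB hC hA, key C A B hC hA hB]
      exact hL.poisson.jacobi _ _ _ (hcomp A hA) (hcomp B hB) (hcomp C hC) _ hy.2
  · -- rank
    intro y hy
    have u1 : IsUnit (Jm Φ (Ψ y)).det := by
      have h3 := congrArg Matrix.det (J2 y hy.1)
      rw [Matrix.det_mul, Matrix.det_one] at h3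
      exact IsUnit.of_mul_eq_one _ h3
    rw [tr, Matrix.rank_mul_eq_left_of_isUnit_det _ _ (by rw [Matrix.det_transpose]; exact u1),
      Matrix.rank_mul_eq_right_of_isUnit_det _ _ u1]
    exact hL.rank _ hy.2
  · -- invariance
    intro y hy hfy
    have hfy' : T (Ψ y) ∈ V := by
      have h3 := hfy.2
      change Ψ (Φ (T (Ψ y))) ∈ V at h3
      rw [(hf y hy.1 hy.2).2] at h3
      exact h3
    have c1 : Jm (T ∘ Ψ) y = Jm T (Ψ y) * Jm Ψ y := hJC.1 T Ψ y (dT _ hy.2) (dΨ y hy.1)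
    have c2 : Jm (Φ ∘ T ∘ Ψ) y = Jm Φ (T (Ψ y)) * Jm (T ∘ Ψ) y :=
      hJC.1 Φ (T ∘ Ψ) y (dΦ _ (hT _ hy.2)) ((dT _ hy.2).comp y (dΨ y hy.1))
    have c3 : Jm (Φ ∘ T ∘ Ψ) y * Jm Φ (Ψ y) = Jm Φ (T (Ψ y)) * Jm T (Ψ y) := by
      rw [c2, c1, Matrix.mul_assoc, Matrix.mul_assoc, J1 y hy.1, Matrix.mul_one]
    have c4 : Jm (Φ ∘ T ∘ Ψ) y * tr Φ Ψ π y * (Jm (Φ ∘ T ∘ Ψ) y)ᵀ =
        (Jm (Φ ∘ T ∘ Ψ) y * Jm Φ (Ψ y)) * π (Ψ y) * (Jm (Φ ∘ T ∘ Ψ) y * Jm Φ (Ψ y))ᵀ := by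
      rw [tr, Matrix.transpose_mul]
      simp only [Matrix.mul_assoc]
    have c5 : tr Φ Ψ π ((Φ ∘ T ∘ Ψ) y) =
        Jm Φ (T (Ψ y)) * π (T (Ψ y)) * (Jm Φ (T (Ψ y)))ᵀ := by
      rw [tr]
      change Jm Φ (Ψ (Φ (T (Ψ y)))) * π (Ψ (Φ (T (Ψ y)))) * (Jm Φ (Ψ (Φ (T (Ψ y)))))ᵀ = _
      rw [(hf y hy.1 hy.2).2]
    rw [c4, c3, c5, ← hL.inv _ hy.2 hfy', Matrix.transpose_mul]
    simp only [Matrix.mul_assoc]
  · intro i
    exact (hL.smoothF i).comp (hΨ.mono fun y hy => hy.1) fun y hy => hy.2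
  · intro i y hy hfy
    have hfy' : T (Ψ y) ∈ V := by
      have h3 := hfy.2
      change Ψ (Φ (T (Ψ y))) ∈ V at h3
      rw [(hf y hy.1 hy.2).2] at h3
      exact h3
    change F i (Ψ (Φ (T (Ψ y)))) = F i (Ψ y)
    rw [(hf y hy.1 hy.2).2]
    exact hL.invF i _ hy.2 hfy'
  · -- independence
    intro y hy
    have e1 : ∀ i, fderiv ℝ (F i ∘ Ψ) y = (fderiv ℝ (F i) (Ψ y)).comp (fderiv ℝ Ψ y) := fun i =>
      fderiv_comp y (dAt1 hV (hL.smoothF i) hy.2) (dΨ y hy.1)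
    have e3 : (fderiv ℝ Ψ y).comp (fderiv ℝ Φ (Ψ y)) = ContinuousLinearMap.id ℝ E6 := by
      have h3 : fderiv ℝ (Ψ ∘ Φ) (Ψ y) = (fderiv ℝ Ψ (Φ (Ψ y))).comp (fderiv ℝ Φ (Ψ y)) :=
        fderiv_comp _ (by rw [h1 y hy.1]; exact dΨ y hy.1) (dΦ _ (hΨm hy.1))
      rw [h1 y hy.1, (e2 _ (hΨm hy.1)).fderiv_eq, fderiv_id] at h3
      exact h3.symm
    have hinj : LinearMap.ker ((ContinuousLinearMap.compL ℝ E6 E6 ℝ).flip
        (fderiv ℝ Ψ y)).toLinearMap = ⊥ := by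
      rw [LinearMap.ker_eq_bot']
      intro L hL0
      have h3 : L.comp (fderiv ℝ Ψ y) = 0 := hL0
      have h4 : (L.comp (fderiv ℝ Ψ y)).comp (fderiv ℝ Φ (Ψ y)) = 0 := by
        rw [h3, ContinuousLinearMap.zero_comp]
      rw [ContinuousLinearMap.comp_assoc, e3, ContinuousLinearMap.comp_id] at h4
      exact h4
    have h5 := (hL.indep _ hy.2).map' _ hinj
    have h6 : (fun i => fderiv ℝ (F i ∘ Ψ) y) =
        ((ContinuousLinearMap.compL ℝ E6 E6 ℝ).flip (fderiv ℝ Ψ y)).toLinearMap ∘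
          fun i => fderiv ℝ (F i) (Ψ y) := by
      funext i
      exact e1 i
    change LinearIndependent ℝ fun i => fderiv ℝ (F i ∘ Ψ) y
    rw [h6]
    exact h5
  · -- involution
    intro i j y hy
    have e4 : ∀ i, ((F i ∘ Ψ) ∘ Φ) =ᶠ[nhds (Ψ y)] F i := by
      intro i
      filter_upwards [e2 _ (hΨm hy.1)] with z hz
      change F i ((Ψ ∘ Φ) z) = F i z
      rw [hz, id]
    have dF : ∀ i, DifferentiableAt ℝ (F i ∘ Ψ) y := fun i =>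
      (dAt1 hV (hL.smoothF i) hy.2).comp y (dΨ y hy.1)
    change br (tr Φ Ψ π) (F i ∘ Ψ) (F j ∘ Ψ) y = 0
    rw [br_comp hJC (h1 y hy.1) (dF i) (dF j) (dΦ _ (hΨm hy.1)), br_congr (e4 i) (e4 j)]
    exact hL.invol i j _ hy.2
  · -- Casimirs
    intro i hi y hy k
    have g1 : gr (F i ∘ Ψ) y = gr (F i) (Ψ y) ᵥ* Jm Ψ y :=
      gr_comp hJC (dAt1 hV (hL.smoothF i) hy.2) (dΨ y hy.1)
    have g2 : π (Ψ y) *ᵥ gr (F i) (Ψ y) = 0 := by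
      funext k
      exact hL.casimir i hi _ hy.2 k
    have g3 : tr Φ Ψ π y *ᵥ gr (F i ∘ Ψ) y = 0 := by
      rw [g1, ← Matrix.mulVec_transpose, tr, Matrix.mulVec_mulVec, Matrix.mul_assoc,
        ← Matrix.transpose_mul, J1 y hy.1, Matrix.transpose_one, Matrix.mul_one,
        ← Matrix.mulVec_mulVec, g2, Matrix.mulVec_zero]
    exact congrFun g3 k

end Pool.Agent.MP62a5ad.PN
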