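import Pool.Agent.Lib.MP_62a5ad_mp.PN.Spec

set_option autoImplicit false

namespace Pool.Agent.MP62a5ad.PN

open Matrix
open scoped ContDiff

namespace UTdAux

theorem stepR (hDC : S_DC) (hSm : S_Sm) (hRI : S_RI) (hDR : S_DR) {t : E6 → M4} (ht : MFam t)
    (hD : Dense (DD t)) {V : Set E6} (hV : IsOpen V) (hV' : Dense V) :
    IsOpen {z | z ∈ UR t ∧ Rm t z ∈ V} ∧ Dense {z | z ∈ UR t ∧ Rm t z ∈ V} := by
  obtain ⟨-, -, -, -, -, -, -, -, -, hURo, hUR, -⟩ := hSm t t t ht ht ht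
  have hc : ContinuousOn (Rm t) (UR t) := continuousOn_pi.2 fun i => (hUR i).continuousOn
  exact hDC (UR t) (UR t) V (Rm t) (Rm t) hURo hURo hc hc (fun z hz => (hRI t ht z hz).1)
    (fun z hz => (hRI t ht z hz).1) (fun z hz => (hRI t ht z hz).2.1)
    (fun z hz => (hRI t ht z hz).2.1) (hDR t ht hD) hV hV'

theorem stepM (hDC : S_DC) (hSm : S_Sm) (hMu : S_Mu) (hDM : S_DM) {t θ : E6 → M4} (ht : MFam t)
    (hθ : MFam θ) (hD : Dense (DD t)) {V : Set E6} (hV : IsOpen V) (hV' : Dense V) :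
    IsOpen {z | z ∈ UM t θ ∧ mu t θ z ∈ V} ∧ Dense {z | z ∈ UM t θ ∧ mu t θ z ∈ V} := by
  obtain ⟨-, -, -, -, -, -, -, hUMo, hUM, -⟩ := hSm t θ t ht hθ ht
  have hc : ContinuousOn (mu t θ) (UM t θ) := continuousOn_pi.2 fun i => (hUM i).continuousOn
  exact hDC (UM t θ) (UM t θ) V (mu t θ) (mu t θ) hUMo hUMo hc hc
    (fun z hz => (hMu t θ ht hθ z hz).1) (fun z hz => (hMu t θ ht hθ z hz).1)
    (fun z hz => (hMu t θ ht hθ z hz).2.1) (fun z hz => (hMu t θ ht hθ z hz).2.1)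
    (hDM t θ ht hθ hD).1 hV hV'

end UTdAux

theorem tUTd (hDC : S_DC) (hFam : S_Fam) (hSm : S_Sm) (hRI : S_RI) (hMu : S_Mu) (hDM : S_DM)
    (hDR : S_DR) : S_UTd := by
  intro t Y ht hY hD V hV hV'
  have hρ : MFam (rho Y) := hFam.2.2.2.1 Y hY
  have hρ' : MFam (dual t (rho Y)) := (hFam.2.2.2.2 t (rho Y) ht hρ).1
  obtain ⟨o4, d4⟩ := UTdAux.stepR hDC hSm hRI hDR ht hD hV hV'
  obtain ⟨o3, d3⟩ := UTdAux.stepM hDC hSm hMu hDM ht hρ' hD o4 d4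
  obtain ⟨o2, d2⟩ := UTdAux.stepR hDC hSm hRI hDR ht hD o3 d3
  obtain ⟨o1, d1⟩ := UTdAux.stepM hDC hSm hMu hDM ht hρ hD o2 d2
  have he : {z | z ∈ UT t Y ∧ TH t Y z ∈ V} = {z | z ∈ UM t (rho Y) ∧ mu t (rho Y) z ∈
      {z | z ∈ UR t ∧ Rm t z ∈ {z | z ∈ UM t (dual t (rho Y)) ∧ mu t (dual t (rho Y)) z ∈
        {z | z ∈ UR t ∧ Rm t z ∈ V}}}} := by
    ext z
    constructor
    · rintro ⟨⟨h1, h2, h3, h4⟩, h5⟩
      exact ⟨h1, h2, h3, h4, h5⟩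
    · rintro ⟨h1, h2, h3, h4, h5⟩
      exact ⟨⟨h1, h2, h3, h4⟩, h5⟩
  rw [he]
  exact ⟨o1, d1⟩

end Pool.Agent.MP62a5ad.PN
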