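import Pool.Agent.Lib.MP_62a5ad_mp.PN.Spec

set_option autoImplicit false

namespace Pool.Agent.MP62a5ad.PN

open Matrix
open scoped ContDiff

namespace dCAux

/-- The line in the direction `e_3`. -/
def ln (z : E6) (h : ℝ) : E6 := z + h • (Pi.single 3 1 : E6)

theorem ln_ne (z : E6) (h : ℝ) {i : Fin 6} (hi : i ≠ 3) : ln z h i = z i := by
  unfold ln
  simp [hi]

theorem ln_3 (z : E6) (h : ℝ) : ln z h 3 = z 3 + h := by
  unfold ln
  simp

theorem fam {B : E6 → M4} (hB : MFam B) (z : E6) (h : ℝ) : B (ln z h) = B z :=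
  hB.dep _ _ (ln_ne z h (by decide)) (ln_ne z h (by decide)) (ln_ne z h (by decide))

theorem Kt_eq {t : E6 → M4} (ht : MFam t) (z : E6) (h : ℝ) : Kt t (ln z h) = Kt t z := by
  unfold Kt
  rw [fam ht]

theorem pc_eq {t : E6 → M4} (ht : MFam t) (z : E6) (h : ℝ) : pc t (ln z h) = pc t z := by
  unfold pc
  rw [Kt_eq ht, fam ht]

theorem mq_eq {t θ : E6 → M4} (ht : MFam t) (hθ : MFam θ) (z : E6) (h : ℝ) :
    mq t θ (ln z h) = mq t θ z := by
  funext j
  unfold mq ell Qm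
  rw [Kt_eq ht, fam ht, fam hθ, ln_ne z h (by decide : (4 : Fin 6) ≠ 3),
    ln_ne z h (by decide : (5 : Fin 6) ≠ 3)]

theorem C1_eq {t θ : E6 → M4} (ht : MFam t) (hθ : MFam θ) (z : E6) (h : ℝ) :
    C1 t θ (ln z h) = pc t z 0 * hs (mq t θ z) (z 3 + h) 0 / hs (mq t θ z) (z 3 + h) 1 := by
  unfold C1
  rw [pc_eq ht, mq_eq ht hθ, ln_3]

theorem hs_deriv (n : ℕ → ℝ) (s : ℝ) (i : ℕ) :
    HasDerivAt (fun h : ℝ => hs n (s + h) i)
      (-n i * (n (i + 3) - s * n (i + 2)) - n (i + 2) * (n (i + 1) - s * n i)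
        + 2 * n (i + 1) * (n (i + 2) - s * n (i + 1))) 0 := by
  unfold hs
  have h1 : ∀ a b : ℝ, HasDerivAt (fun h : ℝ => a - (s + h) * b) (-b) 0 := by
    intro a b
    have e1 : HasDerivAt (fun h : ℝ => s + h) 1 0 := (hasDerivAt_id (0 : ℝ)).const_add s
    have e2 := (e1.mul_const b).const_sub a
    simpa using e2
  have h2 := ((h1 (n (i + 1)) (n i)).mul (h1 (n (i + 3)) (n (i + 2)))).sub
    ((h1 (n (i + 2)) (n (i + 1))).pow 2)
  refine h2.congr_deriv ?_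
  simp
  ring

end dCAux

open dCAux in
theorem tdC (hSm : S_Sm) : S_dC := by
  intro t θ ht hθ z hz hQ hh
  obtain ⟨-, -, -, -, -, -, hC1, -⟩ := hSm t θ t ht hθ ht
  have hd : DifferentiableAt ℝ (C1 t θ) z := (hC1 z ⟨⟨hz, hQ⟩, hh⟩).differentiableAt
  have h0 : ln z 0 = z := by
    unfold ln
    simp
  have hln : HasDerivAt (ln z) (Pi.single 3 1 : E6) 0 := by
    have e1 := ((hasDerivAt_id (0 : ℝ)).smul_const (Pi.single 3 1 : E6)).const_add z
    exact e1.congr_deriv (one_smul ℝ _)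
  have hcomp : HasDerivAt (fun h => C1 t θ (ln z h)) (fderiv ℝ (C1 t θ) z (Pi.single 3 1)) 0 := by
    have e1 : HasFDerivAt (C1 t θ) (fderiv ℝ (C1 t θ) z) (ln z 0) := by
      rw [h0]
      exact hd.hasFDerivAt
    exact e1.comp_hasDerivAt 0 hln
  have hfun : (fun h => C1 t θ (ln z h)) =
      fun h => pc t z 0 * hs (mq t θ z) (z 3 + h) 0 / hs (mq t θ z) (z 3 + h) 1 :=
    funext fun h => C1_eq ht hθ z h
  rw [hfun] at hcomp
  set n := mq t θ z with hn
  have hq := ((hs_deriv n (z 3) 0).const_mul (pc t z 0)).div (hs_deriv n (z 3) 1) (by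
    rw [add_zero]
    exact hh)
  have hu := hcomp.unique hq
  unfold pd
  rw [hu, add_zero, div_left_inj' (pow_ne_zero 2 hh)]
  unfold nm hs kk hk
  simp only [Nat.reduceAdd, zero_add]
  ring

end Pool.Agent.MP62a5ad.PN
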