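import Pool.Agent.Lib.MP_62a5ad_mp.PN.Id1
import Pool.Agent.Lib.MP_62a5ad_mp.PN.Core
import Pool.Agent.Lib.MP_62a5ad_mp.PN.Fin
import Pool.Agent.Lib.MP_62a5ad_mp.PN.JC
import Pool.Agent.Lib.MP_62a5ad_mp.PN.DC
import Pool.Agent.Lib.MP_62a5ad_mp.PN.Fib
import Pool.Agent.Lib.MP_62a5ad_mp.PN.An
import Pool.Agent.Lib.MP_62a5ad_mp.PN.MA
import Pool.Agent.Lib.MP_62a5ad_mp.PN.Trf
import Pool.Agent.Lib.MP_62a5ad_mp.PN.Jac
import Pool.Agent.Lib.MP_62a5ad_mp.PN.Fam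
import Pool.Agent.Lib.MP_62a5ad_mp.PN.Dt
import Pool.Agent.Lib.MP_62a5ad_mp.PN.Sm
import Pool.Agent.Lib.MP_62a5ad_mp.PN.RA
import Pool.Agent.Lib.MP_62a5ad_mp.PN.RI
import Pool.Agent.Lib.MP_62a5ad_mp.PN.RJ
import Pool.Agent.Lib.MP_62a5ad_mp.PN.Mu
import Pool.Agent.Lib.MP_62a5ad_mp.PN.MJ
import Pool.Agent.Lib.MP_62a5ad_mp.PN.Lin
import Pool.Agent.Lib.MP_62a5ad_mp.PN.Cmp
import Pool.Agent.Lib.MP_62a5ad_mp.PN.Brg
import Pool.Agent.Lib.MP_62a5ad_mp.PN.RG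
import Pool.Agent.Lib.MP_62a5ad_mp.PN.GR
import Pool.Agent.Lib.MP_62a5ad_mp.PN.TG
import Pool.Agent.Lib.MP_62a5ad_mp.PN.Inc
import Pool.Agent.Lib.MP_62a5ad_mp.PN.Ha
import Pool.Agent.Lib.MP_62a5ad_mp.PN.Hb
import Pool.Agent.Lib.MP_62a5ad_mp.PN.DM
import Pool.Agent.Lib.MP_62a5ad_mp.PN.DR
import Pool.Agent.Lib.MP_62a5ad_mp.PN.DN
import Pool.Agent.Lib.MP_62a5ad_mp.PN.dC
import Pool.Agent.Lib.MP_62a5ad_mp.PN.PP
import Pool.Agent.Lib.MP_62a5ad_mp.PN.DU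
import Pool.Agent.Lib.MP_62a5ad_mp.PN.Den
import Pool.Agent.Lib.MP_62a5ad_mp.PN.UTd
import Pool.Agent.Lib.MP_62a5ad_mp.PN.Cas
import Pool.Agent.Lib.MP_62a5ad_mp.PN.Map
import Pool.Agent.Lib.MP_62a5ad_mp.PN.ChA
import Pool.Agent.Lib.MP_62a5ad_mp.PN.ChB
import Pool.Agent.Lib.MP_62a5ad_mp.PN.ChC

/-!
# MP_62a5ad_mp, PN: assembly
-/

set_option autoImplicit false

namespace Pool.Agent.MP62a5ad.PN

theorem aJC : S_JC := tJC
theorem aDC : S_DC := tDC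
theorem aFib : S_Fib := tFib
theorem aAn : S_An := tAn
theorem aMA : S_MA := tMA
theorem aTrf : S_Trf := tTrf aJC aDC
theorem aJac : S_Jac := tJac
theorem aFam : S_Fam := tFam aMA
theorem aDt : S_Dt := tDt
theorem aSm : S_Sm := tSm aMA aFam
theorem aRA : S_RA := tRA
theorem aRI : S_RI := tRI aRA aDt
theorem aRJ : S_RJ := tRJ aRA aDt aSm
theorem aMu : S_Mu := tMu
theorem aMJ : S_MJ := tMJ aSm
theorem aLin : S_Lin := tLin
theorem aCmp : S_Cmp := tCmp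
theorem aBrg : S_Brg := tBrg aFam aDt
theorem aRG : S_RG := tRG aFam aDt aRA aCmp aBrg aRI
theorem aGR : S_GR := tGR aDt aRA aRI aRG
theorem aTG : S_TG := tTG aJC aFam aDt aSm aRI aRJ aMu aMJ aGR
theorem aInc : S_Inc := tInc aLin
theorem aHa : S_Ha := tHa aLin aCmp
theorem aHb : S_Hb := tHb aLin aCmp
theorem aDM : S_DM := tDM aFib aAn aMA aDt aBrg aHa
theorem aDR : S_DR := tDR aFib aAn aDt aRA
theorem aDN : S_DN := tDN aFib aAn aMA aFam aBrg aHb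
theorem adC : S_dC := tdC aSm
theorem aPP : S_PP := tPP aFam aDt aLin aBrg
theorem aDU : S_DU := tDU aFib aAn aMA aFam aDt aLin aBrg aPP
theorem aDen : S_Den := tDen aAn aMA aFam
theorem aUTd : S_UTd := tUTd aDC aFam aSm aRI aMu aDM aDR
theorem aCore : S_Core := tCore aJac aFam aDt aSm aTG aDM aDN adC aDU aUTd
theorem aCas : S_Cas := tCas
theorem aChA : S_ChA := tChA aFam
theorem aChB : S_ChB := tChB aFam
theorem aChC : S_ChC := tChC aAn aMA aChB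

end Pool.Agent.MP62a5ad.PN
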