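import Pool.Agent.Lib.MP_62a5ad_mp.PN.Spec

/-!
# MP_62a5ad_mp, PN: density of `U1` and `U2`
-/

set_option autoImplicit false

namespace Pool.Agent.MP62a5ad.PN

open Matrix

namespace DUAux

/-! ### The fibres -/

theorem fam_fb {Y : E6 → M4} (hY : MFam Y) (m : E6) (x : Fin 3 → ℝ) : Y (fb m x) = Y m :=
  hY.dep _ _ rfl rfl rfl

theorem Kt_fb {t : E6 → M4} (ht : MFam t) (m : E6) (x : Fin 3 → ℝ) : Kt t (fb m x) = Kt t m := by
  unfold Kt
  rw [fam_fb ht]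

theorem ell_fb {t : E6 → M4} (ht : MFam t) (m : E6) (x : Fin 3 → ℝ) (g : M4) :
    ell t (fb m x) g = ell t m g := by
  unfold ell
  rw [Kt_fb ht]

theorem DD_fb {t : E6 → M4} (ht : MFam t) {m : E6} (hm : m ∈ DD t) (x : Fin 3 → ℝ) :
    fb m x ∈ DD t :=
  ⟨hm.1, by rw [Kt_fb ht]; exact hm.2⟩

theorem mono_fb (m : E6) (x : Fin 3 → ℝ) : mono (fb m x) = mono m := rfl

/-! ### Density in three variables -/

theorem dense3 (hAn : S_An) (P1 P2 P3 : (Fin 3 → ℝ) → ℝ)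
    (h1 : AnalyticOnNhd ℝ P1 Set.univ) (h2 : AnalyticOnNhd ℝ P2 Set.univ)
    (h3 : AnalyticOnNhd ℝ P3 Set.univ) (e1 : ∃ x, P1 x ≠ 0) (e2 : ∃ x, P2 x ≠ 0)
    (e3 : ∃ x, P3 x ≠ 0) (V : Set (Fin 3 → ℝ))
    (hV : ∀ x, P1 x ≠ 0 → P2 x ≠ 0 → P3 x ≠ 0 → x ∈ V) : Dense V := by
  obtain ⟨o1, d1⟩ := hAn (Fin 3 → ℝ) P1 h1 e1
  obtain ⟨o2, d2⟩ := hAn (Fin 3 → ℝ) P2 h2 e2
  obtain ⟨o3, d3⟩ := hAn (Fin 3 → ℝ) P3 h3 e3
  have h := (d1.inter_of_isOpen_left d2 o1).inter_of_isOpen_right d3 o3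
  exact h.mono fun x hx => hV x hx.1.1 hx.1.2 hx.2

theorem coAn (i : Fin 3) : AnalyticOnNhd ℝ (fun x : Fin 3 → ℝ => x i) Set.univ :=
  (ContinuousLinearMap.proj (R := ℝ) (φ := fun _ : Fin 3 => ℝ) i).analyticOnNhd _

theorem cAV (v : V4) : AV (Set.univ : Set (Fin 3 → ℝ)) fun _ => v := fun _ =>
  analyticOnNhd_const

theorem subAM {A B : (Fin 3 → ℝ) → M4} (hA : AM Set.univ A) (hB : AM Set.univ B) :
    AM Set.univ fun z => A z - B z := fun i j => (hA i j).sub (hB i j)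

theorem ellAn (hMA : S_MA) (t : E6 → M4) (m : E6) {A : (Fin 3 → ℝ) → M4}
    (hA : AM Set.univ A) : AnalyticOnNhd ℝ (fun x => ell t m (A x)) Set.univ := by
  have h := hMA (Fin 3 → ℝ) Set.univ
  exact h.mulVec (fun _ => (Kt t m)⁻¹) (fun x => A x *ᵥ e0) (h.const _)
    (h.mulVec A (fun _ => e0) hA (cAV e0)) 3

/-! ### Linearity -/

theorem ell_add (t : E6 → M4) (z : E6) (g h : M4) : ell t z (g + h) = ell t z g + ell t z h := by
  unfold ell
  rw [add_mulVec, mulVec_add]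
  rfl

theorem ell_smul (t : E6 → M4) (z : E6) (c : ℝ) (g : M4) : ell t z (c • g) = c * ell t z g := by
  unfold ell
  rw [smul_mulVec, mulVec_smul]
  rfl

theorem ell_sub (t : E6 → M4) (z : E6) (g h : M4) : ell t z (g - h) = ell t z g - ell t z h := by
  unfold ell
  rw [sub_mulVec, mulVec_sub]
  rfl

/-- The functional `(y g e0)_0`. -/
def et (y g : M4) : ℝ := ((y * g) *ᵥ e0) 0

theorem et_add (y g h : M4) : et y (g + h) = et y g + et y h := by
  unfold et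
  rw [mul_add, add_mulVec]
  rfl

theorem et_smul (y : M4) (c : ℝ) (g : M4) : et y (c • g) = c * et y g := by
  unfold et
  rw [Matrix.mul_smul, smul_mulVec]
  rfl

/-! ### The set `U1` -/

theorem W0_com {Y : E6 → M4} (hY : MFam Y) {y : E6} (hy : y 2 ≠ 0) :
    Commute (W0 Y y) (mono y) := by
  have h1 : Commute (Y y) (mono y) := hY.com y hy
  have h2 : Commute (1 + y 3 • mono y + y 4 • (mono y) ^ 2 + y 5 • (mono y) ^ 3) (mono y) := by
    refine Commute.add_left (Commute.add_left (Commute.add_left (Commute.one_left _) ?_) ?_) ?_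
    · exact (Commute.refl (mono y)).smul_left _
    · exact ((Commute.refl (mono y)).pow_left 2).smul_left _
    · exact ((Commute.refl (mono y)).pow_left 3).smul_left _
  exact h1.mul_left h2

theorem coef2 (hLin : S_Lin) (hBrg : S_Brg) {t : E6 → M4} (ht : MFam t) {z : E6} (hz : z ∈ DD t)
    (V : M4) (hV : V * mono z = mono z * V) (h0 : ell t z V = 0) :
    ((Kt t z)⁻¹ *ᵥ (V *ᵥ e0)) 2 = ell t z (t z * V) := by
  obtain ⟨A, i1, i2, ι, b, τ, hF, hτ, hinj, hcom, hsurj, hN, hel, hrep, hv, hinj2, hinv⟩ :=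
    hBrg t ht z hz
  obtain ⟨⟨l0, l1, l2, l3⟩, L1, L2, L3, L4, L5, L6, L7, L8⟩ := hLin A τ b (pc t z) hF
  obtain ⟨v, hv1⟩ := hsurj V hV
  have hb0 : el b v = 0 := by rw [hel, hv1, h0]
  obtain ⟨c0, c1, c2, hc⟩ := L2 v hb0
  have e1 : ell t z (t z * V) = el b (τ * v) := by
    rw [hel, map_mul, hτ, hv1]
  have e2 : el b (τ * v) = c2 := by
    have e3 : τ * v = c0 • τ + c1 • τ ^ 2 + c2 • τ ^ 3 := by
      rw [hc, mul_add, mul_add, mul_smul_comm, mul_smul_comm, mul_smul_comm, mul_one]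
      rw [show τ * τ = τ ^ 2 by ring, show τ * τ ^ 2 = τ ^ 3 by ring]
    rw [e3]
    unfold el at l1 l2 l3 ⊢
    rw [map_add, map_add, map_smul, map_smul, map_smul]
    simp only [Finsupp.add_apply, Finsupp.smul_apply, smul_eq_mul, l1, l2, l3]
    ring
  have e4 : b.repr v 2 = c2 := by
    have p0 : (1 : A) = b 0 := by rw [hF.pow]; simp
    have p1 : τ = b 1 := by rw [hF.pow]; simp
    have p2 : τ ^ 2 = b 2 := by rw [hF.pow]; simp
    rw [hc, p2, map_add, map_add, map_smul, map_smul, map_smul]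
    rw [show b.repr (1 : A) = Finsupp.single 0 1 by rw [p0, b.repr_self],
      show b.repr τ = Finsupp.single 1 1 by rw [p1, b.repr_self], b.repr_self]
    simp
  rw [e1, e2, ← e4, hrep, hv1]

theorem cf2 (hLin : S_Lin) (hBrg : S_Brg) {t Y : E6 → M4} (ht : MFam t) (hY : MFam Y) {y : E6}
    (hy : y ∈ DD t) (ha : ell t y (W0 Y y) ≠ 0) :
    cf t Y y 2 * ell t y (W0 Y y) = ell t y (W0 Y y) * ell t y ((t y) ^ 2 * W0 Y y) -
      ell t y (t y * W0 Y y) ^ 2 := by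
  have hC : Commute (t y) (mono y) := ht.com y hy.1
  have hW := W0_com hY hy.1
  have hV : Commute ((t y - sP t Y y • (1 : M4)) * W0 Y y) (mono y) := by
    refine Commute.mul_left (Commute.sub_left hC ?_) hW
    exact (Commute.one_left _).smul_left _
  have h0 : ell t y ((t y - sP t Y y • (1 : M4)) * W0 Y y) = 0 := by
    rw [sub_mul, smul_mul_assoc, one_mul, ell_sub, ell_smul]
    unfold sP
    field_simp
    ring
  have h1 := coef2 hLin hBrg ht hy _ hV h0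
  have h2 : cf t Y y 2 = ell t y (t y * ((t y - sP t Y y • (1 : M4)) * W0 Y y)) := h1
  have h3 : t y * ((t y - sP t Y y • (1 : M4)) * W0 Y y)
      = (t y) ^ 2 * W0 Y y - sP t Y y • (t y * W0 Y y) := by
    rw [sub_mul, smul_mul_assoc, one_mul, mul_sub, mul_smul_comm, pow_two, Matrix.mul_assoc]
  rw [h2, h3, ell_sub, ell_smul]
  unfold sP
  field_simp

theorem detsP {t Y : E6 → M4} {y : E6} (ha : ell t y (W0 Y y) ≠ 0) :
    (ell t y (W0 Y y) • t y - ell t y (t y * W0 Y y) • (1 : M4)).det =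
      ell t y (W0 Y y) ^ 4 * (t y - sP t Y y • (1 : M4)).det := by
  have h : ell t y (W0 Y y) • t y - ell t y (t y * W0 Y y) • (1 : M4) =
      ell t y (W0 Y y) • (t y - sP t Y y • (1 : M4)) := by
    rw [smul_sub, smul_smul]
    unfold sP
    rw [mul_div_cancel₀ _ ha]
  rw [h, Matrix.det_smul]
  simp

theorem U1_of (hLin : S_Lin) (hBrg : S_Brg) {t Y : E6 → M4} (ht : MFam t) (hY : MFam Y) {y : E6}
    (hy : y ∈ DD t) (ha : ell t y (W0 Y y) ≠ 0)
    (hh : ell t y (W0 Y y) * ell t y ((t y) ^ 2 * W0 Y y) - ell t y (t y * W0 Y y) ^ 2 ≠ 0)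
    (hd : (ell t y (W0 Y y) • t y - ell t y (t y * W0 Y y) • (1 : M4)).det ≠ 0) :
    y ∈ U1 t Y := by
  refine ⟨hy, ha, ?_, ?_⟩
  · intro h
    apply hh
    rw [← cf2 hLin hBrg ht hY hy ha, h, zero_mul]
  · intro h
    apply hd
    rw [detsP ha, h, mul_zero]

theorem of_U1 (hLin : S_Lin) (hBrg : S_Brg) {t Y : E6 → M4} (ht : MFam t) (hY : MFam Y) {y : E6}
    (hy : y ∈ U1 t Y) : ell t y (W0 Y y) ≠ 0 ∧
    ell t y (W0 Y y) * ell t y ((t y) ^ 2 * W0 Y y) - ell t y (t y * W0 Y y) ^ 2 ≠ 0 ∧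
    (ell t y (W0 Y y) • t y - ell t y (t y * W0 Y y) • (1 : M4)).det ≠ 0 := by
  obtain ⟨hD, ha, hc, hd⟩ := hy
  refine ⟨ha, ?_, ?_⟩
  · rw [← cf2 hLin hBrg ht hY hD ha]
    exact mul_ne_zero hc ha
  · rw [detsP ha]
    exact mul_ne_zero (pow_ne_zero 4 ha) hd

/-! ### The set `U2` -/

theorem inv_eq (B : M4) : B⁻¹ = (B.det)⁻¹ • B.adjugate := by
  rw [Matrix.inv_def, Ring.inverse_eq_inv']

/-- The functional `E`. -/
noncomputable def EU (t Y : E6 → M4) (m : E6) (x : Fin 3 → ℝ) : ℝ :=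
  et (Y m)⁻¹ (((t m) ^ 2 + x 1 • t m + x 2 • (1 : M4)) * (t m - x 0 • (1 : M4)).adjugate)

theorem EU_xv {t Y : E6 → M4} (ht : MFam t) (hY : MFam Y) (m : E6) (x : Fin 3 → ℝ) :
    xv t Y (fb m x) 0 = ((t m - x 0 • (1 : M4)).det)⁻¹ * EU t Y m x := by
  unfold xv X0 Qm EU
  rw [fam_fb ht, fam_fb hY]
  change (((Y m)⁻¹ * (((t m) ^ 2 + x 1 • t m + x 2 • (1 : M4)) * (t m - x 0 • (1 : M4))⁻¹)) *ᵥ
    e0) 0 = _
  rw [inv_eq (t m - x 0 • (1 : M4)), Matrix.mul_smul]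
  exact et_smul _ _ _

theorem EU_an (hMA : S_MA) (t Y : E6 → M4) (m : E6) : AnalyticOnNhd ℝ (EU t Y m) Set.univ := by
  have h := hMA (Fin 3 → ℝ) Set.univ
  have hQ : AM Set.univ fun x : Fin 3 → ℝ => (t m) ^ 2 + x 1 • t m + x 2 • (1 : M4) :=
    h.add _ _ (h.add _ _ (h.const _) (h.smul _ _ (coAn 1) (h.const _)))
      (h.smul _ _ (coAn 2) (h.const _))
  have hT : AM Set.univ fun x : Fin 3 → ℝ => t m - x 0 • (1 : M4) :=
    subAM (h.const _) (h.smul _ _ (coAn 0) (h.const _))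
  exact h.mulVec _ _ (h.mul _ _ (h.const _) (h.mul _ _ hQ (h.adj _ hT))) (cAV e0) 0

theorem ex_pv (p : V4) : ∃ s : ℝ, s ≠ 0 ∧ pv p s ≠ 0 := by
  by_contra h
  push Not at h
  have h1 := h 1 (by norm_num)
  have h2 := h 2 (by norm_num)
  have h3 := h 3 (by norm_num)
  have h4 := h 4 (by norm_num)
  have h5 := h 5 (by norm_num)
  unfold pv at h1 h2 h3 h4 h5
  linarith

theorem ex_EU (hDt : S_Dt) (hLin : S_Lin) (hBrg : S_Brg) {t Y : E6 → M4} (ht : MFam t)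
    (hY : MFam Y) {m : E6} (hm : m ∈ DD t) : ∃ x, EU t Y m x ≠ 0 := by
  by_contra hcon
  push Not at hcon
  obtain ⟨hdt, hp0, hds, -, -⟩ := hDt t ht m hm
  obtain ⟨A, i1, i2, ι, b, τ, hF, hτ, hinj, hcom, hsurj, hN, hel, hrep, hv, hinj2, hinv⟩ :=
    hBrg t ht m hm
  obtain ⟨⟨l0, l1, l2, l3⟩, L1, L2, L3, L4, L5, L6, L7, L8⟩ := hLin A τ b (pc t m) hF
  set p := pc t m with hp
  set y := (Y m)⁻¹ with hy
  -- the values of the functional
  have key : ∀ s : ℝ, pv p s ≠ 0 → et y 1 = 0 ∧ et y (t m) = 0 ∧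
      et y ((t m) ^ 3) + (p 3 + s) * et y ((t m) ^ 2) = 0 := by
    intro s hs
    obtain ⟨σ, hσ1, hσ2⟩ := L5 s hs
    have hd : (t m - s • (1 : M4)).det ≠ 0 := by rw [hds]; exact hs
    have hS : (t m - s • (1 : M4)) * ι σ = 1 := by
      have := congrArg ι hσ1
      rw [map_mul, map_sub, map_smul, map_one, hτ] at this
      exact this
    have hI : (t m - s • (1 : M4))⁻¹ = ι σ := Matrix.inv_eq_right_inv hS
    have hadj : (t m - s • (1 : M4)).adjugate = (t m - s • (1 : M4)).det • ι σ := by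
      rw [← hI, inv_eq, smul_smul, mul_inv_cancel₀ hd, one_smul]
    have hQ : ∀ u C : ℝ, et y (((t m) ^ 2 + u • t m + C • (1 : M4)) * ι σ) = 0 := by
      intro u C
      have h1 := hcon ![s, u, C]
      unfold EU at h1
      have h2 : et y (((t m) ^ 2 + u • t m + C • (1 : M4)) * (t m - s • (1 : M4)).adjugate) = 0 :=
        h1
      rw [hadj, Matrix.mul_smul, et_smul] at h2
      exact (mul_eq_zero.1 h2).resolve_left hd
    have q1 := hQ 0 0
    have q2 := hQ 1 0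
    have q3 := hQ 0 1
    rw [zero_smul, zero_smul, add_zero, add_zero] at q1
    rw [one_smul, zero_smul, add_zero, add_mul, et_add, q1, zero_add] at q2
    rw [one_smul, zero_smul, add_zero, add_mul, et_add, q1, zero_add, one_mul] at q3
    have r1 : t m * ι σ = 1 + s • ι σ := by
      rw [sub_mul, smul_mul_assoc, one_mul] at hS
      rw [← hS]
      abel
    have r2 : (t m) ^ 2 * ι σ = t m + s • (t m * ι σ) := by
      have h1 := congrArg (fun g => t m * g) r1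
      simp only [mul_add, mul_one, mul_smul_comm] at h1
      rw [pow_two, Matrix.mul_assoc]
      exact h1
    have w1 : et y 1 = 0 := by
      have h1 := q2
      rw [r1, et_add, et_smul, q3] at h1
      linarith
    have w2 : et y (t m) = 0 := by
      have h1 := q1
      rw [r2, et_add, et_smul, q2] at h1
      linarith
    refine ⟨w1, w2, ?_⟩
    have r3 : ι σ = -(pv p s)⁻¹ • ((t m) ^ 3 + (p 3 + s) • (t m) ^ 2 +
        (p 2 + p 3 * s + s ^ 2) • t m + (p 1 + p 2 * s + p 3 * s ^ 2 + s ^ 3) • (1 : M4)) := by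
      rw [hσ2, map_smul, map_add, map_add, map_add, map_smul, map_smul, map_smul, map_pow, map_pow,
        map_one, hτ]
    have h1 := q3
    rw [r3, et_smul, et_add, et_add, et_add, et_smul, et_smul, et_smul, w1, w2] at h1
    have h2 := (mul_eq_zero.1 h1).resolve_left (neg_ne_zero.2 (inv_ne_zero hs))
    linarith
  have hs0 : pv p 0 ≠ 0 := by
    have : pv p 0 = p 0 := by unfold pv; ring
    rw [this]
    exact hp0
  obtain ⟨w1, w2, w3⟩ := key 0 hs0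
  obtain ⟨s, hs1, hs2⟩ := ex_pv p
  obtain ⟨-, -, w4⟩ := key s hs2
  have w5 : et y ((t m) ^ 2) = 0 := by
    have h1 : s * et y ((t m) ^ 2) = 0 := by linarith
    exact (mul_eq_zero.1 h1).resolve_left hs1
  have w6 : et y ((t m) ^ 3) = 0 := by
    rw [w5] at w3
    linarith
  obtain ⟨a, ha⟩ := hsurj (Y m) (hY.com m hm.1)
  have h1 : et y (Y m) = 1 := by
    unfold et
    rw [hy, Matrix.nonsing_inv_mul _ (isUnit_iff_ne_zero.2 (hY.ndet m hm.1)), one_mulVec]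
    rfl
  have h2 : et y (Y m) = 0 := by
    have h3 : a = b.repr a 0 • (1 : A) + b.repr a 1 • τ + b.repr a 2 • τ ^ 2 +
        b.repr a 3 • τ ^ 3 := by
      have h4 := b.sum_repr a
      rw [Fin.sum_univ_four, hF.pow, hF.pow, hF.pow, hF.pow] at h4
      simpa using h4.symm
    have h5 : Y m = b.repr a 0 • (1 : M4) + b.repr a 1 • t m + b.repr a 2 • (t m) ^ 2 +
        b.repr a 3 • (t m) ^ 3 := by
      rw [← ha]
      conv_lhs => rw [h3]
      rw [map_add, map_add, map_add, map_smul, map_smul, map_smul, map_smul, map_one, map_pow,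
        map_pow, hτ]
    rw [h5, et_add, et_add, et_add, et_smul, et_smul, et_smul, et_smul, w1, w2, w5, w6]
    ring
  rw [h1] at h2
  exact one_ne_zero h2

theorem U2_of {t Y : E6 → M4} (ht : MFam t) (hY : MFam Y) {m : E6} (hm : m ∈ DD t)
    (x : Fin 3 → ℝ) (h1 : (t m - x 0 • (1 : M4)).det ≠ 0) (h2 : qv (x 1) (x 2) (x 0) ≠ 0)
    (h3 : EU t Y m x ≠ 0) : fb m x ∈ U2 t Y := by
  refine ⟨DD_fb ht hm x, ?_, h2, ?_⟩
  · rw [fam_fb ht]
    exact h1
  · rw [EU_xv ht hY]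
    exact mul_ne_zero (inv_ne_zero h1) h3

theorem denseF2 (hAn : S_An) (hMA : S_MA) (hDt : S_Dt) (hLin : S_Lin) (hBrg : S_Brg)
    {t Y : E6 → M4} (ht : MFam t) (hY : MFam Y) {m : E6} (hm : m ∈ DD t) :
    Dense {x | fb m x ∈ U2 t Y} := by
  have h := hMA (Fin 3 → ℝ) Set.univ
  refine dense3 hAn (fun x => (t m - x 0 • (1 : M4)).det) (fun x => qv (x 1) (x 2) (x 0))
    (EU t Y m) ?_ ?_ (EU_an hMA t Y m) ?_ ?_ (ex_EU hDt hLin hBrg ht hY hm) _ ?_
  · exact h.det _ (subAM (h.const _) (h.smul _ _ (coAn 0) (h.const _)))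
  · unfold qv
    exact (((coAn 0).pow 2).add ((coAn 1).mul (coAn 0))).add (coAn 2)
  · refine ⟨0, ?_⟩
    obtain ⟨hdt, hp0, hds, -, -⟩ := hDt t ht m hm
    change (t m - (0 : ℝ) • (1 : M4)).det ≠ 0
    rw [zero_smul, sub_zero, hdt]
    exact hp0
  · refine ⟨![0, 0, 1], ?_⟩
    change qv 0 1 0 ≠ 0
    unfold qv
    norm_num
  · intro x h1 h2 h3
    exact U2_of ht hY hm x h1 h2 h3

/-- The matrix `W0` on the fibre. -/
def WF (Y : E6 → M4) (m : E6) (x : Fin 3 → ℝ) : M4 :=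
  Y m * (1 + x 0 • mono m + x 1 • (mono m) ^ 2 + x 2 • (mono m) ^ 3)

theorem W0_fb {Y : E6 → M4} (hY : MFam Y) (m : E6) (x : Fin 3 → ℝ) :
    W0 Y (fb m x) = WF Y m x := by
  unfold W0 WF
  rw [fam_fb hY]
  rfl

theorem WF_an (hMA : S_MA) (Y : E6 → M4) (m : E6) : AM Set.univ (WF Y m) := by
  have h := hMA (Fin 3 → ℝ) Set.univ
  exact h.mul _ _ (h.const _) (h.add _ _ (h.add _ _ (h.add _ _ (h.const _)
    (h.smul _ _ (coAn 0) (h.const _))) (h.smul _ _ (coAn 1) (h.const _)))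
    (h.smul _ _ (coAn 2) (h.const _)))

theorem denseF1 (hAn : S_An) (hMA : S_MA) (hDt : S_Dt) (hLin : S_Lin) (hBrg : S_Brg)
    (hPP : S_PP) {t Y : E6 → M4} (ht : MFam t) (hY : MFam Y) {m : E6} (hm : m ∈ DD t) :
    Dense {x | fb m x ∈ U1 t Y} := by
  have h := hMA (Fin 3 → ℝ) Set.univ
  have hW := WF_an hMA Y m
  -- a point of the set
  obtain ⟨x, hx⟩ : ∃ x, fb m x ∈ U1 t Y := by
    obtain ⟨w, hw⟩ := (denseF2 hAn hMA hDt hLin hBrg ht hY hm).nonempty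
    have h1 := (hPP t Y ht hY).2.1 hw
    exact ⟨![xv t Y (fb m w) 1 / xv t Y (fb m w) 0, xv t Y (fb m w) 2 / xv t Y (fb m w) 0,
      xv t Y (fb m w) 3 / xv t Y (fb m w) 0], h1⟩
  obtain ⟨a1, a2, a3⟩ := of_U1 hLin hBrg ht hY hx
  rw [ell_fb ht, W0_fb hY] at a1
  rw [ell_fb ht, ell_fb ht, ell_fb ht, W0_fb hY, fam_fb ht] at a2
  rw [ell_fb ht, ell_fb ht, W0_fb hY, fam_fb ht] at a3
  refine dense3 hAn (fun x => ell t m (WF Y m x))
    (fun x => ell t m (WF Y m x) * ell t m ((t m) ^ 2 * WF Y m x) -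
      ell t m (t m * WF Y m x) ^ 2)
    (fun x => (ell t m (WF Y m x) • t m - ell t m (t m * WF Y m x) • (1 : M4)).det)
    (ellAn hMA t m hW) ?_ ?_ ⟨x, a1⟩ ⟨x, a2⟩ ⟨x, a3⟩ _ ?_
  · exact ((ellAn hMA t m hW).mul (ellAn hMA t m (h.mul _ _ (h.const _) hW))).sub
      ((ellAn hMA t m (h.mul _ _ (h.const _) hW)).pow 2)
  · exact h.det _ (subAM (h.smul _ _ (ellAn hMA t m hW) (h.const _))
      (h.smul _ _ (ellAn hMA t m (h.mul _ _ (h.const _) hW)) (h.const _)))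
  · intro x h1 h2 h3
    refine U1_of hLin hBrg ht hY (DD_fb ht hm x) ?_ ?_ ?_
    · rw [ell_fb ht, W0_fb hY]
      exact h1
    · rw [ell_fb ht, ell_fb ht, ell_fb ht, W0_fb hY, fam_fb ht]
      exact h2
    · rw [ell_fb ht, ell_fb ht, W0_fb hY, fam_fb ht]
      exact h3

end DUAux

theorem tDU (hFib : S_Fib) (hAn : S_An) (hMA : S_MA) (_hFam : S_Fam) (hDt : S_Dt) (hLin : S_Lin)
    (hBrg : S_Brg) (hPP : S_PP) : S_DU := by
  intro t Y ht hY hD
  exact ⟨hFib _ _ hD fun m hm => DUAux.denseF1 hAn hMA hDt hLin hBrg hPP ht hY hm,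
    hFib _ _ hD fun m hm => DUAux.denseF2 hAn hMA hDt hLin hBrg ht hY hm⟩

end Pool.Agent.MP62a5ad.PN
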