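import Mathlib

/-!
# MP_62a5ad_mp: Liouville integrability of `T_{I,I}` on the space `P_{3,2}`, definitions

A point of the real projective space of dimension 3 is given by a nonzero vector of `ℝ⁴`, a twisted
2-gon by vectors `v k`, `k ∈ ℤ`, and an invertible matrix `M` with `v (k + 2) = M v k`. `I = (a, b)`.
The space `P_{3,2}` has dimension 6.
-/

set_option autoImplicit false

namespace Pool.Agent.MP62a5ad.PN

open Matrix
open scoped ContDiff

/-- Vectors. -/
abbrev V4 : Type := Fin 4 → ℝ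

/-- Matrices. -/
abbrev M4 : Type := Matrix (Fin 4) (Fin 4) ℝ

/-- The space of the coordinates. -/
abbrev E6 : Type := Fin 6 → ℝ

/-- Matrices of bivectors. -/
abbrev M6 : Type := Matrix (Fin 6) (Fin 6) ℝ

/-! ### Twisted 2-gons, the map `T_{I,I}`, projective equivalence -/

/-- The vectors `v k` represent a twisted 2-gon with the monodromy `M`. -/
def Tw (M : M4) (v : ℤ → V4) : Prop := M.det ≠ 0 ∧ ∀ k, v (k + 2) = M *ᵥ v k

/-- The subspace `P_k`, spanned by the vertices `v_k`, `v_{k+a}`, `v_{k+a+b}`. -/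
def plane (a b : ℕ) (v : ℤ → V4) (k : ℤ) : Submodule ℝ V4 :=
  Submodule.span ℝ {v k, v (k + a), v (k + a + b)}

/-- `T_{I,I}` is defined at the polygon `v`, and the vectors `w k` represent its image: all `P_k` are
planes, and `w k` spans the intersection of `P_k`, `P_{k+a}`, `P_{k+a+b}`. -/
def IsImage (a b : ℕ) (v w : ℤ → V4) : Prop :=
  ∀ k, Module.finrank ℝ (plane a b v k) = 3 ∧ w k ≠ 0 ∧
    plane a b v k ⊓ plane a b v (k + a) ⊓ plane a b v (k + a + b) = Submodule.span ℝ {w k}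

/-- Projective equivalence of the twisted polygons `(M, v)` and `(M', v')`. -/
def PEq (M : M4) (v : ℤ → V4) (M' : M4) (v' : ℤ → V4) : Prop :=
  ∃ g : M4, g.det ≠ 0 ∧ (∃ c : ℝ, c ≠ 0 ∧ g * M = c • (M' * g)) ∧
    ∀ k, ∃ c : ℝ, c ≠ 0 ∧ g *ᵥ v k = c • v' k

/-! ### Coordinates on `P_{3,2}` -/

/-- The matrix with the characteristic polynomial `x⁴ - x³ + y₀ x² - y₁ x + y₂`. -/
def mono (y : E6) : M4 := !![0, 0, 0, -y 2; 1, 0, 0, y 1; 0, 1, 0, -y 0; 0, 0, 1, 1]

/-- The vector `(1, 0, 0, 0)`. -/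
def e0 : V4 := ![1, 0, 0, 0]

/-- The vector `(1, y₃, y₄, y₅)`. -/
def x0 (y : E6) : V4 := ![1, y 3, y 4, y 5]

/-- `v` is the polygon with the coordinates `y`. -/
def Pol (y : E6) (v : ℤ → V4) : Prop := Tw (mono y) v ∧ v 0 = e0 ∧ v 1 = x0 y

/-- `T_{I,I}` is defined at the class with the coordinates `y` and maps it to the class with the
coordinates `y'`. -/
def Maps (a b : ℕ) (y y' : E6) : Prop :=
  ∃ v w v' : ℤ → V4, Pol y v ∧ Pol y' v' ∧ IsImage a b v w ∧ PEq (mono y) w (mono y') v'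

/-- The data `(v_0, v_1, M)` of a twisted 2-gon. -/
abbrev Pt : Type := V4 × V4 × (Fin 4 → Fin 4 → ℝ)

/-- `v` is the polygon with the data `x`. -/
def PolAt (x : Pt) (v : ℤ → V4) : Prop :=
  Tw (Matrix.of x.2.2) v ∧ v 0 = x.1 ∧ v 1 = x.2.1

/-- The map `κ` is a coordinate system on a dense open subset of `P_{3,2}`: it is smooth on a dense
open set `O` of twisted 2-gons; the polygon with the data `x ∈ O` is projectively equivalent to the
polygon with the coordinates `κ x`; projectively equivalent polygons in `O` have the same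
coordinates; the polygons with the coordinates `y`, `y₂ ≠ 0`, are in `O` and have the coordinates
`y`. -/
def IsChart (O : Set Pt) (κ : Pt → E6) : Prop :=
  IsOpen O ∧ Dense O ∧ ContDiffOn ℝ ∞ κ O ∧
  (∀ x ∈ O, ∀ v, PolAt x v → ∃ v', Pol (κ x) v' ∧ PEq (Matrix.of x.2.2) v (mono (κ x)) v') ∧
  (∀ x ∈ O, ∀ x' ∈ O, ∀ v v', PolAt x v → PolAt x' v' →
    PEq (Matrix.of x.2.2) v (Matrix.of x'.2.2) v' → κ x = κ x') ∧
  ∀ y : E6, y 2 ≠ 0 → ((e0, x0 y, fun i j => mono y i j) : Pt) ∈ O ∧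
    κ (e0, x0 y, fun i j => mono y i j) = y

/-! ### Poisson structures and Liouville integrability on open subsets of `ℝ⁶` -/

/-- The partial derivative. -/
noncomputable def pd (F : E6 → ℝ) (i : Fin 6) (y : E6) : ℝ := fderiv ℝ F y (Pi.single i 1)

/-- The Jacobi matrix. -/
noncomputable def Jm (f : E6 → E6) (y : E6) : M6 := Matrix.of fun i j => pd (fun x => f x i) j y

/-- The bracket of two functions. -/
noncomputable def br (π : E6 → M6) (F G : E6 → ℝ) (y : E6) : ℝ :=
  ∑ i, ∑ j, π y i j * (pd F i y * pd G j y)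

/-- `π` is a Poisson structure on `U`: `br π` is a Poisson bracket for smooth functions. -/
structure IsPoisson (U : Set E6) (π : E6 → M6) : Prop where
  smooth : ∀ i j, ContDiffOn ℝ ∞ (fun y => π y i j) U
  skew : ∀ y ∈ U, ∀ i j, π y j i = -π y i j
  jacobi : ∀ F G H : E6 → ℝ, ContDiffOn ℝ ∞ F U → ContDiffOn ℝ ∞ G U → ContDiffOn ℝ ∞ H U →
    ∀ y ∈ U, br π F (br π G H) y + br π G (br π H F) y + br π H (br π F G) y = 0

/-- The map `f`, defined on the dense open set `U`, is Liouville integrable with the Poisson structure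
`π` of corank `p` and the functions `F i`: `π` has the rank `2 q`; it is invariant under `f`; the
`p + q` smooth functions `F i` are invariant under `f`, functionally independent, pairwise in
involution, and the first `p` of them are Casimirs. -/
structure LI (p q : ℕ) (U : Set E6) (f : E6 → E6) (π : E6 → M6) (F : Fin (p + q) → E6 → ℝ) :
    Prop where
  isOpen : IsOpen U
  dense : Dense U
  smooth : ContDiffOn ℝ ∞ f U
  dense' : Dense {y | y ∈ U ∧ f y ∈ U}
  poisson : IsPoisson U π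
  rank : ∀ y ∈ U, (π y).rank = 2 * q
  inv : ∀ y ∈ U, f y ∈ U → Jm f y * π y * (Jm f y)ᵀ = π (f y)
  smoothF : ∀ i, ContDiffOn ℝ ∞ (F i) U
  invF : ∀ i, ∀ y ∈ U, f y ∈ U → F i (f y) = F i y
  indep : ∀ y ∈ U, LinearIndependent ℝ fun i => fderiv ℝ (F i) y
  invol : ∀ i j, ∀ y ∈ U, br π (F i) (F j) y = 0
  casimir : ∀ i : Fin (p + q), (i : ℕ) < p → ∀ y ∈ U, ∀ k, ∑ j, π y k j * pd (F i) j y = 0

/-- `T_{I,I}`, `I = (a, b)`, is Liouville integrable on `P_{3,2}`, with a Poisson structure of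
corank `p` and rank `2 q`. -/
def Liouville (a b p q : ℕ) : Prop :=
  p + 2 * q = 6 ∧ ∃ (U : Set E6) (f : E6 → E6) (π : E6 → M6) (F : Fin (p + q) → E6 → ℝ),
    LI p q U f π F ∧ ∀ y ∈ U, Maps a b y (f y)

end Pool.Agent.MP62a5ad.PN
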