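import Pool.Agent.Lib.MP_62a5ad_mp.PN.Spec2
import Pool.Agent.Lib.MP_62a5ad_mp.PN.Map

/-!
# MP_62a5ad_mp, PN: the case `a = b` odd
-/

set_option autoImplicit false

namespace Pool.Agent.MP62a5ad.PN

open Matrix

namespace EqOAux

/-- linear independence of four vectors -/
def L4 {W : Type} [AddCommGroup W] [Module ℝ W] (x y z w : W) : Prop :=
  ∀ a b c d : ℝ, a • x + b • y + c • z + d • w = 0 → a = 0 ∧ b = 0 ∧ c = 0 ∧ d = 0

/-- if four consecutive vertices are always independent then the image is a shift -/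
theorem image (a : ℕ) (v : ℤ → V4)
    (h : ∀ k, L4 (v k) (v (k + a)) (v (k + a + a)) (v (k + a + a + a))) :
    IsImage a a v (fun k => v (k + a + a)) := by
  intro k
  refine ⟨?_, ?_, ?_⟩
  · have h3 : LinearIndependent ℝ ![v k, v (k + a), v (k + a + a)] := by
      rw [Fintype.linearIndependent_iff]
      intro g hg
      rw [Fin.sum_univ_three] at hg
      obtain ⟨h0, h1, h2, -⟩ := h k (g 0) (g 1) (g 2) 0 (by rw [zero_smul, add_zero]; exact hg)
      intro i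
      fin_cases i <;> assumption
    have h4 : plane a a v k = Submodule.span ℝ (Set.range ![v k, v (k + a), v (k + a + a)]) := by
      unfold plane
      congr 1
      ext x
      simp only [Set.mem_insert_iff, Set.mem_singleton_iff, Set.mem_range]
      constructor
      · rintro (rfl | rfl | rfl)
        · exact ⟨0, rfl⟩
        · exact ⟨1, rfl⟩
        · exact ⟨2, rfl⟩
      · rintro ⟨i, rfl⟩
        fin_cases i
        · exact Or.inl rfl
        · exact Or.inr (Or.inl rfl)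
        · exact Or.inr (Or.inr rfl)
    rw [h4, finrank_span_eq_card h3, Fintype.card_fin]
  · intro h0
    have h0' : v (k + a + a) = 0 := h0
    have h1 := (h k 0 0 1 0 (by rw [h0']; simp)).2.2.1
    exact one_ne_zero h1
  · apply le_antisymm
    · rintro x ⟨⟨h0, h1⟩, h2⟩
      have h0 : x ∈ Submodule.span ℝ {v k, v (k + a), v (k + a + a)} := h0
      have h1 : x ∈ Submodule.span ℝ {v (k + a), v (k + a + a), v (k + a + a + a)} := h1
      have h2 : x ∈ Submodule.span ℝ {v (k + a + a), v (k + a + a + a), v (k + a + a + a + a)} := h2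
      rw [Submodule.mem_span_triple] at h0 h1 h2
      obtain ⟨a0, a1, a2, rfl⟩ := h0
      obtain ⟨b1, b2, b3, hb⟩ := h1
      obtain ⟨c2, c3, c4, hc⟩ := h2
      obtain ⟨e1, -, -, -⟩ := h k a0 (a1 - b1) (a2 - b2) (-b3) (by
        have e : a0 • v k + (a1 - b1) • v (k + a) + (a2 - b2) • v (k + a + a) +
            (-b3) • v (k + a + a + a) = (a0 • v k + a1 • v (k + a) + a2 • v (k + a + a)) -
            (b1 • v (k + a) + b2 • v (k + a + a) + b3 • v (k + a + a + a)) := by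
          module
        rw [e, hb, sub_self])
      subst e1
      obtain ⟨e2, -, -, -⟩ := h (k + a) a1 (a2 - c2) (-c3) (-c4) (by
        have e : a1 • v (k + a) + (a2 - c2) • v (k + a + a) + (-c3) • v (k + a + a + a) +
            (-c4) • v (k + a + a + a + a) =
            ((0 : ℝ) • v k + a1 • v (k + a) + a2 • v (k + a + a)) -
            (c2 • v (k + a + a) + c3 • v (k + a + a + a) + c4 • v (k + a + a + a + a)) := by
          module
        rw [e, hc, sub_self])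
      subst e2
      rw [Submodule.mem_span_singleton]
      exact ⟨a2, by simp⟩
    · rw [Submodule.span_singleton_le_iff_mem]
      refine ⟨⟨?_, ?_⟩, ?_⟩
      · exact Submodule.subset_span (by simp)
      · exact Submodule.subset_span (by simp)
      · exact Submodule.subset_span (by simp)

theorem L4_map (P P' : M4) (hP : P' * P = 1) {x y z w : V4} (h : L4 x y z w) :
    L4 (P *ᵥ x) (P *ᵥ y) (P *ᵥ z) (P *ᵥ w) := by
  intro a b c d he
  apply h a b c d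
  have h1 : P *ᵥ (a • x + b • y + c • z + d • w) = 0 := by
    rw [← he]
    simp only [Matrix.mulVec_add, Matrix.mulVec_smul]
  have h2 : P' *ᵥ (P *ᵥ (a • x + b • y + c • z + d • w)) = 0 := by
    rw [h1, Matrix.mulVec_zero]
  rwa [Matrix.mulVec_mulVec, hP, Matrix.one_mulVec] at h2

section Alg

variable {A : Type} [CommRing A] [Algebra ℝ A] {τ : A} {b : Module.Basis (Fin 4) ℝ A} {p : V4}

theorem el_add (x y : A) : el b (x + y) = el b x + el b y := by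
  simp [el]

theorem el_smul (c : ℝ) (x : A) : el b (c • x) = c * el b x := by
  simp [el]

theorem el_sub (x y : A) : el b (x - y) = el b x - el b y := by
  simp [el]

theorem el_zero : el b (0 : A) = 0 := by
  simp [el]

/-- independence in the algebra -/
theorem liA (e0 : el b 1 = 0) (e1 : el b τ = 0) (e2 : el b (τ ^ 2) = 0) (e3 : el b (τ ^ 3) = 1)
    (X : A) (hX : H0 τ b X ≠ 0) : L4 1 X τ (τ * X) := by
  intro c0 c1 c2 c3 he
  have f0 : c1 * el b X + c3 * el b (τ * X) = 0 := by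
    have h := congrArg (el b) he
    rw [el_add, el_add, el_add, el_smul, el_smul, el_smul, el_smul, e0, e1, el_zero] at h
    linarith
  have f1 : c1 * el b (τ * X) + c3 * el b (τ ^ 2 * X) = 0 := by
    have h := congrArg (fun x => el b (τ * x)) he
    have h' : τ * (c0 • 1 + c1 • X + c2 • τ + c3 • (τ * X)) =
        c0 • τ + c1 • (τ * X) + c2 • τ ^ 2 + c3 • (τ ^ 2 * X) := by
      simp only [mul_add, mul_smul_comm, mul_one]
      ring_nf
    rw [h', el_add, el_add, el_add, el_smul, el_smul, el_smul, el_smul, e1, e2] at h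
    simp only [mul_zero, el_zero] at h
    linarith
  have f2 : c1 * H0 τ b X = 0 := by
    unfold H0
    linear_combination el b (τ ^ 2 * X) * f0 - el b (τ * X) * f1
  have f3 : c3 * H0 τ b X = 0 := by
    unfold H0
    linear_combination el b X * f1 - el b (τ * X) * f0
  have g1 : c1 = 0 := (mul_eq_zero.1 f2).resolve_right hX
  have g3 : c3 = 0 := (mul_eq_zero.1 f3).resolve_right hX
  subst g1
  subst g3
  have he' : c0 • (1 : A) + c2 • τ = 0 := by
    rw [← he]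
    simp
  have g2 : c2 = 0 := by
    have h := congrArg (fun x => el b (τ ^ 2 * x)) he'
    have h' : τ ^ 2 * (c0 • 1 + c2 • τ) = c0 • τ ^ 2 + c2 • τ ^ 3 := by
      simp only [mul_add, mul_smul_comm, mul_one]
      ring_nf
    rw [h', el_add, el_smul, el_smul, e2, e3] at h
    simp only [mul_zero, el_zero] at h
    linarith
  subst g2
  have g0 : c0 = 0 := by
    have h := congrArg (fun x => el b (τ ^ 3 * x)) he'
    have h' : τ ^ 3 * (c0 • 1 + (0 : ℝ) • τ) = c0 • τ ^ 3 := by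
      simp
    rw [h', el_smul, e3] at h
    simp only [mul_zero, el_zero] at h
    linarith
  exact ⟨g0, rfl, rfl, rfl⟩

theorem mulinv (x y : A) (hxy : x * y = 1) (c0 c1 c2 c3 : ℝ)
    (he : c0 • x + c1 • τ + c2 • (τ * x) + c3 • (τ * τ) = 0) :
    c0 • 1 + c1 • (τ * y) + c2 • τ + c3 • (τ * (τ * y)) = 0 := by
  have h1 : (c0 • x + c1 • τ + c2 • (τ * x) + c3 • (τ * τ)) * y = 0 := by
    rw [he, zero_mul]
  simp only [add_mul, smul_mul_assoc, mul_assoc] at h1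
  rw [hxy, mul_one] at h1
  exact h1

theorem H0_smul (c : ℝ) (X : A) : H0 τ b (c • X) = c ^ 2 * H0 τ b X := by
  unfold H0
  rw [mul_smul_comm, mul_smul_comm, el_smul, el_smul, el_smul]
  ring

theorem H0_X0 (e1 : el b τ = 0) (e2 : el b (τ ^ 2) = 0) (e3 : el b (τ ^ 3) = 1) (e0 : el b 1 = 0)
    (s u C : ℝ) (X : A) (hX : (τ - s • 1) * X = qe τ u C) : H0 τ b X = el b X := by
  have h1 : τ * X = s • X + qe τ u C := by
    rw [← hX, sub_mul, smul_mul_assoc, one_mul]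
    abel
  have h2 : τ ^ 2 * X = s • (s • X + qe τ u C) + (τ ^ 3 + u • τ ^ 2 + C • τ) := by
    rw [pow_two, mul_assoc, h1, mul_add, mul_smul_comm, h1]
    unfold qe
    simp only [mul_add, mul_smul_comm, mul_one]
    ring_nf
  have h3 : el b (qe τ u C) = 0 := by
    unfold qe
    rw [el_add, el_add, el_smul, el_smul, e2, e1, e0]
    ring
  unfold H0
  rw [h2, h1]
  simp only [el_add, el_smul, h3, e1, e2, e3]
  ring

end Alg

/-- transfer from the algebra to the vectors -/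
theorem L4_iota {A : Type} [CommRing A] [Algebra ℝ A] (ι : A →ₐ[ℝ] M4)
    (hinj : ∀ a a', ι a *ᵥ e0 = ι a' *ᵥ e0 → a = a') {x y z w : A} (h : L4 x y z w) :
    L4 (ι x *ᵥ e0) (ι y *ᵥ e0) (ι z *ᵥ e0) (ι w *ᵥ e0) := by
  intro a b c d he
  apply h a b c d
  apply hinj
  rw [map_zero, Matrix.zero_mulVec, ← he]
  simp only [map_add, map_smul, Matrix.add_mulVec, Matrix.smul_mulVec]

/-- the polygon as a shift by matrices -/
theorem poly_at (M : M4) (hM : IsUnit M.det) (a0 a1 : V4) (r k j1 j2 : ℤ) (h : k = r + 2 * (j1 + j2)) :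
    MapAux.poly M a0 a1 k = M ^ j1 *ᵥ (M ^ j2 *ᵥ MapAux.poly M a0 a1 r) := by
  rw [h, MapAux.poly_add M hM, Matrix.zpow_add hM, Matrix.mulVec_mulVec]

theorem poly_at3 (M : M4) (hM : IsUnit M.det) (a0 a1 : V4) (r k j1 j2 j3 : ℤ)
    (h : k = r + 2 * (j1 + (j2 + j3))) :
    MapAux.poly M a0 a1 k = M ^ j1 *ᵥ (M ^ j2 *ᵥ (M ^ j3 *ᵥ MapAux.poly M a0 a1 r)) := by
  rw [h, MapAux.poly_add M hM, Matrix.zpow_add hM, Matrix.zpow_add hM, Matrix.mulVec_mulVec,
    Matrix.mulVec_mulVec, Matrix.mul_assoc]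

/-- independence of the vertices from the independence of four vectors -/
theorem vert (M : M4) (hM : IsUnit M.det) (v1 : V4) (a : ℕ) (m : ℤ) (hm : (a : ℤ) = 2 * m + 1)
    (h0 : L4 e0 (M ^ m *ᵥ v1) (M ^ (a : ℤ) *ᵥ e0) (M ^ (a : ℤ) *ᵥ (M ^ m *ᵥ v1)))
    (h1 : L4 (M ^ m *ᵥ v1) (M ^ (a : ℤ) *ᵥ e0) (M ^ (a : ℤ) *ᵥ (M ^ m *ᵥ v1))
      (M ^ (a : ℤ) *ᵥ (M ^ (a : ℤ) *ᵥ e0))) (k : ℤ) :
    L4 (MapAux.poly M e0 v1 k) (MapAux.poly M e0 v1 (k + a)) (MapAux.poly M e0 v1 (k + a + a))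
      (MapAux.poly M e0 v1 (k + a + a + a)) := by
  have hinv : ∀ j : ℤ, M ^ (-j) * M ^ j = 1 := fun j => Matrix.zpow_neg_mul_zpow_self j hM
  rcases Int.even_or_odd' k with ⟨i, hi | hi⟩
  · have e1 : MapAux.poly M e0 v1 k = M ^ i *ᵥ e0 := by
      have h := poly_at M hM e0 v1 0 k i 0 (by omega)
      rw [h, MapAux.poly_zero, zpow_zero, Matrix.one_mulVec]
    have e2 : MapAux.poly M e0 v1 (k + a) = M ^ i *ᵥ (M ^ m *ᵥ v1) := by
      have h := poly_at M hM e0 v1 1 (k + a) i m (by omega)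
      rw [h, MapAux.poly_one]
    have e3 : MapAux.poly M e0 v1 (k + a + a) = M ^ i *ᵥ (M ^ (a : ℤ) *ᵥ e0) := by
      have h := poly_at M hM e0 v1 0 (k + a + a) i a (by omega)
      rw [h, MapAux.poly_zero]
    have e4 : MapAux.poly M e0 v1 (k + a + a + a) = M ^ i *ᵥ (M ^ (a : ℤ) *ᵥ (M ^ m *ᵥ v1)) := by
      have h := poly_at3 M hM e0 v1 1 (k + a + a + a) i a m (by omega)
      rw [h, MapAux.poly_one]
    rw [e1, e2, e3, e4]
    exact L4_map _ _ (hinv i) h0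
  · have e1 : MapAux.poly M e0 v1 k = M ^ (i - m) *ᵥ (M ^ m *ᵥ v1) := by
      have h := poly_at M hM e0 v1 1 k (i - m) m (by omega)
      rw [h, MapAux.poly_one]
    have e2 : MapAux.poly M e0 v1 (k + a) = M ^ (i - m) *ᵥ (M ^ (a : ℤ) *ᵥ e0) := by
      have h := poly_at M hM e0 v1 0 (k + a) (i - m) a (by omega)
      rw [h, MapAux.poly_zero]
    have e3 : MapAux.poly M e0 v1 (k + a + a) = M ^ (i - m) *ᵥ (M ^ (a : ℤ) *ᵥ (M ^ m *ᵥ v1)) := by
      have h := poly_at3 M hM e0 v1 1 (k + a + a) (i - m) a m (by omega)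
      rw [h, MapAux.poly_one]
    have e4 : MapAux.poly M e0 v1 (k + a + a + a) =
        M ^ (i - m) *ᵥ (M ^ (a : ℤ) *ᵥ (M ^ (a : ℤ) *ᵥ e0)) := by
      have h := poly_at3 M hM e0 v1 0 (k + a + a + a) (i - m) a a (by omega)
      rw [h, MapAux.poly_zero]
    rw [e1, e2, e3, e4]
    exact L4_map _ _ (hinv (i - m)) h1

/-- the two independent quadruples -/
theorem quad (hLin : S_Lin) (hBrg : S_Brg) (t Y : E6 → M4) (mt : MFam t) (mY : MFam Y) (z : E6)
    (hzD : z ∈ DD t) (hdQ : (Qm t z).det ≠ 0) (hh : hs (mq t t z) (z 3) 1 ≠ 0) (hz2 : z ∈ U2 t Y) :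
    L4 e0 (Y z *ᵥ ((xv t Y z 0)⁻¹ • xv t Y z)) (t z *ᵥ e0)
      (t z *ᵥ (Y z *ᵥ ((xv t Y z 0)⁻¹ • xv t Y z))) ∧
    L4 (Y z *ᵥ ((xv t Y z 0)⁻¹ • xv t Y z)) (t z *ᵥ e0)
      (t z *ᵥ (Y z *ᵥ ((xv t Y z 0)⁻¹ • xv t Y z))) (t z *ᵥ (t z *ᵥ e0)) := by
  obtain ⟨A, i1, i2, ι, b, τ, hFr, hτ, hinj, hιc, hιs, -, hel, -, -, hinj0, hinv⟩ :=
    hBrg t mt z hzD
  obtain ⟨⟨l0, l1, l2, l3⟩, -, -, -, -, -, -, l8, -⟩ := hLin A τ b (pc t z) hFr
  have htd : IsUnit (t z).det := isUnit_iff_ne_zero.mpr (mt.ndet z hzD.1)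
  have hYd : IsUnit (Y z).det := isUnit_iff_ne_zero.mpr (mY.ndet z hzD.1)
  have hξ : xv t Y z 0 ≠ 0 := hz2.2.2.2
  have hιs' : ι (τ - z 3 • (1 : A)) = t z - z 3 • (1 : M4) := by
    rw [map_sub, map_smul, map_one, hτ]
  have hιQ : ι (qe τ (z 4) (z 5)) = Qm t z := by
    simp only [qe, map_add, map_smul, map_pow, map_one, hτ, Qm]
  obtain ⟨σ, hσ1, hσ2⟩ := hinv (τ - z 3 • (1 : A)) (by rw [hιs']; exact hz2.2.1)
  obtain ⟨q, hq1, hq2⟩ := hinv (qe τ (z 4) (z 5)) (by rw [hιQ]; exact hdQ)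
  rw [hιs'] at hσ2
  rw [hιQ] at hq2
  have hX : ι (qe τ (z 4) (z 5) * σ) = X0 t z := by
    rw [map_mul, hιQ, hσ2]
    rfl
  have hXs : (τ - z 3 • (1 : A)) * (qe τ (z 4) (z 5) * σ) = qe τ (z 4) (z 5) := by
    rw [mul_comm (qe τ (z 4) (z 5)) σ, ← mul_assoc, hσ1, one_mul]
  have hH : H0 τ b (qe τ (z 4) (z 5) * σ) ≠ 0 := by
    rw [H0_X0 l1 l2 l3 l0 (z 3) (z 4) (z 5) _ hXs]
    intro h
    have h2 := l8 (z 3) (z 4) (z 5) σ hσ1
    rw [h, mul_zero] at h2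
    exact hz2.2.2.1 (by linarith)
  -- the vector `x`
  have hx : Y z *ᵥ ((xv t Y z 0)⁻¹ • xv t Y z) =
      ι ((xv t Y z 0)⁻¹ • (qe τ (z 4) (z 5) * σ)) *ᵥ e0 := by
    rw [map_smul, hX, Matrix.mulVec_smul, Matrix.smul_mulVec]
    congr 1
    have e : xv t Y z = ((Y z)⁻¹ * X0 t z) *ᵥ e0 := rfl
    rw [e, Matrix.mulVec_mulVec, ← Matrix.mul_assoc, Matrix.mul_nonsing_inv _ hYd, Matrix.one_mul]
  -- the moments
  have hn : ∀ j : ℕ, mq t t z j = el b (τ ^ j * q) := by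
    intro j
    have e : mq t t z j = ell t z ((t z) ^ j * ((t z)⁻¹ * t z * (Qm t z)⁻¹)) := rfl
    rw [e, Matrix.nonsing_inv_mul _ htd, Matrix.one_mul, hel, map_mul, map_pow, hτ, hq2]
  have hH1 : H0 τ b (τ * ((τ - z 3 • (1 : A)) * q)) ≠ 0 := by
    intro h
    apply hh
    unfold hs
    rw [hn, hn, hn, hn]
    have f1 : τ * ((τ - z 3 • (1 : A)) * q) = τ ^ 2 * q - z 3 • (τ ^ 1 * q) := by
      rw [sub_mul, mul_sub, smul_mul_assoc, one_mul, mul_smul_comm, pow_one]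
      ring_nf
    have f2 : τ * (τ * ((τ - z 3 • (1 : A)) * q)) = τ ^ 3 * q - z 3 • (τ ^ 2 * q) := by
      rw [f1, mul_sub, mul_smul_comm]
      ring_nf
    have f3 : τ ^ 2 * (τ * ((τ - z 3 • (1 : A)) * q)) = τ ^ 4 * q - z 3 • (τ ^ 3 * q) := by
      rw [f1, mul_sub, mul_smul_comm]
      ring_nf
    unfold H0 at h
    rw [f3, f2, f1] at h
    simp only [el_sub, el_smul] at h
    exact h
  have hξi : (xv t Y z 0)⁻¹ ≠ 0 := inv_ne_zero hξ
  constructor
  · have h := liA l0 l1 l2 l3 ((xv t Y z 0)⁻¹ • (qe τ (z 4) (z 5) * σ)) (by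
      rw [H0_smul]
      exact mul_ne_zero (pow_ne_zero 2 hξi) hH)
    have h2 := L4_iota ι hinj0 h
    rw [map_one, Matrix.one_mulVec, hτ, map_mul, hτ, ← Matrix.mulVec_mulVec, ← hx] at h2
    exact h2
  · have h := liA l0 l1 l2 l3 (xv t Y z 0 • (τ * ((τ - z 3 • (1 : A)) * q))) (by
      rw [H0_smul]
      exact mul_ne_zero (pow_ne_zero 2 hξ) hH1)
    have h1 : L4 ((xv t Y z 0)⁻¹ • (qe τ (z 4) (z 5) * σ)) τ
        (τ * ((xv t Y z 0)⁻¹ • (qe τ (z 4) (z 5) * σ))) (τ * τ) := by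
      intro c0 c1 c2 c3 he
      have hXi : ((xv t Y z 0)⁻¹ • (qe τ (z 4) (z 5) * σ)) *
          (xv t Y z 0 • ((τ - z 3 • (1 : A)) * q)) = 1 := by
        rw [smul_mul_smul_comm, inv_mul_cancel₀ hξ, one_smul]
        calc qe τ (z 4) (z 5) * σ * ((τ - z 3 • (1 : A)) * q)
            = ((τ - z 3 • (1 : A)) * σ) * (qe τ (z 4) (z 5) * q) := by ring
          _ = 1 := by rw [hσ1, hq1, one_mul]
      obtain ⟨g0, g1, g2, g3⟩ := h c0 c1 c2 c3 (by
        have e1 := mulinv _ _ hXi c0 c1 c2 c3 he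
        rw [mul_smul_comm] at e1
        exact e1)
      exact ⟨g0, g1, g2, g3⟩
    have h2 := L4_iota ι hinj0 h1
    rw [map_mul, map_mul, hτ, ← Matrix.mulVec_mulVec, ← Matrix.mulVec_mulVec, ← hx] at h2
    exact h2

end EqOAux

open EqOAux MapAux in
theorem tEqO (hDC : S_DC) (hFam : S_Fam) (_hDt : S_Dt) (hSm : S_Sm) (hLin : S_Lin) (hBrg : S_Brg)
    (hPP : S_PP) (hDM : S_DM) (hDU : S_DU) (hDen : S_Den) : S_EqO := by
  intro a ha
  obtain ⟨m, hm⟩ := ha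
  have hm' : (a : ℤ) = 2 * (m : ℤ) + 1 := by
    rw [hm]
    push_cast
    ring
  obtain ⟨t, ht⟩ : ∃ t : E6 → M4, t = Mz a := ⟨_, rfl⟩
  obtain ⟨Y, hY⟩ : ∃ Y : E6 → M4, Y = Mz m := ⟨_, rfl⟩
  have mt : MFam t := by rw [ht]; exact hFam.2.2.1 _
  have mY : MFam Y := by rw [hY]; exact hFam.2.2.1 _
  have dD : Dense (DD t) := by rw [ht]; exact hDen.1 a (by omega)
  obtain ⟨-, -, -, -, -, oW, -, -, -, -, -, o1, a1, o2, a2⟩ := hSm t t Y mt mt mY
  have dW : Dense {z | (z ∈ DD t ∧ (Qm t z).det ≠ 0) ∧ hs (mq t t z) (z 3) 1 ≠ 0} :=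
    ((hDM t t mt mt dD).2).mono fun z hz => ⟨hz.1, hz.2.2⟩
  obtain ⟨d1, d2⟩ := hDU t Y mt mY dD
  obtain ⟨p1, p2, p3, p4⟩ := hPP t Y mt mY
  have c1 : ContinuousOn (Psi t Y) (U1 t Y) := continuousOn_pi.2 fun i => (a1 i).continuousOn
  have c2 : ContinuousOn (Phi t Y) (U2 t Y) := continuousOn_pi.2 fun i => (a2 i).continuousOn
  obtain ⟨oU, dU⟩ := hDC _ _ _ _ _ o1 o2 c1 c2 p1 p2 p3 p4 d1 oW dW
  refine ⟨_, oU, dU, ?_⟩
  rintro y ⟨hy1, ⟨hzD, hdQ⟩, hh⟩
  have hz2 := p1 hy1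
  have hyz := p3 y hy1
  obtain ⟨z, hz⟩ : ∃ z, z = Psi t Y y := ⟨_, rfl⟩
  rw [← hz] at hzD hdQ hh hz2 hyz
  have hq := quad hLin hBrg t Y mt mY z hzD hdQ hh hz2
  have hdet : (mono z).det ≠ 0 := by
    rw [hFam.1]
    exact hzD.1
  have hM : IsUnit (mono z).det := isUnit_iff_ne_zero.mpr hdet
  have hty : t z = (mono z) ^ (a : ℤ) := by rw [ht]; rfl
  have hYy : Y z = (mono z) ^ (m : ℤ) := by rw [hY]; rfl
  have hv := vert (mono z) hM ((xv t Y z 0)⁻¹ • xv t Y z) a m hm'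
    (by rw [← hty, ← hYy]; exact hq.1) (by rw [← hty, ← hYy]; exact hq.2)
  have hx0 : x0 y = (xv t Y z 0)⁻¹ • xv t Y z := by
    rw [← hyz]
    exact x0_Phi t Y z hz2.2.2.2
  have hmy : mono y = mono z := by
    rw [← hyz]
    exact mono_eq _ _ rfl rfl rfl
  rw [← hx0] at hv
  have hP : Pol y (poly (mono z) e0 (x0 y)) := by
    refine ⟨?_, poly_zero _ _ _, poly_one _ _ _⟩
    rw [hmy]
    exact poly_tw _ hdet _ _
  refine ⟨_, _, _, hP, hP, image a _ hv, ?_⟩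
  rw [hmy]
  refine ⟨(mono z) ^ (-(a : ℤ)), (hM.det_zpow _).ne_zero, ⟨1, one_ne_zero, ?_⟩, fun k => ⟨1, one_ne_zero, ?_⟩⟩
  · rw [one_smul]
    exact (Matrix.Commute.zpow_self (mono z) (-(a : ℤ))).eq
  · have e : k + (a : ℤ) + a = k + 2 * (a : ℤ) := by ring
    change (mono z) ^ (-(a : ℤ)) *ᵥ poly (mono z) e0 (x0 y) (k + a + a) = _
    rw [e, poly_add _ hM, Matrix.mulVec_mulVec, Matrix.zpow_neg_mul_zpow_self _ hM, Matrix.one_mulVec,
      one_smul]

end Pool.Agent.MP62a5ad.PN
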