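import Pool.Agent.Lib.MP_62a5ad_mp.PN.Spec

set_option autoImplicit false

namespace Pool.Agent.MP62a5ad.PN

open Matrix
open scoped ContDiff

namespace FamAux

theorem det_mono (z : E6) : (mono z).det = z 2 := by
  unfold mono
  simp [Matrix.det_succ_row_zero, Fin.sum_univ_succ, Fin.succAbove]
  ring

theorem m0 (z : E6) : mono z *ᵥ ![1, 0, 0, 0] = ![0, 1, 0, 0] := by
  unfold mono
  ext i
  fin_cases i <;> simp [Matrix.mulVec, dotProduct, Fin.sum_univ_succ]

theorem m1 (z : E6) : mono z *ᵥ ![0, 1, 0, 0] = ![0, 0, 1, 0] := by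
  unfold mono
  ext i
  fin_cases i <;> simp [Matrix.mulVec, dotProduct, Fin.sum_univ_succ]

theorem m2 (z : E6) : mono z *ᵥ ![0, 0, 1, 0] = ![0, 0, 0, 1] := by
  unfold mono
  ext i
  fin_cases i <;> simp [Matrix.mulVec, dotProduct, Fin.sum_univ_succ]

theorem p0 (z : E6) : (mono z) ^ 0 *ᵥ e0 = ![1, 0, 0, 0] := by
  rw [pow_zero, Matrix.one_mulVec]
  rfl

theorem p1 (z : E6) : (mono z) ^ 1 *ᵥ e0 = ![0, 1, 0, 0] := by
  rw [pow_one]
  exact m0 z

theorem p2 (z : E6) : (mono z) ^ 2 *ᵥ e0 = ![0, 0, 1, 0] := by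
  rw [pow_succ', ← Matrix.mulVec_mulVec, p1, m1]

theorem p3 (z : E6) : (mono z) ^ 3 *ᵥ e0 = ![0, 0, 0, 1] := by
  rw [pow_succ', ← Matrix.mulVec_mulVec, p2, m2]

/-- A matrix which commutes with `M` and kills `e0` is zero. -/
theorem kill (z : E6) (D : M4) (hD : Commute D (mono z)) (h0 : D *ᵥ e0 = 0) : D = 0 := by
  have hj : ∀ j : ℕ, D *ᵥ ((mono z) ^ j *ᵥ e0) = 0 := by
    intro j
    rw [Matrix.mulVec_mulVec, (hD.pow_right j).eq, ← Matrix.mulVec_mulVec, h0, Matrix.mulVec_zero]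
  have h0' := hj 0
  have h1' := hj 1
  have h2' := hj 2
  have h3' := hj 3
  rw [p0] at h0'
  rw [p1] at h1'
  rw [p2] at h2'
  rw [p3] at h3'
  ext i j
  have c0 := congrFun h0' i
  have c1 := congrFun h1' i
  have c2 := congrFun h2' i
  have c3 := congrFun h3' i
  simp [Matrix.mulVec, dotProduct, Fin.sum_univ_succ] at c0 c1 c2 c3
  fin_cases j
  · exact c0
  · exact c1
  · exact c2
  · exact c3

theorem rep (z : E6) (g : M4) (hg : Commute g (mono z)) :
    g = (g *ᵥ e0) 0 • (mono z) ^ 0 + (g *ᵥ e0) 1 • (mono z) ^ 1 + (g *ᵥ e0) 2 • (mono z) ^ 2 +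
      (g *ᵥ e0) 3 • (mono z) ^ 3 := by
  rw [← sub_eq_zero]
  apply kill z
  · have hp : ∀ (c : ℝ) (n : ℕ), Commute (c • (mono z) ^ n) (mono z) := fun c n =>
      ((Commute.refl (mono z)).pow_left n).smul_left c
    exact hg.sub_left ((((hp _ _).add_left (hp _ _)).add_left (hp _ _)).add_left (hp _ _))
  · rw [Matrix.sub_mulVec, Matrix.add_mulVec, Matrix.add_mulVec, Matrix.add_mulVec,
      Matrix.smul_mulVec, Matrix.smul_mulVec, Matrix.smul_mulVec, Matrix.smul_mulVec, p0, p1, p2, p3]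
    ext i
    fin_cases i <;> simp

theorem comm (z : E6) (g h : M4) (hg : g * mono z = mono z * g) (hh : h * mono z = mono z * h) :
    g * h = h * g := by
  have hh' : Commute h (mono z) := hh
  have hp : ∀ (c : ℝ) (n : ℕ), Commute (c • (mono z) ^ n) h := fun c n =>
    ((hh'.symm).pow_left n).smul_left c
  have h1 := ((((hp ((g *ᵥ e0) 0) 0).add_left (hp ((g *ᵥ e0) 1) 1)).add_left
    (hp ((g *ᵥ e0) 2) 2)).add_left (hp ((g *ᵥ e0) 3) 3))
  rw [← rep z g hg] at h1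
  exact h1

theorem inv_com {A M : M4} (h : A * M = M * A) : A⁻¹ * M = M * A⁻¹ := by
  have h1 : Commute A M := h
  have h2 := Matrix.Commute.zpow_left h1 (-1)
  rw [Matrix.zpow_neg_one] at h2
  exact h2

theorem coord_an (U : Set E6) (i : Fin 6) : AnalyticOnNhd ℝ (fun z : E6 => z i) U :=
  (ContinuousLinearMap.proj (R := ℝ) (φ := fun _ : Fin 6 => ℝ) i).analyticOnNhd U

theorem mono_an (U : Set E6) : AM U mono := by
  intro i j
  fin_cases i <;> fin_cases j <;> simp [mono] <;>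
    first
    | exact analyticOnNhd_const
    | exact coord_an U _
    | exact (coord_an U _).neg

theorem mono_dep {z z' : E6} (h0 : z 0 = z' 0) (h1 : z 1 = z' 1) (h2 : z 2 = z' 2) :
    mono z = mono z' := by
  unfold mono
  rw [h0, h1, h2]

theorem det_pow_ne {A : M4} (h : A.det ≠ 0) (n : ℕ) : (A ^ n).det ≠ 0 := by
  rw [Matrix.det_pow]
  exact pow_ne_zero n h

theorem det_inv_ne {A : M4} (h : A.det ≠ 0) : (A⁻¹).det ≠ 0 := by
  rw [Matrix.det_nonsing_inv, Ring.inverse_eq_inv']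
  exact inv_ne_zero h

theorem fam_Mz (hMA : S_MA) (k : ℤ) : MFam (Mz k) := by
  have hMA' := hMA E6 {z | z 2 ≠ 0}
  have hd : ∀ z : E6, z 2 ≠ 0 → (mono z).det ≠ 0 := fun z hz => by rwa [det_mono]
  refine ⟨?_, ?_, ?_, ?_⟩
  · rcases Int.eq_nat_or_neg k with ⟨n, rfl | rfl⟩
    · have h := hMA'.pow n mono (mono_an _)
      intro i j
      have := h i j
      simpa [Mz] using this
    · have h := hMA'.inv (fun z => mono z ^ n) (hMA'.pow n mono (mono_an _))
        (fun z hz => det_pow_ne (hd z hz) n)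
      intro i j
      have := h i j
      simpa [Mz, Matrix.zpow_neg_natCast] using this
  · intro z z' h0 h1 h2
    unfold Mz
    rw [mono_dep h0 h1 h2]
  · intro z _
    exact Matrix.Commute.zpow_self (mono z) k
  · intro z hz
    have h1 : IsUnit (mono z).det := isUnit_iff_ne_zero.2 (hd z hz)
    exact (h1.det_zpow k).ne_zero

theorem fam_rho (hMA : S_MA) (Y : E6 → M4) (hY : MFam Y) : MFam (rho Y) := by
  have hMA' := hMA E6 {z | z 2 ≠ 0}
  refine ⟨hMA'.mul _ _ (mono_an _) (hMA'.pow 2 Y hY.an), ?_, ?_, ?_⟩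
  · intro z z' h0 h1 h2
    unfold rho
    rw [mono_dep h0 h1 h2, hY.dep z z' h0 h1 h2]
  · intro z hz
    have h1 : Commute (Y z) (mono z) := hY.com z hz
    exact ((Commute.refl (mono z)).mul_left (h1.pow_left 2)).eq
  · intro z hz
    unfold rho
    rw [Matrix.det_mul, det_mono]
    exact mul_ne_zero hz (det_pow_ne (hY.ndet z hz) 2)

theorem fam_dual (hMA : S_MA) (t θ : E6 → M4) (ht : MFam t) (hθ : MFam θ) :
    MFam (dual t θ) := by
  have hMA' := hMA E6 {z | z 2 ≠ 0}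
  refine ⟨hMA'.mul _ _ (hMA'.pow 2 t ht.an) (hMA'.inv θ hθ.an hθ.ndet), ?_, ?_, ?_⟩
  · intro z z' h0 h1 h2
    unfold dual
    rw [ht.dep z z' h0 h1 h2, hθ.dep z z' h0 h1 h2]
  · intro z hz
    have h1 : Commute (t z) (mono z) := ht.com z hz
    have h2 : Commute (θ z)⁻¹ (mono z) := inv_com (hθ.com z hz)
    exact ((h1.pow_left 2).mul_left h2).eq
  · intro z hz
    unfold dual
    rw [Matrix.det_mul]
    exact mul_ne_zero (det_pow_ne (ht.ndet z hz) 2) (det_inv_ne (hθ.ndet z hz))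

end FamAux

open FamAux in
theorem tFam (hMA : S_MA) : S_Fam := by
  refine ⟨det_mono, comm, fam_Mz hMA, fam_rho hMA, ?_⟩
  intro t θ ht hθ
  refine ⟨fam_dual hMA t θ ht hθ, ?_⟩
  intro z hz
  have h1 : IsUnit (θ z).det := isUnit_iff_ne_zero.2 (hθ.ndet z hz)
  have h2 : IsUnit ((t z) ^ 2).det := isUnit_iff_ne_zero.2 (det_pow_ne (ht.ndet z hz) 2)
  have h3 : (t z) ^ 2 * θ z = θ z * (t z) ^ 2 := by
    have h4 : Commute (t z) (θ z) := comm z _ _ (ht.com z hz) (hθ.com z hz)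
    exact (h4.pow_left 2).eq
  unfold dual
  rw [Matrix.mul_inv_rev, Matrix.nonsing_inv_nonsing_inv _ h1, ← mul_assoc, h3, mul_assoc,
    Matrix.mul_nonsing_inv _ h2, mul_one]

end Pool.Agent.MP62a5ad.PN
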