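import Pool.Agent.Lib.MP_62a5ad_mp.PN.Spec2
import Pool.Agent.Lib.MP_62a5ad_mp.PN.Map
import Pool.Agent.Lib.MP_62a5ad_mp.PN.Fam

/-!
# MP_62a5ad_mp, PN: the case `a`, `b` even
-/

set_option autoImplicit false

namespace Pool.Agent.MP62a5ad.PN

open Matrix

namespace EvEAux

/-! ### The cross product of three vectors of `ℝ⁴` -/

/-- the vector with `X u v w ⬝ᵥ x = det (u, v, w, x)` -/
noncomputable def X (u v w : V4) : V4 := fun i => (Matrix.of ![u, v, w, Pi.single i 1]).det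

theorem det4 (B : M4) : B.det =
    B 0 0 * (B 1 1 * (B 2 2 * B 3 3 - B 2 3 * B 3 2) - B 1 2 * (B 2 1 * B 3 3 - B 2 3 * B 3 1)
      + B 1 3 * (B 2 1 * B 3 2 - B 2 2 * B 3 1))
    - B 0 1 * (B 1 0 * (B 2 2 * B 3 3 - B 2 3 * B 3 2) - B 1 2 * (B 2 0 * B 3 3 - B 2 3 * B 3 0)
      + B 1 3 * (B 2 0 * B 3 2 - B 2 2 * B 3 0))
    + B 0 2 * (B 1 0 * (B 2 1 * B 3 3 - B 2 3 * B 3 1) - B 1 1 * (B 2 0 * B 3 3 - B 2 3 * B 3 0)
      + B 1 3 * (B 2 0 * B 3 1 - B 2 1 * B 3 0))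
    - B 0 3 * (B 1 0 * (B 2 1 * B 3 2 - B 2 2 * B 3 1) - B 1 1 * (B 2 0 * B 3 2 - B 2 2 * B 3 0)
      + B 1 2 * (B 2 0 * B 3 1 - B 2 1 * B 3 0)) := by
  rw [Matrix.det_succ_row_zero]
  simp only [Fin.sum_univ_succ, Matrix.det_fin_three, Matrix.submatrix_apply, Fin.succAbove]
  simp
  ring

theorem X_dot (u v w x : V4) : X u v w ⬝ᵥ x = (Matrix.of ![u, v, w, x]).det := by
  simp only [X, dotProduct, Fin.sum_univ_four, det4, Matrix.of_apply]
  simp
  ring

/-- a nonzero component gives a basis -/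
theorem X_ne (u v w : V4) (h : X u v w ≠ 0) :
    ∃ i : Fin 4, (Matrix.of ![u, v, w, Pi.single i 1]).det ≠ 0 := by
  by_contra hc
  push Not at hc
  apply h
  funext i
  exact hc i

theorem X_dot0 (u v w : V4) : X u v w ⬝ᵥ u = 0 := by
  rw [X_dot]
  exact Matrix.det_zero_of_row_eq (i := 0) (j := 3) (by decide) rfl

theorem X_dot1 (u v w : V4) : X u v w ⬝ᵥ v = 0 := by
  rw [X_dot]
  exact Matrix.det_zero_of_row_eq (i := 1) (j := 3) (by decide) rfl

theorem X_dot2 (u v w : V4) : X u v w ⬝ᵥ w = 0 := by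
  rw [X_dot]
  exact Matrix.det_zero_of_row_eq (i := 2) (j := 3) (by decide) rfl

/-- the kernel of `x ↦ X u v w ⬝ᵥ x` is spanned by `u, v, w` -/
theorem X_span (u v w : V4) (h : X u v w ≠ 0) (x : V4) (hx : X u v w ⬝ᵥ x = 0) :
    ∃ α β γ : ℝ, x = α • u + β • v + γ • w := by
  obtain ⟨i, hi⟩ := X_ne u v w h
  obtain ⟨B, hB⟩ : ∃ B : M4, B = Matrix.of ![u, v, w, Pi.single i 1] := ⟨_, rfl⟩
  rw [← hB] at hi
  have hu : IsUnit B.det := isUnit_iff_ne_zero.mpr hi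
  obtain ⟨y, hy⟩ : ∃ y : V4, y = x ᵥ* B⁻¹ := ⟨_, rfl⟩
  have h1 : x = y ᵥ* B := by
    rw [hy, Matrix.vecMul_vecMul, Matrix.nonsing_inv_mul _ hu, Matrix.vecMul_one]
  have h2 : x = y 0 • u + y 1 • v + y 2 • w + y 3 • Pi.single i 1 := by
    rw [h1, hB]
    funext j
    simp [Matrix.vecMul, dotProduct, Fin.sum_univ_four]
  have h3 : X u v w ⬝ᵥ x = y 3 * X u v w i := by
    rw [h2]
    simp only [dotProduct_add, dotProduct_smul, X_dot0, X_dot1, X_dot2]
    simp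
  have h4 : X u v w i ≠ 0 := by
    rw [hB] at hi
    exact hi
  have h5 : y 3 = 0 := by
    rw [hx] at h3
    exact (mul_eq_zero.1 h3.symm).resolve_right h4
  refine ⟨y 0, y 1, y 2, ?_⟩
  rw [h5, zero_smul, add_zero] at h2
  exact h2

/-- the vectors are independent -/
theorem X_ind (u v w : V4) (h : X u v w ≠ 0) (α β γ : ℝ) (h0 : α • u + β • v + γ • w = 0) :
    α = 0 ∧ β = 0 ∧ γ = 0 := by
  obtain ⟨i, hi⟩ := X_ne u v w h
  obtain ⟨B, hB⟩ : ∃ B : M4, B = Matrix.of ![u, v, w, Pi.single i 1] := ⟨_, rfl⟩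
  rw [← hB] at hi
  have h1 : ![α, β, γ, 0] ᵥ* B = 0 := by
    rw [← h0, hB]
    funext j
    simp [Matrix.vecMul, dotProduct, Fin.sum_univ_four]
  have h2 := Matrix.eq_zero_of_vecMul_eq_zero hi h1
  exact ⟨congrFun h2 0, congrFun h2 1, congrFun h2 2⟩

/-- the common kernel of `u, v, w` -/
theorem X_ker (u v w : V4) (h : X u v w ≠ 0) (x : V4) (hu : u ⬝ᵥ x = 0) (hv : v ⬝ᵥ x = 0)
    (hw : w ⬝ᵥ x = 0) : ∃ α : ℝ, x = α • X u v w := by
  obtain ⟨i, hi⟩ := X_ne u v w h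
  obtain ⟨B, hB⟩ : ∃ B : M4, B = Matrix.of ![u, v, w, Pi.single i 1] := ⟨_, rfl⟩
  rw [← hB] at hi
  have h4 : X u v w i ≠ 0 := by
    rw [hB] at hi
    exact hi
  have h1 : B *ᵥ (X u v w i • x - x i • X u v w) = 0 := by
    rw [Matrix.mulVec_sub, Matrix.mulVec_smul, Matrix.mulVec_smul, hB]
    funext j
    fin_cases j
    · change X u v w i * (u ⬝ᵥ x) - x i * (u ⬝ᵥ X u v w) = 0
      rw [hu, dotProduct_comm, X_dot0]
      ring
    · change X u v w i * (v ⬝ᵥ x) - x i * (v ⬝ᵥ X u v w) = 0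
      rw [hv, dotProduct_comm, X_dot1]
      ring
    · change X u v w i * (w ⬝ᵥ x) - x i * (w ⬝ᵥ X u v w) = 0
      rw [hw, dotProduct_comm, X_dot2]
      ring
    · change X u v w i * (Pi.single i 1 ⬝ᵥ x) - x i * (Pi.single i 1 ⬝ᵥ X u v w) = 0
      rw [single_one_dotProduct, single_one_dotProduct]
      ring
  have h2 := Matrix.eq_zero_of_mulVec_eq_zero hi h1
  refine ⟨(X u v w i)⁻¹ * x i, ?_⟩
  rw [mul_smul, ← sub_eq_zero.1 h2, smul_smul, inv_mul_cancel₀ h4, one_smul]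

theorem of_mul (u v w x : V4) (B : M4) :
    Matrix.of ![u, v, w, x] * B = Matrix.of ![u ᵥ* B, v ᵥ* B, w ᵥ* B, x ᵥ* B] := by
  ext i j
  fin_cases i <;> rfl

/-! ### Generalized Vandermonde determinants -/

theorem gv (x y z : ℝ) (hx : 0 < x) (hxy : x < y) (hyz : y < z) (m n : ℕ) (hm : 0 < m)
    (hmn : m < n) : (y ^ n - x ^ n) * (z ^ m - x ^ m) < (z ^ n - x ^ n) * (y ^ m - x ^ m) := by
  have hm' : (0 : ℝ) < m := by exact_mod_cast hm
  have hs : (1 : ℝ) < (n : ℝ) / m := by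
    rw [one_lt_div hm']
    exact_mod_cast hmn
  have key : ∀ t : ℝ, 0 < t → (t ^ m) ^ ((n : ℝ) / m) = t ^ n := by
    intro t ht
    rw [← Real.rpow_natCast t m, ← Real.rpow_mul ht.le, mul_div_cancel₀ _ hm'.ne',
      Real.rpow_natCast]
  have hy : 0 < y := hx.trans hxy
  have hz : 0 < z := hy.trans hyz
  have e1 : x ^ m < y ^ m := pow_lt_pow_left₀ hxy hx.le hm.ne'
  have e2 : y ^ m < z ^ m := pow_lt_pow_left₀ hyz hy.le hm.ne'
  have h := (strictConvexOn_rpow hs).secant_strict_mono (a := x ^ m) (x := y ^ m) (y := z ^ m)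
    (Set.mem_Ici.2 (by positivity)) (Set.mem_Ici.2 (by positivity)) (Set.mem_Ici.2 (by positivity))
    e1.ne' (e1.trans e2).ne' e2
  simp only [key x hx, key y hy, key z hz] at h
  rw [div_lt_div_iff₀ (sub_pos.2 e1) (sub_pos.2 (e1.trans e2))] at h
  exact h

/-- the eigenvalues -/
noncomputable def mu4 : Fin 4 → ℝ := ![1 / 10, 2 / 10, 3 / 10, 4 / 10]

theorem D4 (z : V4) (hz : ∀ i, z i ≠ 0) (m n : ℕ) (hm : 0 < m) (hmn : m < n) (i : Fin 4) :
    (Matrix.of ![z, fun j => z j * mu4 j ^ m, fun j => z j * mu4 j ^ n, Pi.single i 1]).det ≠ 0 := by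
  have g1 := gv (1 / 10) (2 / 10) (3 / 10) (by norm_num) (by norm_num) (by norm_num) m n hm hmn
  have g2 := gv (1 / 10) (2 / 10) (4 / 10) (by norm_num) (by norm_num) (by norm_num) m n hm hmn
  have g3 := gv (1 / 10) (3 / 10) (4 / 10) (by norm_num) (by norm_num) (by norm_num) m n hm hmn
  have g4 := gv (2 / 10) (3 / 10) (4 / 10) (by norm_num) (by norm_num) (by norm_num) m n hm hmn
  have k0 : mu4 0 = 1 / 10 := rfl
  have k1 : mu4 1 = 2 / 10 := rfl
  have k2 : mu4 2 = 3 / 10 := rfl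
  have k3 : mu4 3 = 4 / 10 := rfl
  rw [← k0, ← k1, ← k2] at g1
  rw [← k0, ← k1, ← k3] at g2
  rw [← k0, ← k2, ← k3] at g3
  rw [← k1, ← k2, ← k3] at g4
  rw [det4]
  simp only [Matrix.of_apply]
  fin_cases i
  · have h := mul_ne_zero (mul_ne_zero (mul_ne_zero (hz 1) (hz 2)) (hz 3)) (sub_pos.2 g4).ne'
    intro h0
    apply h
    simp at h0
    linear_combination (exp := 1) (-1) * h0
  · have h := mul_ne_zero (mul_ne_zero (mul_ne_zero (hz 0) (hz 2)) (hz 3)) (sub_pos.2 g3).ne'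
    intro h0
    apply h
    simp at h0
    linear_combination (exp := 1) h0
  · have h := mul_ne_zero (mul_ne_zero (mul_ne_zero (hz 0) (hz 1)) (hz 3)) (sub_pos.2 g2).ne'
    intro h0
    apply h
    simp at h0
    linear_combination (exp := 1) (-1) * h0
  · have h := mul_ne_zero (mul_ne_zero (mul_ne_zero (hz 0) (hz 1)) (hz 2)) (sub_pos.2 g1).ne'
    intro h0
    apply h
    simp at h0
    linear_combination (exp := 1) h0

/-! ### The special point -/

/-- `P(x) = ∑ x_i M^i` -/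
def Pm (M : M4) (x : V4) : M4 := x 0 • 1 + x 1 • M + x 2 • M ^ 2 + x 3 • M ^ 3

/-- the vector of the linear form `x ↦ det (e0, M^p e0, M^r e0, x)` -/
noncomputable def ze (p r : ℕ) (M : M4) : V4 := X e0 (M ^ p *ᵥ e0) (M ^ r *ᵥ e0)

/-- the vector `c` -/
noncomputable def cc (p r : ℕ) (M : M4) : V4 :=
  X (ze p r M) (ze p r M ᵥ* M ^ (r - p)) (ze p r M ᵥ* M ^ r)

/-- the special point -/
noncomputable def zs : E6 := ![35 / 100, 50 / 1000, 24 / 10000, 0, 0, 0]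

/-- the matrix of the left eigenvectors -/
noncomputable def V : M4 := Matrix.of fun i j => mu4 i ^ (j : ℕ)

theorem V_det : V.det ≠ 0 := by
  have h : Function.Injective mu4 := by
    intro i j hij
    fin_cases i <;> fin_cases j <;> simp [mu4] at hij ⊢ <;> norm_num at hij
  exact Matrix.det_vandermonde_ne_zero_iff.2 h

theorem V_M : V * mono zs = Matrix.diagonal mu4 * V := by
  ext i j
  rw [Matrix.diagonal_mul]
  fin_cases i <;> fin_cases j <;>
    simp [V, mono, zs, mu4, Matrix.mul_apply, Fin.sum_univ_four] <;> norm_num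

theorem V_pow (n : ℕ) : V * mono zs ^ n = Matrix.diagonal (fun i => mu4 i ^ n) * V := by
  have h : SemiconjBy V (mono zs) (Matrix.diagonal mu4) := V_M
  have h2 := h.pow_right n
  rw [Matrix.diagonal_pow] at h2
  exact h2

theorem W_pow (n : ℕ) : mono zs ^ n * V⁻¹ = V⁻¹ * Matrix.diagonal (fun i => mu4 i ^ n) := by
  have hu : IsUnit V.det := isUnit_iff_ne_zero.mpr V_det
  calc mono zs ^ n * V⁻¹ = V⁻¹ * (V * mono zs ^ n) * V⁻¹ := by
        rw [← Matrix.mul_assoc V⁻¹, Matrix.nonsing_inv_mul _ hu, Matrix.one_mul]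
    _ = V⁻¹ * Matrix.diagonal (fun i => mu4 i ^ n) := by
        rw [V_pow, Matrix.mul_assoc, Matrix.mul_assoc, Matrix.mul_nonsing_inv _ hu, Matrix.mul_one]

theorem V_e0 (n : ℕ) : V *ᵥ (mono zs ^ n *ᵥ e0) = fun i => mu4 i ^ n := by
  have h1 : V *ᵥ e0 = fun _ => 1 := by
    funext i
    simp [V, e0, Matrix.mulVec, dotProduct, Fin.sum_univ_four]
  rw [Matrix.mulVec_mulVec, V_pow, ← Matrix.mulVec_mulVec, h1]
  funext i
  rw [Matrix.mulVec_diagonal]
  simp

/-- the components of `ζ` with respect to the left eigenvectors are not zero -/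
theorem ze_ne (p r : ℕ) (hp : 0 < p) (hr : p < r) (i : Fin 4) :
    (ze p r (mono zs) ᵥ* V⁻¹) i ≠ 0 := by
  have hu : IsUnit V.det := isUnit_iff_ne_zero.mpr V_det
  have h1 : (ze p r (mono zs) ᵥ* V⁻¹) i = ze p r (mono zs) ⬝ᵥ (V⁻¹ *ᵥ Pi.single i 1) := by
    rw [Matrix.dotProduct_mulVec, dotProduct_single, mul_one]
  have h2 : (Matrix.of ![e0, mono zs ^ p *ᵥ e0, mono zs ^ r *ᵥ e0, V⁻¹ *ᵥ Pi.single i 1]).det *
      Vᵀ.det ≠ 0 := by
    rw [← Matrix.det_mul, of_mul, Matrix.vecMul_transpose, Matrix.vecMul_transpose,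
      Matrix.vecMul_transpose, Matrix.vecMul_transpose, V_e0, V_e0, Matrix.mulVec_mulVec,
      Matrix.mul_nonsing_inv _ hu, Matrix.one_mulVec]
    have h3 := V_e0 0
    rw [pow_zero, Matrix.one_mulVec] at h3
    rw [h3]
    have h4 := D4 (fun _ => 1) (fun _ => one_ne_zero) p r hp hr i
    simp only [one_mul] at h4
    simp only [pow_zero]
    exact h4
  rw [h1, ze, X_dot]
  exact left_ne_zero_of_mul h2

theorem cc_ne (p r : ℕ) (hp : 0 < p) (hr : p < r) (i : Fin 4) :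
    (V *ᵥ cc p r (mono zs)) i ≠ 0 := by
  have hu : IsUnit V.det := isUnit_iff_ne_zero.mpr V_det
  obtain ⟨z, hz⟩ : ∃ z : V4, z = ze p r (mono zs) ᵥ* V⁻¹ := ⟨_, rfl⟩
  have hzn : ∀ n : ℕ, (ze p r (mono zs) ᵥ* mono zs ^ n) ᵥ* V⁻¹ = fun j => z j * mu4 j ^ n := by
    intro n
    rw [Matrix.vecMul_vecMul, W_pow, ← Matrix.vecMul_vecMul, ← hz]
    funext j
    rw [Matrix.vecMul_diagonal]
  have h1 : (V *ᵥ cc p r (mono zs)) i = cc p r (mono zs) ⬝ᵥ V i := by
    rw [dotProduct_comm]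
    rfl
  have h2 : (Matrix.of ![ze p r (mono zs), ze p r (mono zs) ᵥ* mono zs ^ (r - p),
      ze p r (mono zs) ᵥ* mono zs ^ r, V i]).det * V⁻¹.det ≠ 0 := by
    have h3 : V i ᵥ* V⁻¹ = Pi.single i 1 := by
      have h4 : V i ᵥ* V⁻¹ = (V * V⁻¹) i := rfl
      rw [h4, Matrix.mul_nonsing_inv _ hu]
      funext j
      rw [Matrix.one_apply, Pi.single_apply]
      simp only [eq_comm]
    rw [← Matrix.det_mul, of_mul, hzn, hzn, h3, ← hz]
    exact D4 z (fun j => by rw [hz]; exact ze_ne p r hp hr j) (r - p) r (by omega) (by omega) i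
  rw [h1, cc, X_dot]
  exact left_ne_zero_of_mul h2

theorem Pcc_ne (p r : ℕ) (hp : 0 < p) (hr : p < r) :
    (Pm (mono zs) (cc p r (mono zs))).det ≠ 0 := by
  obtain ⟨c, hc⟩ : ∃ c : V4, c = cc p r (mono zs) := ⟨_, rfl⟩
  have h0 := V_pow 0
  have h1 := V_M
  have h2 := V_pow 2
  have h3 := V_pow 3
  rw [pow_zero, Matrix.mul_one] at h0
  have h : V * Pm (mono zs) c = Matrix.diagonal (V *ᵥ c) * V := by
    unfold Pm
    rw [Matrix.mul_add, Matrix.mul_add, Matrix.mul_add, Matrix.mul_smul, Matrix.mul_smul,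
      Matrix.mul_smul, Matrix.mul_smul, Matrix.mul_one, h1, h2, h3]
    ext i j
    simp only [Matrix.add_apply, Matrix.smul_apply, Matrix.diagonal_mul, Matrix.mulVec, dotProduct,
      Fin.sum_univ_four, V, Matrix.of_apply, smul_eq_mul]
    simp
    ring
  have hd := congrArg Matrix.det h
  rw [Matrix.det_mul, Matrix.det_mul, Matrix.det_diagonal, mul_comm] at hd
  have hd2 := mul_right_cancel₀ V_det hd
  rw [← hc, hd2, Finset.prod_ne_zero_iff]
  intro i _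
  rw [hc]
  exact cc_ne p r hp hr i

/-! ### Analyticity -/

theorem AM_transpose {A : E6 → M4} (h : AM Set.univ A) : AM Set.univ fun z => (A z)ᵀ :=
  fun i j => h j i

theorem AV_X (hMA : S_MA) {u v w : E6 → V4} (hu : AV Set.univ u) (hv : AV Set.univ v)
    (hw : AV Set.univ w) : AV Set.univ fun z => X (u z) (v z) (w z) := by
  intro i
  apply (hMA E6 Set.univ).det
  intro k j
  fin_cases k
  · exact hu j
  · exact hv j
  · exact hw j
  · exact analyticOnNhd_const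

theorem AM_mono : AM Set.univ mono := by
  have h : ∀ k : Fin 6, AnalyticOnNhd ℝ (fun z : E6 => z k) Set.univ := fun k =>
    (ContinuousLinearMap.proj (R := ℝ) (φ := fun _ : Fin 6 => ℝ) k).analyticOnNhd Set.univ
  intro i j
  fin_cases i <;> fin_cases j <;> simp only [mono] <;>
    first | exact analyticOnNhd_const | exact h _ | exact (h _).neg

theorem AV_mulVec (hMA : S_MA) {A : E6 → M4} {v : E6 → V4} (hA : AM Set.univ A)
    (hv : AV Set.univ v) : AV Set.univ fun z => A z *ᵥ v z :=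
  (hMA E6 Set.univ).mulVec A v hA hv

theorem AV_vecMul (hMA : S_MA) {A : E6 → M4} {v : E6 → V4} (hA : AM Set.univ A)
    (hv : AV Set.univ v) : AV Set.univ fun z => v z ᵥ* A z := by
  have h := AV_mulVec hMA (AM_transpose hA) hv
  simp only [Matrix.mulVec_transpose] at h
  exact h

theorem AM_Mpow (hMA : S_MA) (n : ℕ) : AM Set.univ fun z => mono z ^ n :=
  (hMA E6 Set.univ).pow n mono AM_mono

theorem AV_ze (hMA : S_MA) (p r : ℕ) : AV Set.univ fun z => ze p r (mono z) := by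
  have h0 : AV Set.univ fun _ : E6 => e0 := fun _ => analyticOnNhd_const
  exact AV_X hMA h0 (AV_mulVec hMA (AM_Mpow hMA p) h0) (AV_mulVec hMA (AM_Mpow hMA r) h0)

theorem AV_cc (hMA : S_MA) (p r : ℕ) : AV Set.univ fun z => cc p r (mono z) :=
  AV_X hMA (AV_ze hMA p r) (AV_vecMul hMA (AM_Mpow hMA (r - p)) (AV_ze hMA p r))
    (AV_vecMul hMA (AM_Mpow hMA r) (AV_ze hMA p r))

theorem An_Pm (hMA : S_MA) {v : E6 → V4} (hv : AV Set.univ v) :
    AnalyticOnNhd ℝ (fun z => (Pm (mono z) (v z)).det) Set.univ := by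
  have H := hMA E6 Set.univ
  apply H.det
  unfold Pm
  exact H.add _ _ (H.add _ _ (H.add _ _ (H.smul _ _ (hv 0) (H.const 1))
    (H.smul _ _ (hv 1) AM_mono)) (H.smul _ _ (hv 2) (AM_Mpow hMA 2)))
    (H.smul _ _ (hv 3) (AM_Mpow hMA 3))

/-! ### The geometry -/

theorem Pm_comm (M : M4) (x : V4) : Commute (Pm M x) M := by
  unfold Pm
  exact ((((Commute.one_left M).smul_left _).add_left ((Commute.refl M).smul_left _)).add_left
    (((Commute.refl M).pow_left 2).smul_left _)).add_left (((Commute.refl M).pow_left 3).smul_left _)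

theorem Pm_e0 (y : E6) (x : V4) : Pm (mono y) x *ᵥ e0 = x := by
  unfold Pm
  have h0 := FamAux.p0 y
  have h1 := FamAux.p1 y
  rw [pow_zero] at h0
  rw [pow_one] at h1
  rw [Matrix.add_mulVec, Matrix.add_mulVec, Matrix.add_mulVec, Matrix.smul_mulVec,
    Matrix.smul_mulVec, Matrix.smul_mulVec, Matrix.smul_mulVec, h0, h1, FamAux.p2, FamAux.p3]
  funext i
  fin_cases i <;> simp

/-- membership in a plane -/
theorem mem_span {u v w : V4} (h : X u v w ≠ 0) {N : M4} (hN : N.det ≠ 0) (x : V4) :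
    N *ᵥ x ∈ Submodule.span ℝ {N *ᵥ u, N *ᵥ v, N *ᵥ w} ↔ X u v w ⬝ᵥ x = 0 := by
  rw [Submodule.mem_span_triple]
  constructor
  · rintro ⟨α, β, γ, h1⟩
    have h2 : N *ᵥ (α • u + β • v + γ • w - x) = 0 := by
      rw [Matrix.mulVec_sub, ← h1]
      simp only [Matrix.mulVec_add, Matrix.mulVec_smul, sub_self]
    have h3 := Matrix.eq_zero_of_mulVec_eq_zero hN h2
    rw [← sub_eq_zero.1 h3]
    simp only [dotProduct_add, dotProduct_smul, X_dot0, X_dot1, X_dot2, smul_zero, add_zero]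
  · intro h1
    obtain ⟨α, β, γ, h2⟩ := X_span u v w h x h1
    refine ⟨α, β, γ, ?_⟩
    rw [h2]
    simp only [Matrix.mulVec_add, Matrix.mulVec_smul]

theorem finrank_span {u v w : V4} (h : X u v w ≠ 0) {N : M4} (hN : N.det ≠ 0) :
    Module.finrank ℝ (Submodule.span ℝ {N *ᵥ u, N *ᵥ v, N *ᵥ w}) = 3 := by
  have h3 : LinearIndependent ℝ ![N *ᵥ u, N *ᵥ v, N *ᵥ w] := by
    rw [Fintype.linearIndependent_iff]
    intro g hg
    rw [Fin.sum_univ_three] at hg
    have h1 : N *ᵥ (g 0 • u + g 1 • v + g 2 • w) = 0 := by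
      simp only [Matrix.mulVec_add, Matrix.mulVec_smul]
      exact hg
    obtain ⟨e1, e2, e3⟩ := X_ind u v w h _ _ _ (Matrix.eq_zero_of_mulVec_eq_zero hN h1)
    intro i
    fin_cases i <;> assumption
  have h4 : ({N *ᵥ u, N *ᵥ v, N *ᵥ w} : Set V4) = Set.range ![N *ᵥ u, N *ᵥ v, N *ᵥ w] := by
    ext x
    simp only [Set.mem_insert_iff, Set.mem_singleton_iff, Set.mem_range]
    constructor
    · rintro (rfl | rfl | rfl)
      · exact ⟨0, rfl⟩
      · exact ⟨1, rfl⟩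
      · exact ⟨2, rfl⟩
    · rintro ⟨i, rfl⟩
      fin_cases i
      · exact Or.inl rfl
      · exact Or.inr (Or.inl rfl)
      · exact Or.inr (Or.inr rfl)
  rw [h4, finrank_span_eq_card h3, Fintype.card_fin]

/-- the image of a polygon -/
theorem image (a b p r : ℕ) (ha : a = 2 * p) (hb : a + b = 2 * r) (hpr : p < r) (M : M4)
    (hM : M.det ≠ 0) (v : ℤ → V4) (N : ℤ → M4) (hN : ∀ k, (N k).det ≠ 0)
    (hNv : ∀ k, v k = N k *ᵥ e0) (hNj : ∀ k j : ℤ, N (k + 2 * j) = N k * M ^ j)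
    (hc : cc p r M ≠ 0) :
    IsImage a b v fun k => N k *ᵥ (M ^ r *ᵥ cc p r M) := by
  have hMu : IsUnit M.det := isUnit_iff_ne_zero.mpr hM
  have hze : ze p r M ≠ 0 := by
    intro h0
    apply hc
    unfold cc
    rw [h0]
    funext i
    exact Matrix.det_eq_zero_of_row_eq_zero 0 fun j => rfl
  have hX : X e0 (M ^ p *ᵥ e0) (M ^ r *ᵥ e0) ≠ 0 := hze
  have hpl : ∀ k, plane a b v k =
      Submodule.span ℝ {N k *ᵥ e0, N k *ᵥ (M ^ p *ᵥ e0), N k *ᵥ (M ^ r *ᵥ e0)} := by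
    intro k
    have e1 : v (k + a) = N k *ᵥ (M ^ p *ᵥ e0) := by
      have h : k + (a : ℤ) = k + 2 * (p : ℤ) := by rw [ha]; push_cast; ring
      rw [h, hNv, hNj, Matrix.mulVec_mulVec, zpow_natCast]
    have e2 : v (k + a + b) = N k *ᵥ (M ^ r *ᵥ e0) := by
      have h : k + (a : ℤ) + (b : ℤ) = k + 2 * (r : ℤ) := by
        have : (a : ℤ) + b = 2 * r := by exact_mod_cast hb
        omega
      rw [h, hNv, hNj, Matrix.mulVec_mulVec, zpow_natCast]
    unfold plane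
    rw [e1, e2, hNv k]
  have hd : ∀ k, ∀ n : ℕ, (N k * M ^ n).det ≠ 0 := by
    intro k n
    rw [Matrix.det_mul, Matrix.det_pow]
    exact mul_ne_zero (hN k) (pow_ne_zero n hM)
  have hNa : ∀ k : ℤ, N (k + a) = N k * M ^ p := by
    intro k
    have h : k + (a : ℤ) = k + 2 * (p : ℤ) := by rw [ha]; push_cast; ring
    rw [h, hNj, zpow_natCast]
  have hNb : ∀ k : ℤ, N (k + a + b) = N k * M ^ r := by
    intro k
    have h : k + (a : ℤ) + (b : ℤ) = k + 2 * (r : ℤ) := by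
      have : (a : ℤ) + b = 2 * r := by exact_mod_cast hb
      omega
    rw [h, hNj, zpow_natCast]
  intro k
  have hw : N k *ᵥ (M ^ r *ᵥ cc p r M) ≠ 0 := by
    rw [Matrix.mulVec_mulVec]
    intro h0
    exact hc (Matrix.eq_zero_of_mulVec_eq_zero (hd k r) h0)
  -- the three conditions
  have hmem : ∀ x' : V4, N k *ᵥ (M ^ r *ᵥ x') ∈ plane a b v k ⊓ plane a b v (k + a) ⊓
      plane a b v (k + a + b) ↔ ze p r M ⬝ᵥ x' = 0 ∧ (ze p r M ᵥ* M ^ (r - p)) ⬝ᵥ x' = 0 ∧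
      (ze p r M ᵥ* M ^ r) ⬝ᵥ x' = 0 := by
    intro x'
    have f1 : N k *ᵥ (M ^ r *ᵥ x') ∈ plane a b v k ↔ (ze p r M ᵥ* M ^ r) ⬝ᵥ x' = 0 := by
      rw [hpl, mem_span hX (hN k), ← Matrix.dotProduct_mulVec]
      exact Iff.rfl
    have f2 : N k *ᵥ (M ^ r *ᵥ x') ∈ plane a b v (k + a) ↔
        (ze p r M ᵥ* M ^ (r - p)) ⬝ᵥ x' = 0 := by
      have e : N k *ᵥ (M ^ r *ᵥ x') = (N k * M ^ p) *ᵥ (M ^ (r - p) *ᵥ x') := by
        rw [Matrix.mulVec_mulVec, Matrix.mulVec_mulVec, Matrix.mul_assoc, ← pow_add,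
          Nat.add_sub_cancel' hpr.le]
      rw [hpl, hNa, e, mem_span hX (hd k p), ← Matrix.dotProduct_mulVec]
      exact Iff.rfl
    have f3 : N k *ᵥ (M ^ r *ᵥ x') ∈ plane a b v (k + a + b) ↔ ze p r M ⬝ᵥ x' = 0 := by
      have e : N k *ᵥ (M ^ r *ᵥ x') = (N k * M ^ r) *ᵥ x' := Matrix.mulVec_mulVec _ _ _
      rw [hpl, hNb, e, mem_span hX (hd k r)]
      exact Iff.rfl
    rw [Submodule.mem_inf, Submodule.mem_inf, f1, f2, f3]
    tauto
  refine ⟨?_, hw, ?_⟩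
  · rw [hpl]
    exact finrank_span hX (hN k)
  · apply le_antisymm
    · intro x hx
      obtain ⟨x', rfl⟩ : ∃ x' : V4, x = N k *ᵥ (M ^ r *ᵥ x') := by
        refine ⟨(N k * M ^ r)⁻¹ *ᵥ x, ?_⟩
        rw [Matrix.mulVec_mulVec, Matrix.mulVec_mulVec,
          Matrix.mul_nonsing_inv _ (isUnit_iff_ne_zero.mpr (hd k r)), Matrix.one_mulVec]
      obtain ⟨g1, g2, g3⟩ := (hmem x').1 hx
      obtain ⟨α, hα⟩ := X_ker _ _ _ hc x' g1 g2 g3
      rw [Submodule.mem_span_singleton]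
      refine ⟨α, ?_⟩
      rw [hα, Matrix.mulVec_smul, Matrix.mulVec_smul]
      rfl
    · rw [Submodule.span_singleton_le_iff_mem, hmem]
      refine ⟨?_, ?_, ?_⟩
      · rw [dotProduct_comm]
        exact X_dot0 _ _ _
      · rw [dotProduct_comm]
        exact X_dot1 _ _ _
      · rw [dotProduct_comm]
        exact X_dot2 _ _ _

end EvEAux

open EvEAux MapAux in
theorem tEvE (hAn : S_An) (hMA : S_MA) (hFam : S_Fam) : S_EvE := by
  intro a b ha0 hb0 ha hb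
  obtain ⟨p, hp⟩ := ha
  obtain ⟨q, hq⟩ := hb
  obtain ⟨r, hr⟩ : ∃ r, r = p + q := ⟨_, rfl⟩
  have hp0 : 0 < p := by omega
  have hpr : p < r := by omega
  have o1 := hAn E6 (fun y => y 2)
    ((ContinuousLinearMap.proj (R := ℝ) (φ := fun _ : Fin 6 => ℝ) 2).analyticOnNhd Set.univ)
    ⟨fun _ => 1, one_ne_zero⟩
  have o2 := hAn E6 _ (An_Pm hMA (AV_cc hMA p r)) ⟨zs, Pcc_ne p r hp0 hpr⟩
  have hx0 : AV Set.univ x0 := by
    have h : ∀ k : Fin 6, AnalyticOnNhd ℝ (fun z : E6 => z k) Set.univ := fun k =>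
      (ContinuousLinearMap.proj (R := ℝ) (φ := fun _ : Fin 6 => ℝ) k).analyticOnNhd Set.univ
    intro i
    fin_cases i
    · exact analyticOnNhd_const
    · exact h 3
    · exact h 4
    · exact h 5
  have o3 := hAn E6 _ (An_Pm hMA hx0) ⟨0, by
    have h : Pm (mono 0) (x0 0) = 1 := by
      unfold Pm x0
      simp
    rw [h, Matrix.det_one]
    exact one_ne_zero⟩
  refine ⟨_, (o1.1.inter o2.1).inter o3.1, (o1.2.inter_of_isOpen_right o2.2 o2.1).inter_of_isOpen_right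
    o3.2 o3.1, ?_⟩
  rintro y ⟨⟨hy2, hyc⟩, hyx⟩
  have hy2 : y 2 ≠ 0 := hy2
  have hyc : (Pm (mono y) (cc p r (mono y))).det ≠ 0 := hyc
  have hyx : (Pm (mono y) (x0 y)).det ≠ 0 := hyx
  have hdet : (mono y).det ≠ 0 := by
    rw [hFam.1]
    exact hy2
  have hM : IsUnit (mono y).det := isUnit_iff_ne_zero.mpr hdet
  obtain ⟨N, hN⟩ : ∃ N : ℤ → M4, N = fun k => (if Even k then 1 else Pm (mono y) (x0 y)) *
    mono y ^ (k / 2) := ⟨_, rfl⟩
  have hPc : Commute (Pm (mono y) (x0 y)) (mono y) := Pm_comm _ _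
  have hic : ∀ k : ℤ, Commute (if Even k then 1 else Pm (mono y) (x0 y)) (mono y) := by
    intro k
    split_ifs
    · exact Commute.one_left _
    · exact hPc
  have hNc : ∀ k, Commute (N k) (mono y) := by
    intro k
    rw [hN]
    exact (hic k).mul_left (Matrix.Commute.zpow_self (mono y) (k / 2))
  have hNd : ∀ k, (N k).det ≠ 0 := by
    intro k
    rw [hN]
    simp only [Matrix.det_mul]
    refine mul_ne_zero ?_ (hM.det_zpow _).ne_zero
    split_ifs
    · rw [Matrix.det_one]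
      exact one_ne_zero
    · exact hyx
  have hNv : ∀ k, poly (mono y) e0 (x0 y) k = N k *ᵥ e0 := by
    intro k
    rw [hN]
    have h1 : (if Even k then 1 else Pm (mono y) (x0 y)) * mono y ^ (k / 2) =
        mono y ^ (k / 2) * (if Even k then 1 else Pm (mono y) (x0 y)) :=
      (Matrix.Commute.zpow_right (hic k) (k / 2)).eq
    unfold poly
    simp only [h1, ← Matrix.mulVec_mulVec]
    congr 1
    split_ifs
    · rw [Matrix.one_mulVec]
    · rw [Pm_e0]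
  have hNj : ∀ k j : ℤ, N (k + 2 * j) = N k * mono y ^ j := by
    intro k j
    rw [hN]
    have h1 : (k + 2 * j) / 2 = k / 2 + j := by omega
    have h2 : Even (k + 2 * j) ↔ Even k := by
      rw [Int.even_add]
      simp
    simp only [h1, h2, Matrix.zpow_add hM, Matrix.mul_assoc]
  have hc0 : cc p r (mono y) ≠ 0 := by
    intro h0
    apply hyc
    rw [h0]
    unfold Pm
    simp
  have hP : Pol y (poly (mono y) e0 (x0 y)) :=
    ⟨poly_tw _ hdet _ _, poly_zero _ _ _, poly_one _ _ _⟩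
  have hIm := image a b p r (by omega) (by omega) hpr (mono y) hdet _ N hNd hNv hNj hc0
  have hGd : (mono y ^ r * Pm (mono y) (cc p r (mono y))).det ≠ 0 := by
    rw [Matrix.det_mul, Matrix.det_pow]
    exact mul_ne_zero (pow_ne_zero r hdet) hyc
  have hG : IsUnit (mono y ^ r * Pm (mono y) (cc p r (mono y))).det := isUnit_iff_ne_zero.mpr hGd
  have hGc : Commute (mono y ^ r * Pm (mono y) (cc p r (mono y))) (mono y) :=
    ((Commute.refl (mono y)).pow_left r).mul_left (Pm_comm _ _)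
  refine ⟨_, _, _, hP, hP, hIm, (mono y ^ r * Pm (mono y) (cc p r (mono y)))⁻¹, ?_,
    ⟨1, one_ne_zero, ?_⟩, fun k => ⟨1, one_ne_zero, ?_⟩⟩
  · rw [Matrix.det_nonsing_inv, Ring.inverse_eq_inv']
    exact inv_ne_zero hGd
  · rw [one_smul]
    have h := Matrix.Commute.zpow_left hGc (-1)
    rw [Matrix.zpow_neg_one] at h
    exact h.eq
  · have h1 : N k *ᵥ (mono y ^ r *ᵥ cc p r (mono y)) =
        (mono y ^ r * Pm (mono y) (cc p r (mono y))) *ᵥ poly (mono y) e0 (x0 y) k := by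
      have h2 := hFam.2.1 y _ _ (hNc k).eq hGc.eq
      rw [hNv, Matrix.mulVec_mulVec (M := N k), Matrix.mulVec_mulVec (N := N k), ← h2,
        ← Matrix.mulVec_mulVec, ← Matrix.mulVec_mulVec, ← Matrix.mulVec_mulVec, Pm_e0]
    rw [one_smul]
    change _ *ᵥ (N k *ᵥ (mono y ^ r *ᵥ cc p r (mono y))) = _
    rw [h1, Matrix.mulVec_mulVec, Matrix.nonsing_inv_mul _ hG, Matrix.one_mulVec]

end Pool.Agent.MP62a5ad.PN
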