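import Pool.Agent.Lib.MP_62a5ad_mp.PN.Spec

/-!
# MP_62a5ad_mp, PN: the geometric meaning of `TH`
-/

set_option autoImplicit false

namespace Pool.Agent.MP62a5ad.PN

open Matrix
open scoped ContDiff

namespace GeoAux

section Abs

variable {A : Type} [CommRing A] [Algebra ℝ A] (ι : A →ₐ[ℝ] M4)

/-- membership in the span of three multiples of `N` -/
theorem mem_iff (hinj0 : ∀ a a', ι a *ᵥ e0 = ι a' *ᵥ e0 → a = a') (N N' τ X : A) (μ : ℝ)
    (hN : N * N' = 1) (hμ : μ ≠ 0) (g : A) :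
    ι (N * g) *ᵥ e0 ∈ Submodule.span ℝ {ι N *ᵥ e0, ι (τ * N) *ᵥ e0, ι (μ • (X * N)) *ᵥ e0} ↔
      g ∈ Submodule.span ℝ {1, τ, X} := by
  rw [Submodule.mem_span_triple, Submodule.mem_span_triple]
  constructor
  · rintro ⟨a, b, c, h⟩
    refine ⟨a, b, c * μ, ?_⟩
    have h1 : a • N + b • (τ * N) + c • (μ • (X * N)) = N * g := by
      apply hinj0
      rw [← h]
      simp only [map_add, map_smul, Matrix.add_mulVec, Matrix.smul_mulVec]
    have h2 : (a • N + b • (τ * N) + c • (μ • (X * N))) * N' = N * g * N' := by rw [h1]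
    simp only [Algebra.smul_def, map_mul] at h2 ⊢
    linear_combination h2 - (algebraMap ℝ A a * 1 + algebraMap ℝ A b * τ +
      algebraMap ℝ A c * algebraMap ℝ A μ * X - g) * hN
  · rintro ⟨a, b, c, h⟩
    refine ⟨a, b, c * μ⁻¹, ?_⟩
    have h1 : N * g = a • N + b • (τ * N) + (c * μ⁻¹) • (μ • (X * N)) := by
      rw [← h, smul_smul, mul_assoc, inv_mul_cancel₀ hμ, mul_one]
      simp only [Algebra.smul_def]
      ring
    rw [h1]
    simp only [map_add, map_smul, Matrix.add_mulVec, Matrix.smul_mulVec]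

/-- the three conditions at one vertex -/
theorem tri_at (hinj0 : ∀ a a', ι a *ᵥ e0 = ι a' *ᵥ e0 → a = a') (hsurj0 : ∀ v : V4, ∃ a, ι a *ᵥ e0 = v)
    (τ ti : A) (hti : τ * ti = 1) (e : ℕ) (c : ℤ) (v : ℤ → V4) (N : ℤ → A)
    (hv : ∀ k, v k = ι (N k) *ᵥ e0) (hN : ∀ k, ∃ N', N k * N' = 1)
    (hNe : ∀ k, N (k + 2 * e) = τ * N k) (k : ℤ) (X Xi X' : A) (μ μ' : ℝ) (hμ : μ ≠ 0) (hμ' : μ' ≠ 0)
    (hX : X * Xi = 1) (hNc : N (k + c) = μ • (X * N k))
    (hNc2 : N (k + 2 * e + c) = μ • (X * N (k + 2 * e)))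
    (hNc' : N (k + c + c) = μ' • (X' * N (k + c))) (g0 g0i : A) (hg : g0 * g0i = 1)
    (hlin : LinearIndependent ℝ ![1, τ, X])
    (hinc : ∀ g : A, (g ∈ Submodule.span ℝ {1, τ, X} ∧ ti * g ∈ Submodule.span ℝ {1, τ, X} ∧
      Xi * g ∈ Submodule.span ℝ {1, τ, X'}) ↔ ∃ c : ℝ, g = c • g0) :
    Module.finrank ℝ (Tri e c v k) = 3 ∧ ι g0 *ᵥ v k ≠ 0 ∧
      Tri e c v k ⊓ Tri e c v (k + 2 * e) ⊓ Tri e c v (k + c) =
        Submodule.span ℝ {ι g0 *ᵥ v k} := by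
  obtain ⟨N', hN'⟩ := hN k
  obtain ⟨N1, hN1⟩ := hN (k + 2 * e)
  obtain ⟨N2, hN2⟩ := hN (k + c)
  have t0 : Tri e c v k =
      Submodule.span ℝ {ι (N k) *ᵥ e0, ι (τ * N k) *ᵥ e0, ι (μ • (X * N k)) *ᵥ e0} := by
    unfold Tri
    rw [hv, hv, hv, hNe, hNc]
  have t1 : Tri e c v (k + 2 * e) = Submodule.span ℝ {ι (N (k + 2 * e)) *ᵥ e0,
      ι (τ * N (k + 2 * e)) *ᵥ e0, ι (μ • (X * N (k + 2 * e))) *ᵥ e0} := by
    unfold Tri
    rw [hv, hv, hv, hNe (k + 2 * e), hNc2]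
  have t2 : Tri e c v (k + c) = Submodule.span ℝ {ι (N (k + c)) *ᵥ e0,
      ι (τ * N (k + c)) *ᵥ e0, ι (μ' • (X' * N (k + c))) *ᵥ e0} := by
    unfold Tri
    rw [hv, hv, hv, hNe (k + c), hNc']
  have hw : ι g0 *ᵥ v k = ι (N k * g0) *ᵥ e0 := by
    rw [hv, Matrix.mulVec_mulVec, ← map_mul, mul_comm]
  refine ⟨?_, ?_, ?_⟩
  · have h3 : LinearIndependent ℝ
        ![ι (N k) *ᵥ e0, ι (τ * N k) *ᵥ e0, ι (μ • (X * N k)) *ᵥ e0] := by
      rw [Fintype.linearIndependent_iff] at hlin ⊢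
      intro g hg
      rw [Fin.sum_univ_three] at hg
      have h1 : g 0 • N k + g 1 • (τ * N k) + g 2 • (μ • (X * N k)) = 0 := by
        apply hinj0
        rw [map_zero, Matrix.zero_mulVec, ← hg]
        simp only [map_add, map_smul, Matrix.add_mulVec, Matrix.smul_mulVec]
        rfl
      have h2 : (g 0 • N k + g 1 • (τ * N k) + g 2 • (μ • (X * N k))) * N' = 0 := by
        rw [h1, zero_mul]
      have h3 : g 0 • (1 : A) + g 1 • τ + (g 2 * μ) • X = 0 := by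
        simp only [Algebra.smul_def, map_mul] at h2 ⊢
        linear_combination h2 - (algebraMap ℝ A (g 0) * 1 + algebraMap ℝ A (g 1) * τ +
          algebraMap ℝ A (g 2) * algebraMap ℝ A μ * X) * hN'
      have h4 := hlin ![g 0, g 1, g 2 * μ] (by
        rw [Fin.sum_univ_three]
        exact h3)
      have i0 : g 0 = 0 := h4 0
      have i1 : g 1 = 0 := h4 1
      have i2 : g 2 * μ = 0 := h4 2
      have i2' : g 2 = 0 := (mul_eq_zero.1 i2).resolve_right hμ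
      intro i
      fin_cases i
      · exact i0
      · exact i1
      · exact i2'
    have h4 : Tri e c v k = Submodule.span ℝ
        (Set.range ![ι (N k) *ᵥ e0, ι (τ * N k) *ᵥ e0, ι (μ • (X * N k)) *ᵥ e0]) := by
      rw [t0]
      congr 1
      ext x
      simp only [Set.mem_insert_iff, Set.mem_singleton_iff, Set.mem_range]
      constructor
      · rintro (rfl | rfl | rfl)
        · exact ⟨0, rfl⟩
        · exact ⟨1, rfl⟩
        · exact ⟨2, rfl⟩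
      · rintro ⟨i, rfl⟩
        fin_cases i
        · exact Or.inl rfl
        · exact Or.inr (Or.inl rfl)
        · exact Or.inr (Or.inr rfl)
    rw [h4, finrank_span_eq_card h3, Fintype.card_fin]
  · intro h
    rw [hw] at h
    have h1 : N k * g0 = 0 := by
      apply hinj0
      rw [h, map_zero, Matrix.zero_mulVec]
    have h2 : (1 : A) = 0 := by
      have h3 : N k * g0 * (N' * g0i) = 0 := by rw [h1, zero_mul]
      linear_combination h3 - N k * N' * hg - hN'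
    have h4 : (e0 : V4) = 0 := by
      have h5 : ι (1 : A) *ᵥ e0 = ι (0 : A) *ᵥ e0 := by rw [h2]
      rw [map_one, map_zero, Matrix.one_mulVec, Matrix.zero_mulVec] at h5
      exact h5
    have h5 := congrFun h4 0
    exact one_ne_zero h5
  · ext x
    obtain ⟨a, ha⟩ := hsurj0 x
    have hx0 : x = ι (N k * (N' * a)) *ᵥ e0 := by
      rw [← mul_assoc, hN', one_mul, ha]
    obtain ⟨g, hg'⟩ : ∃ g, g = N' * a := ⟨_, rfl⟩
    rw [← hg'] at hx0
    have hx1 : x = ι (N (k + 2 * e) * (ti * g)) *ᵥ e0 := by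
      rw [hx0, hNe]
      congr 2
      linear_combination -(N k * g) * hti
    have hx2 : x = ι (N (k + c) * (μ⁻¹ • (Xi * g))) *ᵥ e0 := by
      rw [hx0, hNc]
      congr 2
      rw [smul_mul_smul_comm, mul_inv_cancel₀ hμ, one_smul]
      linear_combination -(N k * g) * hX
    have m0 : x ∈ Tri e c v k ↔ g ∈ Submodule.span ℝ {1, τ, X} := by
      rw [t0, hx0]
      exact mem_iff ι hinj0 (N k) N' τ X μ hN' hμ g
    have m1 : x ∈ Tri e c v (k + 2 * e) ↔ ti * g ∈ Submodule.span ℝ {1, τ, X} := by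
      rw [t1, hx1]
      exact mem_iff ι hinj0 (N (k + 2 * e)) N1 τ X μ hN1 hμ (ti * g)
    have m2 : x ∈ Tri e c v (k + c) ↔ Xi * g ∈ Submodule.span ℝ {1, τ, X'} := by
      rw [t2, hx2, mem_iff ι hinj0 (N (k + c)) N2 τ X' μ' hN2 hμ' (μ⁻¹ • (Xi * g))]
      exact Submodule.smul_mem_iff _ (inv_ne_zero hμ)
    rw [Submodule.mem_inf, Submodule.mem_inf, m0, m1, m2, and_assoc, hinc,
      Submodule.mem_span_singleton, hw]
    constructor
    · rintro ⟨d, hd⟩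
      refine ⟨d, ?_⟩
      rw [hx0, hd, mul_smul_comm, map_smul, Matrix.smul_mulVec]
    · rintro ⟨d, hd⟩
      refine ⟨d, ?_⟩
      have h1 : N k * (d • g0) = N k * g := by
        apply hinj0
        rw [← hx0, ← hd, mul_smul_comm, map_smul, Matrix.smul_mulVec]
      have h2 : N' * (N k * (d • g0)) = N' * (N k * g) := by rw [h1]
      linear_combination -h2 + (d • g0 - g) * hN'

/-- the whole polygon -/
theorem geo_abs (hinj0 : ∀ a a', ι a *ᵥ e0 = ι a' *ᵥ e0 → a = a')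
    (hsurj0 : ∀ v : V4, ∃ a, ι a *ᵥ e0 = v) (τ ti m mi y yi X0' X0i X1 X1i : A) (hti : τ * ti = 1)
    (hmi : m * mi = 1) (hyi : y * yi = 1) (hX0 : X0' * X0i = 1) (hX1 : X1 * X1i = 1)
    (hX1e : X1 = m * y ^ 2 * X0i) (e : ℕ) (c : ℤ) (hc : Odd c) (κ : ℝ) (hκ : κ ≠ 0)
    (v : ℤ → V4) (hv2 : ∀ k, v (k + 2) = ι m *ᵥ v k) (hv0 : v 0 = e0)
    (hv1 : v 1 = κ • (ι (yi * X0') *ᵥ e0)) (hve : ∀ k, v (k + 2 * e) = ι τ *ᵥ v k)
    (hvc : ∀ k, v (k + (c - 1)) = ι y *ᵥ v k) (g0 g0i g1 g1i : A) (hg0 : g0 * g0i = 1)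
    (hg1 : g1 * g1i = 1) (hlin0 : LinearIndependent ℝ ![1, τ, X0'])
    (hlin1 : LinearIndependent ℝ ![1, τ, X1])
    (hinc0 : ∀ g : A, (g ∈ Submodule.span ℝ {1, τ, X0'} ∧ ti * g ∈ Submodule.span ℝ {1, τ, X0'} ∧
      X0i * g ∈ Submodule.span ℝ {1, τ, X1}) ↔ ∃ c : ℝ, g = c • g0)
    (hinc1 : ∀ g : A, (g ∈ Submodule.span ℝ {1, τ, X1} ∧ ti * g ∈ Submodule.span ℝ {1, τ, X1} ∧
      X1i * g ∈ Submodule.span ℝ {1, τ, X0'}) ↔ ∃ c : ℝ, g = c • g1) :
    IsTri e c v (fun k => if Even k then ι g0 *ᵥ v k else ι g1 *ᵥ v k) := by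
  choose N hNv using fun k => hsurj0 (v k)
  have hv : ∀ k, v k = ι (N k) *ᵥ e0 := fun k => (hNv k).symm
  have hN2 : ∀ k, N (k + 2) = m * N k := by
    intro k
    apply hinj0
    rw [← hv, hv2, hv k, Matrix.mulVec_mulVec, ← map_mul]
  have hNe : ∀ k, N (k + 2 * e) = τ * N k := by
    intro k
    apply hinj0
    rw [← hv, hve, hv k, Matrix.mulVec_mulVec, ← map_mul]
  have hNy : ∀ k, N (k + (c - 1)) = y * N k := by
    intro k
    apply hinj0
    rw [← hv, hvc, hv k, Matrix.mulVec_mulVec, ← map_mul]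
  have hN0 : N 0 = 1 := by
    apply hinj0
    rw [← hv, hv0, map_one, Matrix.one_mulVec]
  have hN1 : N 1 = κ • (yi * X0') := by
    apply hinj0
    rw [← hv, hv1, map_smul, Matrix.smul_mulVec]
  have key : ∀ j : ℤ, (∃ N', N (2 * j) * N' = 1) ∧ N (2 * j + 1) = κ • (yi * X0' * N (2 * j)) := by
    intro j
    induction j using Int.induction_on with
    | zero =>
      refine ⟨⟨1, ?_⟩, ?_⟩
      · rw [mul_zero, hN0, one_mul]
      · rw [mul_zero, zero_add, hN0, hN1, mul_one]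
    | succ i ih =>
      obtain ⟨⟨N', h1⟩, h2⟩ := ih
      have e1 : N (2 * ((i : ℤ) + 1)) = m * N (2 * (i : ℤ)) := by
        rw [← hN2]
        congr 1
      have e2 : N (2 * ((i : ℤ) + 1) + 1) = m * N (2 * (i : ℤ) + 1) := by
        rw [← hN2]
        congr 1
      refine ⟨⟨mi * N', ?_⟩, ?_⟩
      · rw [e1]
        linear_combination h1 + N (2 * (i : ℤ)) * N' * hmi
      · rw [e1, e2, h2, mul_smul_comm]
        congr 1
        ring
    | pred i ih =>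
      obtain ⟨⟨N', h1⟩, h2⟩ := ih
      have e1 : m * N (2 * (-(i : ℤ) - 1)) = N (2 * (-(i : ℤ))) := by
        rw [← hN2]
        congr 1
        ring
      have e2 : m * N (2 * (-(i : ℤ) - 1) + 1) = N (2 * (-(i : ℤ)) + 1) := by
        rw [← hN2]
        congr 1
        ring
      refine ⟨⟨m * N', ?_⟩, ?_⟩
      · rw [← h1, ← e1]
        ring
      · have h3 : m * N (2 * (-(i : ℤ) - 1) + 1) =
            m * (κ • (yi * X0' * N (2 * (-(i : ℤ) - 1)))) := by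
          rw [e2, h2, ← e1, mul_smul_comm]
          congr 1
          ring
        linear_combination mi * h3 + (κ • (yi * X0' * N (2 * (-(i : ℤ) - 1))) -
          N (2 * (-(i : ℤ) - 1) + 1)) * hmi
  have hκi : κ⁻¹ ≠ 0 := inv_ne_zero hκ
  -- even and odd vertices
  have evc : ∀ k, Even k → N (k + c) = κ • (X0' * N k) := by
    intro k hk
    obtain ⟨j, hj⟩ := hk.two_dvd
    have h1 : N (k + c) = y * N (2 * j + 1) := by
      rw [← hNy]
      congr 1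
      omega
    rw [h1, (key j).2, ← hj, mul_smul_comm]
    congr 1
    linear_combination X0' * N k * hyi
  have oddc : ∀ k, ¬ Even k → N (k + c) = κ⁻¹ • (X1 * N k) := by
    intro k hk
    obtain ⟨j, hj⟩ := Int.not_even_iff_odd.1 hk
    have h1 : N (k + c) = y * (m * N (2 * j)) := by
      rw [← hN2, ← hNy]
      congr 1
      omega
    have h2 : N k = κ • (yi * X0' * N (2 * j)) := by
      rw [hj]
      exact (key j).2
    rw [h1, h2, mul_smul_comm, smul_smul, inv_mul_cancel₀ hκ, one_smul, hX1e]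
    linear_combination -(y * m * N (2 * j)) * hX0 - y * m * N (2 * j) * X0' * X0i * hyi
  have hNu : ∀ k, ∃ N', N k * N' = 1 := by
    intro k
    rcases Int.even_or_odd' k with ⟨j, hj | hj⟩
    · rw [hj]
      exact (key j).1
    · obtain ⟨⟨N', h1⟩, h2⟩ := key j
      refine ⟨κ⁻¹ • (y * X0i * N'), ?_⟩
      rw [hj, h2, smul_mul_smul_comm, mul_inv_cancel₀ hκ, one_smul]
      linear_combination h1 + N (2 * j) * N' * hX0 + N (2 * j) * N' * X0' * X0i * hyi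
  intro k
  by_cases hk : Even k
  · have hk2 : Even (k + 2 * (e : ℤ)) := by
      rw [Int.even_add]
      exact ⟨fun _ => even_two_mul _, fun _ => hk⟩
    have hkc : ¬ Even (k + c) := by
      rw [Int.not_even_iff_odd]
      exact hk.add_odd hc
    have h := tri_at ι hinj0 hsurj0 τ ti hti e c v N hv hNu hNe k X0' X0i X1 κ κ⁻¹ hκ hκi hX0
      (evc k hk) (evc _ hk2) (oddc _ hkc) g0 g0i hg0 hlin0 hinc0
    simp only [if_pos hk]
    exact h
  · have hk2 : ¬ Even (k + 2 * (e : ℤ)) := by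
      rw [Int.even_add]
      exact fun h => hk (h.2 (even_two_mul _))
    have hkc : Even (k + c) := (Int.not_even_iff_odd.1 hk).add_odd hc
    have h := tri_at ι hinj0 hsurj0 τ ti hti e c v N hv hNu hNe k X1 X1i X0' κ⁻¹ κ hκi hκ hX1
      (oddc k hk) (oddc _ hk2) (evc _ hkc) g1 g1i hg1 hlin1 hinc1
    simp only [if_neg hk]
    exact h

end Abs

/-- the relation between `Q` and `Z` -/
theorem rel_QZ {A : Type} [CommRing A] [Algebra ℝ A] {τ : A} {b : Module.Basis (Fin 4) ℝ A} {p : V4}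
    (hF : Fr τ b p) {s u C s' u' C' α : ℝ} (hRel : Rel p s u C s' u' C' α) :
    qe τ u C * qe τ u' C' = α • (τ * (τ - s • (1 : A)) * (τ - s' • (1 : A))) := by
  obtain ⟨r1, r2, r3, r4⟩ := hRel
  have hrel := hF.rel
  unfold qe
  simp only [Algebra.smul_def] at hrel ⊢
  have c1 := congrArg (algebraMap ℝ A) r1
  have c2 := congrArg (algebraMap ℝ A) r2
  have c3 := congrArg (algebraMap ℝ A) r3
  have c4 := congrArg (algebraMap ℝ A) r4
  simp only [map_add, map_sub, map_mul] at c1 c2 c3 c4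
  linear_combination hrel + τ ^ 3 * c1 + τ ^ 2 * c2 + τ * c3 + c4

theorem el_smul {A : Type} [CommRing A] [Algebra ℝ A] (b : Module.Basis (Fin 4) ℝ A) (c : ℝ) (x : A) :
    el b (c • x) = c * el b x := by
  unfold el
  rw [map_smul, Finsupp.smul_apply, smul_eq_mul]

theorem el_sub {A : Type} [CommRing A] [Algebra ℝ A] (b : Module.Basis (Fin 4) ℝ A) (x y : A) :
    el b (x - y) = el b x - el b y := by
  unfold el
  rw [map_sub, Finsupp.sub_apply]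

/-- the conditions on the moments -/
theorem mom {A : Type} [CommRing A] [Algebra ℝ A] (b : Module.Basis (Fin 4) ℝ A) (τ ti r q : A)
    (hti : τ * ti = 1) (n : ℕ → ℝ) (hn : ∀ j, n j = el b (τ ^ j * (ti * r * q))) (s s1 : ℝ)
    (h : n 2 - s * n 1 ≠ 0) (hs1 : s1 = sM n s) :
    el b (r * (τ - s • (1 : A)) * q) ≠ 0 ∧
      el b ((τ - s1 • (1 : A)) * (r * (τ - s • (1 : A)) * q)) = 0 := by
  have e1 : el b (r * (τ - s • (1 : A)) * q) = n 2 - s * n 1 := by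
    rw [hn, hn, ← el_smul, ← el_sub]
    congr 1
    simp only [Algebra.smul_def]
    linear_combination (algebraMap ℝ A s * r * q - τ * r * q) * hti
  have e2 : el b (τ * (r * (τ - s • (1 : A)) * q)) = n 3 - s * n 2 := by
    rw [hn, hn, ← el_smul, ← el_sub]
    congr 1
    simp only [Algebra.smul_def]
    linear_combination (algebraMap ℝ A s * τ * r * q - τ ^ 2 * r * q) * hti
  refine ⟨by rw [e1]; exact h, ?_⟩
  rw [sub_mul, smul_mul_assoc, one_mul, el_sub, el_smul, e1, e2, hs1]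
  unfold sM
  field_simp
  ring

end GeoAux

open GeoAux in
theorem tGeo (hFam : S_Fam) (hDt : S_Dt) (hRA : S_RA) (hRI : S_RI) (hMu : S_Mu) (hLin : S_Lin)
    (hBrg : S_Brg) (hInc : S_Inc) : S_Geo := by
  intro t Y mt mY z hz hz2 e c v κ hc hκ hTw hv0 hv1 hve hvc
  have mρ : MFam (rho Y) := hFam.2.2.2.1 Y mY
  have mρ' : MFam (dual t (rho Y)) := (hFam.2.2.2.2 t (rho Y) mt mρ).1
  obtain ⟨u1, u2, u3, u4⟩ := hz
  obtain ⟨z1, hz1⟩ : ∃ z1, z1 = mu t (rho Y) z := ⟨_, rfl⟩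
  obtain ⟨y2, hy2⟩ : ∃ z2, z2 = Rm t z1 := ⟨_, rfl⟩
  obtain ⟨y3, hy3⟩ : ∃ z3, z3 = mu t (dual t (rho Y)) y2 := ⟨_, rfl⟩
  obtain ⟨y4, hy4⟩ : ∃ z4, z4 = Rm t y3 := ⟨_, rfl⟩
  have hTH : TH t Y z = y4 := by
    rw [hy4, hy3, hy2, hz1]
    rfl
  rw [hTH]
  rw [← hz1] at u2 u3 u4
  rw [← hy2] at u3 u4
  rw [← hy3] at u4
  -- coordinates
  have a0 : z1 0 = z 0 := by rw [hz1]; rfl
  have a1 : z1 1 = z 1 := by rw [hz1]; rfl
  have a2 : z1 2 = z 2 := by rw [hz1]; rfl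
  have a3 : z1 3 = sM (mq t (rho Y) z) (z 3) := by rw [hz1]; rfl
  have a4 : z1 4 = z 4 := by rw [hz1]; rfl
  have a5 : z1 5 = z 5 := by rw [hz1]; rfl
  have b0 : y2 0 = z 0 := by rw [hy2, ← a0]; rfl
  have b1 : y2 1 = z 1 := by rw [hy2, ← a1]; rfl
  have b2 : y2 2 = z 2 := by rw [hy2, ← a2]; rfl
  have b3 : y2 3 = sR (pc t z1) (z1 3) (z1 4) (z1 5) := by rw [hy2]; rfl
  have b4 : y2 4 = uR (pc t z1) (z1 3) (z1 4) (z1 5) := by rw [hy2]; rfl
  have b5 : y2 5 = cR (pc t z1) (z1 5) := by rw [hy2]; rfl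
  have c0 : y3 0 = z 0 := by rw [hy3, ← b0]; rfl
  have c1 : y3 1 = z 1 := by rw [hy3, ← b1]; rfl
  have c2 : y3 2 = z 2 := by rw [hy3, ← b2]; rfl
  have c3 : y3 3 = sM (mq t (dual t (rho Y)) y2) (y2 3) := by rw [hy3]; rfl
  have c4 : y3 4 = y2 4 := by rw [hy3]; rfl
  have c5 : y3 5 = y2 5 := by rw [hy3]; rfl
  have d0 : y4 0 = z 0 := by rw [hy4, ← c0]; rfl
  have d1 : y4 1 = z 1 := by rw [hy4, ← c1]; rfl
  have d2 : y4 2 = z 2 := by rw [hy4, ← c2]; rfl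
  have d3 : y4 3 = sR (pc t y3) (y3 3) (y3 4) (y3 5) := by rw [hy4]; rfl
  have d4 : y4 4 = uR (pc t y3) (y3 3) (y3 4) (y3 5) := by rw [hy4]; rfl
  have d5 : y4 5 = cR (pc t y3) (y3 5) := by rw [hy4]; rfl
  -- the polynomial `p`
  have p1 : pc t z1 = pc t z := by
    rw [hz1]
    exact (hMu t (rho Y) mt mρ z u1).2.2.2.1
  have p2 : pc t y2 = pc t z := by
    rw [hy2, (hRI t mt z1 u2).2.2.2, p1]
  have p3 : pc t y3 = pc t z := by
    rw [hy3, (hMu t (dual t (rho Y)) mt mρ' y2 u3).2.2.2.1, p2]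
  obtain ⟨hDD, hQdet, -, hm1⟩ := u1
  obtain ⟨-, v1, v2, v3, v4, v5⟩ := u2
  obtain ⟨-, hZdet, -, hm2⟩ := u3
  obtain ⟨-, w1, w2, w3, w4, w5⟩ := u4
  obtain ⟨-, x1, x2, -⟩ := hz2
  rw [← b3] at v5
  rw [← d3] at w5
  obtain ⟨hα, hRel⟩ := hRA.1 _ _ _ _ v1 v2 v3
  obtain ⟨hα', hRel'⟩ := hRA.1 _ _ _ _ w1 w2 w3
  rw [← b3, ← b4, ← b5] at hRel
  rw [← d3, ← d4, ← d5] at hRel'
  generalize aR (pc t z1) (z1 3) (z1 4) (z1 5) = α at hα hRel
  generalize aR (pc t y3) (y3 3) (y3 4) (y3 5) = α' at hα' hRel'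
  rw [p1] at v4 v5 hRel
  rw [p3] at w4 w5 hRel'
  rw [a4, a5] at hRel
  rw [c4, c5] at hRel'
  obtain ⟨dt1, dt2, dt3, -, -⟩ := hDt t mt z hDD
  obtain ⟨A, i1, i2, ι, b, τ, hFr, hτ, -, -, hsurj, -, hel, -, hsurj0, hinj0, hinv⟩ :=
    hBrg t mt z hDD
  have hzz : z 2 ≠ 0 := hDD.1
  have tt2 : t y2 = t z := mt.dep _ _ b0 b1 b2
  have tt4 : t y4 = t z := mt.dep _ _ d0 d1 d2
  have YY4 : Y y4 = Y z := mY.dep _ _ d0 d1 d2
  have rr2 : rho Y y2 = rho Y z := mρ.dep _ _ b0 b1 b2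
  have KK2 : Kt t y2 = Kt t z := by
    unfold Kt
    rw [tt2]
  -- elements of the algebra
  have hιs : ∀ s : ℝ, ι (τ - s • (1 : A)) = t z - s • (1 : M4) := by
    intro s
    rw [map_sub, map_smul, map_one, hτ]
  have hιQ : ∀ u C : ℝ, ι (qe τ u C) = (t z) ^ 2 + u • t z + C • (1 : M4) := by
    intro u C
    unfold qe
    rw [map_add, map_add, map_smul, map_smul, map_one, map_pow, hτ]
  have hQ1 : ι (qe τ (z 4) (z 5)) = Qm t z := hιQ _ _
  have hQ2 : ι (qe τ (y2 4) (y2 5)) = Qm t y2 := by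
    rw [hιQ]
    unfold Qm
    rw [tt2]
  have hQ4 : ι (qe τ (y4 4) (y4 5)) = Qm t y4 := by
    rw [hιQ]
    unfold Qm
    rw [tt4]
  obtain ⟨q, hq, hιq⟩ := hinv (qe τ (z 4) (z 5)) (by rw [hQ1]; exact hQdet)
  obtain ⟨zi, hzi, hιzi⟩ := hinv (qe τ (y2 4) (y2 5)) (by rw [hQ2]; exact hZdet)
  obtain ⟨σ0, hσ0, hισ0⟩ := hinv (τ - z 3 • (1 : A)) (by rw [hιs]; exact x1)
  obtain ⟨σ1, hσ1, -⟩ := hinv (τ - z1 3 • (1 : A)) (by rw [hιs, dt3]; exact v4)
  obtain ⟨σ2, hσ2, -⟩ := hinv (τ - y2 3 • (1 : A)) (by rw [hιs, dt3]; exact v5)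
  obtain ⟨σ3, hσ3, -⟩ := hinv (τ - y3 3 • (1 : A)) (by rw [hιs, dt3]; exact w4)
  obtain ⟨σ4, hσ4, hισ4⟩ := hinv (τ - y4 3 • (1 : A)) (by rw [hιs, dt3]; exact w5)
  obtain ⟨ti, hti, hιti⟩ := hinv τ (by rw [hτ, dt1]; exact dt2)
  obtain ⟨m, hm⟩ := hsurj (mono z) rfl
  have hmdet : (mono z).det ≠ 0 := by rw [hFam.1]; exact hzz
  obtain ⟨mi, hmi, -⟩ := hinv m (by rw [hm]; exact hmdet)
  obtain ⟨y, hy⟩ := hsurj (Y z) (mY.com z hzz)
  obtain ⟨yi, hyi, hιyi⟩ := hinv y (by rw [hy]; exact mY.ndet z hzz)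
  have hr : ι (m * y ^ 2) = rho Y z := by
    rw [map_mul, map_pow, hm, hy]
    rfl
  obtain ⟨r, hrr⟩ : ∃ r, r = m * y ^ 2 := ⟨_, rfl⟩
  rw [← hrr] at hr
  obtain ⟨ri, hri, hιri⟩ := hinv r (by rw [hr]; exact mρ.ndet z hzz)
  -- the moments
  have hn : ∀ j, mq t (rho Y) z j = el b (τ ^ j * (ti * r * q)) := by
    intro j
    unfold mq
    rw [hel, map_mul, map_pow, map_mul, map_mul, hτ, hιti, hr, hιq, hτ, hQ1]
  have hn' : ∀ j, mq t (dual t (rho Y)) y2 j = el b (τ ^ j * (ti * (τ ^ 2 * ri) * zi)) := by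
    intro j
    unfold mq dual ell
    rw [KK2, tt2, rr2, hel, map_mul, map_pow, map_mul, map_mul, map_mul, map_pow, hτ, hιti, hιri,
      hιzi, hτ, hQ2, hr]
    rfl
  obtain ⟨g10, g11⟩ := mom b τ ti r q hti _ hn (z 3) (z1 3) hm1 a3
  obtain ⟨g13, g14⟩ := mom b τ ti (τ ^ 2 * ri) zi hti _ hn' (y2 3) (y3 3) hm2 c3
  have h8 := rel_QZ hFr hRel
  have h8' := rel_QZ hFr hRel'
  obtain ⟨-, -, -, -, -, -, -, l8, -⟩ := hLin A τ b (pc t z) hFr
  have g9 : el b (qe τ (z 4) (z 5) * σ0) ≠ 0 := by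
    intro h
    have h2 := l8 (z 3) (z 4) (z 5) σ0 hσ0
    rw [h, mul_zero] at h2
    exact x2 (by linarith)
  have g12 : el b (τ * (τ - z1 3 • (1 : A)) * q) ≠ 0 := by
    intro h
    have h2 := l8 (y2 3) (y2 4) (y2 5) σ2 hσ2
    have h3 : qe τ (y2 4) (y2 5) * σ2 = α • (τ * (τ - z1 3 • (1 : A)) * q) := by
      have h4 := congrArg (fun x => x * (q * σ2)) h8
      simp only [Algebra.smul_def] at h4 hσ2 ⊢
      linear_combination h4 - qe τ (y2 4) (y2 5) * σ2 * hq +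
        (algebraMap ℝ A) α * τ * (τ - (algebraMap ℝ A) (z1 3) * 1) * q * hσ2
    rw [h3, el_smul, h, mul_zero, mul_zero] at h2
    have h5 := (hRA.2 _ _ _ _ _ _ _ _ hRel).2.2.2.1 (y2 3)
    rw [sub_self, mul_zero, zero_add] at h5
    have h6 : qv (y2 4) (y2 5) (y2 3) = 0 := by linarith
    rw [h6, mul_zero] at h5
    exact v5 h5.symm
  obtain ⟨lin0, lin1, inc0, inc1⟩ := hInc A τ b (pc t z) hFr (z 3) (z 4) (z 5) (z1 3) (y2 3) (y2 4)
    (y2 5) (y3 3) α q zi σ0 σ1 ti r ri hq hzi hσ0 hσ1 hti hri hα h8 g9 g10 g11 g12 g13 g14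
  have hX0 : qe τ (z 4) (z 5) * σ0 * ((τ - z 3 • (1 : A)) * q) = 1 := by
    linear_combination hq + qe τ (z 4) (z 5) * q * hσ0
  have hX1 : r * (τ - z 3 • (1 : A)) * q * (ri * σ0 * qe τ (z 4) (z 5)) = 1 := by
    linear_combination hq + qe τ (z 4) (z 5) * q * hσ0 +
      qe τ (z 4) (z 5) * q * ((τ - z 3 • (1 : A)) * σ0) * hri
  have hX1e : r * (τ - z 3 • (1 : A)) * q = m * y ^ 2 * ((τ - z 3 • (1 : A)) * q) := by
    rw [hrr]
    ring
  have hxv : ∀ w : E6, t w = t z → Y w = Y z → ∀ σ : A, ι (qe τ (w 4) (w 5)) = Qm t w →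
      ι σ = (ι (τ - w 3 • (1 : A)))⁻¹ →
      xv t Y w = ι (yi * (qe τ (w 4) (w 5) * σ)) *ᵥ e0 := by
    intro w h1 h2 σ h3 h4
    unfold xv X0
    rw [map_mul, map_mul, hιyi, hy, h3, h4, hιs, h1, h2]
  have xvz := hxv z rfl rfl σ0 hQ1 hισ0
  have xv4 := hxv y4 tt4 YY4 σ4 hQ4 hισ4
  have G0 : τ * (τ - y2 3 • (1 : A)) * σ0 * (ti * σ2 * (τ - z 3 • (1 : A))) = 1 := by
    linear_combination hσ0 + (τ - z 3 • (1 : A)) * σ0 * hσ2 +
      (τ - z 3 • (1 : A)) * σ0 * ((τ - y2 3 • (1 : A)) * σ2) * hti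
  have G1 : τ * (τ - y3 3 • (1 : A)) * σ1 * (ti * σ3 * (τ - z1 3 • (1 : A))) = 1 := by
    linear_combination hσ1 + (τ - z1 3 • (1 : A)) * σ1 * hσ3 +
      (τ - z1 3 • (1 : A)) * σ1 * ((τ - y3 3 • (1 : A)) * σ3) * hti
  have hdet : ∀ a a' : A, a * a' = 1 → (ι a).det ≠ 0 := by
    intro a a' h h0
    have h1 : (ι a * ι a').det = 1 := by rw [← map_mul, h, map_one, Matrix.det_one]
    rw [Matrix.det_mul, h0, zero_mul] at h1
    exact zero_ne_one h1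
  have hcom : ∀ a : A, ι a * mono z = mono z * ι a := by
    intro a
    rw [← hm, ← map_mul, ← map_mul, mul_comm]
  refine ⟨ι (τ * (τ - y2 3 • (1 : A)) * σ0), ι (τ * (τ - y3 3 • (1 : A)) * σ1), hdet _ _ G0,
    hdet _ _ G1, hcom _, hcom _, ?_, ?_⟩
  · exact geo_abs ι hinj0 hsurj0 τ ti m mi y yi (qe τ (z 4) (z 5) * σ0) ((τ - z 3 • (1 : A)) * q)
      (r * (τ - z 3 • (1 : A)) * q) (ri * σ0 * qe τ (z 4) (z 5)) hti hmi hyi hX0 hX1 hX1e e c hc κ hκ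
      v (by rw [hm]; exact hTw.2) hv0 (by rw [hv1, xvz]) (by rw [hτ]; exact hve)
      (by rw [hy]; exact hvc) _ _ _ _ G0 G1 lin0 lin1 inc0 inc1
  · refine ⟨κ * (α / α'), mul_ne_zero hκ (div_ne_zero hα hα'), ?_⟩
    rw [hv1, xvz, xv4, Matrix.mulVec_smul, Matrix.mulVec_mulVec, Matrix.mulVec_mulVec, ← map_mul,
      ← map_mul, mul_smul]
    congr 1
    rw [← Matrix.smul_mulVec, ← map_smul]
    congr 2
    have k1 : qe τ (z 4) (z 5) * σ1 = α • (τ * (τ - y2 3 • (1 : A)) * zi) := by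
      have h4 := congrArg (fun x => x * (zi * σ1)) h8
      simp only [Algebra.smul_def] at h4 hσ1 ⊢
      linear_combination h4 - qe τ (z 4) (z 5) * σ1 * hzi +
        (algebraMap ℝ A) α * τ * (τ - (algebraMap ℝ A) (y2 3) * 1) * zi * hσ1
    have k2 : qe τ (y4 4) (y4 5) * σ4 = α' • (τ * (τ - y3 3 • (1 : A)) * zi) := by
      have h4 := congrArg (fun x => x * (zi * σ4)) h8'
      simp only [Algebra.smul_def] at h4 hσ4 ⊢
      linear_combination h4 - qe τ (y4 4) (y4 5) * σ4 * hzi +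
        (algebraMap ℝ A) α' * τ * (τ - (algebraMap ℝ A) (y3 3) * 1) * zi * hσ4
    have k3 : (α / α') • (τ * (τ - y2 3 • (1 : A)) * σ0 * (yi * (qe τ (y4 4) (y4 5) * σ4))) =
        (α / α' * α') • (τ * (τ - y2 3 • (1 : A)) * σ0 * (yi * (τ * (τ - y3 3 • (1 : A)) * zi))) := by
      rw [k2, mul_smul_comm, mul_smul_comm, smul_smul]
    rw [k3, div_mul_cancel₀ _ hα']
    have k4 : τ * (τ - y3 3 • (1 : A)) * σ1 * (yi * (qe τ (z 4) (z 5) * σ0)) =
        τ * (τ - y3 3 • (1 : A)) * yi * σ0 * (qe τ (z 4) (z 5) * σ1) := by ring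
    rw [k4, k1, mul_smul_comm]
    congr 1
    ring

end Pool.Agent.MP62a5ad.PN
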