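import Pool.Agent.Lib.MP_62a5ad_mp.PN.All
import Pool.Agent.Lib.MP_62a5ad_mp.PN.Geo
import Pool.Agent.Lib.MP_62a5ad_mp.PN.EqO
import Pool.Agent.Lib.MP_62a5ad_mp.PN.EvE

/-!
# MP_62a5ad_mp, PN: the theorem for all `I`
-/

set_option autoImplicit false

namespace Pool.Agent.MP62a5ad.PN

theorem aGeo : S_Geo := tGeo aFam aDt aRA aRI aMu aLin aBrg aInc
theorem aMap : S_Map := tMap aFam aGeo aPP
theorem aFin : S_Fin := tFin aTrf aFam aSm aPP aDU aDen aCore aCas aMap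
theorem aId1 : S_Id1 := tId1 aJac
theorem aEqO : S_EqO := tEqO aDC aFam aDt aSm aLin aBrg aPP aDM aDU aDen
theorem aEvE : S_EvE := tEvE aAn aMA aFam

theorem chart : IsChart OO kap :=
  ⟨aChC.1, aChC.2.1, aChC.2.2, aChA, aChB.1, aChB.2⟩

theorem liouville (a b : ℕ) (ha : 0 < a) (hb : 0 < b) : Liouville a b 4 1 := by
  by_cases hev : Even a ∧ Even b
  · obtain ⟨U, h1, h2, h3⟩ := aEvE a b ha hb hev.1 hev.2
    exact aId1 a b U h1 h2 h3
  · by_cases hab : a = b
    · subst hab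
      have ho : Odd a := by
        rw [← Nat.not_even_iff_odd]
        exact fun h => hev ⟨h, h⟩
      obtain ⟨U, h1, h2, h3⟩ := aEqO a ho
      exact aId1 a a U h1 h2 h3
    · exact aFin a b ha hb hab hev

end Pool.Agent.MP62a5ad.PN
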