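import Pool.Agent.Lib.MP_62a5ad_mp.PN.Spec2
import Pool.Agent.Lib.MP_62a5ad_mp.PN.Core

/-!
# MP_62a5ad_mp, PN: the identity map is Liouville integrable
-/

set_option autoImplicit false

namespace Pool.Agent.MP62a5ad.PN

open Matrix
open scoped ContDiff

namespace Id1Aux

open CoreAux

theorem Jm_id (y : E6) : Jm (fun z => z) y = 1 := by
  ext i j
  show pd (fun z => z i) j y = _
  rw [pd_coord, Matrix.one_apply]

theorem li (hJac : S_Jac) (U : Set E6) (hU : IsOpen U) (hd : Dense U) :
    LI 4 1 U (fun z => z) (fun _ => (1 : ℝ) • EE) (FF fun z => z 3) where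
  isOpen := hU
  dense := hd
  smooth := contDiff_id.contDiffOn
  dense' := hd.mono fun z hz => ⟨hz, hz⟩
  poisson := hJac U (fun _ => 1) hU contDiffOn_const
  rank := fun z _ => rank_EE 1 one_ne_zero
  inv := by
    intro z _ _
    rw [Jm_id, Matrix.one_mul, Matrix.transpose_one, Matrix.mul_one]
  smoothF := fun i => FF_smooth _ U (contDiff_apply ℝ ℝ (3 : Fin 6)).contDiffOn i
  invF := fun i z _ _ => rfl
  indep := fun z _ => FF_indep _ z (by rw [pd_coord]; simp)
  invol := fun i j z _ => FF_invol (fun _ => 1) _ z i j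
  casimir := fun i hi z _ k => FF_casimir 1 _ z i hi k

end Id1Aux

theorem tId1 (hJac : S_Jac) : S_Id1 := by
  intro a b U hU hd hM
  exact ⟨rfl, U, fun z => z, _, _, Id1Aux.li hJac U hU hd, hM⟩

end Pool.Agent.MP62a5ad.PN
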