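import Pool.Agent.Lib.MP_62a5ad_mp.PN.Spec

/-!
# MP_62a5ad_mp, PN: the moments under the involution R
-/

set_option autoImplicit false

namespace Pool.Agent.MP62a5ad.PN

open Matrix
open scoped ContDiff

namespace RGAux

section

variable {A : Type} [CommRing A] [Algebra ℝ A]

theorem el_smul (b : Module.Basis (Fin 4) ℝ A) (c : ℝ) (x : A) : el b (c • x) = c * el b x := by
  unfold el
  rw [map_smul, Finsupp.smul_apply, smul_eq_mul]

theorem el_sub (b : Module.Basis (Fin 4) ℝ A) (x y : A) : el b (x - y) = el b x - el b y := by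
  unfold el
  rw [map_sub, Finsupp.sub_apply]

theorem H0_smul (τ : A) (b : Module.Basis (Fin 4) ℝ A) (c : ℝ) (x : A) :
    H0 τ b (c • x) = c ^ 2 * H0 τ b x := by
  unfold H0
  rw [mul_smul_comm, mul_smul_comm, el_smul, el_smul, el_smul]
  ring

theorem hs_eq (τ : A) (b : Module.Basis (Fin 4) ℝ A) (w : A) (n : ℕ → ℝ)
    (hn : ∀ j, n j = el b (τ ^ j * w)) (s : ℝ) (i : ℕ) :
    hs n s i = H0 τ b (τ ^ i * ((τ - s • (1 : A)) * w)) := by
  have h1 : ∀ j, n (j + 1) - s * n j = el b (τ ^ j * ((τ - s • (1 : A)) * w)) := by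
    intro j
    rw [hn, hn, ← el_smul, ← el_sub]
    congr 1
    rw [Algebra.smul_def, Algebra.smul_def]
    ring
  unfold hs H0
  rw [h1 i, h1 (i + 2), h1 (i + 1)]
  have e1 : τ * (τ ^ i * ((τ - s • (1 : A)) * w)) = τ ^ (i + 1) * ((τ - s • (1 : A)) * w) := by
    rw [pow_succ]
    ring
  have e2 : τ ^ 2 * (τ ^ i * ((τ - s • (1 : A)) * w)) = τ ^ (i + 2) * ((τ - s • (1 : A)) * w) := by
    rw [pow_add]
    ring
  rw [e1, e2]

/-- the algebraic part -/
theorem alg_part (hCmp : S_Cmp) (τ : A) (b : Module.Basis (Fin 4) ℝ A) (p : V4) (hF : Fr τ b p)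
    {s u C s' u' C' α : ℝ} (hα : α ≠ 0) (hRel : Rel p s u C s' u' C' α)
    {q zi th thi ti σ : A} (hq : qe τ u C * q = 1) (hz : qe τ u' C' * zi = 1)
    (hth : th * thi = 1) (hti : τ * ti = 1) (hσ : (τ - s • (1 : A)) * σ = 1) :
    H0 τ b (τ ^ 1 * ((τ - s' • (1 : A)) * (ti * (τ ^ 2 * thi) * zi))) =
      (α⁻¹) ^ 2 * (Algebra.norm ℝ (τ * (thi * σ * qe τ u C)) *
        H0 τ b (τ ^ 0 * ((τ - s • (1 : A)) * (ti * th * q)))) ∧
    H0 τ b (τ ^ 0 * ((τ - s' • (1 : A)) * (ti * (τ ^ 2 * thi) * zi))) =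
      (α⁻¹) ^ 2 * (Algebra.norm ℝ (thi * σ * qe τ u C) *
        H0 τ b (τ ^ 1 * ((τ - s • (1 : A)) * (ti * th * q)))) := by
  obtain ⟨r1, r2, r3, r4⟩ := hRel
  have hrel := hF.rel
  have hQZ : qe τ u C * qe τ u' C' = α • (τ * (τ - s • (1 : A)) * (τ - s' • (1 : A))) := by
    unfold qe
    simp only [Algebra.smul_def] at hrel ⊢
    have c1 := congrArg (algebraMap ℝ A) r1
    have c2 := congrArg (algebraMap ℝ A) r2
    have c3 := congrArg (algebraMap ℝ A) r3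
    have c4 := congrArg (algebraMap ℝ A) r4
    simp only [map_add, map_sub, map_mul] at c1 c2 c3 c4
    linear_combination hrel + τ ^ 3 * c1 + τ ^ 2 * c2 + τ * c3 + c4
  have hX : (τ - s' • (1 : A)) * zi = α⁻¹ • (ti * σ * qe τ u C) := by
    have h1 : qe τ u C * σ = α • (τ * (τ - s' • (1 : A)) * zi) := by
      have h2 := congrArg (fun x => x * (zi * σ)) hQZ
      simp only [Algebra.smul_def] at h2 hσ ⊢
      linear_combination h2 - qe τ u C * σ * hz +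
        (algebraMap ℝ A) α * τ * (τ - (algebraMap ℝ A) s' * 1) * zi * hσ
    have h3 : α⁻¹ • (ti * σ * qe τ u C) = α⁻¹ • (ti * (qe τ u C * σ)) := by
      congr 1
      ring
    rw [h3, h1, mul_smul_comm, smul_smul, inv_mul_cancel₀ hα, one_smul]
    linear_combination -((τ - s' • (1 : A)) * zi) * hti
  have hinv : thi * σ * qe τ u C * ((τ - s • (1 : A)) * th * q) = 1 := by
    linear_combination hth + th * thi * hσ + th * thi * ((τ - s • (1 : A)) * σ) * hq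
  constructor
  · have e1 : τ ^ 1 * ((τ - s' • (1 : A)) * (ti * (τ ^ 2 * thi) * zi)) =
        α⁻¹ • (τ * (thi * σ * qe τ u C)) := by
      have h1 : τ ^ 1 * ((τ - s' • (1 : A)) * (ti * (τ ^ 2 * thi) * zi)) =
          τ * ti * τ ^ 2 * thi * ((τ - s' • (1 : A)) * zi) := by ring
      rw [h1, hX, hti, mul_smul_comm]
      congr 1
      linear_combination τ * thi * σ * qe τ u C * hti
    rw [e1, H0_smul]
    congr 1
    apply hCmp A τ b p hF
    linear_combination hinv + thi * σ * qe τ u C * ((τ - s • (1 : A)) * th * q) * hti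
  · have e1 : τ ^ 0 * ((τ - s' • (1 : A)) * (ti * (τ ^ 2 * thi) * zi)) =
        α⁻¹ • (thi * σ * qe τ u C) := by
      have h1 : τ ^ 0 * ((τ - s' • (1 : A)) * (ti * (τ ^ 2 * thi) * zi)) =
          τ * ti * τ * thi * ((τ - s' • (1 : A)) * zi) := by ring
      rw [h1, hX, hti, mul_smul_comm]
      congr 1
      linear_combination thi * σ * qe τ u C * hti
    rw [e1, H0_smul]
    congr 1
    apply hCmp A τ b p hF
    linear_combination hinv + thi * σ * qe τ u C * ((τ - s • (1 : A)) * th * q) * hti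

end

end RGAux

open RGAux in
theorem tRG (hFam : S_Fam) (hDt : S_Dt) (hRA : S_RA) (hCmp : S_Cmp) (hBrg : S_Brg) (hRI : S_RI) :
    S_RG := by
  intro t θ ht hθ z hz
  obtain ⟨hz'U, -, hQdet, hpc⟩ := hRI t ht z hz
  obtain ⟨-, -, hQdet', -⟩ := hRI t ht (Rm t z) hz'U
  obtain ⟨hDD, hC, hqv, hdR, hpvs, hpvs'⟩ := id hz
  have hz2 : z 2 ≠ 0 := hDD.1
  obtain ⟨dt1, dt2, dt3, dt4, -⟩ := hDt t ht z hDD
  obtain ⟨ra1, -⟩ := hRA
  obtain ⟨hα, hRel⟩ := ra1 (pc t z) (z 3) (z 4) (z 5) hC hqv hdR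
  obtain ⟨A, iA, iB, ι, b, τ, hF, hτ, -, -, hsurj, hnorm, hel, -, -, -, hinv⟩ := hBrg t ht z hDD
  -- the coordinates of the image
  have z0 : Rm t z 0 = z 0 := rfl
  have z1 : Rm t z 1 = z 1 := rfl
  have z2 : Rm t z 2 = z 2 := rfl
  have z3 : Rm t z 3 = sR (pc t z) (z 3) (z 4) (z 5) := rfl
  have z4 : Rm t z 4 = uR (pc t z) (z 3) (z 4) (z 5) := rfl
  have z5 : Rm t z 5 = cR (pc t z) (z 5) := rfl
  have ht' : t (Rm t z) = t z := ht.dep _ _ z0 z1 z2
  have hθ' : θ (Rm t z) = θ z := hθ.dep _ _ z0 z1 z2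
  have hK' : Kt t (Rm t z) = Kt t z := by
    unfold Kt
    rw [ht']
  have hell' : ∀ g, ell t (Rm t z) g = ell t z g := by
    intro g
    unfold ell
    rw [hK']
  -- elements of the algebra
  have hιQ : ∀ u C : ℝ, ι (qe τ u C) = (t z) ^ 2 + u • t z + C • (1 : M4) := by
    intro u C
    unfold qe
    rw [map_add, map_add, map_smul, map_smul, map_one, map_pow, hτ]
  have hQ1 : ι (qe τ (z 4) (z 5)) = Qm t z := hιQ _ _
  have hQ2 : ι (qe τ (Rm t z 4) (Rm t z 5)) = Qm t (Rm t z) := by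
    rw [hιQ]
    unfold Qm
    rw [ht']
  obtain ⟨q, hq, hιq⟩ := hinv (qe τ (z 4) (z 5)) (by rw [hQ1]; exact hQdet)
  obtain ⟨zi, hzi, hιzi⟩ := hinv (qe τ (Rm t z 4) (Rm t z 5)) (by rw [hQ2]; exact hQdet')
  obtain ⟨th, hιth⟩ := hsurj (θ z) (hθ.com z hz2)
  obtain ⟨thi, hthi, hιthi⟩ := hinv th (by rw [hιth]; exact hθ.ndet z hz2)
  obtain ⟨ti, hti, hιti⟩ := hinv τ (by rw [hτ, dt1]; exact dt2)
  have hισ0 : ι (τ - z 3 • (1 : A)) = t z - z 3 • (1 : M4) := by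
    rw [map_sub, map_smul, map_one, hτ]
  obtain ⟨σ, hσ, -⟩ := hinv (τ - z 3 • (1 : A)) (by rw [hισ0, dt3]; exact hpvs)
  -- the moments
  have hn : ∀ j, mq t θ z j = el b (τ ^ j * (ti * th * q)) := by
    intro j
    unfold mq
    rw [hel, map_mul, map_pow, map_mul, map_mul, hτ, hιti, hιth, hιq, hτ, hQ1]
  have hn' : ∀ j, mq t (dual t θ) (Rm t z) j = el b (τ ^ j * (ti * (τ ^ 2 * thi) * zi)) := by
    intro j
    unfold mq dual
    rw [hel, map_mul, map_pow, map_mul, map_mul, map_mul, map_pow, hτ, hιti, hιthi, hιzi, hτ, hQ2,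
      hιth, hell', ht', hθ']
  obtain ⟨a1, a2⟩ := alg_part hCmp τ b (pc t z) hF hα hRel hq hzi hthi hti hσ
  rw [← hs_eq τ b _ _ hn, ← z3, ← hs_eq τ b _ _ hn'] at a1 a2
  -- the norms
  have n1 : Algebra.norm ℝ τ = pc t z 0 := by rw [hnorm, hτ, dt1]
  have n2 : Algebra.norm ℝ (qe τ (z 4) (z 5)) = (Qm t z).det := by rw [hnorm, hQ1]
  have n3 : Algebra.norm ℝ thi = ((θ z).det)⁻¹ := by
    have h1 : Algebra.norm ℝ th * Algebra.norm ℝ thi = 1 := by
      rw [← map_mul, hthi, map_one]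
    rw [hnorm th, hιth] at h1
    exact eq_inv_of_mul_eq_one_right h1
  have n4 : Algebra.norm ℝ σ = (pv (pc t z) (z 3))⁻¹ := by
    have h1 : Algebra.norm ℝ (τ - z 3 • (1 : A)) * Algebra.norm ℝ σ = 1 := by
      rw [← map_mul, hσ, map_one]
    rw [hnorm (τ - z 3 • (1 : A)), hισ0, dt3] at h1
    exact eq_inv_of_mul_eq_one_right h1
  rw [map_mul, map_mul, map_mul, n1, n2, n3, n4] at a1
  rw [map_mul, map_mul, n2, n3, n4] at a2
  constructor
  · rw [a1, div_eq_mul_inv, mul_inv, mul_inv, ← inv_pow]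
    ring
  · rw [a2, div_eq_mul_inv, mul_inv, mul_inv, ← inv_pow]
    ring

end Pool.Agent.MP62a5ad.PN
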