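import Pool.Agent.Lib.MP_62a5ad_mp.PN.Defs

/-!
# MP_62a5ad_mp, PN: Liouville integrability of `T_{I,I}` on `P_{3,2}`, statements and proofs

THEOREM. For `d = 3`, `n = 2` and every `I = (a, b)`, `a ≠ b`, `a` and `b` not both even, the map
`T_{I,I}` on `P_{3,2}` is Liouville integrable (corank 4, rank 2, five integrals).

Every `def S_Foo : Prop` is one task: write `Pool/Agent/Lib/MP_62a5ad_mp/PN/Foo.lean` with
`theorem tFoo (hyps S_... as allowed in the docstring, in the given order) : S_Foo` in the namespace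
`Pool.Agent.MP62a5ad.PN` (helper lemmas in the namespace `Pool.Agent.MP62a5ad.PN.FooAux`).
All tasks are independent: the allowed statements are hypotheses of the theorem.

## Overview

Let `M = mono z` (it depends on `z_0, z_1, z_2` only), `det M = z_2`. All matrices which commute with `M`
form a commutative algebra `A` of dimension 4, and `A → ℝ⁴`, `g ↦ g e0`, is bijective. `t` and `θ`, `Y`
are families of matrices in `A` (`MFam`). If `K = Kt t z = [e0, t e0, t² e0, t³ e0]` is invertible then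
`1, t, t², t³` is a basis of `A`; `ell t z g = ℓ(g)` is the coefficient of `t³` of `g`,
`p = pc t z` are the coefficients of the relation `t⁴ + p₃ t³ + p₂ t² + p₁ t + p₀ = 0`.
The coordinates `z_3 = s, z_4 = u, z_5 = C` of `z` describe the element
`X_0 = Q(t) (t - s)⁻¹`, `Q = x² + u x + C` of `A`, and the polygon with `v_0 = e0`, `v_1 = Y⁻¹ X_0 e0`.
The map `T_{I,I}` becomes `TH = R ∘ μ_{t²/ρ} ∘ R ∘ μ_ρ`, `ρ = M Y²`, with two kinds of involutions: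
`μ_θ : (s, Q) ↦ (s_1, Q)`, `ℓ(θ (t - s)(t - s_1) Q⁻¹) = 0`, and `R : (s, Q) ↦ (s', Z)`,
`Q(x) Z(x) = α x (x - s)(x - s') + p(x)`.
Invariants: `z_0, z_1, z_2`, `C` and `C1 t ρ`; Poisson bracket `{s, u} = GG t ρ z`.
-/

set_option autoImplicit false

namespace Pool.Agent.MP62a5ad.PN

open Matrix
open scoped ContDiff

/-! ### Working definitions -/

/-- A family of invertible matrices which commute with `M` and depend on `M` only. -/
structure MFam (B : E6 → M4) : Prop where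
  an : ∀ i j, AnalyticOnNhd ℝ (fun z => B z i j) {z | z 2 ≠ 0}
  dep : ∀ z z' : E6, z 0 = z' 0 → z 1 = z' 1 → z 2 = z' 2 → B z = B z'
  com : ∀ z : E6, z 2 ≠ 0 → B z * mono z = mono z * B z
  ndet : ∀ z : E6, z 2 ≠ 0 → (B z).det ≠ 0

/-- The matrix with the columns `e0, t e0, t² e0, t³ e0`. -/
def Kt (t : E6 → M4) (z : E6) : M4 := Matrix.of fun i j => ((t z) ^ (j : ℕ) *ᵥ e0) i

/-- The coefficient of `t³`. -/
noncomputable def ell (t : E6 → M4) (z : E6) (g : M4) : ℝ := ((Kt t z)⁻¹ *ᵥ (g *ᵥ e0)) 3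

/-- The coefficients `p_0, …, p_3`: `t⁴ + p₃ t³ + p₂ t² + p₁ t + p₀ = 0`. -/
noncomputable def pc (t : E6 → M4) (z : E6) : V4 := -((Kt t z)⁻¹ *ᵥ ((t z) ^ 4 *ᵥ e0))

/-- The polynomial `p`. -/
def pv (p : V4) (x : ℝ) : ℝ := x ^ 4 + p 3 * x ^ 3 + p 2 * x ^ 2 + p 1 * x + p 0

/-- The polynomial `Q`. -/
def qv (u C x : ℝ) : ℝ := x ^ 2 + u * x + C

/-- `Q(t)`. -/
def Qm (t : E6 → M4) (z : E6) : M4 := (t z) ^ 2 + z 4 • t z + z 5 • (1 : M4)

/-- The set where `M` is invertible and `1, t, t², t³` is a basis. -/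
def DD (t : E6 → M4) : Set E6 := {z | z 2 ≠ 0 ∧ (Kt t z).det ≠ 0}

/-! #### The involution `R` -/

def A1 (p : V4) (u C : ℝ) : ℝ := C * (u ^ 2 - p 3 * u + p 2 - C) - p 0
def A0 (p : V4) (u C : ℝ) : ℝ := C * ((u - p 3) * C + p 1) - p 0 * u
def dR (p : V4) (s u C : ℝ) : ℝ := A1 p u C * s + A0 p u C

/-- `α`. -/
noncomputable def aR (p : V4) (s u C : ℝ) : ℝ := dR p s u C / (C * qv u C s)

/-- `s'`. -/
noncomputable def sR (p : V4) (s u C : ℝ) : ℝ := (C * A1 p u C - A0 p u C * (s + u)) / dR p s u C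

/-- `u'`. -/
noncomputable def uR (p : V4) (s u C : ℝ) : ℝ := aR p s u C + p 3 - u

/-- `C'`. -/
noncomputable def cR (p : V4) (C : ℝ) : ℝ := p 0 / C

/-- The resultant of `p` and `Q`; it is the determinant of `Q(t)`. -/
def nQ (p : V4) (u C : ℝ) : ℝ :=
  C * (-u ^ 3 + 2 * u * C + p 3 * (u ^ 2 - C) - p 2 * u + p 1) ^ 2
    + u * A1 p u C * (-u ^ 3 + 2 * u * C + p 3 * (u ^ 2 - C) - p 2 * u + p 1) + (A1 p u C) ^ 2

/-- The relations between `(s, u, C)` and `(s', u', C')`: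
`Q(x) Z(x) = α x (x - s)(x - s') + p(x)`, coefficient by coefficient. -/
def Rel (p : V4) (s u C s' u' C' α : ℝ) : Prop :=
  u + u' = p 3 + α ∧ C + C' + u * u' = p 2 - α * (s + s') ∧
    u * C' + u' * C = p 1 + α * s * s' ∧ C * C' = p 0

/-- The map `R`. -/
noncomputable def Rm (t : E6 → M4) (z : E6) : E6 :=
  ![z 0, z 1, z 2, sR (pc t z) (z 3) (z 4) (z 5), uR (pc t z) (z 3) (z 4) (z 5), cR (pc t z) (z 5)]

/-- The domain of `R`. -/
def UR (t : E6 → M4) : Set E6 :=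
  {z | z ∈ DD t ∧ z 5 ≠ 0 ∧ qv (z 4) (z 5) (z 3) ≠ 0 ∧ dR (pc t z) (z 3) (z 4) (z 5) ≠ 0 ∧
    pv (pc t z) (z 3) ≠ 0 ∧ pv (pc t z) (sR (pc t z) (z 3) (z 4) (z 5)) ≠ 0}

/-! #### The involutions `μ_θ` -/

/-- The moments: `mq 0 = ℓ(t⁻¹ θ Q⁻¹)`, `mq 1 = ℓ(θ Q⁻¹)`, `mq 2 = ℓ(t θ Q⁻¹)`, … -/
noncomputable def mq (t θ : E6 → M4) (z : E6) (j : ℕ) : ℝ :=
  ell t z ((t z) ^ j * ((t z)⁻¹ * θ z * (Qm t z)⁻¹))

/-- Hankel determinants of a sequence. -/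
def hk (n : ℕ → ℝ) (i : ℕ) : ℝ := n i * n (i + 2) - n (i + 1) ^ 2
def kk (n : ℕ → ℝ) (i : ℕ) : ℝ := n i * n (i + 3) - n (i + 1) * n (i + 2)

/-- Hankel determinants of the sequence `n (i + 1) - s n i`. -/
def hs (n : ℕ → ℝ) (s : ℝ) (i : ℕ) : ℝ :=
  (n (i + 1) - s * n i) * (n (i + 3) - s * n (i + 2)) - (n (i + 2) - s * n (i + 1)) ^ 2

/-- `s_1`. -/
noncomputable def sM (n : ℕ → ℝ) (s : ℝ) : ℝ := (n 3 - s * n 2) / (n 2 - s * n 1)

/-- The map `μ_θ`. -/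
noncomputable def mu (t θ : E6 → M4) (z : E6) : E6 :=
  ![z 0, z 1, z 2, sM (mq t θ z) (z 3), z 4, z 5]

/-- The domain of `μ_θ`. -/
def UM (t θ : E6 → M4) : Set E6 :=
  {z | z ∈ DD t ∧ (Qm t z).det ≠ 0 ∧ hk (mq t θ z) 1 ≠ 0 ∧ mq t θ z 2 - z 3 * mq t θ z 1 ≠ 0}

/-! #### Poisson structure, invariant, the map -/

/-- The bracket `{s, u}`. -/
noncomputable def GG (t θ : E6 → M4) (z : E6) : ℝ := (Qm t z).det * hs (mq t θ z) (z 3) 1

/-- The fifth invariant: the constant term of `Q_1`. -/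
noncomputable def C1 (t θ : E6 → M4) (z : E6) : ℝ :=
  pc t z 0 * hs (mq t θ z) (z 3) 0 / hs (mq t θ z) (z 3) 1

/-- The bivector `∂_3 ∧ ∂_4`. -/
def EE : M6 := Matrix.of fun i j =>
  if i = 3 ∧ j = 4 then 1 else if i = 4 ∧ j = 3 then -1 else 0

/-- `ρ = M Y²`. -/
def rho (Y : E6 → M4) (z : E6) : M4 := mono z * (Y z) ^ 2

/-- `t² θ⁻¹`. -/
noncomputable def dual (t θ : E6 → M4) (z : E6) : M4 := (t z) ^ 2 * (θ z)⁻¹

/-- The map `T_{I,I}` in the coordinates `z`. -/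
noncomputable def TH (t Y : E6 → M4) (z : E6) : E6 :=
  Rm t (mu t (dual t (rho Y)) (Rm t (mu t (rho Y) z)))

/-- A domain of `TH`. -/
def UT (t Y : E6 → M4) : Set E6 :=
  {z | z ∈ UM t (rho Y) ∧ mu t (rho Y) z ∈ UR t ∧
    Rm t (mu t (rho Y) z) ∈ UM t (dual t (rho Y)) ∧
    mu t (dual t (rho Y)) (Rm t (mu t (rho Y) z)) ∈ UR t}

/-- The numerator of the derivative of `C1` with respect to `s`. -/
def nm (n : ℕ → ℝ) (s : ℝ) : ℝ :=
  s ^ 2 * (kk n 0 * hk n 1 - hk n 0 * kk n 1) + 2 * s * (hk n 0 * hk n 2 - hk n 1 ^ 2)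
    + (hk n 1 * kk n 1 - kk n 0 * hk n 2)

/-- The set where `ρ` and `t` are not proportional. -/
def DI (t Y : E6 → M4) : Set E6 :=
  {z | z ∈ DD t ∧ LinearIndependent ℝ ![rho Y z *ᵥ e0, t z *ᵥ e0]}

/-! #### The change of coordinates between `y` and `z` -/

/-- `X_0 = Q(t) (t - s)⁻¹`. -/
noncomputable def X0 (t : E6 → M4) (z : E6) : M4 := Qm t z * (t z - z 3 • (1 : M4))⁻¹

/-- The vector `Y⁻¹ X_0 e0`. -/
noncomputable def xv (t Y : E6 → M4) (z : E6) : V4 := ((Y z)⁻¹ * X0 t z) *ᵥ e0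

/-- The coordinates `y` of the polygon with the coordinates `z`. -/
noncomputable def Phi (t Y : E6 → M4) (z : E6) : E6 :=
  ![z 0, z 1, z 2, xv t Y z 1 / xv t Y z 0, xv t Y z 2 / xv t Y z 0, xv t Y z 3 / xv t Y z 0]

def U2 (t Y : E6 → M4) : Set E6 :=
  {z | z ∈ DD t ∧ (t z - z 3 • (1 : M4)).det ≠ 0 ∧ qv (z 4) (z 5) (z 3) ≠ 0 ∧ xv t Y z 0 ≠ 0}

/-- `Y X`, `X = 1 + y_3 M + y_4 M² + y_5 M³`. -/
def W0 (Y : E6 → M4) (y : E6) : M4 :=
  Y y * (1 + y 3 • mono y + y 4 • (mono y) ^ 2 + y 5 • (mono y) ^ 3)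

/-- `s(X_0)`. -/
noncomputable def sP (t Y : E6 → M4) (y : E6) : ℝ := ell t y (t y * W0 Y y) / ell t y (W0 Y y)

/-- The coefficients of `(t - s) X_0`. -/
noncomputable def cf (t Y : E6 → M4) (y : E6) : V4 :=
  (Kt t y)⁻¹ *ᵥ (((t y - sP t Y y • (1 : M4)) * W0 Y y) *ᵥ e0)

/-- The coordinates `z` of the polygon with the coordinates `y`. -/
noncomputable def Psi (t Y : E6 → M4) (y : E6) : E6 :=
  ![y 0, y 1, y 2, sP t Y y, cf t Y y 1 / cf t Y y 2, cf t Y y 0 / cf t Y y 2]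

def U1 (t Y : E6 → M4) : Set E6 :=
  {y | y ∈ DD t ∧ ell t y (W0 Y y) ≠ 0 ∧ cf t Y y 2 ≠ 0 ∧ (t y - sP t Y y • (1 : M4)).det ≠ 0}

/-! #### The abstract algebra -/

/-- A commutative algebra with the basis `1, t, t², t³`. -/
structure Fr {A : Type} [CommRing A] [Algebra ℝ A] (t : A) (b : Module.Basis (Fin 4) ℝ A)
    (p : V4) : Prop where
  pow : ∀ i, b i = t ^ (i : ℕ)
  rel : t ^ 4 + p 3 • t ^ 3 + p 2 • t ^ 2 + p 1 • t + p 0 • (1 : A) = 0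

/-- The coefficient of `t³`. -/
noncomputable def el {A : Type} [CommRing A] [Algebra ℝ A] (b : Module.Basis (Fin 4) ℝ A) (g : A) :
    ℝ := b.repr g 3

/-- `ℓ(x) ℓ(t² x) - ℓ(t x)²`. -/
noncomputable def H0 {A : Type} [CommRing A] [Algebra ℝ A] (t : A) (b : Module.Basis (Fin 4) ℝ A)
    (x : A) : ℝ := el b x * el b (t ^ 2 * x) - el b (t * x) ^ 2

/-- The polynomial `Q` at `t`. -/
def qe {A : Type} [CommRing A] [Algebra ℝ A] (t : A) (u C : ℝ) : A := t ^ 2 + u • t + C • (1 : A)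

/-- The planes of the simplified construction, with the offsets `0, 2 e, c`. -/
def Tri (e : ℕ) (c : ℤ) (v : ℤ → V4) (k : ℤ) : Submodule ℝ V4 :=
  Submodule.span ℝ {v k, v (k + 2 * e), v (k + c)}

/-- The image with respect to the offsets `0, 2 e, c`. -/
def IsTri (e : ℕ) (c : ℤ) (v w : ℤ → V4) : Prop :=
  ∀ k, Module.finrank ℝ (Tri e c v k) = 3 ∧ w k ≠ 0 ∧
    Tri e c v k ⊓ Tri e c v (k + 2 * e) ⊓ Tri e c v (k + c) = Submodule.span ℝ {w k}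

/-- The family `M ^ k`. -/
noncomputable def Mz (k : ℤ) (z : E6) : M4 := (mono z) ^ k

/-- The point over `m` with the last three coordinates `x`. -/
def fb (m : E6) (x : Fin 3 → ℝ) : E6 := ![m 0, m 1, m 2, x 0, x 1, x 2]

section

variable {E : Type} [NormedAddCommGroup E] [NormedSpace ℝ E]

/-- The entries of the matrix are analytic. -/
def AM (U : Set E) (A : E → M4) : Prop := ∀ i j, AnalyticOnNhd ℝ (fun z => A z i j) U

/-- The entries of the vector are analytic. -/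
def AV (U : Set E) (v : E → V4) : Prop := ∀ i, AnalyticOnNhd ℝ (fun z => v z i) U

/-- Closure properties. -/
structure MAc (U : Set E) : Prop where
  const : ∀ B : M4, AM U fun _ => B
  add : ∀ A B : E → M4, AM U A → AM U B → AM U fun z => A z + B z
  mul : ∀ A B : E → M4, AM U A → AM U B → AM U fun z => A z * B z
  smul : ∀ (c : E → ℝ) (A : E → M4), AnalyticOnNhd ℝ c U → AM U A → AM U fun z => c z • A z
  pow : ∀ (n : ℕ) (A : E → M4), AM U A → AM U fun z => A z ^ n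
  det : ∀ A : E → M4, AM U A → AnalyticOnNhd ℝ (fun z => (A z).det) U
  adj : ∀ A : E → M4, AM U A → AM U fun z => (A z).adjugate
  inv : ∀ A : E → M4, AM U A → (∀ z ∈ U, (A z).det ≠ 0) → AM U fun z => (A z)⁻¹
  mulVec : ∀ (A : E → M4) (v : E → V4), AM U A → AV U v → AV U fun z => A z *ᵥ v z

end

/-! ## Part A: calculus and topology -/

/-- **JC** (40 lines). The chain rule.
PROOF. `Jm f y i j = fderiv (fun x => f x i) y (single j 1)`; for `f` differentiable at `g z` all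
components are (`differentiableAt_pi`), `fderiv (F ∘ g) z = (fderiv F (g z)).comp (fderiv g z)`, and
`fderiv g z (single j 1)` is the vector with the coordinates `Jm g z k j`, i.e. `∑ k, Jm g z k j •
single k 1` (`pi_eq_sum_univ`); apply linearity. The first claim is the second one for `F = f · i`. -/
def S_JC : Prop :=
  (∀ (f g : E6 → E6) (z : E6), DifferentiableAt ℝ f (g z) → DifferentiableAt ℝ g z →
    Jm (f ∘ g) z = Jm f (g z) * Jm g z) ∧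
  ∀ (F : E6 → ℝ) (g : E6 → E6) (z : E6) (j : Fin 6), DifferentiableAt ℝ F (g z) →
    DifferentiableAt ℝ g z → pd (F ∘ g) j z = ∑ k, pd F k (g z) * Jm g z k j

/-- **DC** (40 lines). Preimages of dense open sets.
PROOF. Open: `ContinuousOn.isOpen_inter_preimage`. Dense: let `O` be open and nonempty. `S ∩ O` is open
and nonempty, so `W = {w ∈ S' | G w ∈ S ∩ O}` is open, and it is nonempty (it contains `F z` for
`z ∈ S ∩ O`). Take `w ∈ V ∩ W`. Then `z = G w ∈ S ∩ O` and `F z = w ∈ V`. -/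
def S_DC : Prop := ∀ (S S' V : Set E6) (F G : E6 → E6), IsOpen S → IsOpen S' →
  ContinuousOn F S → ContinuousOn G S' → Set.MapsTo F S S' → Set.MapsTo G S' S →
  (∀ z ∈ S, G (F z) = z) → (∀ z ∈ S', F (G z) = z) → Dense S → IsOpen V → Dense V →
  IsOpen {z | z ∈ S ∧ F z ∈ V} ∧ Dense {z | z ∈ S ∧ F z ∈ V}

/-- **Fib** (40 lines). A set which is dense in all fibres over a dense set is dense.
PROOF. Let `O` be open and nonempty, `z ∈ O`. `(m, x) ↦ fb m x` is continuous and `fb z ![z 3, z 4,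
z 5] = z`. So `{m | fb m ![z 3, z 4, z 5] ∈ O}` is open and contains `z`: take `m ∈ D` in it. Then
`{x | fb m x ∈ O}` is open and nonempty: it contains a point `x` with `fb m x ∈ V`. -/
def S_Fib : Prop := ∀ V D : Set E6, Dense D → (∀ m ∈ D, Dense {x | fb m x ∈ V}) → Dense V

/-- **An** (30 lines). The complement of the zero set of an analytic function is dense.
PROOF. Open: continuity. If it is not dense then `P` vanishes near a point, so `P = 0` by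
`AnalyticOnNhd.eqOn_zero_of_preconnected_of_eventuallyEq_zero` on `Set.univ`
(`isPreconnected_univ`). -/
def S_An : Prop := ∀ (E : Type) [NormedAddCommGroup E] [NormedSpace ℝ E] (P : E → ℝ),
  AnalyticOnNhd ℝ P Set.univ → (∃ x, P x ≠ 0) → IsOpen {x | P x ≠ 0} ∧ Dense {x | P x ≠ 0}

/-- **MA** (80 lines). Closure properties of analytic matrix functions.
PROOF. `add`, `mul` (`Matrix.mul_apply`, finite sums of products: `Finset.analyticOnNhd_sum` or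
`Finset.analyticOnNhd_fun_sum`), `pow` by induction, `det` by `Matrix.det_apply` (sums over
permutations of products), `adj`: `Matrix.adjugate_apply` (the determinant of a matrix with one row
replaced by a constant vector, apply `det`), `inv`: `(A z)⁻¹ = (det)⁻¹ • adjugate`
(`Matrix.inv_def`, `Ring.inverse_eq_inv'`, `AnalyticOnNhd.inv`), `mulVec`: finite sums. -/
def S_MA : Prop := ∀ (E : Type) [NormedAddCommGroup E] [NormedSpace ℝ E] (U : Set E), MAc U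

/-- **Trf** (150 lines). Allowed: `S_JC`, `S_DC`. Change of coordinates.
PROOF. `π' y = Jm Φ (Ψ y) * π (Ψ y) * (Jm Φ (Ψ y))ᵀ`, `U = {y ∈ U1 | Ψ y ∈ V}`, `f = Φ ∘ T ∘ Ψ`,
`F' i = F i ∘ Ψ`. For `y ∈ U1`: `Jm Ψ y * Jm Φ (Ψ y) = 1` and `Jm Φ (Ψ y) * Jm Ψ y = 1` (chain rule
for `Φ ∘ Ψ = id` on the open set `U1`, `Ψ ∘ Φ = id` on `U2`; `Filter.EventuallyEq.fderiv_eq`).
For `y ∈ U`: `Ψ (f y) = T (Ψ y)` as `T (Ψ y) ∈ U2`, and `f y ∈ U1`. Hence `f y ∈ U` iff `T (Ψ y) ∈ V`.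
`isOpen`, `dense`: `S_DC` with `S = U1`, `S' = U2` and the set `V`. `dense'`: the set is
`{y ∈ U1 | Ψ y ∈ V'}`, `V' = {z ∈ V | T z ∈ V}` open and dense, `S_DC`. `smooth`: composition.
`poisson`: the entries of `π'` are smooth (`pd` of a smooth function on an open set is smooth,
`ContDiffOn.fderiv_of_isOpen`); `skew` is clear. `jacobi`: for `F`, `G` differentiable on `U` one has
`br π' F G y = br π (F ∘ Φ) (G ∘ Φ) (Ψ y)` for all `y ∈ U`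
(`dF = d(F ∘ Φ)(Ψ y) ∘ ...`: row vectors, `grad (F ∘ Φ) (Ψ y) = grad F y * Jm Φ (Ψ y)`), and
`(br π' G H) ∘ Φ = br π (G ∘ Φ) (H ∘ Φ)` on the open set `V ∩ U2 = V`; so the Jacobi identity
for `π` and the functions `F ∘ Φ`, `G ∘ Φ`, `H ∘ Φ` (smooth on `V`) gives the claim.
`rank`: `Jm Φ (Ψ y)` is invertible (`Matrix.rank_mul_eq_left_of_isUnit_det` etc.).
`inv`: `Jm f y = Jm Φ (T Ψ y) * Jm T (Ψ y) * Jm Ψ y`, insert and use `Jm Ψ y * Jm Φ (Ψ y) = 1`.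
`invF`, `smoothF` clear. `indep`: `fderiv (F i ∘ Ψ) y = (fderiv (F i) (Ψ y)).comp (fderiv Ψ y)` with
`fderiv Ψ y` bijective (`LinearIndependent.map'` for the injective map `L ↦ L.comp (fderiv Ψ y)`).
`invol`: by the formula for `br`. `casimir`: `π' * grad (F ∘ Ψ) = Jm Φ * π * (Jm Φ)ᵀ * (Jm Ψ)ᵀ * grad F
= Jm Φ * π * grad F = 0`. -/
def S_Trf : Prop := ∀ (p q : ℕ) (U1 U2 V : Set E6) (Ψ Φ T : E6 → E6) (π : E6 → M6)
  (F : Fin (p + q) → E6 → ℝ), IsOpen U1 → IsOpen U2 → Dense U1 → ContDiffOn ℝ ∞ Ψ U1 →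
  ContDiffOn ℝ ∞ Φ U2 → Set.MapsTo Ψ U1 U2 → Set.MapsTo Φ U2 U1 → (∀ y ∈ U1, Φ (Ψ y) = y) →
  (∀ z ∈ U2, Ψ (Φ z) = z) → V ⊆ U2 → (∀ z ∈ V, T z ∈ U2) → LI p q V T π F →
  ∃ π', LI p q {y | y ∈ U1 ∧ Ψ y ∈ V} (Φ ∘ T ∘ Ψ) π' fun i => F i ∘ Ψ

/-- **Jac** (100 lines). Bivectors `G ∂_3 ∧ ∂_4` are Poisson.
PROOF. `br (G • EE) F H y = G y * (pd F 3 y * pd H 4 y - pd F 4 y * pd H 3 y)`. For smooth `F`, `H`
this function is smooth on `U`, and its partial derivatives follow from the product rule; with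
`pd (pd F 3) 4 = pd (pd F 4) 3` on `U` (symmetry of the second derivative,
`ContDiffAt.isSymmSndFDerivAt` or `second_derivative_symmetric_of_eventually`) the sum of the three
terms is zero: write `f_i = pd F i y`, `f_ij`, `g_i`, `h_i`, … , `G`, `G_3`, `G_4` for all the values at
`y` and use `ring`. (The terms with `G_3`, `G_4` cancel by `f_3 (g_3 h_4 - g_4 h_3) + g_3 (h_3 f_4 -
h_4 f_3) + h_3 (f_3 g_4 - f_4 g_3) = 0` and the same with `f_4, g_4, h_4` in front.) -/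
def S_Jac : Prop := ∀ (U : Set E6) (G : E6 → ℝ), IsOpen U → ContDiffOn ℝ ∞ G U →
  IsPoisson U fun z => G z • EE

/-! ## Part B: families -/

/-- **Fam** (100 lines). Allowed: `S_MA`.
PROOF. `det (mono z) = z 2` (`Matrix.det_succ_row_zero` or `Matrix.det_fin_four`-style expansion with
`simp` and `ring`). `rho Y`, `dual t θ` are products, powers and inverses of matrices which commute with
`mono z`; analytic by `S_MA` on `{z | z 2 ≠ 0}`; `dep`: clear. `dual t (dual t θ) z = t² (t² θ⁻¹)⁻¹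
= t² θ (t²)⁻¹ = θ` (the matrices `t z` and `θ z` commute: they commute with `mono z`, and a matrix `g`
which commutes with `mono z` is determined by `g e0`, because `e0, M e0, M² e0, M³ e0` is the
standard basis; `g = ∑ (g e0)_i M^i`, so any two such matrices commute). `Mz k`: `Matrix` `zpow`; for
`k = n` a power, for `k = -n` the inverse of a power (`Matrix.zpow_neg_natCast` or
`zpow_neg`). -/
def S_Fam : Prop :=
  (∀ z : E6, (mono z).det = z 2) ∧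
  (∀ (z : E6) (g h : M4), g * mono z = mono z * g → h * mono z = mono z * h → g * h = h * g) ∧
  (∀ k : ℤ, MFam (Mz k)) ∧ (∀ Y : E6 → M4, MFam Y → MFam (rho Y)) ∧
  ∀ t θ : E6 → M4, MFam t → MFam θ → MFam (dual t θ) ∧
    ∀ z : E6, z 2 ≠ 0 → dual t (dual t θ) z = θ z

/-- **Dt** (100 lines). Determinants.
PROOF. Let `K = Kt t z`, `p = pc t z`, `c = !![0,0,0,-p 0; 1,0,0,-p 1; 0,1,0,-p 2; 0,0,1,-p 3]`.
Then `t z * K = K * c`: column `j < 3` of both sides is `t^(j+1) e0`, column 3 is `t⁴ e0 = -K p`. As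
`K` is invertible, `det (f(t)) = det (f(c))` for `f(t) = t`, `t - x`, `t² + u t + C`
(`t = K c K⁻¹`). The determinants of the explicit matrices: `simp [Matrix.det_succ_row_zero,
Fin.sum_univ_succ]`, `ring`. The last claim: `t⁴ + p₃ t³ + … + p₀` kills `e0` (multiply the definition
of `pc` by `K`), it commutes with `mono z`, so it kills `e0, M e0, M² e0, M³ e0`, the standard basis. -/
def S_Dt : Prop := ∀ t : E6 → M4, MFam t → ∀ z ∈ DD t,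
  (t z).det = pc t z 0 ∧ pc t z 0 ≠ 0 ∧ (∀ x : ℝ, (t z - x • (1 : M4)).det = pv (pc t z) x) ∧
    (∀ u C : ℝ, ((t z) ^ 2 + u • t z + C • (1 : M4)).det = nQ (pc t z) u C) ∧
    (t z) ^ 4 + pc t z 3 • (t z) ^ 3 + pc t z 2 • (t z) ^ 2 + pc t z 1 • t z + pc t z 0 • (1 : M4) = 0

/-- **Sm** (200 lines). Allowed: `S_MA`, `S_Fam`. Analyticity of all functions.
PROOF. `{z | z 2 ≠ 0}` is open; the entries of `Kt t` are analytic there (`S_MA`: `mulVec`, `pow`,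
constant vector `e0`), so `DD t` is open and `(Kt t)⁻¹` is analytic on it; hence `pc t` and, for an
analytic matrix function `g`, `ell t z (g z)`. `Qm t` is analytic, so `QD` (the first set below) is open
and the moments `mq t θ · j` are analytic on it. The sets `UM`, `UR`, `U1`, `U2` are given by finitely
many conditions `f z ≠ 0`, where `f` is analytic (so continuous) on the open set given by the previous
conditions: `ContinuousOn.isOpen_inter_preimage` with the open set `{0}ᶜ`. The components of the maps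
are quotients of analytic functions with a nonvanishing denominator (`AnalyticOnNhd.div`). For
`MFam`s `t`, `θ`, `Y`. (`xv`: the determinant of `t z - z 3` is not zero on `U2`; `cf`: analytic where
`ell t y (W0 Y y) ≠ 0`.) Vectors `![...]`: `Fin.cases`/`fin_cases` on the index. -/
def S_Sm : Prop := ∀ t θ Y : E6 → M4, MFam t → MFam θ → MFam Y →
  IsOpen (DD t) ∧ AV (DD t) (pc t) ∧
  IsOpen {z | z ∈ DD t ∧ (Qm t z).det ≠ 0} ∧
  (∀ j, AnalyticOnNhd ℝ (fun z => mq t θ z j) {z | z ∈ DD t ∧ (Qm t z).det ≠ 0}) ∧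
  AnalyticOnNhd ℝ (GG t θ) {z | z ∈ DD t ∧ (Qm t z).det ≠ 0} ∧
  IsOpen {z | (z ∈ DD t ∧ (Qm t z).det ≠ 0) ∧ hs (mq t θ z) (z 3) 1 ≠ 0} ∧
  AnalyticOnNhd ℝ (C1 t θ) {z | (z ∈ DD t ∧ (Qm t z).det ≠ 0) ∧ hs (mq t θ z) (z 3) 1 ≠ 0} ∧
  IsOpen (UM t θ) ∧ (∀ i, AnalyticOnNhd ℝ (fun z => mu t θ z i) (UM t θ)) ∧
  IsOpen (UR t) ∧ (∀ i, AnalyticOnNhd ℝ (fun z => Rm t z i) (UR t)) ∧
  IsOpen (U1 t Y) ∧ (∀ i, AnalyticOnNhd ℝ (fun z => Psi t Y z i) (U1 t Y)) ∧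
  IsOpen (U2 t Y) ∧ (∀ i, AnalyticOnNhd ℝ (fun z => Phi t Y z i) (U2 t Y))

/-! ## Part C: the two involutions -/

/-- **RA** (80 lines). The relations behind `R` (real algebra).
PROOF. (1) With `α = dR / (C qv)`, `u' = α + p₃ - u`, `C' = p₀ / C`, `s' = (C A1 - A0 (s + u)) / dR`
all four equations of `Rel` are rational identities: `field_simp` and `ring` after unfolding
(`α s' = (C A1 - A0 (s + u)) / (C qv)` avoids the division by `dR`; prove this first).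
(2) `Rel` gives `p₃ = u + u' - α`, `p₂ = C + C' + u u' + α (s + s')`, `p₁ = u C' + u' C - α s s'`,
`p₀ = C C'`; insert these into the definitions: all claims are polynomial identities (`ring`). -/
def S_RA : Prop :=
  (∀ (p : V4) (s u C : ℝ), C ≠ 0 → qv u C s ≠ 0 → dR p s u C ≠ 0 → aR p s u C ≠ 0 ∧
    Rel p s u C (sR p s u C) (uR p s u C) (cR p C) (aR p s u C)) ∧
  ∀ (p : V4) (s u C s' u' C' α : ℝ), Rel p s u C s' u' C' α →
    Rel p s' u' C' s u C α ∧ dR p s u C = α * C * qv u C s ∧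
    C * A1 p u C - A0 p u C * (s + u) = s' * dR p s u C ∧
    (∀ x, qv u C x * qv u' C' x = α * x * (x - s) * (x - s') + pv p x) ∧
    nQ p u C = α ^ 2 * C * qv u C s * qv u C s' ∧
    A0 p u C ^ 2 - u * A0 p u C * A1 p u C + C * A1 p u C ^ 2 = C * nQ p u C

/-- **RI** (100 lines). Allowed: `S_RA`, `S_Dt`. `R` is an involution.
PROOF. `z' = Rm t z` has the same coordinates `0, 1, 2`, so (`MFam.dep`) `t`, `Kt`, `pc`, and the
membership in `DD t` do not change. Put `p = pc t z`, `(s, u, C) = (z 3, z 4, z 5)`, `s' = sR …`, etc. By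
`S_RA` (1) `Rel p s u C s' u' C' α`, `α ≠ 0`, so `Rel p s' u' C' s u C α`; at `x = s'`:
`qv u C s' * qv u' C' s' = pv p s' ≠ 0`, and `C' ≠ 0` as `p₀ ≠ 0` (`S_Dt`). `S_RA` (2) for the
second relation: `dR p s' u' C' = α C' qv u' C' s' ≠ 0`, so `aR p s' u' C' = α`,
`sR p s' u' C' = s`, `uR p s' u' C' = α + p₃ - u' = u`, `cR p C' = C`. Hence `Rm t z' = z`, and
`z' ∈ UR t` (its `s'` is `s`, and `pv p s ≠ 0`). The determinant of `Qm t z`: `S_Dt` and `nQ = α² C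
qv(s) qv(s') ≠ 0`. -/
def S_RI : Prop := ∀ t : E6 → M4, MFam t → ∀ z ∈ UR t,
  Rm t z ∈ UR t ∧ Rm t (Rm t z) = z ∧ (Qm t z).det ≠ 0 ∧ pc t (Rm t z) = pc t z

/-- **RJ** (150 lines). Allowed: `S_RA`, `S_Dt`, `S_Sm`. The Jacobi matrix of `R`.
PROOF. Only the columns 3 and 4 of `J = Jm (Rm t) z` matter: `(J EE Jᵀ) i j = J i 3 * J j 4 - J i 4 *
J j 3`. The rows 0, 1, 2, 5 of `Rm t` do not depend on `z 3`, `z 4` (row 5 is `pc t z 0 / z 5`), so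
there `J i 3 = J i 4 = 0`; it remains to show `J 3 3 * J 4 4 - J 3 4 * J 4 3 = Z(s') / Q(s)`, where
`Q = qv u C`, `Z = qv u' C'`. `Rm t` is differentiable at `z` (`S_Sm`), so `J i 3`, `J i 4` are the
derivatives of the one variable functions `h ↦ Rm t (z + h e_3) i`, `h ↦ Rm t (z + h e_4) i` at 0
(`HasFDerivAt.comp_hasDerivAt`), in which `p = pc t z` and `C` are CONSTANT. Put (derivatives of the
explicit functions `aR`, `uR`, `sR`; or differentiate the relations)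
`u'_u = -Z(s)/Q(s)`, `u'_s = α (s' - s)/Q(s)`,
`s'_u = (-u' - u u'_u - (s + s')(1 + u'_u))/α`, `s'_s = (-u u'_s - (s + s') u'_s)/α - 1`.
DERIVATION: `α = u + u' - p₃`, so `α_s = u'_s`, `α_u = 1 + u'_u`. From `Q(s) Z(s) = p(s)` (relation at
`x = s`): derivative in `u`: `s Z(s) + Q(s) s u'_u = 0`; in `s`: `Q'(s) Z(s) + Q(s)(Z'(s) + s u'_s) =
p'(s)`, and the derivative of `Q Z - p = α x (x - s)(x - s')` at `x = s` is `α s (s - s')`. (These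
divide by `s`; if `s = 0` use the explicit formula instead: with `N = dR`, `α = N/(C Q)`,
`N_s = A1`, `N_u` polynomial, everything is a rational function of `s, u, C, p`, and the final claim is
an identity of rational functions: `field_simp; ring` works without a case distinction; or prove
the two formulas for `u'_u`, `u'_s` directly from `u' = N/(C Q) + p₃ - u`.) From
`C + C' + u u' = p₂ - α (s + s')`: the formulas for `s'_u`, `s'_s`.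
Then `s'_s u'_u - s'_u u'_s = -u'_u + u'_s (u' + s + s')/α = Z(s)/Q(s) + (s' - s)(s + s' + u')/Q(s)
= Z(s')/Q(s)`. -/
def S_RJ : Prop := ∀ t : E6 → M4, MFam t → ∀ z ∈ UR t,
  Jm (Rm t) z * EE * (Jm (Rm t) z)ᵀ =
    (qv (Rm t z 4) (Rm t z 5) (Rm t z 3) / qv (z 4) (z 5) (z 3)) • EE

/-- **Mu** (100 lines). `μ_θ` is an involution; transformation of `GG`, `C1`.
PROOF. `z' = mu t θ z` differs from `z` only in the coordinate 3, so (`MFam.dep`) `DD`, `Qm`,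
`mq t θ z' = mq t θ z = n`. With `s = z 3`, `s1 = sM n s`, `d = n 2 - s n 1 ≠ 0`:
`n 2 - s1 n 1 = -hk n 1 / d`, `sM n s1 = s`, and `hs n s1 i = -(hk n 1 / d²) hs n s i` for `i = 0, 1`:
rational identities (`field_simp; ring` after unfolding). -/
def S_Mu : Prop := ∀ t θ : E6 → M4, MFam t → MFam θ → ∀ z ∈ UM t θ,
  mu t θ z ∈ UM t θ ∧ mu t θ (mu t θ z) = z ∧ mq t θ (mu t θ z) = mq t θ z ∧
  pc t (mu t θ z) = pc t z ∧
  (∀ i : ℕ, i < 2 → hs (mq t θ z) (mu t θ z 3) i =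
    -(hk (mq t θ z) 1 / (mq t θ z 2 - z 3 * mq t θ z 1) ^ 2) * hs (mq t θ z) (z 3) i) ∧
  GG t θ (mu t θ z) =
    -(hk (mq t θ z) 1 / (mq t θ z 2 - z 3 * mq t θ z 1) ^ 2) * GG t θ z ∧
  (hs (mq t θ z) (z 3) 1 ≠ 0 → C1 t θ (mu t θ z) = C1 t θ z)

/-- **MJ** (80 lines). Allowed: `S_Sm`. The Jacobi matrix of `μ_θ`.
PROOF. As for `RJ`: `(J EE Jᵀ) i j = J i 3 * J j 4 - J i 4 * J j 3`; the rows 0, 1, 2, 5 of `J` are unit
vectors, row 4 is the unit vector `e_4`: the only nonzero entries are `(3, 4)` and `(4, 3)`, with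
`J 3 3 * J 4 4 - J 3 4 * J 4 3 = J 3 3 = d/ds sM n s = hk n 1 / (n 2 - s n 1)²`, because
`mq t θ` does not depend on `z 3`. -/
def S_MJ : Prop := ∀ t θ : E6 → M4, MFam t → MFam θ → ∀ z ∈ UM t θ,
  Jm (mu t θ) z * EE * (Jm (mu t θ) z)ᵀ =
    (hk (mq t θ z) 1 / (mq t θ z 2 - z 3 * mq t θ z 1) ^ 2) • EE

/-! ## Part D: the algebra `A` -/

/-- **Lin** (120 lines). Linear algebra in `A`.
PROOF. `g = ∑ g_i t^i` with `g_i = b.repr g i`; `ℓ(t^i) = 0` for `i < 3`, `ℓ(t³) = 1` (`b.repr (b i)`).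
`ℓ(t g) = g_2 - p₃ g_3`, `ℓ(t² g) = g_1 - p₃ g_2 + (p₃² - p₂) g_3`,
`ℓ(t³ g) = g_0 - p₃ g_1 + …` (a combination of `g_1, g_2, g_3`): so `ℓ(g) = 0` iff `g_3 = 0`;
`ℓ(g) = ℓ(t g) = 0` iff `g_3 = g_2 = 0`; etc. The claim for `t - x`: put
`P = t³ + (p₃ + x) t² + (p₂ + p₃ x + x²) t + (p₁ + p₂ x + p₃ x² + x³)`; then `(t - x) P = -p(x)`
in `A` (`linear_combination` with `Fr.rel`), so `t - x` is invertible if `p(x) ≠ 0`, with the inverse
`-P / p(x)`, and `ℓ(P) = 1`. -/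
def S_Lin : Prop := ∀ (A : Type) [CommRing A] [Algebra ℝ A] (t : A) (b : Module.Basis (Fin 4) ℝ A)
  (p : V4), Fr t b p →
  (el b 1 = 0 ∧ el b t = 0 ∧ el b (t ^ 2) = 0 ∧ el b (t ^ 3) = 1) ∧
  (∀ g, (∀ j : ℕ, j < 4 → el b (t ^ j * g) = 0) → g = 0) ∧
  (∀ g, el b g = 0 → ∃ c₀ c₁ c₂ : ℝ, g = c₀ • 1 + c₁ • t + c₂ • t ^ 2) ∧
  (∀ g, el b g = 0 → el b (t * g) = 0 → ∃ c₀ c₁ : ℝ, g = c₀ • 1 + c₁ • t) ∧
  (∀ g, el b g = 0 → el b (t * g) = 0 → el b (t ^ 2 * g) = 0 → ∃ c₀ : ℝ, g = c₀ • 1) ∧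
  (∀ x : ℝ, pv p x ≠ 0 → ∃ σ : A, (t - x • 1) * σ = 1 ∧
    σ = -(pv p x)⁻¹ • (t ^ 3 + (p 3 + x) • t ^ 2 + (p 2 + p 3 * x + x ^ 2) • t +
      (p 1 + p 2 * x + p 3 * x ^ 2 + x ^ 3) • 1)) ∧
  (∀ (x : ℝ) (σ : A), (t - x • 1) * σ = 1 → pv p x * el b σ = -1) ∧
  (∀ (x u C : ℝ) (σ : A), (t - x • 1) * σ = 1 → pv p x * el b (qe t u C * σ) = -qv u C x) ∧
  Nontrivial A

/-- **Cmp** (80 lines). The complementary minor identity: `H0(x) = N(x) H0(x⁻¹)`.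
PROOF. For `y ∈ A` let `D(y) = det_b (1, t, y, t y)` (`b.det`). With the coordinates `y_i = b.repr y i`
one has `ℓ(y) = y_3`, `ℓ(t y) = y_2 - p₃ y_3`, `ℓ(t² y) = y_1 - p₃ y_2 + (p₃² - p₂) y_3`, and the
coordinates of `t y` are `(-p₀ y_3, y_0 - p₁ y_3, y_1 - p₂ y_3, y_2 - p₃ y_3)`; the determinant of
`(1, t, y, t y)` is the minor `y_2 (t y)_3 - y_3 (t y)_2 = -H0(y)` (a 4 × 4 determinant whose first two
columns are unit vectors; `Matrix.det_succ_row_zero`, `simp`, `ring`). Multiplication by `x` has the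
determinant `N(x)`: `det_b (x·1, x·t, x·y, x·t y) = N(x) det_b (1, t, y, t y)` (`Basis.det_comp`,
`Algebra.norm_apply`). For `x y = 1` the left hand side is `det_b (x, t x, 1, t) =
det_b (1, t, x, t x)` (an even permutation of the columns: swap the columns 0, 2 and 1, 3) `= -H0(x)`.
Hence `H0(x) = N(x) H0(y)`. -/
def S_Cmp : Prop := ∀ (A : Type) [CommRing A] [Algebra ℝ A] (t : A) (b : Module.Basis (Fin 4) ℝ A)
  (p : V4), Fr t b p → ∀ x y : A, x * y = 1 → H0 t b x = Algebra.norm ℝ x * H0 t b y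

/-- **Brg** (150 lines). Allowed: `S_Fam`, `S_Dt`. The algebra of the matrices which commute with `M`.
PROOF. Let `A` be `Subalgebra.centralizer ℝ {mono z}`, or the algebra `Algebra.adjoin ℝ {mono z}`, or
`ℝ[X]/(x⁴ - x³ + z_0 x² - z_1 x + z_2)`, whatever is more convenient, `ι` the embedding. A matrix `g`
which commutes with `M = mono z` is determined by `g e0` (`e0, M e0, M² e0, M³ e0` is the standard
basis `Pi.single i 1`), and `g = ∑ (g e0)_i M^i`; so `A → ℝ⁴`, `a ↦ ι a e0` is a linear isomorphism,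
and `A` is commutative (`S_Fam`). `z ∈ DD t`: the images `t^i e0` are a basis of `ℝ⁴` (the columns of
the invertible matrix `Kt t z`), so `1, t, t², t³` is a basis `b` of `A` (transport of the basis of the
columns), and `b.equivFun a = (Kt t z)⁻¹ (ι a e0)`. Relation: `S_Dt`. Norm: under the isomorphism
`A → ℝ⁴` the multiplication by `a` becomes the matrix `ι a` (`ι (a a') e0 = ι a (ι a' e0)`), so
`Algebra.norm ℝ a = LinearMap.det (mulLeft a) = det (ι a)` (`LinearMap.det_conj`,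
`LinearMap.det_toLin'`). Inverses: if `det (ι a) ≠ 0` then `(ι a)⁻¹` commutes with `M`. -/
def S_Brg : Prop := ∀ t : E6 → M4, MFam t → ∀ z ∈ DD t,
  ∃ (A : Type) (_ : CommRing A) (_ : Algebra ℝ A) (ι : A →ₐ[ℝ] M4) (b : Module.Basis (Fin 4) ℝ A)
    (τ : A), Fr τ b (pc t z) ∧ ι τ = t z ∧ Function.Injective ι ∧
    (∀ a, ι a * mono z = mono z * ι a) ∧ (∀ g : M4, g * mono z = mono z * g → ∃ a, ι a = g) ∧
    (∀ a, Algebra.norm ℝ a = (ι a).det) ∧ (∀ a, el b a = ell t z (ι a)) ∧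
    (∀ a i, b.repr a i = ((Kt t z)⁻¹ *ᵥ (ι a *ᵥ e0)) i) ∧ (∀ v : V4, ∃ a, ι a *ᵥ e0 = v) ∧
    (∀ a a', ι a *ᵥ e0 = ι a' *ᵥ e0 → a = a') ∧
    ∀ a, (ι a).det ≠ 0 → ∃ a', a * a' = 1 ∧ ι a' = (ι a)⁻¹

/-- **RG** (150 lines). Allowed: `S_Fam`, `S_Dt`, `S_RA`, `S_Cmp`, `S_Brg`, `S_RI`. Moments under `R`.
PROOF. Take `A, ι, b, τ` from `S_Brg` at `z` (the point `Rm t z` has the same coordinates `0, 1, 2`,
so the same `t`, `Kt`, `ell`, `pc`, `θ`). Let `Q = qe τ u C`, `Z = qe τ u' C'`, `q`, `zi` their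
inverses (the determinants are not zero: `S_RI` for `z` and `Rm t z`), `θ`, `θi`, `ti` (in `A`),
`σ`, `σ'` the inverses of `τ - s`, `τ - s'` (`S_Dt`: the determinants are `p(s), p(s') ≠ 0`).
By `S_RA` and `Fr.rel`: `Q Z = α τ (τ - s)(τ - s')` in `A` (the coefficients of
`Q(x) Z(x) = α x (x - s)(x - s') + p(x)`, a polynomial identity; `linear_combination`).
`X = θ (τ - s) q`, `X' = τ² θi (τ - s') zi`. From the relation `(τ - s') zi = α⁻¹ ti σ Q`, so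
`X' = α⁻¹ τ X⁻¹`, where `X⁻¹ = θi σ Q`. In terms of `H0`:
`hs n s 1 = H0(X)`, `hs n s 0 = H0(ti X)` (`n_{j+1} - s n_j = ℓ(τ^j ti θ (τ - s) q)`, unfold), and the
same for `n'`, `s'`, `X'`. Hence
`hs n' s' 1 = H0(X') = α⁻² H0(τ X⁻¹) = α⁻² N(τ X⁻¹) H0(ti X) = α⁻² p₀ N(X)⁻¹ hs n s 0` (`S_Cmp`),
`hs n' s' 0 = H0(ti X') = α⁻² H0(X⁻¹) = α⁻² N(X)⁻¹ H0(X) = α⁻² N(X)⁻¹ hs n s 1`,
`N(X) = N(θ) N(τ - s) N(Q)⁻¹ = det θ · p(s) / det Q` (norm is multiplicative, `norm = det ∘ ι`). -/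
def S_RG : Prop := ∀ t θ : E6 → M4, MFam t → MFam θ → ∀ z ∈ UR t,
  hs (mq t (dual t θ) (Rm t z)) (Rm t z 3) 1 = pc t z 0 * ((Qm t z).det /
    (aR (pc t z) (z 3) (z 4) (z 5) ^ 2 * (θ z).det * pv (pc t z) (z 3))) * hs (mq t θ z) (z 3) 0 ∧
  hs (mq t (dual t θ) (Rm t z)) (Rm t z 3) 0 = ((Qm t z).det /
    (aR (pc t z) (z 3) (z 4) (z 5) ^ 2 * (θ z).det * pv (pc t z) (z 3))) * hs (mq t θ z) (z 3) 1

/-- **GR** (80 lines). Allowed: `S_Dt`, `S_RA`, `S_RI`, `S_RG`. `GG` and `C1` under `R`.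
PROOF. Notation of `RG`, `ν = det Q / (α² det θ p(s)) ≠ 0`, `hs0 = hs n s 0`, `hs1 = hs n s 1`.
`C1' = p₀ hs' 0 / hs' 1 = p₀ ν hs1 / (p₀ ν hs0) = hs1 / hs0`, `C1 = p₀ hs0 / hs1`: the product is `p₀`.
`GG' = det Z · p₀ ν hs0`, `det Z = nQ p u' C' = α² C' Z(s') Z(s)` (`S_Dt`, `S_RA` for the symmetric
relation), `Z(s) = p(s) / Q(s)`, `C' = p₀ / C`; so `GG' = p₀² Z(s') det Q hs0 / (C Q(s) det θ)`, and the
right hand side is the same because `C1 hs1 = p₀ hs0`, `GG t θ z = det Q hs1`. -/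
def S_GR : Prop := ∀ t θ : E6 → M4, MFam t → MFam θ → ∀ z ∈ UR t,
  hs (mq t θ z) (z 3) 0 ≠ 0 → hs (mq t θ z) (z 3) 1 ≠ 0 →
  hs (mq t (dual t θ) (Rm t z)) (Rm t z 3) 0 ≠ 0 ∧
  hs (mq t (dual t θ) (Rm t z)) (Rm t z 3) 1 ≠ 0 ∧
  C1 t (dual t θ) (Rm t z) * C1 t θ z = pc t z 0 ∧
  GG t (dual t θ) (Rm t z) = (pc t z 0 * C1 t θ z / (z 5 * (θ z).det)) *
    (qv (Rm t z 4) (Rm t z 5) (Rm t z 3) / qv (z 4) (z 5) (z 3)) * GG t θ z

/-- **TG** (150 lines). Allowed: `S_JC`, `S_Fam`, `S_Dt`, `S_Sm`, `S_RI`, `S_RJ`, `S_Mu`, `S_MJ`, `S_GR`.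
The map `TH` preserves the bivector `GG • EE` and `C1`.
PROOF. `z₁ = mu t ρ z`, `z₂ = Rm t z₁`, `z₃ = mu t ρ' z₂`, `z₄ = Rm t z₃ = TH t Y z`, `ρ' = dual t ρ`.
The coordinates `0, 1, 2` never change, `p = pc`, `det ρ` are the same at all points; `z 5` becomes
`p₀ / z 5` and again `z 5`. By `JC` (all maps are differentiable, `S_Sm`) the matrix
`J = Jm TH z` is the product `J₄ J₃ J₂ J₁`, so `J EE Jᵀ = a₁ a₂ a₃ a₄ EE`, with the factors of `MJ`, `RJ`.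
`GG t ρ z₁ = -a₁ GG t ρ z`; `GG t ρ' z₂ = c₂ a₂ GG t ρ z₁`, `c₂ = p₀ C1 t ρ z₁ / (C det ρ)`;
`GG t ρ' z₃ = -a₃ GG t ρ' z₂`; `GG t (dual t ρ') z₄ = c₄ a₄ GG t ρ' z₃`,
`c₄ = p₀ C1 t ρ' z₃ / ((p₀/C) det ρ')`. Here `GG t (dual t ρ') z₄ = GG t ρ z₄` because
`dual t ρ' z₄ = ρ z₄` (`S_Fam`; `GG t θ z` depends on `θ z` only), `det ρ' = p₀² / det ρ`,
`C1 t ρ z₁ = C1 t ρ z`, `C1 t ρ' z₃ = C1 t ρ' z₂ = p₀ / C1 t ρ z₁`: so `c₂ c₄ = 1`, and the claim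
follows. `C1 t ρ z₄ = p₀ / C1 t ρ' z₃ = C1 t ρ z`. (`C1 ≠ 0` as `hs … 0 ≠ 0` and `p₀ ≠ 0`; the
numbers `hs` stay nonzero by `S_Mu` and `S_GR`.) -/
def S_TG : Prop := ∀ t Y : E6 → M4, MFam t → MFam Y → ∀ z ∈ UT t Y,
  hs (mq t (rho Y) z) (z 3) 0 ≠ 0 → hs (mq t (rho Y) z) (z 3) 1 ≠ 0 →
  Jm (TH t Y) z * (GG t (rho Y) z • EE) * (Jm (TH t Y) z)ᵀ = GG t (rho Y) (TH t Y z) • EE ∧
  C1 t (rho Y) (TH t Y z) = C1 t (rho Y) z ∧
  TH t Y z 0 = z 0 ∧ TH t Y z 1 = z 1 ∧ TH t Y z 2 = z 2 ∧ TH t Y z 5 = z 5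

/-- **Inc** (120 lines). Allowed: `S_Lin`. The incidences in `A`.
PROOF. LEMMA: if `ℓ(X) ≠ 0` and `ℓ((t - s) X) = 0` then `1, t, X` are linearly independent (apply `ℓ`,
then `b`) and `span {1, t, X} = {g | ℓ((t - s) g) = 0}`: `⊆` as `ℓ` kills `t - s`, `t (t - s)`; `⊇`:
`g' = g - (ℓ(g)/ℓ(X)) X` satisfies `ℓ(g') = 0`, `ℓ(t g') = ℓ((t - s) g') + s ℓ(g') = 0`, so
`g' ∈ span {1, t}` (`S_Lin`). It applies to `X0, s0` (`(t - s0) X0 = Q`, `ℓ(Q) = 0`) and to `X1, s1`.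
(b) The conditions for `g` are `ℓ((t - s0) g) = 0`, `ℓ((t - s0) ti g) = 0`, `ℓ((t - s1)(t - s0) q g) =
0`. Put `z = (t - s0) ti g`, `g = t σ0 z`: `ℓ(t z) = 0`, `ℓ(z) = 0`, so `z = a + b t`. With
`Y0 = t (t - s1) q` the third condition is `a ℓ(Y0) + b ℓ(t Y0) = 0`. By the relation
`(t - s0') Y0 = α⁻¹ Z`, so `ℓ((t - s0') Y0) = 0`, i.e. `ℓ(t Y0) = s0' ℓ(Y0)`, and
`(a + b s0') ℓ(Y0) = 0`, `a = -b s0'`, `z = b (t - s0')`, `g = b • t (t - s0') σ0`. Conversely these `g`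
satisfy the three conditions.
(c) `z = (t - s1) ti g = a + b t`, `g = t σ1 z`; the third condition is `ℓ((t - s0) X1i g) =
ℓ(ρi Q g) = 0`, and `ρi Q t σ1 = α Y1`, `Y1 = t² ρi (t - s0') zi` (relation). With
`ℓ(t Y1) = s1' ℓ(Y1)`: `a = -b s1'`, `g = b • t (t - s1') σ1`. -/
def S_Inc : Prop := ∀ (A : Type) [CommRing A] [Algebra ℝ A] (t : A) (b : Module.Basis (Fin 4) ℝ A)
  (p : V4), Fr t b p → ∀ (s0 u C s1 s0' u' C' s1' α : ℝ) (q zi σ0 σ1 ti ρ ρi : A),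
  qe t u C * q = 1 → qe t u' C' * zi = 1 → (t - s0 • 1) * σ0 = 1 → (t - s1 • 1) * σ1 = 1 →
  t * ti = 1 → ρ * ρi = 1 → α ≠ 0 →
  qe t u C * qe t u' C' = α • (t * (t - s1 • 1) * (t - s0' • 1)) →
  el b (qe t u C * σ0) ≠ 0 → el b (ρ * (t - s0 • 1) * q) ≠ 0 →
  el b ((t - s1 • 1) * (ρ * (t - s0 • 1) * q)) = 0 → el b (t * (t - s1 • 1) * q) ≠ 0 →
  el b (t ^ 2 * ρi * (t - s0' • 1) * zi) ≠ 0 →
  el b ((t - s1' • 1) * (t ^ 2 * ρi * (t - s0' • 1) * zi)) = 0 →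
  LinearIndependent ℝ ![1, t, qe t u C * σ0] ∧
  LinearIndependent ℝ ![1, t, ρ * (t - s0 • 1) * q] ∧
  (∀ g : A, (g ∈ Submodule.span ℝ {1, t, qe t u C * σ0} ∧
      ti * g ∈ Submodule.span ℝ {1, t, qe t u C * σ0} ∧
      (t - s0 • 1) * q * g ∈ Submodule.span ℝ {1, t, ρ * (t - s0 • 1) * q}) ↔
    ∃ c : ℝ, g = c • (t * (t - s0' • 1) * σ0)) ∧
  ∀ g : A, (g ∈ Submodule.span ℝ {1, t, ρ * (t - s0 • 1) * q} ∧
      ti * g ∈ Submodule.span ℝ {1, t, ρ * (t - s0 • 1) * q} ∧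
      ρi * σ0 * qe t u C * g ∈ Submodule.span ℝ {1, t, qe t u C * σ0}) ↔
    ∃ c : ℝ, g = c • (t * (t - s1' • 1) * σ1)

/-- **Geo** (250 lines). Allowed: `S_Fam`, `S_Dt`, `S_RA`, `S_RI`, `S_Mu`, `S_Lin`, `S_Brg`, `S_Inc`.
The geometric meaning of `TH`.
PROOF. Take `A, ι, b, τ` from `S_Brg` at `z`. The points `z`, `z₁ = mu t ρ z = (s1, u, C)`,
`z₂ = Rm t z₁ = (s0', u', C')`, `z₃ = mu t ρ' z₂ = (s1', u', C')`, `z₄ = Rm t z₃ = (s'', u'', C'')`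
(last three coordinates) have the same coordinates `0, 1, 2`, so the same `t`, `Y`, `ρ`, `ρ' = t² ρ⁻¹`,
`Kt`, `ell`, `pc = p`; `s0 = z 3`. Elements of `A`: `Q = qe τ u C`, `Z = qe τ u' C'`, `Q'' = qe τ u''
C''`, inverses `q` (`z ∈ UM`), `zi` (`z₂ ∈ UM`), `σ0` (`z ∈ U2`), `σ1`, `σ0'`, `σ1'`, `σ''` of
`τ - s0, τ - s1, …` (`pv p · ≠ 0` from `UR`, `S_Dt`), `m = M`, `y = Y`, `ρ = m y²`, all invertible.
HYPOTHESES of `S_Inc`: the relation `Q Z = α τ (τ - s1)(τ - s0')` by `S_RA` at `z₁` and `Fr.rel`;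
`ℓ(Q σ0) = -Q(s0)/p(s0) ≠ 0` (`S_Lin`); `ℓ(ρ (τ - s0) q) = mq 2 - s0 mq 1 ≠ 0` (`z ∈ UM`), and
`ℓ(τ ρ (τ - s0) q) = mq 3 - s0 mq 2 = s1 (mq 2 - s0 mq 1)` by the definition of `s1 = sM …`;
`ℓ(τ (τ - s1) q) = α⁻¹ ℓ(Z σ0') = -α⁻¹ Z(s0')/p(s0') ≠ 0` (`Q(s0') Z(s0') = p(s0') ≠ 0`);
`ℓ(τ² ρi (τ - s0') zi) ≠ 0` and the last equation in the same way from `z₂ ∈ UM t ρ'`, `s1' = sM …`.
THE POLYGON. For every `k` there is `N_k ∈ A` with `ι(N_k) e0 = v k`; `N_{2j} = m^j` and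
`N_{2j+1} = κ m^j y⁻¹ X0`, `X0 = Q σ0` (induction in both directions from `v (k + 2) = M v k`; or define
`N_k` by the bijectivity of `a ↦ ι a e0` and show `N_{k+2} = m N_k`, all `N_k` invertible). As `c` is
odd, `v (k + c) = v ((k + 1) + (c - 1)) = Y v (k + 1)`. If `k` is even then
`v (k + c) = ι(κ X0 N_k) e0`, if `k` is odd then `v (k + c) = ι(κ⁻¹ X1 N_k) e0`,
`X1 = ρ (τ - s0) q = ρ X0⁻¹`. So, with `S0 = span {1, τ, X0}`, `S1 = span {1, τ, X1}`: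
`Tri e c v k = {ι(N_k g) e0 | g ∈ S0}` for `k` even, `g ∈ S1` for `k` odd (dimension 3);
`Tri e c v (k + 2 e) = {ι(τ N_k g) e0 | g ∈ S_k}` (`k + 2 e` has the parity of `k`,
`v (k + 2 e) = t v k`, so `N_{k+2e} = τ N_k`); `Tri e c v (k + c) = {ι(X0 N_k g) e0 | g ∈ S1}` for `k`
even, `{ι(X1 N_k g) e0 | g ∈ S0}` for `k` odd. By `S_Inc` (b), (c) the intersection is the line
spanned by `ι(g_0 N_k) e0` resp. `ι(g_1 N_k) e0`, `g_0 = τ (τ - s0') σ0`, `g_1 = τ (τ - s1') σ1`, both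
invertible (nonzero vectors). Take `g0 = ι g_0`, `g1 = ι g_1`.
LAST CLAIM. By `S_RA` at `z₃`: `Z Q'' = α' τ (τ - s1')(τ - s'')`, so `Q'' σ'' = α' τ (τ - s1') zi`; and
`Q σ1 = α τ (τ - s0') zi`. Hence `g_1 X0 = τ (τ - s1') σ1 Q σ0 = (α/α') g_0 Q'' σ''`; multiply by
`κ y⁻¹` and apply to `e0`: `g1 v_1 = κ (α/α') g0 (xv t Y z₄)`. -/
def S_Geo : Prop := ∀ t Y : E6 → M4, MFam t → MFam Y → ∀ z, z ∈ UT t Y → z ∈ U2 t Y →
  ∀ (e : ℕ) (c : ℤ) (v : ℤ → V4) (κ : ℝ), Odd c → κ ≠ 0 → Tw (mono z) v → v 0 = e0 →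
  v 1 = κ • xv t Y z → (∀ k, v (k + 2 * e) = t z *ᵥ v k) → (∀ k, v (k + (c - 1)) = Y z *ᵥ v k) →
  ∃ g0 g1 : M4, g0.det ≠ 0 ∧ g1.det ≠ 0 ∧ g0 * mono z = mono z * g0 ∧ g1 * mono z = mono z * g1 ∧
    IsTri e c v (fun k => if Even k then g0 *ᵥ v k else g1 *ᵥ v k) ∧
    ∃ κ' : ℝ, κ' ≠ 0 ∧ g1 *ᵥ v 1 = κ' • (g0 *ᵥ xv t Y (TH t Y z))


/-! ## Part E: genericity -/

/-- **Ha** (150 lines). Allowed: `S_Lin`, `S_Cmp`. A nondegenerate `Q` for every `θ`.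
PROOF. `X = θ q`, `X⁻¹ = Q θi`: `H0(X) = N(X) H0(Q θi)`, `N(X) ≠ 0` (unit), by `S_Cmp`. So it is enough
to find `Q` with `Q` invertible and `H0(Q θi) ≠ 0`. Suppose `H0(Q θi) = 0` for all `Q = (t - x)(t - y)`,
`p(x) ≠ 0`, `p(y) ≠ 0` (`Q = qe t (-(x+y)) (x y)`, invertible by `S_Lin`). Put `r_j = ℓ(t^j θi)`,
`ρ_j = r_{j+1} - x r_j = ℓ(t^j (t - x) θi)`. Then
`H0(Q θi) = (ρ_1 - y ρ_0)(ρ_3 - y ρ_2) - (ρ_2 - y ρ_1)² = y² (ρ_0 ρ_2 - ρ_1²) - y (ρ_0 ρ_3 - ρ_1 ρ_2) +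
(ρ_1 ρ_3 - ρ_2²)` vanishes for all but finitely many `y`, so `ρ_0 ρ_2 = ρ_1²`, `ρ_0 ρ_3 = ρ_1 ρ_2`,
`ρ_1 ρ_3 = ρ_2²`, for all but finitely many `x` (a polynomial with infinitely many zeros is zero; e.g.
all `x` larger than a bound, `p(x) ≠ 0`: `p` is a nonzero polynomial). These are polynomials of degree
2 in `x`: `x² (r_0 r_2 - r_1²) - x (r_0 r_3 - r_1 r_2) + (r_1 r_3 - r_2²)`,
`x² (r_0 r_3 - r_1 r_2) - x (r_0 r_4 - r_2²) + (r_1 r_4 - r_2 r_3)`,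
`x² (r_1 r_3 - r_2²) - x (r_1 r_4 - r_2 r_3) + (r_2 r_4 - r_3²)`. All coefficients are zero. If
`r_0 ≠ 0`, `c = r_1/r_0`: `r_{j+1} = c r_j` for `j = 0, 1, 2, 3`, so `ℓ(t^j (t - c) θi) = 0` for
`j < 4`, `(t - c) θi = 0` (`S_Lin`), `t = c • 1`, contradiction to the basis. If `r_0 = 0` then
`r_1 = 0`, `r_2² = r_1 r_3 = 0`, `r_3² = r_2 r_4 = 0`, so `ℓ(t^j θi) = 0` for `j < 4`, `θi = 0`,
contradiction. -/
def S_Ha : Prop := ∀ (A : Type) [CommRing A] [Algebra ℝ A] (t : A) (b : Module.Basis (Fin 4) ℝ A)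
  (p : V4), Fr t b p → ∀ θ θi : A, θ * θi = 1 →
  ∃ (u C : ℝ) (q : A), qe t u C * q = 1 ∧ H0 t b (θ * q) ≠ 0

/-- **Hb** (200 lines). Allowed: `S_Lin`, `S_Cmp`. A `Q` for which `C1` depends on `s`.
PROOF. `X = θ q`, `Y = X⁻¹ = Q θi`, `d_j = ℓ(t^j Y)` for `j = -1, …, 3` (`t⁻¹ = ti`). `S_Cmp`:
`H0(X) = N(X)(d_0 d_2 - d_1²)`, `H0(ti X) = N(ti X) H0(t Y) = N(ti) N(X) (d_1 d_3 - d_2²)`,
`H0(t X) = N(t) N(X) (d_{-1} d_1 - d_0²)`, `N(t) N(ti) = 1`. So the expression is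
`N(X)² [(d_1 d_3 - d_2²)(d_{-1} d_1 - d_0²) - (d_0 d_2 - d_1²)²] = N(X)² d_1 Δ`,
`Δ = det [[d_{-1}, d_0, d_1], [d_0, d_1, d_2], [d_1, d_2, d_3]]` (`ring`).
`Δ ≠ 0` if `ℓ(t X) ≠ 0`: if `Δ = 0` there is `(c_0, c_1, c_2) ≠ 0` in the kernel
(`Matrix.exists_mulVec_eq_zero_iff`), `w = c_0 + c_1 t + c_2 t² ≠ 0`, `ℓ(t^i ti Y w) = 0` for `i = 0, 1,
2`, so `ti Y w = c • 1` (`S_Lin`), `w = c • t X`, `c ≠ 0`, `ℓ(t X) = c⁻¹ ℓ(w) = 0`.
It remains to find `Q = (t - x)(t - y)`, `p(x), p(y) ≠ 0`, with `d_1 = ℓ(t Q θi) ≠ 0` and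
`ℓ(t θ q) ≠ 0`. Let `r_j = ℓ(t^j θi)`; `ℓ(t Q θi) = (r_3 - x r_2) - y (r_2 - x r_1)`. If
`r_1 = r_2 = r_3 = 0` then `ℓ(t^j (t θi)) = 0` for `j = 0, 1, 2`, so `t θi = c • 1`, `t = c θ`,
contradiction. So for all but at most one `x` the pair `(r_3 - x r_2, r_2 - x r_1)` is not zero (two
such `x, x'`: `(x - x') r_1 = 0`, `r_1 = 0`, `r_2 = 0`, `r_3 = 0`), and then for all but at most one
`y` it is `≠ 0`. Let `f(x) = ℓ(t θ (t - x)⁻¹) = -g(x)/p(x)`, where (`S_Lin`)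
`g(x) = ℓ(t θ (t³ + (p₃ + x) t² + …))` is a polynomial of degree at most 3 in `x`, with the coefficients
`ℓ(t θ)` of `x³`, …; if all coefficients vanish then `ℓ(t^j t θ) = 0` for `j < 4`, `t θ = 0`,
contradiction; so `g ≠ 0`. `q = ((t - x)⁻¹ - (t - y)⁻¹)/(x - y)` for `x ≠ y`, so
`ℓ(t θ q) = (f(x) - f(y))/(x - y)`, which for given `x` vanishes only if `g(y) = -f(x) p(y)`:
a nonzero polynomial in `y` (if `f(x) ≠ 0` it has degree 4, if `f(x) = 0` it is `g`), at most 4 zeros.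
Choose `x`, then `y`, avoiding finitely many values (`Set.Finite` complements in `ℝ` are nonempty). -/
def S_Hb : Prop := ∀ (A : Type) [CommRing A] [Algebra ℝ A] (t : A) (b : Module.Basis (Fin 4) ℝ A)
  (p : V4), Fr t b p → ∀ θ θi ti : A, θ * θi = 1 → t * ti = 1 → LinearIndependent ℝ ![θ, t] →
  ∃ (u C : ℝ) (q : A), qe t u C * q = 1 ∧
    H0 t b (ti * (θ * q)) * H0 t b (t * (θ * q)) - H0 t b (θ * q) ^ 2 ≠ 0

/-- **DM** (200 lines). Allowed: `S_Fib`, `S_An`, `S_MA`, `S_Dt`, `S_Brg`, `S_Ha`. Density for `μ_θ`.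
PROOF. `S_Fib` with `D = DD t`: fix `m ∈ DD t`; on the fibre `t, θ, Kt, ell` are constant
(`MFam.dep`), `fb m x` has the last coordinates `x = (s, u, C)`, and `Qm = t² + u t + C` is a polynomial
(analytic on `ℝ³`), so are `D(x) = det Qm` and `n#_j(x) = ell (t^j t⁻¹ θ adj(Qm))`, and
`n#_j = D · mq_j` if `D ≠ 0`. The sets in question contain the set where the following analytic
functions are all nonzero: `D`, `hk n# 1`, `n#_2 - s n#_1`, `hs n# s 0`, `hs n# s 1` (as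
`hk n# 1 = D² hk n 1` etc.). A finite intersection of dense open sets is dense; by `S_An` we need for
each of them one point where it is not zero. By `S_Brg` at `m` and `S_Ha` for `θ` there are `u, C`
with `D ≠ 0` and `hk n 1 ≠ 0` (`hk (mq) 1 = H0(θ q)`). For these `u, C`: `(n_1, n_2) ≠ 0`, so
`n_2 - s n_1 ≠ 0` for some `s`; `hs n s 1 = s² hk n 1 - s kk n 1 + hk n 2` is a nonzero polynomial in
`s`; `hs n 0 0 = hk n 1 ≠ 0`. -/
def S_DM : Prop := ∀ t θ : E6 → M4, MFam t → MFam θ → Dense (DD t) →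
  Dense (UM t θ) ∧ Dense {z | (z ∈ DD t ∧ (Qm t z).det ≠ 0) ∧ hs (mq t θ z) (z 3) 0 ≠ 0 ∧
    hs (mq t θ z) (z 3) 1 ≠ 0}

/-- **DR** (150 lines). Allowed: `S_Fib`, `S_An`, `S_Dt`, `S_RA`. Density for `R`.
PROOF. `S_Fib` with `D = DD t`; fix `m ∈ DD t`, `p = pc t m` (constant on the fibre), `p₀ ≠ 0`
(`S_Dt`). The conditions on `(s, u, C)` are: the polynomials `C`, `qv u C s`, `dR p s u C`, `pv p s`,
and `N⁴ + p₃ N³ dR + p₂ N² dR² + p₁ N dR³ + p₀ dR⁴`, `N = C A1 - A0 (s + u)`, are not zero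
(the last one is `dR⁴ pv(sR)`). By `S_An` for each of them one point is enough. The first four: `(0, 0,
1)`; `(0, 0, 1)`; and so on. For `dR` and the last one: take `u = 0` and `C > 0` with
`nQ p 0 C ≠ 0` (`nQ p 0 C = C⁴ + …` is a nonzero polynomial in `C`: it is
`C (p₁ - p₃ C)² + (C (p₂ - C) - p₀)²`). Then `(A1, A0) ≠ 0` (`A0² + C A1² = C nQ ≠ 0`, `S_RA`).
For `x` with `p(x) ≠ 0` and `A1 x + A0 ≠ 0` put `s = (C A1 - A0 x)/(A1 x + A0)`; then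
`dR p s 0 C = A1 s + A0 = C nQ/(A1 x + A0) ≠ 0` and `sR p s 0 C = x`, so both are nonzero at
`(s, 0, C)`. (For the last identity in `S_RA` one needs the values of a relation only; it is the
polynomial identity `A0² - u A0 A1 + C A1² = C nQ`, valid for all `p, u, C`: `unfold; ring`.) -/
def S_DR : Prop := ∀ t : E6 → M4, MFam t → Dense (DD t) → Dense (UR t)

/-- **DN** (150 lines). Allowed: `S_Fib`, `S_An`, `S_MA`, `S_Fam`, `S_Brg`, `S_Hb`. Density for `nm`.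
PROOF. `S_Fib` with `D = DI t Y`; fix `m ∈ DI t Y`, `θ = rho Y`, notation and functions `D`, `n#_j` as
in `DM`. The set contains the set where the analytic functions `D` and `nm n# s` (`= D⁴ nm n s`) are
not zero; by `S_An` one point is enough. `S_Brg` at `m`: `θ, τ ∈ A` are linearly independent
(`m ∈ DI`, apply `ι` and `e0`). `S_Hb`: `u, C` with `D ≠ 0` and
`hk n 0 hk n 2 - hk n 1² ≠ 0`, because `hk (mq) 0 = H0(ti X)`, `hk (mq) 1 = H0(X)`, `hk (mq) 2 =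
H0(t X)`, `X = θ q`. Then `nm n s` is a nonzero polynomial in `s` of degree at most 2. -/
def S_DN : Prop := ∀ t Y : E6 → M4, MFam t → MFam Y → Dense (DI t Y) →
  Dense {z | (z ∈ DD t ∧ (Qm t z).det ≠ 0) ∧ nm (mq t (rho Y) z) (z 3) ≠ 0}

/-- **dC** (60 lines). Allowed: `S_Sm`. The derivative of `C1` with respect to `s = z 3`.
PROOF. `C1 t θ` is differentiable at `z` (`S_Sm`), so `pd (C1 t θ) 3 z` is the derivative of the
function `h ↦ C1 t θ (z + h e_3)` at 0, in which `pc t` and `n = mq t θ` are constant: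
`hs n s 0 = s² hk n 0 - s kk n 0 + hk n 1`, `hs n s 1 = s² hk n 1 - s kk n 1 + hk n 2`, quotient rule,
`field_simp; ring`. Second claim: `pd (C1 t θ) 3 z ≠ 0`. -/
def S_dC : Prop := ∀ t θ : E6 → M4, MFam t → MFam θ → ∀ z : E6, z ∈ DD t → (Qm t z).det ≠ 0 →
  hs (mq t θ z) (z 3) 1 ≠ 0 →
  pd (C1 t θ) 3 z = pc t z 0 * nm (mq t θ z) (z 3) / hs (mq t θ z) (z 3) 1 ^ 2

/-- **PP** (200 lines). Allowed: `S_Fam`, `S_Dt`, `S_Lin`, `S_Brg`. `Phi` and `Psi` are inverse.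
PROOF. All maps keep the coordinates `0, 1, 2`, so `t, Y, Kt, ell, pc, mono` are the same at all points.
Take `A, ι, b, τ` from `S_Brg`. For `z ∈ U2`: `X0 = Q σ`, `σ = (τ - s)⁻¹`, `ξ = xv t Y z`,
`X = (ξ 0)⁻¹ Y⁻¹ X0 ∈ A` has the coordinates `ι(X) e0 = (1, y_3, y_4, y_5)`, `y = Phi z`, i.e.
`X = 1 + y_3 M + y_4 M² + y_5 M³` (`e0, M e0, M² e0, M³ e0` is the standard basis), and
`W0 Y y = (ξ 0)⁻¹ X0`. `ℓ(X0) = -Q(s)/p(s) ≠ 0` (`S_Lin`, `p(s) = det (t - s)`), `ℓ(τ X0) = s ℓ(X0)`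
(`ℓ((τ - s) X0) = ℓ(Q) = 0`), so `sP t Y y = s`; `(τ - s) W0 = (ξ 0)⁻¹ Q` has the coefficients
`(ξ 0)⁻¹ (C, u, 1, 0)`, so `cf 2 = (ξ 0)⁻¹ ≠ 0`, and `Psi y = z`, `y ∈ U1`.
For `y ∈ U1`: `V = (τ - sP) W0` satisfies `ℓ(V) = 0`, so `V = cf 0 + cf 1 τ + cf 2 τ² = cf 2 • Q` with
`Q = qe τ (z 4) (z 5)`, `z = Psi y`; `W0 = cf 2 • Q σ = cf 2 • X0(z)`, `Y⁻¹ W0 e0 = (1, y_3, y_4,
y_5) = cf 2 • xv t Y z`: so `xv 0 = (cf 2)⁻¹ ≠ 0`, `Phi z = y`; `ℓ(W0) = -cf 2 Q(s)/p(s) ≠ 0` gives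
`qv … ≠ 0`; `z ∈ U2`. -/
def S_PP : Prop := ∀ t Y : E6 → M4, MFam t → MFam Y →
  Set.MapsTo (Psi t Y) (U1 t Y) (U2 t Y) ∧ Set.MapsTo (Phi t Y) (U2 t Y) (U1 t Y) ∧
  (∀ y ∈ U1 t Y, Phi t Y (Psi t Y y) = y) ∧ ∀ z ∈ U2 t Y, Psi t Y (Phi t Y z) = z

/-- **DU** (200 lines). Allowed: `S_Fib`, `S_An`, `S_MA`, `S_Fam`, `S_Dt`, `S_Lin`, `S_Brg`, `S_PP`.
Density of `U2` and `U1`.
PROOF. `S_Fib` with `D = DD t`, fix `m ∈ DD t`. (U2) analytic functions of `(s, u, C)`: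
`det (t - s)` (nonzero for some `s`: it is `pv p s`), `qv u C s`, and
`E = (Y⁻¹ Qm adj(t - s) e0)_0 = det (t - s) xv_0`. `E` is not identically zero: let
`η(g) = (Y⁻¹ ι(g) e0)_0`, a linear functional on `A`, not zero (`η(Y) = 1`). If `η(Q σ_s) = 0` for
all `s` with `p(s) ≠ 0` and all `u, C`, then (differences in `C` and `u`) `η(σ_s) = 0`,
`η(τ σ_s) = 0`, `η(τ² σ_s) = 0`. As `τ σ_s = 1 + s σ_s`, `η(1) = 0`; `τ² σ_s = τ + s τ σ_s`:
`η(τ) = 0`. By the formula for `σ_s` in `S_Lin`: `η(τ³) + (p₃ + s) η(τ²) = 0` for infinitely many `s`: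
`η(τ²) = η(τ³) = 0`, so `η = 0`, contradiction.
(U1) analytic functions of `x = (y_3, y_4, y_5)`: `a = ell(W0)`, `h = ell(W0) ell(t² W0) - ell(t W0)²`,
`d = det (ell(W0) t - ell(t W0))`. If they are not zero then `y ∈ U1`: `sP = ell(t W0)/a`,
`cf 2 = ell(t (t - sP) W0) = h/a` (as `ell((t - sP) W0) = 0` the coefficient of `t²` of
`V = (t - sP) W0` is `ell(t V)`), `det (t - sP) = d/a⁴`. Each is nonzero at some point: at `Phi z` for
`z ∈ U2` over `m` (exists by (U2); `Phi z ∈ U1` by `S_PP`). -/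
def S_DU : Prop := ∀ t Y : E6 → M4, MFam t → MFam Y → Dense (DD t) →
  Dense (U1 t Y) ∧ Dense (U2 t Y)

/-- **Den** (150 lines). Allowed: `S_An`, `S_MA`, `S_Fam`. Density of `DD` and `DI` for powers of `M`.
PROOF. (1) `DD (Mz e)`, `e ≥ 1`: `z 2` and `det (Kt (fun z => (mono z) ^ e) z)` are analytic on `E6`
(natural powers), so by `S_An` one point is enough for each. Take
`z = (35/100, 50/1000, 24/10000, 0, 0, 0)`: `x⁴ - x³ + z_0 x² - z_1 x + z_2` has the roots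
`μ_i = (i + 1)/10`, `i : Fin 4`. The row vector `r_i = (1, μ_i, μ_i², μ_i³)` satisfies
`r_i M = μ_i r_i` (explicit), so `r_i M^n e0 = μ_i^n`. Hence `V * Kt = vandermonde (μ_i^e)` with
`V = (μ_i^j)`, and its determinant is not zero, as the `μ_i^e` are distinct (positive, `e ≥ 1`):
`Matrix.det_vandermonde_ne_zero_iff`. So `det Kt ≠ 0`.
(2) `DI (Mz e) (Mz ((c-1)/2))`, `c` odd, `c ≠ e`: `rho = M · M^(c-1) = M^c` for `z 2 ≠ 0`. Let
`n = |e - c| ≥ 1`. If `z ∈ DD (Mz e) ∩ DD (Mz n)` then `e0` and `M^n e0` are linearly independent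
(columns of an invertible matrix), hence so are `M^c e0`, `M^e e0`: apply the invertible matrix
`M^(-min(c, e))`. The intersection of the two dense open sets (open: `DD t` is open, the determinant is
continuous) is dense. -/
def S_Den : Prop := (∀ e : ℕ, 0 < e → Dense (DD (Mz e))) ∧
  ∀ (e : ℕ) (c : ℤ), 0 < e → Odd c → c ≠ e → Dense (DI (Mz e) (Mz ((c - 1) / 2)))

/-! ## Part F: assembly -/

/-- **UTd** (80 lines). Allowed: `S_DC`, `S_Fam`, `S_Sm`, `S_RI`, `S_Mu`, `S_DM`, `S_DR`.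
PROOF. Let `V` be open and dense, `ρ = rho Y`, `ρ' = dual t ρ`. `V₄ = {z ∈ UR t | Rm t z ∈ V}`,
`V₃ = {z ∈ UM t ρ' | mu t ρ' z ∈ V₄}`, `V₂ = {z ∈ UR t | Rm t z ∈ V₃}`,
`V₁ = {z ∈ UM t ρ | mu t ρ z ∈ V₂}` are open and dense by `S_DC` (four times, `S = S'`, `F = G` an
involution of `S`: `S_RI`, `S_Mu`; `S` open and `F` continuous: `S_Sm`; `S` dense: `S_DM`, `S_DR`).
`V₁` is the set in the claim. `DI ⊆ DD`, so `DD` is dense. -/
def S_UTd : Prop := ∀ t Y : E6 → M4, MFam t → MFam Y → Dense (DD t) → ∀ V : Set E6, IsOpen V →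
  Dense V → IsOpen {z | z ∈ UT t Y ∧ TH t Y z ∈ V} ∧ Dense {z | z ∈ UT t Y ∧ TH t Y z ∈ V}

/-- **Core** (200 lines). Allowed: `S_Jac`, `S_Fam`, `S_Dt`, `S_Sm`, `S_TG`, `S_DM`, `S_DN`, `S_dC`,
`S_DU`, `S_UTd`. The system in the coordinates `z`.
PROOF. `ρ = rho Y`, `n = mq t ρ z`, `W = {z ∈ U2 | z ∈ UM t ρ, hs n s 0 ≠ 0, hs n s 1 ≠ 0, nm n s ≠ 0}`:
open and dense (`S_Sm`, `S_DM`, `S_DN`, `S_DU`; `nm n s` is continuous on the open set `QD`).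
`V = {z ∈ W | z ∈ UT, TH z ∈ U2}`, open and dense (`S_UTd` with the set `U2`). Fields of `LI 4 1 V`:
`smooth`: `TH` is analytic on `V` (composition, `S_Sm`), `AnalyticOnNhd.contDiffOn`. `dense'`:
`{z ∈ V | TH z ∈ V} = V ∩ {z ∈ UT | TH z ∈ V}` (`S_UTd` with the set `V`). `π z = GG t ρ z • EE`:
`poisson` by `S_Jac`; `rank`: `GG ≠ 0` on `V`; the rank of `c • EE`, `c ≠ 0`, is 2 (e.g. `EE * EE` is
minus a diagonal projection: rank ≥ 2; the range is spanned by two vectors: rank ≤ 2). `inv`: `S_TG`.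
`F = ![z ↦ z 0, z ↦ z 1, z ↦ z 2, z ↦ z 5, C1 t ρ]`: smooth; invariant by `S_TG`. `indep`: the
differentials are the coordinate functionals `e_0*, e_1*, e_2*, e_5*` and `dC1` with
`dC1(e_3) = pd (C1 t ρ) 3 z ≠ 0` (`S_dC`, `p₀ ≠ 0`): evaluate a relation at `e_3`, then at
`e_0, e_1, e_2, e_5`. `br π F G = GG (pd F 3 pd G 4 - pd F 4 pd G 3)` is zero if `F` is one of the
first four functions or `F = G`. `casimir`: clear. -/
def S_Core : Prop := ∀ t Y : E6 → M4, MFam t → MFam Y → Dense (DI t Y) →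
  ∃ (V : Set E6) (π : E6 → M6) (F : Fin (4 + 1) → E6 → ℝ), V ⊆ U2 t Y ∧ V ⊆ UT t Y ∧
    (∀ z ∈ V, TH t Y z ∈ U2 t Y) ∧ LI 4 1 V (TH t Y) π F

/-- **Cas** (80 lines). The offsets.
PROOF. (i) `a` even, `b` odd: `e = a/2`, `c = a + b`, `sh = 0`: `plane a b v k = Tri e c v k`.
(ii) `a` odd, `b` odd: `e = (a + b)/2`, `c = a`, `sh = 0`: `plane a b v k = Tri e c v k` (the same three
vectors in another order), the intersection in another order. `c ≠ e` as `a ≠ b`.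
(iii) `a` odd, `b` even: `e = b/2`, `c = -a`, `sh = a`: `plane a b v k = Tri e c v (k + a)`
(`{v k, v (k + a), v (k + a + b)} = {v (k + a), v (k + a + 2 e), v (k + a + c)}`), and with
`j = k + 2 a` the three planes `P_k, P_{k+a}, P_{k+a+b}` are `Tri (j + c)`, `Tri j`, `Tri (j + 2 e)`.
Rewrite the arguments with `ring_nf`/`omega` after `congr 1`. -/
def S_Cas : Prop := ∀ a b : ℕ, 0 < a → 0 < b → a ≠ b → ¬(Even a ∧ Even b) →
  ∃ (e : ℕ) (c sh : ℤ), 0 < e ∧ Odd c ∧ c ≠ e ∧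
    ∀ v w : ℤ → V4, IsTri e c v w → IsImage a b v fun k => w (k + 2 * sh)

/-- **Map** (120 lines). Allowed: `S_Fam`, `S_Geo`, `S_PP`.
PROOF. `t = Mz e`, `Y = Mz ((c - 1)/2)`, `y = Phi t Y z`, `y' = Phi t Y (TH t Y z)`; `mono y = mono z =
mono y'` (coordinates 0, 1, 2), `y 2 ≠ 0`. The polygon `v k = M^(k/2) e0` for even `k`,
`M^((k-1)/2) (x0 y)` for odd `k` (integer powers) satisfies `Pol y v`, `v (k + 2 j) = M^j v k` for
all `j : ℤ` (so `v (k + 2 e) = t v k`, `v (k + (c - 1)) = Y v k`, `c` odd), and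
`v 1 = x0 y = (xv 0)⁻¹ • xv t Y z` (definition of `Phi`; `xv 0 ≠ 0`). In the same way `v'` for `y'`
(`TH z ∈ U2`). `S_Geo` with `κ = (xv 0)⁻¹` gives `g0, g1, κ'`; `w k = g0 v k` or `g1 v k`. By the
hypothesis on `(a, b)` the image of `v` is `w' k = w (k + 2 sh)`, `= M^sh w k` (same parity,
`g0, g1` commute with `M`). `PEq (mono y) w' (mono y') v'` with `g = M^(-sh) g0⁻¹`, `c = 1`:
`g w' k = v k = v' k` for `k` even; for `k = 2 j + 1`: `g w' k = g0⁻¹ g1 M^j v 1 =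
κ' M^j xv t Y (TH z) = κ' ξ M^j v' 1`, `ξ = xv t Y (TH z) 0 ≠ 0`. -/
def S_Map : Prop := ∀ (a b e : ℕ) (c sh : ℤ), Odd c →
  (∀ v w : ℤ → V4, IsTri e c v w → IsImage a b v fun k => w (k + 2 * sh)) →
  ∀ z, z ∈ UT (Mz e) (Mz ((c - 1) / 2)) → z ∈ U2 (Mz e) (Mz ((c - 1) / 2)) →
    TH (Mz e) (Mz ((c - 1) / 2)) z ∈ U2 (Mz e) (Mz ((c - 1) / 2)) →
    Maps a b (Phi (Mz e) (Mz ((c - 1) / 2)) z)
      (Phi (Mz e) (Mz ((c - 1) / 2)) (TH (Mz e) (Mz ((c - 1) / 2)) z))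

/-- **Fin** (80 lines). Allowed: `S_Trf`, `S_Fam`, `S_Sm`, `S_PP`, `S_DU`, `S_Den`, `S_Core`, `S_Cas`,
`S_Map`. The main theorem.
PROOF. `S_Cas` gives `e, c, sh`; `t = Mz e`, `Y = Mz ((c - 1)/2)`; `DI t Y` is dense (`S_Den`).
`S_Core` gives `V, π, F`. `S_Trf` with `U1, U2`, `Ψ = Psi`, `Φ = Phi`, `T = TH` gives
`U = {y ∈ U1 | Psi y ∈ V}`, `f = Phi ∘ TH ∘ Psi`. For `y ∈ U`: `y = Phi (Psi y)` and `S_Map` for
`z = Psi y`. -/
def S_Fin : Prop := ∀ a b : ℕ, 0 < a → 0 < b → a ≠ b → ¬(Even a ∧ Even b) → Liouville a b 4 1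

/-! ## Part G: the coordinates of `P_{3,2}` -/

/-- The matrix with the columns `v_0, M v_0, M² v_0, M³ v_0`. -/
def kry (x : Pt) : M4 := Matrix.of fun i j => ((Matrix.of x.2.2 : M4) ^ (j : ℕ) *ᵥ x.1) i

/-- `M⁴ v_0 = ∑ (ac x)_i M^i v_0`. -/
noncomputable def ac (x : Pt) : V4 := (kry x)⁻¹ *ᵥ ((Matrix.of x.2.2 : M4) ^ 4 *ᵥ x.1)

/-- `v_1 = ∑ (xc x)_i M^i v_0`. -/
noncomputable def xc (x : Pt) : V4 := (kry x)⁻¹ *ᵥ x.2.1

/-- The coordinates. -/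
noncomputable def kap (x : Pt) : E6 :=
  ![-(ac x 2) / (ac x 3) ^ 2, ac x 1 / (ac x 3) ^ 3, -(ac x 0) / (ac x 3) ^ 4,
    xc x 1 * ac x 3 / xc x 0, xc x 2 * (ac x 3) ^ 2 / xc x 0, xc x 3 * (ac x 3) ^ 3 / xc x 0]

def OO : Set Pt :=
  {x | (kry x).det ≠ 0 ∧ ac x 3 ≠ 0 ∧ xc x 0 ≠ 0 ∧ (Matrix.of x.2.2 : M4).det ≠ 0}

/-- **ChA** (150 lines). Allowed: `S_Fam`. Every polygon in `OO` has the coordinates `kap x`.
PROOF. `M = of x.2.2`, `K = kry x`, `a = ac x`, `ξ = xc x`. `M K = K c` with the companion matrix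
`c = !![0,0,0,a 0; 1,0,0,a 1; 0,1,0,a 2; 0,0,1,a 3]` (columns; column 3 is the definition of `a`).
`det M = det c = -a 0`, so `a 0 ≠ 0` and `kap x 2 = -a 0/(a 3)⁴ ≠ 0`. Let
`D = diag(1, a 3, (a 3)², (a 3)³)`, `g = D K⁻¹`. Then `g M = D c K⁻¹`, and `D c = (a 3) • mono (kap x) D`
(entries: `(a 3)^(i) c_ij = a 3 · mono_ij (a 3)^j`), so `g M = a 3 • (mono (kap x) g)`. `g v_0 = D e0 =
e0`; `g v_1 = D ξ = ξ 0 • x0 (kap x)`. The polygon `v'` with the coordinates `kap x`: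
`v' (2 j) = M'^j e0`, `v' (2 j + 1) = M'^j x0`, `M' = mono (kap x)`, `j : ℤ` (integer powers); as
`v (2 j) = M^j v_0` and `g M^j = (a 3)^j • M'^j g`, `g v k` is a nonzero multiple of `v' k` (induction
over `j` in both directions with `Int.induction_on`, using only `v (k + 2) = M v k`). -/
def S_ChA : Prop := ∀ x ∈ OO, ∀ v, PolAt x v →
  ∃ v', Pol (kap x) v' ∧ PEq (Matrix.of x.2.2) v (mono (kap x)) v'

/-- **ChB** (120 lines). Allowed: `S_Fam`. `kap` is invariant, and its values at the normal forms.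
PROOF. (1) `g M = c M' g`, `g v_0 = c₀ v'_0`, `g v_1 = c₁ v'_1` with `c, c₀, c₁ ≠ 0`. Then
`M'^i v'_0 = c₀⁻¹ c^(-i) g M^i v_0`; from `M⁴ v_0 = ∑ a_i M^i v_0`: `a'_i = c^(i-4) a_i`
(the columns of `kry x'` are a basis), from `v_1 = ∑ ξ_i M^i v_0`: `ξ'_i = (c₀/c₁) c^i ξ_i`. Insert
into `kap`: all six coordinates agree. (2) For the normal form `x = (e0, x0 y, mono y)`, `y 2 ≠ 0`:
`M^i e0` is the standard basis vector `i`, `i < 4`, so `kry x = 1`, `ac x = (-y 2, y 1, -y 0, 1)`,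
`xc x = x0 y`. -/
def S_ChB : Prop :=
  (∀ x ∈ OO, ∀ x' ∈ OO, ∀ v v', PolAt x v → PolAt x' v' →
    PEq (Matrix.of x.2.2) v (Matrix.of x'.2.2) v' → kap x = kap x') ∧
  ∀ y : E6, y 2 ≠ 0 → ((e0, x0 y, fun i j => mono y i j) : Pt) ∈ OO ∧
    kap (e0, x0 y, fun i j => mono y i j) = y

/-- **ChC** (120 lines). Allowed: `S_An`, `S_MA`, `S_ChB`. `OO` is open and dense, `kap` is smooth.
PROOF. The entries of `x.1`, `x.2.1`, `of x.2.2` are continuous linear, so analytic functions of `x`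
(`S_MA` for the rest). `OO` is the set where the polynomials `det (kry x)`,
`(adj (kry x) M⁴ v_0)_3`, `(adj (kry x) v_1)_0`, `det M` are not zero. Each is nonzero at the normal
form of `y = (0, 0, 1, 0, 0, 0)` (`S_ChB`), so by `S_An` each nonvanishing set is open and dense.
`ac`, `xc`, `kap` are analytic on `OO` (quotients), `AnalyticOnNhd.contDiffOn`. -/
def S_ChC : Prop := IsOpen OO ∧ Dense OO ∧ ContDiffOn ℝ ∞ kap OO

end Pool.Agent.MP62a5ad.PN
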