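import Pool.Agent.Lib.MP_62a5ad_mp.PN.Spec

/-!
# MP_62a5ad_mp, PN: the trivial cases (`a = b`, or `a` and `b` even), in which `T_{I,I}` is the identity
-/

set_option autoImplicit false

namespace Pool.Agent.MP62a5ad.PN

open Matrix
open scoped ContDiff

/-- **Id1** (60 lines; `PN/Core.lean` may be imported, see `CoreAux.FF` and its lemmas).
PROOF. `f = id` on `U`, `π = EE` (constant; `S_Jac` with `G = 1`), `F = FF (fun z => z 3)`. -/
def S_Id1 : Prop := ∀ (a b : ℕ) (U : Set E6), IsOpen U → Dense U → (∀ y ∈ U, Maps a b y y) →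
  Liouville a b 4 1

/-- **EqO** (200 lines). Allowed: `S_DC`, `S_Fam`, `S_Dt`, `S_Sm`, `S_Lin`, `S_Brg`, `S_PP`, `S_DM`,
`S_DU`, `S_Den`. The case `a = b` odd.
PROOF. LEMMA. If `v k, v (k + a), v (k + 2 a), v (k + 3 a)` are linearly independent for all `k` then
`IsImage a a v (fun k => v (k + 2 a))`: `P_k ∩ P_{k+a} = span {v (k + a), v (k + 2 a)}` (compare the
coefficients of two combinations of the four vectors), and an element `α v (k + a) + β v (k + 2 a)` of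
`P_{k+2a} = span {v (k + 2 a), v (k + 3 a), v (k + 4 a)}` has `α = 0`. `v (k + 2 a) = M^a v k`, so
`PEq M (fun k => v (k + 2 a)) M v` with `g = M^(-a)`: `Maps a a y y`.
GENERICITY. `t = Mz a`, `Y = Mz ((a - 1)/2)`, `ρ = rho Y = M^a`. `W = {z | (z ∈ DD t, det Qm ≠ 0),
hs (mq t ρ z) (z 3) 0 ≠ 0, hs … 1 ≠ 0}` is open (`S_Sm`: continuity on the open set `QD`) and dense
(`S_DM`; `DD t` is dense by `S_Den`). `U = {y ∈ U1 | Psi y ∈ W}` is open and dense (`S_DC`, `S_PP`,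
`S_DU`, `S_Sm`). Let `y ∈ U`, `z = Psi y ∈ U2 ∩ W`, `A, ι, b, τ` from `S_Brg` at `z`,
`X0 = Q σ` (`σ = (τ - s)⁻¹`), invertible as `det Q ≠ 0`, `X1 = ρ (τ - s) q = ρ X0⁻¹`. The polygon `v`
with the coordinates `y = Phi z` has `v 1 = κ Y⁻¹ X0 e0`, `κ ≠ 0`. As in `S_Geo`: `v k = N_k e0`,
`N_k ∈ A` invertible, `v (k + a) = κ X0 v k` for `k` even, `v (k + a) = κ⁻¹ X1 v k` for `k` odd,
`v (k + 2 a) = t v k`. So the four vectors are `N_k (1, κ X, t, κ t X) e0` with `X = X0` or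
`κ⁻² X1`, and it suffices that `1, X, τ, τ X` are linearly independent in `A`, which follows from
`H0(X) ≠ 0`: apply `ℓ` and `ℓ(τ ·)` to `α + β τ + (γ + δ τ) X = 0`: `γ ℓ(X) + δ ℓ(τ X) = 0`,
`γ ℓ(τ X) + δ ℓ(τ² X) = 0`, so `γ = δ = 0`, `α = β = 0`. `H0(X1) = hs … 1 ≠ 0`;
`H0(X0) = ℓ(X0) ℓ(τ (τ - s) X0) = ℓ(X0) ℓ(τ Q) = ℓ(X0) = -Q(s)/p(s) ≠ 0` (`ℓ(τ X0) = s ℓ(X0)`,
`S_Lin`, `z ∈ U2`). -/
def S_EqO : Prop := ∀ a : ℕ, Odd a → ∃ U : Set E6, IsOpen U ∧ Dense U ∧ ∀ y ∈ U, Maps a a y y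

/-- **EvE** (250 lines). Allowed: `S_An`, `S_MA`, `S_Fam`. The case `a`, `b` even.
PROOF. `a = 2 p`, `a + b = 2 r`, `0 < p < r`. `v (k + 2 j) = M^j v k`, so `v (k + a) = M^p v k`,
`v (k + a + b) = M^r v k`. For `x ∈ ℝ⁴` let `P(x) = ∑ x_i M^i` (`P(x) e0 = x`), and
`ζ(x) = det [e0, M^p e0, M^r e0, x]`, a linear form with coefficients polynomial in `y`. Let
`c(y) ∈ ℝ⁴` be the vector of the `3 × 3` minors (with signs) of the `3 × 4` matrix with the rows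
`x ↦ ζ(x)`, `x ↦ ζ(M^(r-p) x)`, `x ↦ ζ(M^r x)`; e.g. `c_i = det` of the `4 × 4` matrix with these
three rows and the row `e_i`. `U = {y | y 2 ≠ 0, det P(c(y)) ≠ 0, det P(x0 y) ≠ 0}`.
(1) Let `y ∈ U`. `c ≠ 0`, so the three rows are linearly independent and their common kernel is the
line `ℝ c`; `ζ ≠ 0`, so `e0, M^p e0, M^r e0` are independent and `ker ζ` is their span `S`. Let
`N_k` be invertible, commuting with `M`, with `v k = N_k e0` (`N_{2j} = M^j`, `N_{2j+1} = M^j P(x0 y)`).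
`P_k = N_k S` has dimension 3, `P_{k+a} = M^p N_k S`, `P_{k+a+b} = M^r N_k S`. `N_k x` (`x ∈ ℝ⁴`) is
in the intersection iff `ζ(x) = ζ(M^(-p) x) = ζ(M^(-r) x) = 0` iff `x' = M^(-r) x` satisfies
`ζ(M^r x') = ζ(M^(r-p) x') = ζ(x') = 0` iff `x' ∈ ℝ c`. So the intersection is spanned by
`w k = N_k M^r c = M^r P(c) v k` (everything commutes with `M`), and `PEq M w M v` with
`g = (M^r P(c))⁻¹`. Hence `Maps a b y y`.
(2) `U` is open and dense by `S_An`: `y 2`, `det P(x0 y)` (nonzero at `(0,0,1,0,0,0)`: `P = 1`) and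
`det P(c(y))` are polynomials. The last one is nonzero at `z = (35/100, 50/1000, 24/10000, 0, 0, 0)`,
where `M` has the eigenvalues `μ_i = (i + 1)/10`, `i < 4`, with the left eigenvectors
`r_i = (1, μ_i, μ_i², μ_i³)`, `r_i g e0 = g(μ_i)` for `g ∈ ℝ[M]`. Let `V = (μ_i^j)` (invertible).
`det V · ζ(x) = det [1, μ_i^p, μ_i^r, (V x)_i] = ∑_i C_i (V x)_i`, where `C_i` is `±` the determinant of
`(1, μ_j^p, μ_j^r)_{j ≠ i}`, not zero by the LEMMA: a function `α + β x^p + γ x^r`, `0 < p < r`,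
`(α, β, γ) ≠ 0`, has at most two zeros in `(0, ∞)` (by Rolle `β p x^(p-1) + γ r x^(r-1)`
has at most one zero there, since `x^(r-p)` is injective). Put `ω = V c`, so that `P(c)` has the
eigenvalues `ω_i` (`V P(c) = diag(ω) V`, `det P(c) = ∏ ω_i`). The equations for `c` are
`∑ C_i ω_i = ∑ C_i μ_i^(r-p) ω_i = ∑ C_i μ_i^r ω_i = 0`. If some `ω_i = 0` then the three other numbers
`C_j ω_j` are in the kernel of the `3 × 3` matrix `(1, μ_j^(r-p), μ_j^r)_j`, invertible by the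
LEMMA (for `r - p < r`), so all `C_j ω_j = 0`, `ω = 0`, `c = 0`; but `c ≠ 0` because the three rows
are linearly independent: `∑ (α + β μ_i^(r-p) + γ μ_i^r) C_i ω_i = 0` for all `ω` gives
`α + β μ_i^(r-p) + γ μ_i^r = 0` for the four `μ_i`, so `α = β = γ = 0`. -/
def S_EvE : Prop := ∀ a b : ℕ, 0 < a → 0 < b → Even a → Even b →
  ∃ U : Set E6, IsOpen U ∧ Dense U ∧ ∀ y ∈ U, Maps a b y y

end Pool.Agent.MP62a5ad.PN
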